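import Mathlib
import Pool.Agent.W_aaa0df_h65.Stepanov

/-!
# Burgess, A1: complete sums of products of shifted Jacobi symbols

Everything is stated with `jacobiSym` and sums over `Finset.range m`.
-/

set_option autoImplicit false

namespace BG

open Finset

/-- the complete sum modulo `m` of the product of the symbols of `x + b i` -/
def T (m : ℕ) {k : ℕ} (b : Fin k → ℤ) : ℤ :=
  ∑ x ∈ range m, ∏ i, jacobiSym ((x : ℤ) + b i) m

/-- Chinese remainder theorem for products of periodic functions.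

PROOF. The map `x ↦ (x mod m, x mod n)` is a bijection of `range (m n)` onto
`range m ×ˢ range n` (`Nat.chineseRemainder`, or `ZMod.chineseRemainder`); use the periodicity of `f`
and `g` to replace `f x` by `f (x % m)`, `g x` by `g (x % n)`. -/
theorem sum_crt (m n : ℕ) (hmn : Nat.Coprime m n) (hm : 0 < m) (hn : 0 < n) (f g : ℕ → ℤ)
    (hf : ∀ x, f (x + m) = f x) (hg : ∀ x, g (x + n) = g x) :
    ∑ x ∈ range (m * n), f x * g x = (∑ x ∈ range m, f x) * ∑ x ∈ range n, g x := by
  have hf' : ∀ x, f (x % m) = f x := fun x => Function.Periodic.map_mod_nat (f := f) hf x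
  have hg' : ∀ x, g (x % n) = g x := fun x => Function.Periodic.map_mod_nat (f := g) hg x
  rw [Finset.sum_mul_sum, ← Finset.sum_product' (range m) (range n) (fun x y => f x * g y)]
  refine Finset.sum_nbij' (fun x => (x % m, x % n))
    (fun p => (Nat.chineseRemainder hmn p.1 p.2 : ℕ)) ?_ ?_ ?_ ?_ ?_
  · intro x _
    rw [Finset.mem_product]
    exact ⟨Finset.mem_range.2 (Nat.mod_lt _ hm), Finset.mem_range.2 (Nat.mod_lt _ hn)⟩
  · intro p _
    exact Finset.mem_range.2 (Nat.chineseRemainder_lt_mul hmn p.1 p.2 hm.ne' hn.ne')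
  · intro x hx
    have h1 : x ≡ (Nat.chineseRemainder hmn (x % m) (x % n) : ℕ) [MOD m * n] :=
      Nat.chineseRemainder_modEq_unique hmn (Nat.mod_modEq x m).symm (Nat.mod_modEq x n).symm
    exact (h1.eq_of_lt_of_lt (Finset.mem_range.1 hx)
      (Nat.chineseRemainder_lt_mul hmn _ _ hm.ne' hn.ne')).symm
  · intro p hp
    rw [Finset.mem_product] at hp
    have h1 := (Nat.chineseRemainder hmn p.1 p.2).2
    have h2 : (Nat.chineseRemainder hmn p.1 p.2 : ℕ) % m = p.1 :=
      Eq.trans h1.1 (Nat.mod_eq_of_lt (Finset.mem_range.1 hp.1))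
    have h3 : (Nat.chineseRemainder hmn p.1 p.2 : ℕ) % n = p.2 :=
      Eq.trans h1.2 (Nat.mod_eq_of_lt (Finset.mem_range.1 hp.2))
    exact Prod.ext h2 h3
  · intro x _
    simp only [hf', hg']

theorem A1_per (m : ℕ) {k : ℕ} (b : Fin k → ℤ) (x : ℕ) :
    ∏ i, jacobiSym (((x + m : ℕ) : ℤ) + b i) m = ∏ i, jacobiSym ((x : ℤ) + b i) m := by
  refine Finset.prod_congr rfl fun i _ => ?_
  rw [jacobiSym.mod_left (((x + m : ℕ) : ℤ) + b i) m, jacobiSym.mod_left ((x : ℤ) + b i) m]
  have h1 : ((x + m : ℕ) : ℤ) + b i = ((x : ℤ) + b i) + (m : ℤ) := by push_cast; ring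
  rw [h1, Int.add_emod_right]

/-- Multiplicativity in the modulus.

PROOF. `jacobiSym a (m n) = jacobiSym a m * jacobiSym a n` (`jacobiSym.mul_right`), so the product over
`i` splits; each factor is periodic (`jacobiSym.mod_left`); apply `sum_crt`. -/
theorem T_mul (m n : ℕ) (hmn : Nat.Coprime m n) (hm : 0 < m) (hn : 0 < n) {k : ℕ}
    (b : Fin k → ℤ) : T (m * n) b = T m b * T n b := by
  have : NeZero m := ⟨hm.ne'⟩
  have : NeZero n := ⟨hn.ne'⟩
  unfold T
  rw [← sum_crt m n hmn hm hn _ _ (A1_per m b) (A1_per n b)]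
  refine Finset.sum_congr rfl fun x _ => ?_
  rw [← Finset.prod_mul_distrib]
  refine Finset.prod_congr rfl fun i _ => ?_
  rw [jacobiSym.mul_right]

theorem A1_T_one {k : ℕ} (b : Fin k → ℤ) : T 1 b = 1 := by
  unfold T
  rw [Finset.sum_range_one]
  refine Finset.prod_eq_one fun i _ => ?_
  rw [jacobiSym.one_right]

theorem A1_T_prod {k : ℕ} (b : Fin k → ℤ) (s : Finset ℕ) (hs : ∀ p ∈ s, p.Prime) :
    T (∏ p ∈ s, p) b = ∏ p ∈ s, T p b := by
  induction s using Finset.induction_on with
  | empty => rw [Finset.prod_empty, Finset.prod_empty, A1_T_one]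
  | insert a s ha ih =>
    have hs' : ∀ p ∈ s, p.Prime := fun p hp => hs p (Finset.mem_insert_of_mem hp)
    have hap : a.Prime := hs a (Finset.mem_insert_self a s)
    rw [Finset.prod_insert ha, Finset.prod_insert ha, T_mul, ih hs']
    · refine Nat.Coprime.prod_right fun p hp => ?_
      rw [Nat.coprime_primes hap (hs' p hp)]
      rintro rfl
      exact ha hp
    · exact hap.pos
    · exact Finset.prod_pos fun p hp => (hs' p hp).pos

/-- PROOF. Induction over the factorization of the squarefree `m` (`Nat.recOnPosPrimePosCoprime` or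
induction on `m.primeFactors` with `m = ∏ p ∈ m.primeFactors, p`), `T_mul`; `T 1 b = 1`. -/
theorem T_prod (m : ℕ) (hm : Squarefree m) {k : ℕ} (b : Fin k → ℤ) :
    T m b = ∏ p ∈ m.primeFactors, T p b := by
  rw [← A1_T_prod b m.primeFactors fun p hp => Nat.prime_of_mem_primeFactors hp,
    Nat.prod_primeFactors_of_squarefree hm]

/-- Trivial bound. PROOF. Each symbol has absolute value at most `1`. -/
theorem T_trivial (m : ℕ) {k : ℕ} (b : Fin k → ℤ) : |((T m b : ℤ) : ℝ)| ≤ m := by
  have h0 : |T m b| ≤ (m : ℤ) := by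
    unfold T
    refine le_trans (Finset.abs_sum_le_sum_abs _ _) ?_
    refine le_trans (Finset.sum_le_card_nsmul (range m) _ 1 fun x _ => ?_) ?_
    · rw [Finset.abs_prod]
      refine Finset.prod_le_one (fun i _ => abs_nonneg _) fun i _ => ?_
      rcases jacobiSym.trichotomy ((x : ℤ) + b i) m with h | h | h <;> rw [h] <;> decide
    · rw [Finset.card_range]
      simp
  exact_mod_cast h0

/-- Local bound from Stepanov. `β` occurs an odd number of times among the `b i`, and no other value
is congruent to `β` modulo the odd prime `p`.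

PROOF. `T p b = ∑ u : ZMod p, quadraticChar (f.eval u)` with `f = ∏ i, (X + C (b i))` in `(ZMod p)[X]`
(`jacobiSym.legendreSym.to_jacobiSym`, `legendreSym`, sum over `range p` = sum over `ZMod p`). The
root `-β` of `f` has multiplicity the number of `i` with `b i = β` (the other factors do not vanish
there), an odd number, so `f` is not `C c * h ^ 2` (where all multiplicities are even; `f ≠ 0`).
`f.natDegree = k`; `Stepanov.stepanov` gives `12 k √p`. -/
theorem T_local (p : ℕ) (hp : p.Prime) (hp2 : p ≠ 2) {k : ℕ} (b : Fin k → ℤ) (β : ℤ)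
    (hodd : Odd ((univ.filter (fun i => b i = β)).card))
    (hne : ∀ i, b i ≠ β → ¬ (p : ℤ) ∣ b i - β) :
    |((T p b : ℤ) : ℝ)| ≤ 12 * k * √(p : ℝ) := by
  classical
  have : Fact p.Prime := ⟨hp⟩
  set f : Polynomial (ZMod p) := ∏ i : Fin k, (Polynomial.X + Polynomial.C ((b i : ℤ) : ZMod p))
    with hf
  have hmonic : ∀ i ∈ (univ : Finset (Fin k)),
      (Polynomial.X + Polynomial.C ((b i : ℤ) : ZMod p)).Monic :=
    fun i _ => Polynomial.monic_X_add_C _
  have hdeg : f.natDegree = k := by
    rw [hf, Polynomial.natDegree_prod_of_monic _ _ hmonic,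
      Finset.sum_congr rfl fun i _ => Polynomial.natDegree_X_add_C _, Finset.sum_const,
      Finset.card_univ, Fintype.card_fin, smul_eq_mul, mul_one]
  have hf0 : f ≠ 0 := (Polynomial.monic_prod_of_monic _ _ hmonic).ne_zero
  have hT : T p b = ∑ x : ZMod p, quadraticChar (ZMod p) (f.eval x) := by
    unfold T
    refine Finset.sum_nbij' (fun n => (n : ZMod p)) (fun x => x.val) ?_ ?_ ?_ ?_ ?_
    · intro n _; exact Finset.mem_univ _
    · intro x _; exact Finset.mem_range.2 (ZMod.val_lt x)
    · intro n hn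
      exact ZMod.val_cast_of_lt (Finset.mem_range.1 hn)
    · intro x _
      exact ZMod.natCast_zmod_val x
    · intro n _
      rw [hf, Polynomial.eval_prod, map_prod]
      refine Finset.prod_congr rfl fun i _ => ?_
      rw [← jacobiSym.legendreSym.to_jacobiSym, legendreSym]
      congr 1
      simp
  -- the odd multiplicity
  have hmult : f.rootMultiplicity (-((β : ℤ) : ZMod p)) =
      (univ.filter (fun i => b i = β)).card := by
    have hsplit : f = (Polynomial.X - Polynomial.C (-((β : ℤ) : ZMod p))) ^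
        (univ.filter (fun i => b i = β)).card *
        ∏ i ∈ univ.filter (fun i => ¬ b i = β),
          (Polynomial.X + Polynomial.C ((b i : ℤ) : ZMod p)) := by
      rw [hf, ← Finset.prod_filter_mul_prod_filter_not univ (fun i => b i = β)]
      congr 1
      refine Finset.prod_eq_pow_card fun i hi => ?_
      rw [(Finset.mem_filter.1 hi).2, map_neg, sub_neg_eq_add]
    have hne0 : (Polynomial.X - Polynomial.C (-((β : ℤ) : ZMod p))) ^
        (univ.filter (fun i => b i = β)).card *
        ∏ i ∈ univ.filter (fun i => ¬ b i = β),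
          (Polynomial.X + Polynomial.C ((b i : ℤ) : ZMod p)) ≠ 0 := by
      rw [← hsplit]; exact hf0
    rw [hsplit, Polynomial.rootMultiplicity_mul hne0, Polynomial.rootMultiplicity_X_sub_C_pow]
    have h2 : (∏ i ∈ univ.filter (fun i => ¬ b i = β),
        (Polynomial.X + Polynomial.C ((b i : ℤ) : ZMod p))).rootMultiplicity
          (-((β : ℤ) : ZMod p)) = 0 := by
      refine Polynomial.rootMultiplicity_eq_zero ?_
      rw [Polynomial.IsRoot.def, Polynomial.eval_prod, Finset.prod_eq_zero_iff]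
      rintro ⟨i, hi, hi0⟩
      have h3 : b i ≠ β := (Finset.mem_filter.1 hi).2
      rw [Polynomial.eval_add, Polynomial.eval_X, Polynomial.eval_C] at hi0
      refine hne i h3 ?_
      rw [← ZMod.intCast_zmod_eq_zero_iff_dvd, Int.cast_sub]
      rw [← hi0]
      ring
    rw [h2, add_zero]
  have hsq : ∀ (c : ZMod p) (h : Polynomial (ZMod p)), f ≠ Polynomial.C c * h ^ 2 := by
    intro c h hfc
    have hne0 : Polynomial.C c * h ^ 2 ≠ 0 := by rw [← hfc]; exact hf0
    have h1 : h ^ 2 ≠ 0 := right_ne_zero_of_mul hne0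
    have h3 : f.rootMultiplicity (-((β : ℤ) : ZMod p)) =
        2 * h.rootMultiplicity (-((β : ℤ) : ZMod p)) := by
      rw [hfc, Polynomial.rootMultiplicity_mul hne0, Polynomial.rootMultiplicity_C, zero_add,
        pow_two, Polynomial.rootMultiplicity_mul (by rw [← pow_two]; exact h1), two_mul]
    rw [← hmult, h3] at hodd
    exact (Nat.not_odd_iff_even.2 (even_two_mul _)) hodd
  have key := Stepanov.stepanov hp2 f hsq
  rw [← hT, hdeg] at key
  exact key

/-- Bound for a tuple in which `β` occurs an odd number of times: the degenerate primes cost a factor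
`√p ≤ ∏ √gcd`.

PROOF. `T_prod`. For `p ∣ m` with `p ∤ b i - β` for all `i` with `b i ≠ β` use `T_local`:
`12 k √p ≤ (12 k) √p`; for the other `p` the trivial bound `p = √p √p ≤ (12 k) √p √p` (`k ≥ 1` as `β`
occurs, so `12 k ≥ 1`). So `|T m b| ≤ (12 k)^ω(m) √m ∏_{p bad} √p`, and
`∏_{p bad} p ∣ ∏_{i : b i ≠ β} gcd(m, b i - β)` (each bad `p` divides `m` and some `b i - β`; distinct
primes; so the product of the bad primes divides the product of the gcds, which is positive). -/
theorem T_global (m : ℕ) (hm : Squarefree m) (hodd : Odd m) {k : ℕ} (b : Fin k → ℤ) (β : ℤ)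
    (hβ : Odd ((univ.filter (fun i => b i = β)).card)) :
    |((T m b : ℤ) : ℝ)| ≤ (12 * k : ℝ) ^ m.primeFactors.card * √(m : ℝ) *
      ∏ i ∈ univ.filter (fun i => b i ≠ β), √((Int.gcd m (b i - β) : ℕ) : ℝ) := by
  classical
  have hm0 : m ≠ 0 := hm.ne_zero
  have hk : 1 ≤ k := by
    obtain ⟨i, _⟩ := Finset.card_pos.1 hβ.pos
    have := i.2
    omega
  have hk' : (1 : ℝ) ≤ 12 * k := by
    have : (1 : ℝ) ≤ k := by exact_mod_cast hk
    linarith
  set bad : ℕ → Prop := fun p => ∃ i, b i ≠ β ∧ (p : ℤ) ∣ b i - β with hbad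
  have hlocal : ∀ p ∈ m.primeFactors, |((T p b : ℤ) : ℝ)| ≤
      (12 * k : ℝ) * √(p : ℝ) * (if bad p then √(p : ℝ) else 1) := by
    intro p hp
    have hpp : p.Prime := Nat.prime_of_mem_primeFactors hp
    have hp2 : p ≠ 2 := by
      rintro rfl
      exact (Nat.not_even_iff_odd.2 hodd) (even_iff_two_dvd.2 (Nat.dvd_of_mem_primeFactors hp))
    by_cases h : bad p
    · rw [if_pos h, mul_assoc, Real.mul_self_sqrt (Nat.cast_nonneg p)]
      refine le_trans (T_trivial p b) ?_
      exact le_mul_of_one_le_left (Nat.cast_nonneg p) hk'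
    · rw [if_neg h, mul_one]
      refine T_local p hpp hp2 b β hβ fun i hi hd => h ⟨i, hi, hd⟩
  rw [T_prod m hm b, Int.cast_prod, Finset.abs_prod]
  refine le_trans (Finset.prod_le_prod (fun p _ => abs_nonneg _) hlocal) ?_
  rw [Finset.prod_mul_distrib, Finset.prod_mul_distrib, Finset.prod_const]
  have hsqrt : ∀ s : Finset ℕ, ∏ p ∈ s, √(p : ℝ) = √((∏ p ∈ s, p : ℕ) : ℝ) := by
    intro s
    rw [Nat.cast_prod, Real.sqrt_prod]
    intro i _
    exact Nat.cast_nonneg i
  have h1 : ∏ p ∈ m.primeFactors, √(p : ℝ) = √(m : ℝ) := by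
    rw [hsqrt, Nat.prod_primeFactors_of_squarefree hm]
  rw [h1]
  refine mul_le_mul_of_nonneg_left ?_ (by positivity)
  rw [Finset.prod_ite, Finset.prod_const_one, mul_one, hsqrt]
  have h2 : ∏ i ∈ univ.filter (fun i => b i ≠ β), √((Int.gcd m (b i - β) : ℕ) : ℝ) =
      √((∏ i ∈ univ.filter (fun i => b i ≠ β), Int.gcd m (b i - β) : ℕ) : ℝ) := by
    rw [Nat.cast_prod, Real.sqrt_prod]
    intro i _
    exact Nat.cast_nonneg _
  rw [h2]
  refine Real.sqrt_le_sqrt ?_
  have hpos : 0 < ∏ i ∈ univ.filter (fun i => b i ≠ β), Int.gcd m (b i - β) :=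
    Finset.prod_pos fun i _ => Int.gcd_pos_of_ne_zero_left _ (by exact_mod_cast hm0)
  have hdvd : ∏ p ∈ m.primeFactors.filter (fun p => bad p), p ∣
      ∏ i ∈ univ.filter (fun i => b i ≠ β), Int.gcd m (b i - β) := by
    refine Finset.prod_primes_dvd _ (fun p hp => ?_) fun p hp => ?_
    · exact (Nat.prime_of_mem_primeFactors (Finset.mem_filter.1 hp).1).prime
    · obtain ⟨hpm, i, hi, hd⟩ := Finset.mem_filter.1 hp
      have h3 : p ∣ Int.gcd m (b i - β) := by
        have h4 : (p : ℤ) ∣ (Int.gcd m (b i - β) : ℤ) :=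
          Int.dvd_coe_gcd (by exact_mod_cast Nat.dvd_of_mem_primeFactors hpm) hd
        exact_mod_cast h4
      exact dvd_trans h3 (Finset.dvd_prod_of_mem _ (Finset.mem_filter.2 ⟨Finset.mem_univ i, hi⟩))
  exact_mod_cast Nat.le_of_dvd hpos hdvd

end BG
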