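import Pool.Agent.W_aaa0df_bg.A1
import Pool.Agent.W_fd120a_h34.Div

/-!
# Burgess, A2: the 2r-th moment of short sums of Jacobi symbols
-/

set_option autoImplicit false

namespace BG

open Finset

/-- The number of `b ∈ [1, B]`, `b ≠ β`, with `g ∣ b - β`. -/
theorem A2_count (g B β : ℕ) (hβ : β ∈ Icc 1 B) :
    (((Icc 1 B).filter (fun b => b ≠ β)).filter (fun b : ℕ => (g : ℤ) ∣ (b : ℤ) - β)).card * g ≤
      2 * B := by
  rw [mem_Icc] at hβ
  set S := ((Icc 1 B).filter (fun b => b ≠ β)).filter (fun b : ℕ => (g : ℤ) ∣ (b : ℤ) - β) with hS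
  have hsub : S ⊆ ((Icc 1 B).filter (fun b => β < b ∧ (g : ℤ) ∣ (b : ℤ) - β)) ∪
      ((Icc 1 B).filter (fun b => b < β ∧ (g : ℤ) ∣ (b : ℤ) - β)) := by
    intro b hb
    simp only [hS, mem_filter, mem_union] at hb ⊢
    rcases lt_or_gt_of_ne hb.1.2 with h | h
    · exact Or.inr ⟨hb.1.1, h, hb.2⟩
    · exact Or.inl ⟨hb.1.1, h, hb.2⟩
  have h1 : ((Icc 1 B).filter (fun b => β < b ∧ (g : ℤ) ∣ (b : ℤ) - β)).card ≤ B / g := by
    rw [← Nat.Ioc_filter_dvd_card_eq_div]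
    refine card_le_card_of_injOn (fun b => b - β) ?_ ?_
    · intro b hb
      simp only [coe_filter, Set.mem_ofPred_eq, mem_Icc] at hb
      simp only [coe_filter, Set.mem_ofPred_eq, mem_Ioc]
      refine ⟨⟨by omega, by omega⟩, ?_⟩
      have h2 : ((b - β : ℕ) : ℤ) = (b : ℤ) - β := by
        push_cast [hb.2.1.le]
        ring
      rw [← Int.natCast_dvd_natCast, h2]
      exact hb.2.2
    · intro b hb b' hb' hbb
      simp only [coe_filter, Set.mem_ofPred_eq, mem_Icc] at hb hb'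
      simp only at hbb
      omega
  have h2 : ((Icc 1 B).filter (fun b => b < β ∧ (g : ℤ) ∣ (b : ℤ) - β)).card ≤ B / g := by
    rw [← Nat.Ioc_filter_dvd_card_eq_div]
    refine card_le_card_of_injOn (fun b => β - b) ?_ ?_
    · intro b hb
      simp only [coe_filter, Set.mem_ofPred_eq, mem_Icc] at hb
      simp only [coe_filter, Set.mem_ofPred_eq, mem_Ioc]
      refine ⟨⟨by omega, by omega⟩, ?_⟩
      have h2 : ((β - b : ℕ) : ℤ) = -((b : ℤ) - β) := by
        push_cast [hb.2.1.le]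
        ring
      rw [← Int.natCast_dvd_natCast, h2]
      exact (dvd_neg).2 hb.2.2
    · intro b hb b' hb' hbb
      simp only [coe_filter, Set.mem_ofPred_eq, mem_Icc] at hb hb'
      simp only at hbb
      omega
  have h3 : S.card ≤ B / g + B / g :=
    (card_le_card hsub).trans ((card_union_le _ _).trans (Nat.add_le_add h1 h2))
  calc S.card * g ≤ (B / g + B / g) * g := Nat.mul_le_mul_right _ h3
    _ = 2 * (B / g * g) := by ring
    _ ≤ 2 * B := Nat.mul_le_mul_left _ (Nat.div_mul_le_self B g)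

/-- PROOF. For `h = |b - β|`, `1 ≤ h < B`, each value of `h` occurs at most twice; the sum over `h`:
`√gcd(m, h) ≤ ∑_{g ∣ m, g ∣ h} √g`, exchange: `∑_{g ∣ m, g < B} √g (B/g) ≤ B ∑_{g ∣ m} 1/√g ≤ B τ(m)`. -/
theorem sum_gcd (m B : ℕ) (hm : 0 < m) (β : ℕ) (hβ : β ∈ Icc 1 B) :
    ∑ b ∈ (Icc 1 B).filter (fun b => b ≠ β), √((Int.gcd m ((b : ℤ) - β) : ℕ) : ℝ) ≤
      2 * B * m.divisors.card := by
  have h1 : ∀ b : ℕ, √((Int.gcd m ((b : ℤ) - β) : ℕ) : ℝ) ≤
      ((∑ g ∈ m.divisors, if (g : ℤ) ∣ (b : ℤ) - β then g else 0 : ℕ) : ℝ) := by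
    intro b
    set d : ℕ := Int.gcd m ((b : ℤ) - β) with hd
    have hdm : d ∣ m := by
      have h0 : ((Int.gcd m ((b : ℤ) - β) : ℕ) : ℤ) ∣ (m : ℤ) := Int.gcd_dvd_left _ _
      exact Int.natCast_dvd_natCast.1 h0
    have hdb : (d : ℤ) ∣ (b : ℤ) - β := Int.gcd_dvd_right _ _
    have hd1 : 1 ≤ d := Nat.pos_of_dvd_of_pos hdm hm
    have h2 : √(d : ℝ) ≤ d := by
      rw [Real.sqrt_le_left (by positivity)]
      have : (1 : ℝ) ≤ d := by exact_mod_cast hd1
      nlinarith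
    have h3 : d ≤ ∑ g ∈ m.divisors, if (g : ℤ) ∣ (b : ℤ) - β then g else 0 := by
      have h4 := single_le_sum (f := fun g : ℕ => if (g : ℤ) ∣ (b : ℤ) - β then g else 0)
        (s := m.divisors) (fun _ _ => Nat.zero_le _) (Nat.mem_divisors.2 ⟨hdm, hm.ne'⟩)
      simpa only [if_pos hdb] using h4
    exact h2.trans (by exact_mod_cast h3)
  refine (sum_le_sum fun b _ => h1 b).trans ?_
  rw [← Nat.cast_sum, sum_comm]
  have h5 : ∑ g ∈ m.divisors, ∑ b ∈ (Icc 1 B).filter (fun b => b ≠ β),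
      (if (g : ℤ) ∣ (b : ℤ) - β then g else 0) ≤ ∑ _g ∈ m.divisors, 2 * B := by
    refine sum_le_sum fun g _ => ?_
    rw [← sum_filter, sum_const, smul_eq_mul]
    exact A2_count g B β hβ
  rw [sum_const, smul_eq_mul] at h5
  calc ((∑ g ∈ m.divisors, ∑ b ∈ (Icc 1 B).filter (fun b => b ≠ β),
      (if (g : ℤ) ∣ (b : ℤ) - β then g else 0) : ℕ) : ℝ) ≤ ((m.divisors.card * (2 * B) : ℕ) : ℝ) := by
        exact_mod_cast h5
    _ = 2 * B * m.divisors.card := by
        push_cast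
        ring

/-- Number of tuples with all multiplicities even (same as `T9.even_tuples`, proved again here in the
form needed): at most `|S|^r r^(2r)`.

PROOF. If `r = 0` there is one tuple. If `r ≥ 1`, such a tuple takes at most `r` values, so it factors
as `s ∘ g` with `s : Fin r → S`, `g : Fin (2r) → Fin r`. -/
theorem even_tuples {α : Type*} [DecidableEq α] (S : Finset α) (r : ℕ) :
    ((Fintype.piFinset (fun _ : Fin (2 * r) => S)).filter
      (fun t => ∀ b ∈ S, Even ((univ.filter (fun i => t i = b)).card))).card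
      ≤ S.card ^ r * r ^ (2 * r) := by
  rcases Nat.eq_zero_or_pos r with hr | hr
  · subst hr
    refine (card_filter_le _ _).trans ?_
    simp
  classical
  have hsub : ((Fintype.piFinset (fun _ : Fin (2 * r) => S)).filter
      (fun t => ∀ b ∈ S, Even ((univ.filter (fun i => t i = b)).card))) ⊆
      ((Fintype.piFinset (fun _ : Fin r => S)) ×ˢ (univ : Finset (Fin (2 * r) → Fin r))).image
        (fun w => w.1 ∘ w.2) := by
    intro t ht
    rw [mem_filter, Fintype.mem_piFinset] at ht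
    obtain ⟨htS, htE⟩ := ht
    set V : Finset α := univ.image t with hV
    have hVr : 2 * V.card ≤ 2 * r := by
      have h1 : ∑ b ∈ V, (univ.filter (fun i => t i = b)).card = 2 * r := by
        have h2 := card_eq_sum_card_image t (univ : Finset (Fin (2 * r)))
        rw [card_univ, Fintype.card_fin] at h2
        exact h2.symm
      have h3 : ∑ _b ∈ V, 2 ≤ ∑ b ∈ V, (univ.filter (fun i => t i = b)).card := by
        refine sum_le_sum fun b hb => ?_
        obtain ⟨i, -, hi⟩ := mem_image.1 hb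
        have h4 : 0 < (univ.filter (fun i => t i = b)).card :=
          card_pos.2 ⟨i, mem_filter.2 ⟨mem_univ _, hi⟩⟩
        have h5 := htE b (hi ▸ htS i)
        rcases h5 with ⟨c, hc⟩
        omega
      rw [sum_const, smul_eq_mul, h1] at h3
      omega
    have hcard : Fintype.card V ≤ Fintype.card (Fin r) := by
      rw [Fintype.card_coe, Fintype.card_fin]
      omega
    obtain ⟨f⟩ := Function.Embedding.nonempty_of_card_le hcard
    have hmem : ∀ i, t i ∈ V := fun i => mem_image_of_mem _ (mem_univ i)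
    have : Nonempty V := ⟨⟨t ⟨0, by omega⟩, hmem _⟩⟩
    refine mem_image.2 ⟨(fun i => (Function.invFun f i : V).1, fun j => f ⟨t j, hmem j⟩), ?_, ?_⟩
    · rw [mem_product]
      refine ⟨?_, mem_univ _⟩
      rw [Fintype.mem_piFinset]
      intro i
      obtain ⟨j, -, hj⟩ := mem_image.1 (Function.invFun f i : V).2
      show (Function.invFun f i : V).1 ∈ S
      rw [← hj]
      exact htS j
    · funext j
      show (Function.invFun f (f ⟨t j, hmem j⟩) : V).1 = t j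
      rw [Function.leftInverse_invFun f.injective]
  refine (card_le_card hsub).trans (card_image_le.trans ?_)
  rw [card_product, Fintype.card_piFinset_const, card_univ, Fintype.card_fun, Fintype.card_fin,
    Fintype.card_fin]

theorem A2_bern (x : ℝ) (hx : 0 ≤ x) (n : ℕ) : (1 + x) ^ n - x ^ n ≤ n * (1 + x) ^ (n - 1) := by
  induction n with
  | zero => simp
  | succ n ih =>
    rw [Nat.add_sub_cancel]
    have h1 : (1 + x) ^ (n + 1) - x ^ (n + 1) = (1 + x) * ((1 + x) ^ n - x ^ n) + x ^ n := by ring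
    have h2 : (1 + x) * ((1 + x) ^ n - x ^ n) ≤ (1 + x) * (n * (1 + x) ^ (n - 1)) :=
      mul_le_mul_of_nonneg_left ih (by linarith)
    have h3 : x ^ n ≤ (1 + x) ^ n := pow_le_pow_left₀ hx (by linarith) n
    have h4 : (1 + x) * (n * (1 + x) ^ (n - 1)) ≤ n * (1 + x) ^ n := by
      rcases Nat.eq_zero_or_pos n with h | h
      · subst h
        simp
      · have : (1 + x) ^ n = (1 + x) * (1 + x) ^ (n - 1) := by
          rw [← pow_succ', Nat.sub_add_cancel h]
        rw [this]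
        apply le_of_eq
        ring
    rw [h1]
    push_cast
    linarith

theorem A2_n3 (n : ℕ) : (n : ℝ) * 3 ^ (n - 1) ≤ 4 ^ n := by
  induction n with
  | zero => simp
  | succ n ih =>
    rw [Nat.add_sub_cancel]
    have h3 : (3 : ℝ) ^ n ≤ 4 ^ n := pow_le_pow_left₀ (by norm_num) (by norm_num) n
    have h4 : (n : ℝ) * 3 ^ n ≤ 3 * 4 ^ n := by
      rcases Nat.eq_zero_or_pos n with h | h
      · subst h
        simp
      · have : (3 : ℝ) ^ n = 3 * 3 ^ (n - 1) := by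
          rw [← pow_succ', Nat.sub_add_cancel h]
        rw [this]
        linarith
    push_cast
    rw [pow_succ]
    linarith

/-- For fixed `β`: the sum over the tuples in which `β` occurs. -/
theorem A2_fixed (S : Finset ℕ) (β : ℕ) (hβ : β ∈ S) (n : ℕ) (w : ℕ → ℝ) (hw : ∀ b, 0 ≤ w b)
    (hwβ : w β = 1) :
    ∑ t ∈ (Fintype.piFinset (fun _ : Fin n => S)).filter (fun t => ∃ i, t i = β), ∏ i, w (t i) ≤
      n * (1 + ∑ b ∈ S.filter (fun b => b ≠ β), w b) ^ (n - 1) := by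
  classical
  set x : ℝ := ∑ b ∈ S.filter (fun b => b ≠ β), w b with hx
  have hx0 : 0 ≤ x := sum_nonneg fun b _ => hw b
  have hS : ∑ b ∈ S, w b = 1 + x := by
    rw [← sum_filter_add_sum_filter_not S (fun b => b ≠ β), add_comm, hx]
    congr 1
    rw [filter_congr (q := fun b => b = β) (fun b _ => by simp), filter_eq', if_pos hβ,
      sum_singleton, hwβ]
  have h1 : ∑ t ∈ Fintype.piFinset (fun _ : Fin n => S), ∏ i, w (t i) = (1 + x) ^ n := by
    rw [← hS, ← prod_univ_sum (fun _ : Fin n => S) (fun _ b => w b), prod_const, card_univ,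
      Fintype.card_fin]
  have h2 : ∑ t ∈ Fintype.piFinset (fun _ : Fin n => S.filter (fun b => b ≠ β)), ∏ i, w (t i)
      = x ^ n := by
    rw [hx, ← prod_univ_sum (fun _ : Fin n => S.filter (fun b => b ≠ β)) (fun _ b => w b),
      prod_const, card_univ, Fintype.card_fin]
  have h3 : (Fintype.piFinset (fun _ : Fin n => S)).filter (fun t => ¬ ∃ i, t i = β) =
      Fintype.piFinset (fun _ : Fin n => S.filter (fun b => b ≠ β)) := by
    ext t
    simp only [mem_filter, Fintype.mem_piFinset, not_exists]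
    exact ⟨fun h i => ⟨h.1 i, h.2 i⟩, fun h => ⟨fun i => (h i).1, fun i => (h i).2⟩⟩
  have h4 := sum_filter_add_sum_filter_not (Fintype.piFinset (fun _ : Fin n => S))
    (fun t => ∃ i, t i = β) (fun t => ∏ i, w (t i))
  rw [h3, h1, h2] at h4
  have h5 := A2_bern x hx0 n
  linarith

/-- Contribution of the tuples with a value of odd multiplicity.

PROOF. For each such tuple `t` choose the value `β ∈ [1, B]` of odd multiplicity, and the set
`J = {i | t i ≠ β}`, a proper subset of `Fin (2r)`; bound by `T_global` with `k = 2r`: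
`(24 r)^ω √m ∏_{i ∈ J} √gcd(m, t i - β)`. For fixed `β, J` the sum over the tuples is at most
`∏_{i ∈ J} (∑_{b ≠ β} √gcd(m, b - β)) ≤ (2 B τ(m))^|J|` (`prod_univ_sum`, `sum_gcd`), with
`|J| ≤ 2r - 1`, `2 B τ(m) ≥ 1`. Sum over the `B` values of `β` and at most `2^(2r)` sets `J`:
`B 2^(2r) (2 B τ)^(2r-1) ≤ (4 B τ)^(2r)`. -/
theorem odd_tuples (m : ℕ) (hm : Squarefree m) (hodd : Odd m) (B r : ℕ) (hB : 1 ≤ B) :
    ∑ t ∈ (Fintype.piFinset (fun _ : Fin (2 * r) => Icc 1 B)).filter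
        (fun t : Fin (2 * r) → ℕ => ∃ b ∈ Icc 1 B,
          Odd ((univ.filter (fun i : Fin (2 * r) => t i = b)).card)),
      |((T m (fun i => (t i : ℤ)) : ℤ) : ℝ)| ≤
      (24 * r : ℝ) ^ m.primeFactors.card * √(m : ℝ) * (4 * B * m.divisors.card) ^ (2 * r) := by
  classical
  have hm0 : 0 < m := hodd.pos
  set τ : ℝ := (m.divisors.card : ℝ) with hτ
  have hτ1 : 1 ≤ τ := by
    rw [hτ]
    exact_mod_cast card_pos.2 ⟨1, Nat.one_mem_divisors.2 hm0.ne'⟩
  have hB1 : (1 : ℝ) ≤ B := by exact_mod_cast hB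
  set G : ℝ := (24 * r : ℝ) ^ m.primeFactors.card * √(m : ℝ) with hG
  have hG0 : 0 ≤ G := by positivity
  set w : ℕ → ℕ → ℝ := fun β b => if b = β then 1 else √((Int.gcd m ((b : ℤ) - β) : ℕ) : ℝ) with hw
  have hw0 : ∀ β b, 0 ≤ w β b := by
    intro β b
    simp only [hw]
    split_ifs
    · norm_num
    · positivity
  set P := Fintype.piFinset (fun _ : Fin (2 * r) => Icc 1 B) with hP
  -- the bound for one tuple
  have hone : ∀ t ∈ P.filter (fun t : Fin (2 * r) → ℕ => ∃ b ∈ Icc 1 B,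
      Odd ((univ.filter (fun i : Fin (2 * r) => t i = b)).card)),
      |((T m (fun i => (t i : ℤ)) : ℤ) : ℝ)| ≤
        ∑ β ∈ Icc 1 B, if ∃ i, t i = β then G * ∏ i, w β (t i) else 0 := by
    intro t ht
    rw [mem_filter] at ht
    obtain ⟨β, hβ, hβo⟩ := ht.2
    have h1 : Odd ((univ.filter (fun i : Fin (2 * r) => (t i : ℤ) = (β : ℤ))).card) := by
      have h2 : (univ.filter (fun i : Fin (2 * r) => (t i : ℤ) = (β : ℤ))) =
          univ.filter (fun i : Fin (2 * r) => t i = β) :=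
        filter_congr fun i _ => by rw [Nat.cast_inj]
      rw [h2]
      exact hβo
    have h3 := T_global m hm hodd (fun i => (t i : ℤ)) (β : ℤ) h1
    have hex : ∃ i, t i = β := by
      obtain ⟨i, hi⟩ := card_pos.1 hβo.pos
      exact ⟨i, (mem_filter.1 hi).2⟩
    have h4 : ∏ i ∈ univ.filter (fun i : Fin (2 * r) => (t i : ℤ) ≠ (β : ℤ)),
        √((Int.gcd m ((t i : ℤ) - β) : ℕ) : ℝ) = ∏ i, w β (t i) := by
      rw [prod_filter]
      refine prod_congr rfl fun i _ => ?_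
      simp only [hw]
      by_cases h : t i = β
      · rw [if_pos h, if_neg (by rw [h]; simp)]
      · rw [if_neg h, if_pos (fun h' => h (Nat.cast_inj.1 h'))]
    have h5 : ((12 : ℝ) * ((2 * r : ℕ) : ℝ)) ^ m.primeFactors.card * √(m : ℝ) = G := by
      rw [hG]
      congr 2
      push_cast
      ring
    rw [h4, h5] at h3
    refine h3.trans ?_
    have h6 := single_le_sum (f := fun β => if ∃ i, t i = β then G * ∏ i, w β (t i) else 0)
      (s := Icc 1 B) (fun β' _ => by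
        split_ifs
        · exact mul_nonneg hG0 (prod_nonneg fun i _ => hw0 _ _)
        · exact le_rfl) hβ
    simpa only [if_pos hex] using h6
  refine (sum_le_sum hone).trans ?_
  refine (sum_le_sum_of_subset_of_nonneg (filter_subset _ P) (fun t _ _ =>
    sum_nonneg fun β _ => by
      split_ifs
      · exact mul_nonneg hG0 (prod_nonneg fun i _ => hw0 _ _)
      · exact le_rfl)).trans ?_
  rw [sum_comm]
  have hβsum : ∀ β ∈ Icc 1 B, ∑ t ∈ P, (if ∃ i, t i = β then G * ∏ i, w β (t i) else 0) ≤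
      G * ((2 * r : ℕ) * (3 * B * τ) ^ (2 * r - 1)) := by
    intro β hβ
    rw [← sum_filter, ← mul_sum]
    refine mul_le_mul_of_nonneg_left ?_ hG0
    refine (A2_fixed (Icc 1 B) β hβ (2 * r) (w β) (hw0 β) (by simp [hw])).trans ?_
    refine mul_le_mul_of_nonneg_left ?_ (by positivity)
    refine pow_le_pow_left₀ ?_ ?_ _
    · exact add_nonneg zero_le_one (sum_nonneg fun b _ => hw0 _ _)
    · have h1 : ∑ b ∈ (Icc 1 B).filter (fun b => b ≠ β), w β b ≤ 2 * B * τ := by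
        refine le_trans (le_of_eq ?_) (sum_gcd m B hm0 β hβ)
        refine sum_congr rfl fun b hb => ?_
        simp only [hw]
        rw [if_neg (mem_filter.1 hb).2]
      nlinarith
  refine (sum_le_sum hβsum).trans ?_
  rw [sum_const, Nat.card_Icc, Nat.add_sub_cancel, nsmul_eq_mul]
  have hfin : (B : ℝ) * ((2 * r : ℕ) * (3 * B * τ) ^ (2 * r - 1)) ≤ (4 * B * τ) ^ (2 * r) := by
    rcases Nat.eq_zero_or_pos (2 * r) with h | h
    · rw [h]
      simp
    · have h1 : (4 * (B : ℝ) * τ) ^ (2 * r) = 4 ^ (2 * r) * (B * τ) ^ (2 * r) := by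
        rw [mul_assoc, mul_pow]
      have h2 : (3 * (B : ℝ) * τ) ^ (2 * r - 1) = 3 ^ (2 * r - 1) * (B * τ) ^ (2 * r - 1) := by
        rw [mul_assoc, mul_pow]
      have h3 : ((B : ℝ) * τ) ^ (2 * r) = B * τ * (B * τ) ^ (2 * r - 1) := by
        rw [← pow_succ', Nat.sub_add_cancel h]
      rw [h1, h2, h3]
      have h4 := A2_n3 (2 * r)
      have h5 : 0 ≤ (B * τ) ^ (2 * r - 1) := by positivity
      have h6 : (B : ℝ) ≤ B * τ := by nlinarith
      calc (B : ℝ) * ((2 * r : ℕ) * (3 ^ (2 * r - 1) * (B * τ) ^ (2 * r - 1)))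
          = (((2 * r : ℕ) : ℝ) * 3 ^ (2 * r - 1)) * (B * (B * τ) ^ (2 * r - 1)) := by ring
        _ ≤ 4 ^ (2 * r) * (B * τ * (B * τ) ^ (2 * r - 1)) := by
            apply mul_le_mul h4 _ (by positivity) (by positivity)
            exact mul_le_mul_of_nonneg_right h6 h5
  calc (B : ℝ) * (G * ((2 * r : ℕ) * (3 * B * τ) ^ (2 * r - 1)))
      = G * (B * ((2 * r : ℕ) * (3 * B * τ) ^ (2 * r - 1))) := by ring
    _ ≤ G * (4 * B * τ) ^ (2 * r) := mul_le_mul_of_nonneg_left hfin hG0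

/-- THE MOMENT BOUND.

PROOF. Expand the power (`Finset.prod_univ_sum`, `Fin.prod_const`), exchange the sums, the inner sum
over `x` is `T m t`. Even tuples: trivial bound `m`, number `≤ B^r r^(2r)` (`even_tuples`). The others:
`odd_tuples`. -/
theorem moment (m : ℕ) (hm : Squarefree m) (hodd : Odd m) (B r : ℕ) (hB : 1 ≤ B) :
    ∑ x ∈ range m, ((∑ b ∈ Icc 1 B, jacobiSym ((x : ℤ) + b) m : ℤ) : ℝ) ^ (2 * r) ≤
      (B : ℝ) ^ r * (r : ℝ) ^ (2 * r) * m +
      (24 * r : ℝ) ^ m.primeFactors.card * √(m : ℝ) * (4 * B * m.divisors.card) ^ (2 * r) := by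
  classical
  set P := Fintype.piFinset (fun _ : Fin (2 * r) => Icc 1 B) with hP
  have hexp : ∀ x : ℕ, (∑ b ∈ Icc 1 B, jacobiSym ((x : ℤ) + b) m) ^ (2 * r) =
      ∑ t ∈ P, ∏ i, jacobiSym ((x : ℤ) + (t i : ℕ)) m := by
    intro x
    rw [hP, ← prod_univ_sum (fun _ : Fin (2 * r) => Icc 1 B)
      (fun _ b => jacobiSym ((x : ℤ) + (b : ℕ)) m), prod_const, card_univ, Fintype.card_fin]
  have h1 : ∑ x ∈ range m, ((∑ b ∈ Icc 1 B, jacobiSym ((x : ℤ) + b) m : ℤ) : ℝ) ^ (2 * r) =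
      ∑ t ∈ P, ((T m (fun i => (t i : ℤ)) : ℤ) : ℝ) := by
    have h2 : ∑ x ∈ range m, (∑ b ∈ Icc 1 B, jacobiSym ((x : ℤ) + b) m) ^ (2 * r) =
        ∑ t ∈ P, T m (fun i => (t i : ℤ)) := by
      unfold T
      rw [sum_comm]
      exact sum_congr rfl fun x _ => hexp x
    have h3 := congrArg (fun z : ℤ => (z : ℝ)) h2
    push_cast at h3
    push_cast
    exact h3
  rw [h1, ← sum_filter_add_sum_filter_not P (fun t : Fin (2 * r) → ℕ => ∀ b ∈ Icc 1 B,
    Even ((univ.filter (fun i : Fin (2 * r) => t i = b)).card))]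
  refine add_le_add ?_ ?_
  · have h2 : ∑ t ∈ P.filter (fun t : Fin (2 * r) → ℕ => ∀ b ∈ Icc 1 B,
        Even ((univ.filter (fun i : Fin (2 * r) => t i = b)).card)),
        ((T m (fun i => (t i : ℤ)) : ℤ) : ℝ) ≤
        ∑ _t ∈ P.filter (fun t : Fin (2 * r) → ℕ => ∀ b ∈ Icc 1 B,
        Even ((univ.filter (fun i : Fin (2 * r) => t i = b)).card)), (m : ℝ) :=
      sum_le_sum fun t _ => (le_abs_self _).trans (T_trivial m _)
    refine h2.trans ?_
    rw [sum_const, nsmul_eq_mul]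
    refine mul_le_mul_of_nonneg_right ?_ (Nat.cast_nonneg m)
    have h3 := even_tuples (Icc 1 B) r
    rw [Nat.card_Icc, Nat.add_sub_cancel] at h3
    have h4 : ((P.filter (fun t : Fin (2 * r) → ℕ => ∀ b ∈ Icc 1 B,
        Even ((univ.filter (fun i : Fin (2 * r) => t i = b)).card))).card : ℝ) ≤
        ((B ^ r * r ^ (2 * r) : ℕ) : ℝ) := by
      exact_mod_cast h3
    push_cast at h4
    exact h4
  · refine le_trans ?_ (odd_tuples m hm hodd B r hB)
    have h2 : P.filter (fun t : Fin (2 * r) → ℕ => ¬ ∀ b ∈ Icc 1 B,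
        Even ((univ.filter (fun i : Fin (2 * r) => t i = b)).card)) =
        P.filter (fun t : Fin (2 * r) → ℕ => ∃ b ∈ Icc 1 B,
          Odd ((univ.filter (fun i : Fin (2 * r) => t i = b)).card)) := by
      refine filter_congr fun t _ => ?_
      push Not
      simp only [Nat.not_even_iff_odd]
    rw [h2]
    exact sum_le_sum fun t _ => le_abs_self _

/-- The same with the factor `m^ε`: for every `r ≥ 1` and `ε > 0` there is `C` with moment
`≤ C m^ε (B^r m + B^(2r) √m)`.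

PROOF. `2^ω(m) = τ(m)` for squarefree `m` (or `≤`), `24 r ≤ 2^(5+r)`, so `(24 r)^ω ≤ τ(m)^(5+r)`, and
`τ(m) ≤ C' m^ε'` (`divisor_bound` in `W_fd120a_h34/Div.lean`) with `ε' (5 + 3r) ≤ ε`. `m ≥ 1`. -/
theorem moment_eps (r : ℕ) (hr : 1 ≤ r) (ε : ℝ) (hε : 0 < ε) : ∃ C : ℝ, 0 < C ∧
    ∀ (m : ℕ), Squarefree m → Odd m → ∀ B : ℕ, 1 ≤ B →
      ∑ x ∈ range m, ((∑ b ∈ Icc 1 B, jacobiSym ((x : ℤ) + b) m : ℤ) : ℝ) ^ (2 * r) ≤
        C * (m : ℝ) ^ ε * ((B : ℝ) ^ r * m + (B : ℝ) ^ (2 * r) * √(m : ℝ)) := by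
  set ε' : ℝ := ε / (5 + 3 * r) with hε'
  have hr0 : (0 : ℝ) < 5 + 3 * r := by positivity
  have hε'0 : 0 < ε' := div_pos hε hr0
  obtain ⟨C', hC', hdiv⟩ := FD120.divisor_bound ε' hε'0
  refine ⟨(r : ℝ) ^ (2 * r) + 16 ^ r * C' ^ (5 + 3 * r), by positivity, ?_⟩
  intro m hm hodd B hB
  refine (moment m hm hodd B r hB).trans ?_
  have hm0 : 0 < m := hodd.pos
  have hm1 : (1 : ℝ) ≤ m := by exact_mod_cast hm0
  set τ : ℝ := (m.divisors.card : ℝ) with hτ
  have hτ0 : 0 ≤ τ := by positivity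
  have hτC : τ ≤ C' * (m : ℝ) ^ ε' := hdiv m hm0
  have hmε : (1 : ℝ) ≤ (m : ℝ) ^ ε := Real.one_le_rpow hm1 hε.le
  -- `2 ^ ω ≤ τ`
  have h2ω : (2 : ℝ) ^ m.primeFactors.card ≤ τ := by
    have h1 : 2 ^ m.primeFactors.card ≤ m.divisors.card := by
      rw [Nat.card_divisors hm0.ne', ← prod_const]
      refine prod_le_prod' fun p hp => ?_
      have := (Nat.prime_of_mem_primeFactors hp).factorization_pos_of_dvd hm0.ne'
        (Nat.dvd_of_mem_primeFactors hp)
      omega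
    rw [hτ]
    exact_mod_cast h1
  have h24 : (24 * r : ℝ) ^ m.primeFactors.card ≤ τ ^ (5 + r) := by
    have h1 : (24 * r : ℝ) ≤ 2 ^ (5 + r) := by
      have h2 : (r : ℝ) ≤ 2 ^ r := by exact_mod_cast (Nat.lt_two_pow_self (n := r)).le
      rw [pow_add]
      have : (0 : ℝ) < 2 ^ r := by positivity
      nlinarith
    calc (24 * r : ℝ) ^ m.primeFactors.card ≤ ((2 : ℝ) ^ (5 + r)) ^ m.primeFactors.card :=
          pow_le_pow_left₀ (by positivity) h1 _
      _ = ((2 : ℝ) ^ m.primeFactors.card) ^ (5 + r) := by rw [← pow_mul, ← pow_mul, mul_comm]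
      _ ≤ τ ^ (5 + r) := pow_le_pow_left₀ (by positivity) h2ω _
  have hττ : τ ^ (5 + 3 * r) ≤ C' ^ (5 + 3 * r) * (m : ℝ) ^ ε := by
    have h1 : τ ^ (5 + 3 * r) ≤ (C' * (m : ℝ) ^ ε') ^ (5 + 3 * r) := pow_le_pow_left₀ hτ0 hτC _
    rw [mul_pow, ← Real.rpow_natCast ((m : ℝ) ^ ε'), ← Real.rpow_mul (by positivity)] at h1
    have h2 : ε' * ((5 + 3 * r : ℕ) : ℝ) = ε := by
      rw [hε']
      push_cast
      field_simp
    rwa [h2] at h1
  have hA : (B : ℝ) ^ r * (r : ℝ) ^ (2 * r) * m ≤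
      (r : ℝ) ^ (2 * r) * (m : ℝ) ^ ε * ((B : ℝ) ^ r * m) := by
    have h1 : (r : ℝ) ^ (2 * r) * ((B : ℝ) ^ r * m) * 1 ≤
        (r : ℝ) ^ (2 * r) * ((B : ℝ) ^ r * m) * (m : ℝ) ^ ε :=
      mul_le_mul_of_nonneg_left hmε (by positivity)
    linarith
  have hBB : (24 * r : ℝ) ^ m.primeFactors.card * √(m : ℝ) * (4 * B * τ) ^ (2 * r) ≤
      16 ^ r * C' ^ (5 + 3 * r) * (m : ℝ) ^ ε * ((B : ℝ) ^ (2 * r) * √(m : ℝ)) := by
    have h1 : (4 * (B : ℝ) * τ) ^ (2 * r) = 16 ^ r * (B : ℝ) ^ (2 * r) * τ ^ (2 * r) := by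
      rw [mul_pow, mul_pow, pow_mul (4 : ℝ) 2 r]
      norm_num
    calc (24 * r : ℝ) ^ m.primeFactors.card * √(m : ℝ) * (4 * B * τ) ^ (2 * r)
        ≤ τ ^ (5 + r) * √(m : ℝ) * (4 * B * τ) ^ (2 * r) := by
          refine mul_le_mul_of_nonneg_right ?_ (by positivity)
          exact mul_le_mul_of_nonneg_right h24 (Real.sqrt_nonneg _)
      _ = 16 ^ r * τ ^ (5 + 3 * r) * ((B : ℝ) ^ (2 * r) * √(m : ℝ)) := by
          rw [h1]
          have h2 : τ ^ (5 + 3 * r) = τ ^ (5 + r) * τ ^ (2 * r) := by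
            rw [← pow_add]
            congr 1
            ring
          rw [h2]
          ring
      _ ≤ 16 ^ r * (C' ^ (5 + 3 * r) * (m : ℝ) ^ ε) * ((B : ℝ) ^ (2 * r) * √(m : ℝ)) := by
          refine mul_le_mul_of_nonneg_right ?_ (by positivity)
          exact mul_le_mul_of_nonneg_left hττ (by positivity)
      _ = _ := by ring
  have hC1 : 0 ≤ (r : ℝ) ^ (2 * r) * (m : ℝ) ^ ε * ((B : ℝ) ^ (2 * r) * √(m : ℝ)) := by positivity
  have hC2 : 0 ≤ 16 ^ r * C' ^ (5 + 3 * r) * (m : ℝ) ^ ε * ((B : ℝ) ^ r * m) := by positivity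
  calc (B : ℝ) ^ r * (r : ℝ) ^ (2 * r) * m +
      (24 * r : ℝ) ^ m.primeFactors.card * √(m : ℝ) * (4 * B * τ) ^ (2 * r)
      ≤ (r : ℝ) ^ (2 * r) * (m : ℝ) ^ ε * ((B : ℝ) ^ r * m) +
        16 ^ r * C' ^ (5 + 3 * r) * (m : ℝ) ^ ε * ((B : ℝ) ^ (2 * r) * √(m : ℝ)) :=
        add_le_add hA hBB
    _ ≤ ((r : ℝ) ^ (2 * r) * (m : ℝ) ^ ε * ((B : ℝ) ^ r * m) +
        16 ^ r * C' ^ (5 + 3 * r) * (m : ℝ) ^ ε * ((B : ℝ) ^ (2 * r) * √(m : ℝ))) +
        ((r : ℝ) ^ (2 * r) * (m : ℝ) ^ ε * ((B : ℝ) ^ (2 * r) * √(m : ℝ)) +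
        16 ^ r * C' ^ (5 + 3 * r) * (m : ℝ) ^ ε * ((B : ℝ) ^ r * m)) := by linarith
    _ = _ := by ring

end BG
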