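import Pool.Agent.W_aaa0df_bg.A2
import Pool.Agent.W_fd120a_h34.Blk2

/-!
# Burgess, A3: the shift argument, Hölder, and the Burgess bound for sums starting at `1`,
twisted by a weight of period `8`
-/

set_option autoImplicit false

namespace BG

open Finset

/-- number of representations `n ≡ 8 a x mod m`, `a ∈ Q`, `1 ≤ n ≤ N` -/
def nu (m N : ℕ) (Q : Finset ℕ) (x : ℕ) : ℕ :=
  ((Q ×ˢ Icc 1 N).filter (fun w => w.2 ≡ 8 * w.1 * x [MOD m])).card

/-- Shifting a sum by `h`: PROOF. the two sums differ by at most `h` terms at each end. -/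
theorem shift_one (f : ℕ → ℝ) (hf : ∀ n, |f n| ≤ 1) (N h : ℕ) :
    |(∑ n ∈ Icc 1 N, f n) - ∑ n ∈ Icc 1 N, f (n + h)| ≤ 2 * h := by
  have step : ∀ h : ℕ, (∑ n ∈ Icc 1 N, f (n + h)) - ∑ n ∈ Icc 1 N, f (n + (h + 1)) =
      f (1 + h) - f (N + 1 + h) := by
    intro h
    induction N with
    | zero => simp
    | succ N ih =>
      rw [sum_Icc_succ_top (by omega), sum_Icc_succ_top (by omega)]
      have e1 : N + 1 + (h + 1) = N + 1 + 1 + h := by ring
      rw [e1]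
      linarith
  induction h with
  | zero => simp
  | succ h ih =>
    have h1 : (∑ n ∈ Icc 1 N, f n) - ∑ n ∈ Icc 1 N, f (n + (h + 1)) =
        ((∑ n ∈ Icc 1 N, f n) - ∑ n ∈ Icc 1 N, f (n + h)) + (f (1 + h) - f (N + 1 + h)) := by
      rw [← step h]
      ring
    rw [h1]
    have h2 := abs_add_le ((∑ n ∈ Icc 1 N, f n) - ∑ n ∈ Icc 1 N, f (n + h))
      (f (1 + h) - f (N + 1 + h))
    have h3 := abs_sub (f (1 + h)) (f (N + 1 + h))
    have h4 := hf (1 + h)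
    have h5 := hf (N + 1 + h)
    push_cast
    linarith

/-- The unique `x < m` with `n ≡ 8 a x mod m`. -/
noncomputable def A3_x (m a n : ℕ) : ℕ := by
  classical
  exact if h : ∃ x, (range m).filter (fun x => n ≡ 8 * a * x [MOD m]) = {x} then h.choose else 0

theorem A3_x_spec (m : ℕ) (hm : Odd m) (a : ℕ) (ha : Nat.Coprime a m) (n : ℕ) :
    (range m).filter (fun x => n ≡ 8 * a * x [MOD m]) = {A3_x m a n} := by
  classical
  have hex : ∃ x, (range m).filter (fun x => n ≡ 8 * a * x [MOD m]) = {x} := by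
    have hm0 : 0 < m := hm.pos
    have : NeZero m := ⟨hm0.ne'⟩
    have hc : Nat.Coprime (8 * a) m := by
      refine Nat.Coprime.mul_left ?_ ha
      have h2 : Nat.Coprime 2 m := (Nat.coprime_two_left).2 hm
      have : (8 : ℕ) = 2 ^ 3 := by norm_num
      rw [this]
      exact h2.pow_left 3
    set u := ZMod.unitOfCoprime (8 * a) hc with hu
    refine ⟨(((u⁻¹ : (ZMod m)ˣ) : ZMod m) * (n : ZMod m)).val, ?_⟩
    have hsol : n ≡ 8 * a * (((u⁻¹ : (ZMod m)ˣ) : ZMod m) * (n : ZMod m)).val [MOD m] := by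
      rw [← ZMod.natCast_eq_natCast_iff, Nat.cast_mul, ZMod.natCast_val, ZMod.cast_id',
        id, ← mul_assoc]
      have h3 : (((8 * a : ℕ)) : ZMod m) = (u : ZMod m) := by
        rw [hu, ZMod.coe_unitOfCoprime]
      rw [h3, Units.mul_inv, one_mul]
    ext x
    rw [mem_filter, mem_singleton, mem_range]
    constructor
    · rintro ⟨hx, hxn⟩
      have h4 : 8 * a * x ≡ 8 * a * (((u⁻¹ : (ZMod m)ˣ) : ZMod m) * (n : ZMod m)).val [MOD m] :=
        hxn.symm.trans hsol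
      have h5 := Nat.ModEq.cancel_left_of_coprime (by rw [Nat.gcd_comm]; exact hc) h4
      exact Nat.ModEq.eq_of_lt_of_lt h5 hx (ZMod.val_lt _)
    · rintro rfl
      exact ⟨ZMod.val_lt _, hsol⟩
  unfold A3_x
  rw [dif_pos hex]
  exact hex.choose_spec

theorem A3_x_modEq (m : ℕ) (hm : Odd m) (a : ℕ) (ha : Nat.Coprime a m) (n : ℕ) :
    n ≡ 8 * a * A3_x m a n [MOD m] := by
  have h : A3_x m a n ∈ (range m).filter (fun x => n ≡ 8 * a * x [MOD m]) := by
    rw [A3_x_spec m hm a ha n]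
    exact mem_singleton_self _
  exact (mem_filter.1 h).2

theorem A3_sum {R : Type*} [CommSemiring R] (m : ℕ) (hm : Odd m) (N : ℕ) (Q : Finset ℕ)
    (hQ : ∀ a ∈ Q, Nat.Coprime a m) (F : ℕ → R) :
    ∑ x ∈ range m, (nu m N Q x : R) * F x = ∑ w ∈ Q ×ˢ Icc 1 N, F (A3_x m w.1 w.2) := by
  have h1 : ∀ x ∈ range m, (nu m N Q x : R) * F x =
      ∑ w ∈ Q ×ˢ Icc 1 N, if w.2 ≡ 8 * w.1 * x [MOD m] then F x else 0 := by
    intro x _
    unfold nu
    rw [card_filter, Nat.cast_sum, sum_mul]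
    refine sum_congr rfl fun w _ => ?_
    split_ifs <;> simp
  rw [sum_congr rfl h1, sum_comm]
  refine sum_congr rfl fun w hw => ?_
  rw [← sum_filter, A3_x_spec m hm w.1 (hQ _ (mem_product.1 hw).1) w.2, sum_singleton]

/-- THE SHIFT ARGUMENT. `Q` a finite set of positive integers `≤ A` coprime to the odd `m`.

PROOF. For `a ∈ Q`, `1 ≤ b ≤ B`, `shift_one` with `h = 8 a b ≤ 8 A B` and `w (n + 8ab) = w n`
(induction on the period): `|S| ≤ |∑_n w(n) J(n + 8ab | m)| + 16 A B`. Average over `(a, b)`; and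
`J(n + 8ab|m) = J(8a|m) J(x + b|m)` for the `x ∈ range m` with `8 a x ≡ n mod m` (exists and is unique
since `gcd(8a, m) = 1`; `jacobiSym.mul_left`, `jacobiSym.mod_left`). So
`∑_{a,b} |...| ≤ ∑_{a,n} |∑_b J(x_{a,n} + b|m)| = ∑_{x ∈ range m} ν(x) |∑_b J(x + b|m)|`
(first the sum over `b` inside: `∑_a |∑_n ∑_b| ≤ ∑_a ∑_n |∑_b|`). -/
theorem shift (m : ℕ) (hm : Odd m) (w : ℕ → ℝ) (hw : ∀ n, |w n| ≤ 1) (hw8 : ∀ n, w (n + 8) = w n)
    (N A B : ℕ) (Q : Finset ℕ) (hQ : ∀ a ∈ Q, 1 ≤ a ∧ a ≤ A ∧ Nat.Coprime a m) :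
    (Q.card : ℝ) * B * |∑ n ∈ Icc 1 N, w n * (jacobiSym n m : ℝ)| ≤
      (∑ x ∈ range m, (nu m N Q x : ℝ) * |((∑ b ∈ Icc 1 B, jacobiSym ((x : ℤ) + b) m : ℤ) : ℝ)|) +
        (Q.card : ℝ) * B * (16 * A * B) := by
  have hJ : ∀ z : ℤ, |((jacobiSym z m : ℤ) : ℝ)| ≤ 1 := by
    intro z
    rcases jacobiSym.trichotomy z m with h | h | h <;> rw [h] <;> simp
  have hper : ∀ k n : ℕ, w (n + 8 * k) = w n := by
    intro k
    induction k with
    | zero => intro n; simp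
    | succ k ih =>
      intro n
      have e1 : n + 8 * (k + 1) = n + 8 * k + 8 := by ring
      rw [e1, hw8, ih]
  set W : ℕ → ℝ := fun n => w n * (jacobiSym n m : ℝ) with hW
  have hW1 : ∀ n, |W n| ≤ 1 := by
    intro n
    simp only [hW]
    rw [abs_mul]
    exact mul_le_one₀ (hw n) (abs_nonneg _) (hJ _)
  set S : ℝ := ∑ n ∈ Icc 1 N, W n with hS
  set F : ℕ → ℝ := fun x => |((∑ b ∈ Icc 1 B, jacobiSym ((x : ℤ) + b) m : ℤ) : ℝ)| with hF
  rw [A3_sum m hm N Q (fun a ha => (hQ a ha).2.2) F, sum_product]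
  have hone : ∀ a ∈ Q, (B : ℝ) * |S| ≤ (∑ n ∈ Icc 1 N, F (A3_x m a n)) + B * (16 * A * B) := by
    intro a ha
    obtain ⟨ha1, haA, hac⟩ := hQ a ha
    have hWs : ∀ b n : ℕ, W (n + 8 * a * b) =
        w n * ((jacobiSym ((8 * a : ℕ) : ℤ) m : ℤ) : ℝ) *
          ((jacobiSym ((A3_x m a n : ℤ) + b) m : ℤ) : ℝ) := by
      intro b n
      simp only [hW]
      have e1 : n + 8 * a * b = n + 8 * (a * b) := by ring
      rw [mul_assoc (w n), ← Int.cast_mul, ← jacobiSym.mul_left]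
      have h1 : jacobiSym ((n + 8 * a * b : ℕ) : ℤ) m =
          jacobiSym (((8 * a : ℕ) : ℤ) * ((A3_x m a n : ℤ) + b)) m := by
        apply jacobiSym.mod_left'
        have h2 : n + 8 * a * b ≡ 8 * a * A3_x m a n + 8 * a * b [MOD m] :=
          Nat.ModEq.add_right _ (A3_x_modEq m hm a hac n)
        have h3 : ((8 * a : ℕ) : ℤ) * ((A3_x m a n : ℤ) + b) =
            ((8 * a * A3_x m a n + 8 * a * b : ℕ) : ℤ) := by
          push_cast
          ring
        rw [h3]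
        exact (Int.natCast_modEq_iff.2 h2)
      rw [h1]
      congr 1
      rw [e1]
      exact hper _ _
    have hD : |(B : ℝ) * S - ∑ b ∈ Icc 1 B, ∑ n ∈ Icc 1 N, W (n + 8 * a * b)| ≤
        B * (16 * A * B) := by
      have h1 : (B : ℝ) * S = ∑ _b ∈ Icc 1 B, S := by
        rw [sum_const, Nat.card_Icc, Nat.add_sub_cancel, nsmul_eq_mul]
      rw [h1, ← sum_sub_distrib]
      refine (abs_sum_le_sum_abs _ _).trans ?_
      have h2 : ∀ b ∈ Icc 1 B, |S - ∑ n ∈ Icc 1 N, W (n + 8 * a * b)| ≤ 16 * A * B := by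
        intro b hb
        rw [mem_Icc] at hb
        refine (shift_one W hW1 N (8 * a * b)).trans ?_
        push_cast
        have h3 : (a : ℝ) * b ≤ A * B := by
          have h4 : (a : ℝ) ≤ A := by exact_mod_cast haA
          have h5 : (b : ℝ) ≤ B := by exact_mod_cast hb.2
          exact mul_le_mul h4 h5 (Nat.cast_nonneg b) (Nat.cast_nonneg A)
        linarith
      refine (sum_le_sum h2).trans ?_
      rw [sum_const, Nat.card_Icc, Nat.add_sub_cancel, nsmul_eq_mul]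
    have hDa : |∑ b ∈ Icc 1 B, ∑ n ∈ Icc 1 N, W (n + 8 * a * b)| ≤
        ∑ n ∈ Icc 1 N, F (A3_x m a n) := by
      rw [sum_comm]
      refine (abs_sum_le_sum_abs _ _).trans (sum_le_sum fun n _ => ?_)
      have h1 : ∑ b ∈ Icc 1 B, W (n + 8 * a * b) = w n *
          ((jacobiSym ((8 * a : ℕ) : ℤ) m : ℤ) : ℝ) *
            ((∑ b ∈ Icc 1 B, jacobiSym ((A3_x m a n : ℤ) + b) m : ℤ) : ℝ) := by
        rw [Int.cast_sum, mul_sum]
        exact sum_congr rfl fun b _ => hWs b n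
      rw [h1, abs_mul, abs_mul]
      simp only [hF]
      have h2 : |w n| * |((jacobiSym ((8 * a : ℕ) : ℤ) m : ℤ) : ℝ)| ≤ 1 :=
        mul_le_one₀ (hw n) (abs_nonneg _) (hJ _)
      exact mul_le_of_le_one_left (abs_nonneg _) h2
    have h3 : (B : ℝ) * |S| = |(B : ℝ) * S| := by
      rw [abs_mul, Nat.abs_cast]
    rw [h3]
    have h4 := abs_sub_abs_le_abs_sub ((B : ℝ) * S)
      (∑ b ∈ Icc 1 B, ∑ n ∈ Icc 1 N, W (n + 8 * a * b))
    linarith
  have h5 := sum_le_sum hone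
  rw [sum_const, nsmul_eq_mul, sum_add_distrib, sum_const, nsmul_eq_mul] at h5
  have h6 : (Q.card : ℝ) * B * |S| = Q.card * (B * |S|) := by ring
  have h7 : (Q.card : ℝ) * B * (16 * A * B) = Q.card * (B * (16 * A * B)) := by ring
  rw [h6, h7]
  exact h5

/-- PROOF. Every pair `(a, n)` has exactly one `x ∈ range m` (`gcd(8a, m) = 1`, `m ≥ 1`). -/
theorem nu_sum (m : ℕ) (hm : Odd m) (N : ℕ) (Q : Finset ℕ) (hQ : ∀ a ∈ Q, Nat.Coprime a m) :
    ∑ x ∈ range m, nu m N Q x = Q.card * N := by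
  have h1 := A3_sum (R := ℕ) m hm N Q hQ (fun _ => 1)
  simp only [Nat.cast_id, mul_one] at h1
  rw [h1, sum_const, smul_eq_mul, mul_one, card_product, Nat.card_Icc, Nat.add_sub_cancel]

/-- The second moment of `ν`. -/
theorem A3_sq (m : ℕ) (hm : Odd m) (N : ℕ) (Q : Finset ℕ) (hQ : ∀ a ∈ Q, Nat.Coprime a m) :
    ∑ x ∈ range m, (nu m N Q x) ^ 2 = ∑ w ∈ Q ×ˢ Icc 1 N, nu m N Q (A3_x m w.1 w.2) := by
  rw [← A3_sum (R := ℕ) m hm N Q hQ (nu m N Q)]
  refine sum_congr rfl fun x _ => ?_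
  rw [Nat.cast_id, sq]

/-- Second moment of `ν` in the short range. `Q` a set of primes in `(A/2, A]`, `A N < m`.

PROOF. `∑ ν(x)²` counts the quadruples `(a₁, n₁, a₂, n₂)` with `n₁ ≡ 8 a₁ x`, `n₂ ≡ 8 a₂ x mod m` for
some `x` (unique); then `a₂ n₁ ≡ a₁ n₂ mod m`, both sides `≤ A N < m`, so `a₂ n₁ = a₁ n₂`. If
`a₁ = a₂` then `n₁ = n₂`: at most `|Q| N` quadruples. If `a₁ ≠ a₂` (primes), `a₁ ∣ n₁`, `n₁ = a₁ t`,
`n₂ = a₂ t`, `t ≤ N / a₁ ≤ 2N/A`: at most `|Q|² 2N/A ≤ 2 |Q| N` since `|Q| ≤ A`. -/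
theorem nu_sq_short (m : ℕ) (hm : Odd m) (N A : ℕ) (hA : 1 ≤ A) (hAN : A * N < m) (Q : Finset ℕ)
    (hQ : ∀ a ∈ Q, a.Prime ∧ A < 2 * a ∧ a ≤ A ∧ Nat.Coprime a m) :
    ((∑ x ∈ range m, (nu m N Q x) ^ 2 : ℕ) : ℝ) ≤ 3 * Q.card * N := by
  have hQc : ∀ a ∈ Q, Nat.Coprime a m := fun a ha => (hQ a ha).2.2.2
  set P := Q ×ˢ Icc 1 N with hP
  have h1 : ∑ x ∈ range m, (nu m N Q x) ^ 2 ≤
      ∑ w ∈ P, (P.filter (fun w' => w'.1 * w.2 = w.1 * w'.2)).card := by
    rw [A3_sq m hm N Q hQc]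
    refine sum_le_sum fun w hw => ?_
    unfold nu
    refine card_le_card ?_
    intro w' hw'
    rw [mem_filter] at hw' ⊢
    refine ⟨hw'.1, ?_⟩
    have hw1 := mem_product.1 hw
    have hw1' := mem_product.1 hw'.1
    have hn1 := mem_Icc.1 hw1.2
    have hn1' := mem_Icc.1 hw1'.2
    have e1 := A3_x_modEq m hm w.1 (hQc _ hw1.1) w.2
    have e2 : w'.1 * w.2 ≡ w.1 * w'.2 [MOD m] := by
      have e3 : w'.1 * w.2 ≡ w'.1 * (8 * w.1 * A3_x m w.1 w.2) [MOD m] := e1.mul_left _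
      have e4 : w.1 * w'.2 ≡ w.1 * (8 * w'.1 * A3_x m w.1 w.2) [MOD m] := hw'.2.mul_left _
      have e5 : w'.1 * (8 * w.1 * A3_x m w.1 w.2) = w.1 * (8 * w'.1 * A3_x m w.1 w.2) := by ring
      rw [e5] at e3
      exact e3.trans e4.symm
    refine Nat.ModEq.eq_of_lt_of_lt e2 ?_ ?_
    · exact lt_of_le_of_lt (Nat.mul_le_mul (hQ _ hw1'.1).2.2.1 hn1.2) hAN
    · exact lt_of_le_of_lt (Nat.mul_le_mul (hQ _ hw1.1).2.2.1 hn1'.2) hAN
  have h2 : ∑ w ∈ P, (P.filter (fun w' => w'.1 * w.2 = w.1 * w'.2)).card ≤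
      P.card + Q.card * (Q.card * (2 * N / A)) := by
    have h3 : ∀ w ∈ P, (P.filter (fun w' => w'.1 * w.2 = w.1 * w'.2)).card ≤
        1 + (P.filter (fun w' => w'.1 ≠ w.1 ∧ w'.1 * w.2 = w.1 * w'.2)).card := by
      intro w hw
      have hsub : P.filter (fun w' => w'.1 * w.2 = w.1 * w'.2) ⊆
          {w} ∪ P.filter (fun w' => w'.1 ≠ w.1 ∧ w'.1 * w.2 = w.1 * w'.2) := by
        intro w' hw'
        rw [mem_filter] at hw'
        rw [mem_union, mem_singleton, mem_filter]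
        by_cases h : w'.1 = w.1
        · left
          have ha0 : 0 < w.1 := (hQ _ (mem_product.1 hw).1).1.pos
          have h4 := hw'.2
          rw [h] at h4
          exact Prod.ext h (Nat.eq_of_mul_eq_mul_left ha0 h4).symm
        · right
          exact ⟨hw'.1, h, hw'.2⟩
      refine (card_le_card hsub).trans ((card_union_le _ _).trans ?_)
      rw [card_singleton]
    refine (sum_le_sum h3).trans ?_
    rw [sum_add_distrib, sum_const, smul_eq_mul, mul_one]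
    refine Nat.add_le_add_left ?_ _
    have h5 : ∑ w ∈ P, (P.filter (fun w' => w'.1 ≠ w.1 ∧ w'.1 * w.2 = w.1 * w'.2)).card =
        ((P ×ˢ P).filter (fun z => z.2.1 ≠ z.1.1 ∧ z.2.1 * z.1.2 = z.1.1 * z.2.2)).card := by
      simp only [card_filter]
      exact (sum_product P P (fun z : (ℕ × ℕ) × (ℕ × ℕ) =>
        if z.2.1 ≠ z.1.1 ∧ z.2.1 * z.1.2 = z.1.1 * z.2.2 then 1 else 0)).symm
    rw [h5]
    have h6 : Q.card * (Q.card * (2 * N / A)) = (Q ×ˢ (Q ×ˢ Icc 1 (2 * N / A))).card := by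
      rw [card_product, card_product, Nat.card_Icc, Nat.add_sub_cancel]
    rw [h6]
    -- the structure of an off-diagonal pair
    have hstr : ∀ z ∈ (P ×ˢ P).filter (fun z => z.2.1 ≠ z.1.1 ∧ z.2.1 * z.1.2 = z.1.1 * z.2.2),
        z.1.2 = z.1.1 * (z.1.2 / z.1.1) ∧ z.2.2 = z.2.1 * (z.1.2 / z.1.1) := by
      intro z hz
      rw [mem_filter, mem_product] at hz
      obtain ⟨⟨hz1, hz2⟩, hne, heq⟩ := hz
      have hp1 := (hQ _ (mem_product.1 hz1).1).1
      have hp2 := (hQ _ (mem_product.1 hz2).1).1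
      have hd : z.1.1 ∣ z.1.2 := by
        have h7 : z.1.1 ∣ z.2.1 * z.1.2 := ⟨z.2.2, heq⟩
        rcases (Nat.Prime.dvd_mul hp1).1 h7 with h8 | h8
        · exact absurd ((Nat.prime_dvd_prime_iff_eq hp1 hp2).1 h8).symm hne
        · exact h8
      have h9 : z.1.2 = z.1.1 * (z.1.2 / z.1.1) := (Nat.mul_div_cancel' hd).symm
      refine ⟨h9, ?_⟩
      have h10 : z.1.1 * z.2.2 = z.1.1 * (z.2.1 * (z.1.2 / z.1.1)) := by
        rw [← heq]
        conv_lhs => rw [h9]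
        ring
      exact Nat.eq_of_mul_eq_mul_left hp1.pos h10
    refine card_le_card_of_injOn (fun z => (z.1.1, z.2.1, z.1.2 / z.1.1)) ?_ ?_
    · intro z hz
      have hz' := hstr z hz
      rw [mem_coe, mem_filter, mem_product] at hz
      obtain ⟨⟨hz1, hz2⟩, hne, heq⟩ := hz
      have hq1 := mem_product.1 hz1
      have hq2 := mem_product.1 hz2
      have hn := mem_Icc.1 hq1.2
      have ha := hQ _ hq1.1
      rw [mem_coe, mem_product, mem_product, mem_Icc]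
      refine ⟨hq1.1, hq2.1, ?_, ?_⟩
      · rcases Nat.eq_zero_or_pos (z.1.2 / z.1.1) with h | h
        · rw [h, mul_zero] at hz'
          omega
        · exact h
      · show z.1.2 / z.1.1 ≤ 2 * N / A
        rw [Nat.le_div_iff_mul_le hA]
        calc z.1.2 / z.1.1 * A ≤ z.1.2 / z.1.1 * (2 * z.1.1) := Nat.mul_le_mul_left _ ha.2.1.le
          _ = 2 * (z.1.1 * (z.1.2 / z.1.1)) := by ring
          _ = 2 * z.1.2 := by rw [← hz'.1]
          _ ≤ 2 * N := by omega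
    · intro z hz z' hz' hzz
      have e1 := hstr z hz
      have e2 := hstr z' hz'
      simp only [Prod.mk.injEq] at hzz
      obtain ⟨f1, f2, f3⟩ := hzz
      have g1 : z.1.2 = z'.1.2 := by rw [e1.1, e2.1, f3, f1]
      have g2 : z.2.2 = z'.2.2 := by rw [e1.2, e2.2, f3, f2]
      exact Prod.ext (Prod.ext f1 g1) (Prod.ext f2 g2)
  have hQA : Q.card ≤ A := by
    have h7 : Q ⊆ Icc 1 A := fun a ha => mem_Icc.2 ⟨(hQ a ha).1.pos, (hQ a ha).2.2.1⟩
    have h8 := card_le_card h7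
    rwa [Nat.card_Icc, Nat.add_sub_cancel] at h8
  have h9 : Q.card * (Q.card * (2 * N / A)) ≤ Q.card * (2 * N) := by
    refine Nat.mul_le_mul_left _ ?_
    calc Q.card * (2 * N / A) ≤ A * (2 * N / A) := Nat.mul_le_mul_right _ hQA
      _ ≤ 2 * N := Nat.mul_div_le _ _
  have h10 : P.card = Q.card * N := by
    rw [hP, card_product, Nat.card_Icc, Nat.add_sub_cancel]
  have h11 : ∑ x ∈ range m, (nu m N Q x) ^ 2 ≤ 3 * Q.card * N := by
    calc ∑ x ∈ range m, (nu m N Q x) ^ 2 ≤ Q.card * N + Q.card * (2 * N) := by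
          rw [← h10]
          omega
      _ = 3 * Q.card * N := by ring
  exact_mod_cast h11

/-- Second moment for `Q = {1}`.

PROOF. `ν(x) =` number of `n ≤ N` in one residue class, at most `N/m + 1`; `∑ ν = N`. -/
theorem nu_sq_one (m : ℕ) (hm : Odd m) (N : ℕ) :
    ((∑ x ∈ range m, (nu m N {1} x) ^ 2 : ℕ) : ℝ) ≤ N * ((N : ℝ) / m + 1) := by
  have hm0 : 0 < m := hm.pos
  have h1 : ∀ x, nu m N {1} x ≤ N / m + 1 := by
    intro x
    have h2 : nu m N {1} x ≤ (range (N / m + 1)).card := by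
      unfold nu
      refine card_le_card_of_injOn (fun w => w.2 / m) ?_ ?_
      · intro w hw
        rw [mem_coe, mem_filter, mem_product] at hw
        have h3 := mem_Icc.1 hw.1.2
        rw [mem_coe, mem_range]
        exact Nat.lt_succ_of_le (Nat.div_le_div_right h3.2)
      · intro w hw w' hw' hww
        rw [mem_coe, mem_filter, mem_product, mem_singleton] at hw hw'
        have h4 : w.2 ≡ w'.2 [MOD m] := by
          have e1 := hw.2
          have e2 := hw'.2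
          rw [hw.1.1] at e1
          rw [hw'.1.1] at e2
          exact e1.trans e2.symm
        have h5 : w.2 / m = w'.2 / m := hww
        have h6 : w.2 = w'.2 := by
          rw [← Nat.div_add_mod w.2 m, ← Nat.div_add_mod w'.2 m, h5, h4]
        exact Prod.ext (hw.1.1.trans hw'.1.1.symm) h6
    rwa [card_range] at h2
  have h2 : ∑ x ∈ range m, (nu m N {1} x) ^ 2 ≤ N * (N / m + 1) := by
    calc ∑ x ∈ range m, (nu m N {1} x) ^ 2 ≤ ∑ x ∈ range m, nu m N {1} x * (N / m + 1) := by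
          refine sum_le_sum fun x _ => ?_
          rw [sq]
          exact Nat.mul_le_mul_left _ (h1 x)
      _ = N * (N / m + 1) := by
          rw [← sum_mul, nu_sum m hm N {1} (fun a ha => by
            rw [mem_singleton.1 ha]
            exact Nat.coprime_one_left m), card_singleton, one_mul]
  calc ((∑ x ∈ range m, (nu m N {1} x) ^ 2 : ℕ) : ℝ) ≤ ((N * (N / m + 1) : ℕ) : ℝ) := by
        exact_mod_cast h2
    _ = N * (((N / m : ℕ) : ℝ) + 1) := by push_cast; ring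
    _ ≤ N * ((N : ℝ) / m + 1) := by
        refine mul_le_mul_of_nonneg_left ?_ (Nat.cast_nonneg N)
        have := Nat.cast_div_le (α := ℝ) (m := N) (n := m)
        linarith

/-- Hölder in the form used by Burgess.

PROOF. `(∑ ν F)^r ≤ (∑ ν)^(r-1) ∑ ν F^r` (weighted power mean,
`Real.pow_arith_mean_le_arith_mean_pow` with weights `ν/∑ν`, trivial if `∑ ν = 0`), then
Cauchy-Schwarz `(∑ ν F^r)² ≤ ∑ ν² ∑ F^(2r)`. -/
theorem holder {ι : Type*} (s : Finset ι) (ν F : ι → ℝ) (hν : ∀ i ∈ s, 0 ≤ ν i)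
    (hF : ∀ i ∈ s, 0 ≤ F i) (r : ℕ) (hr : 1 ≤ r) :
    (∑ i ∈ s, ν i * F i) ^ (2 * r) ≤
      (∑ i ∈ s, ν i) ^ (2 * r - 2) * (∑ i ∈ s, ν i ^ 2) * ∑ i ∈ s, F i ^ (2 * r) := by
  set σ : ℝ := ∑ i ∈ s, ν i with hσ
  have hσ0 : 0 ≤ σ := sum_nonneg hν
  have hνF : 0 ≤ ∑ i ∈ s, ν i * F i := sum_nonneg fun i hi => mul_nonneg (hν i hi) (hF i hi)
  have hνFr : 0 ≤ ∑ i ∈ s, ν i * F i ^ r :=
    sum_nonneg fun i hi => mul_nonneg (hν i hi) (pow_nonneg (hF i hi) r)
  -- the power mean inequality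
  have h1 : (∑ i ∈ s, ν i * F i) ^ r ≤ σ ^ (r - 1) * ∑ i ∈ s, ν i * F i ^ r := by
    rcases eq_or_lt_of_le hσ0 with h | h
    · have h2 : ∀ i ∈ s, ν i = 0 := (sum_eq_zero_iff_of_nonneg hν).1 h.symm
      have h3 : ∑ i ∈ s, ν i * F i = 0 := sum_eq_zero fun i hi => by rw [h2 i hi, zero_mul]
      rw [h3, zero_pow (by omega)]
      exact mul_nonneg (pow_nonneg hσ0 _) hνFr
    · have h2 := Real.pow_arith_mean_le_arith_mean_pow s (fun i => ν i / σ) F
        (fun i hi => div_nonneg (hν i hi) hσ0) (by rw [← sum_div, ← hσ, div_self h.ne']) hF r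
      have h3 : ∑ i ∈ s, ν i / σ * F i = (∑ i ∈ s, ν i * F i) / σ := by
        rw [sum_div]
        exact sum_congr rfl fun i _ => by ring
      have h4 : ∑ i ∈ s, ν i / σ * F i ^ r = (∑ i ∈ s, ν i * F i ^ r) / σ := by
        rw [sum_div]
        exact sum_congr rfl fun i _ => by ring
      rw [h3, h4, div_pow, div_le_div_iff₀ (pow_pos h r) h] at h2
      have h5 : σ ^ r = σ ^ (r - 1) * σ := by
        rw [← pow_succ, Nat.sub_add_cancel hr]
      rw [h5] at h2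
      have h6 : (∑ i ∈ s, ν i * F i) ^ r * σ ≤ (σ ^ (r - 1) * ∑ i ∈ s, ν i * F i ^ r) * σ := by
        linarith
      exact le_of_mul_le_mul_right h6 h
  have h2 : (∑ i ∈ s, ν i * F i ^ r) ^ 2 ≤ (∑ i ∈ s, ν i ^ 2) * ∑ i ∈ s, (F i ^ r) ^ 2 :=
    sum_mul_sq_le_sq_mul_sq s ν (fun i => F i ^ r)
  have h3 : ∑ i ∈ s, (F i ^ r) ^ 2 = ∑ i ∈ s, F i ^ (2 * r) :=
    sum_congr rfl fun i _ => by rw [← pow_mul, mul_comm]
  rw [h3] at h2
  calc (∑ i ∈ s, ν i * F i) ^ (2 * r) = ((∑ i ∈ s, ν i * F i) ^ r) ^ 2 := by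
        rw [← pow_mul, mul_comm]
    _ ≤ (σ ^ (r - 1) * ∑ i ∈ s, ν i * F i ^ r) ^ 2 := pow_le_pow_left₀ (pow_nonneg hνF r) h1 2
    _ = σ ^ (2 * r - 2) * (∑ i ∈ s, ν i * F i ^ r) ^ 2 := by
        rw [mul_pow, ← pow_mul]
        congr 2
        omega
    _ ≤ σ ^ (2 * r - 2) * ((∑ i ∈ s, ν i ^ 2) * ∑ i ∈ s, F i ^ (2 * r)) :=
        mul_le_mul_of_nonneg_left h2 (pow_nonneg hσ0 _)
    _ = σ ^ (2 * r - 2) * (∑ i ∈ s, ν i ^ 2) * ∑ i ∈ s, F i ^ (2 * r) := by ring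

/-- The number of prime divisors. -/
theorem A3_omega (m : ℕ) (hm : 0 < m) : (m.primeFactors.card : ℝ) ≤ Real.log m / Real.log 2 := by
  have h1 : 2 ^ m.primeFactors.card ≤ m := by
    calc 2 ^ m.primeFactors.card = ∏ _p ∈ m.primeFactors, 2 := by rw [prod_const]
      _ ≤ ∏ p ∈ m.primeFactors, p :=
          prod_le_prod' fun p hp => (Nat.prime_of_mem_primeFactors hp).two_le
      _ ≤ m := Nat.le_of_dvd hm (Nat.prod_primeFactors_dvd m)
  have h2 : ((2 : ℝ) ^ m.primeFactors.card) ≤ m := by exact_mod_cast h1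
  have h3 := Real.log_le_log (by positivity) h2
  rw [Real.log_pow] at h3
  rw [le_div_iff₀ (Real.log_pos one_lt_two)]
  exact h3

/-- The asymptotic inequality. -/
theorem A3_asym (c η : ℝ) (hη : 0 < η) (hη1 : η ≤ 1 / 2) :
    ∀ᶠ x : ℝ in Filter.atTop, x ^ (1 - η) + (1 + c * Real.log x) ≤ (x / 2) ^ (1 - η / 2) := by
  have h1 : ∀ᶠ x : ℝ in Filter.atTop, (4 : ℝ) ≤ x ^ (η / 2) :=
    (tendsto_rpow_atTop (by linarith : 0 < η / 2)).eventually_ge_atTop 4
  have h2 := (isLittleO_log_rpow_atTop (by norm_num : (0 : ℝ) < 1 / 2)).bound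
    (by positivity : (0 : ℝ) < 1 / (2 * (|c| + 1)))
  have h3 : ∀ᶠ x : ℝ in Filter.atTop, (2 : ℝ) ≤ x ^ (1 / 2 : ℝ) :=
    (tendsto_rpow_atTop (by norm_num : (0 : ℝ) < 1 / 2)).eventually_ge_atTop 2
  filter_upwards [h1, h2, h3, Filter.eventually_ge_atTop 1] with x hx1 hx2 hx3 hx4
  have hx0 : 0 < x := by linarith
  have hlog : 0 ≤ Real.log x := Real.log_nonneg hx4
  have hr0 : 0 < x ^ (1 / 2 : ℝ) := Real.rpow_pos_of_pos hx0 _
  rw [Real.norm_of_nonneg hlog, Real.norm_of_nonneg hr0.le] at hx2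
  have hc : c * Real.log x ≤ x ^ (1 / 2 : ℝ) / 2 := by
    have h4 : c * Real.log x ≤ (|c| + 1) * Real.log x := by
      refine mul_le_mul_of_nonneg_right ?_ hlog
      have := le_abs_self c
      linarith
    have h5 : (|c| + 1) * Real.log x ≤ (|c| + 1) * (1 / (2 * (|c| + 1)) * x ^ (1 / 2 : ℝ)) :=
      mul_le_mul_of_nonneg_left hx2 (by positivity)
    have h6 : (|c| + 1) * (1 / (2 * (|c| + 1)) * x ^ (1 / 2 : ℝ)) = x ^ (1 / 2 : ℝ) / 2 := by
      field_simp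
    linarith
  have hle : x ^ (1 / 2 : ℝ) ≤ x ^ (1 - η) :=
    Real.rpow_le_rpow_of_exponent_le hx4 (by linarith)
  have hhalf : (1 / 2 : ℝ) ≤ (1 / 2 : ℝ) ^ (1 - η / 2) := by
    have := Real.rpow_le_rpow_of_exponent_ge (by norm_num : (0 : ℝ) < 1 / 2) (by norm_num)
      (by linarith : 1 - η / 2 ≤ 1)
    rwa [Real.rpow_one] at this
  have hsplit : (x / 2) ^ (1 - η / 2) = x ^ (1 - η) * x ^ (η / 2) * (1 / 2 : ℝ) ^ (1 - η / 2) := by
    rw [← Real.rpow_add hx0, div_eq_mul_one_div, Real.mul_rpow hx0.le (by norm_num)]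
    congr 2
    ring
  have hx10 : 0 < x ^ (1 - η) := Real.rpow_pos_of_pos hx0 _
  have hbig : x ^ (1 - η) * 4 * (1 / 2) ≤ (x / 2) ^ (1 - η / 2) := by
    rw [hsplit]
    apply mul_le_mul _ hhalf (by norm_num) (by positivity)
    exact mul_le_mul_of_nonneg_left hx1 hx10.le
  have h7 : (1 : ℝ) ≤ x ^ (1 / 2 : ℝ) / 2 := by linarith
  linarith

/-- Many primes `a` in `(A/2, A]` coprime to `m`: for `A ≥ m^θ` at least `A / (8 log A)`... only
`A^(1/2)`-type losses matter, so the claim is `|Q| ≥ A^(1-η)`.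

PROOF. Number of primes in `(A/2, A]` is `≥ c A / log A` (Chebyshev: `Chebyshev.theta_ge`,
`theta_le_log4_mul_x` do not suffice for `(A/2, A]` directly; use instead Bertrand-type counting: the
primes in `(A', A]` for `A' = A^(1-η/2)`... ). SIMPLER: it is enough to have `(A/2, A]` contain
`≥ A^(1-η)` primes: `W_fd120a_h34/Blk2.lean` proves that the number of primes in `[x, 2x)` is
`≥ x^(1-η)` for large `x`. Remove the at most `log m / log 2` prime divisors of `m`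
(`A ≥ m^θ`, so `log m ≤ (log A)/θ`). -/
theorem many_primes (θ η : ℝ) (hθ : 0 < θ) (hη : 0 < η) : ∃ M : ℕ, ∀ m A : ℕ, M ≤ m →
    (m : ℝ) ^ θ ≤ A → ∃ Q : Finset ℕ, (∀ a ∈ Q, a.Prime ∧ A < 2 * a ∧ a ≤ A ∧ Nat.Coprime a m) ∧
      (A : ℝ) ^ (1 - η) ≤ Q.card := by
  set η' : ℝ := min η (1 / 2) with hη'
  have hη'0 : 0 < η' := lt_min hη (by norm_num)
  have hη'1 : η' ≤ 1 / 2 := min_le_right _ _
  have hη'2 : η' ≤ η := min_le_left _ _
  set c : ℝ := 1 / (θ * Real.log 2) with hc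
  have hlog2 : 0 < Real.log 2 := Real.log_pos one_lt_two
  obtain ⟨X₁, hX₁⟩ := Filter.eventually_atTop.1 (FD120.prime_block2 (η' / 2) (by linarith))
  obtain ⟨X₂, hX₂⟩ := Filter.eventually_atTop.1 (A3_asym c η' hη'0 hη'1)
  set Z : ℝ := max (max (2 * X₁) X₂) 1 with hZ
  obtain ⟨M, hM⟩ := exists_nat_ge (Z ^ (1 / θ))
  refine ⟨max M 1, ?_⟩
  intro m A hmM hmA
  have hm1 : 1 ≤ m := le_trans (le_max_right _ _) hmM
  have hm1' : (1 : ℝ) ≤ m := by exact_mod_cast hm1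
  have hZ1 : 1 ≤ Z := le_max_right _ _
  have hAZ : Z ≤ A := by
    refine le_trans ?_ hmA
    have h1 : Z ^ (1 / θ) ≤ (m : ℝ) :=
      hM.trans (by exact_mod_cast le_trans (le_max_left _ _) hmM)
    have h2 := Real.rpow_le_rpow (by positivity) h1 hθ.le
    rwa [← Real.rpow_mul (by linarith), one_div_mul_cancel hθ.ne', Real.rpow_one] at h2
  have hA1 : (1 : ℝ) ≤ A := hZ1.trans hAZ
  set x : ℕ := A / 2 + 1 with hx
  have hxA : (A : ℝ) / 2 ≤ x := by
    have h1 : A ≤ 2 * x := by omega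
    have h2 : (A : ℝ) ≤ 2 * x := by exact_mod_cast h1
    linarith
  have hX₁x : X₁ ≤ x := by
    have h1 : (2 * X₁ : ℝ) ≤ A := (le_max_left (2 * (X₁ : ℝ)) X₂).trans ((le_max_left _ _).trans hAZ)
    have h2 : (X₁ : ℝ) ≤ x := by linarith
    exact_mod_cast h2
  have hprime := hX₁ x hX₁x
  rw [FD120.blk_card] at hprime
  have hasym := hX₂ A ((le_max_right _ _).trans ((le_max_left _ _).trans hAZ))
  set S := (Ico x (2 * x)).filter Nat.Prime with hS
  refine ⟨(S.filter (fun a => a ≠ A + 1)) \ m.primeFactors, ?_, ?_⟩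
  · intro a ha
    rw [mem_sdiff, mem_filter, hS, mem_filter, mem_Ico] at ha
    obtain ⟨⟨⟨⟨h1, h2⟩, h3⟩, h4⟩, h5⟩ := ha
    refine ⟨h3, by omega, by omega, ?_⟩
    rw [Nat.Prime.coprime_iff_not_dvd h3]
    intro h6
    exact h5 (Nat.mem_primeFactors.2 ⟨h3, h6, by omega⟩)
  · have h1 : S.card ≤ ((S.filter (fun a => a ≠ A + 1)) \ m.primeFactors).card + 1 +
        m.primeFactors.card := by
      have hsub : S ⊆ (((S.filter (fun a => a ≠ A + 1)) \ m.primeFactors) ∪ {A + 1}) ∪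
          m.primeFactors := by
        intro a ha
        simp only [mem_union, mem_sdiff, mem_filter, mem_singleton]
        by_cases h1 : a = A + 1
        · exact Or.inl (Or.inr h1)
        · by_cases h2 : a ∈ m.primeFactors
          · exact Or.inr h2
          · exact Or.inl (Or.inl ⟨⟨ha, h1⟩, h2⟩)
      refine (card_le_card hsub).trans ((card_union_le _ _).trans ?_)
      refine Nat.add_le_add_right ((card_union_le _ _).trans ?_) _
      rw [card_singleton]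
    have h2 : (S.card : ℝ) ≤ (((S.filter (fun a => a ≠ A + 1)) \ m.primeFactors).card : ℝ) + 1 +
        m.primeFactors.card := by exact_mod_cast h1
    have h3 := A3_omega m hm1
    have h4 : Real.log m / Real.log 2 ≤ c * Real.log A := by
      have h5 : θ * Real.log m ≤ Real.log A := by
        rw [← Real.log_rpow (by linarith)]
        exact Real.log_le_log (Real.rpow_pos_of_pos (by linarith) _) hmA
      rw [hc, div_mul_eq_mul_div, one_mul, div_le_div_iff₀ hlog2 (by positivity)]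
      calc Real.log m * (θ * Real.log 2) = (θ * Real.log m) * Real.log 2 := by ring
        _ ≤ Real.log A * Real.log 2 := mul_le_mul_of_nonneg_right h5 hlog2.le
    have h6 : ((A : ℝ) / 2) ^ (1 - η' / 2) ≤ (x : ℝ) ^ (1 - η' / 2) :=
      Real.rpow_le_rpow (by positivity) hxA (by linarith)
    have h7 : (A : ℝ) ^ (1 - η) ≤ (A : ℝ) ^ (1 - η') :=
      Real.rpow_le_rpow_of_exponent_le hA1 (by linarith)
    linarith

end BG
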