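import Pool.Agent.W_aaa0df_bg.A3

/-!
# Burgess, A4: the final bound
-/

set_option autoImplicit false

namespace BG

open Finset

/-- the twisted sum -/
noncomputable def SJ (w : ℕ → ℝ) (m N : ℕ) : ℝ := ∑ n ∈ Icc 1 N, w n * (jacobiSym n m : ℝ)

lemma A4_sum_val {p : ℕ} [NeZero p] (f : ZMod p → ℤ) :
    ∑ x ∈ range p, f (x : ZMod p) = ∑ a : ZMod p, f a := by
  refine Finset.sum_nbij' (fun x => (x : ZMod p)) (fun a => a.val) ?_ ?_ ?_ ?_ ?_
  · intro x _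
    exact mem_univ _
  · intro a _
    exact mem_range.2 (ZMod.val_lt a)
  · intro x hx
    exact ZMod.val_cast_of_lt (mem_range.1 hx)
  · intro a _
    exact ZMod.natCast_zmod_val a
  · intro x _
    rfl

lemma A4_T_prime (p : ℕ) (hp : p.Prime) (hp2 : p ≠ 2) : T p (fun _ : Fin 1 => (0 : ℤ)) = 0 := by
  have : Fact p.Prime := ⟨hp⟩
  unfold T
  have h1 : ∀ x ∈ range p, ∏ i : Fin 1, jacobiSym ((x : ℤ) + 0) p =
      quadraticChar (ZMod p) ((x : ZMod p)) := by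
    intro x _
    rw [Fin.prod_univ_one, add_zero, ← jacobiSym.legendreSym.to_jacobiSym]
    unfold legendreSym
    norm_cast
  rw [sum_congr rfl h1, A4_sum_val (fun a => quadraticChar (ZMod p) a)]
  refine quadraticChar_sum_zero ?_
  rw [ZMod.ringChar_zmod_n]
  exact hp2

lemma A4_sum_jacobi (m : ℕ) (hm1 : 1 < m) (hodd : Odd m) (hm : Squarefree m) :
    ∑ x ∈ range m, jacobiSym (x : ℤ) m = 0 := by
  have h1 : ∑ x ∈ range m, jacobiSym (x : ℤ) m = T m (fun _ : Fin 1 => (0 : ℤ)) := by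
    unfold T
    refine sum_congr rfl fun x _ => ?_
    rw [Fin.prod_univ_one, add_zero]
  rw [h1, T_prod m hm]
  obtain ⟨p, hp, hpm⟩ := Nat.exists_prime_and_dvd hm1.ne'
  refine prod_eq_zero (Nat.mem_primeFactors.2 ⟨hp, hpm, by omega⟩) ?_
  refine A4_T_prime p hp ?_
  rintro rfl
  exact (Nat.not_even_iff_odd.2 hodd) (even_iff_two_dvd.2 hpm)

lemma A4_period (m : ℕ) (hm1 : 1 < m) (hodd : Odd m) (hm : Squarefree m) (w : ℕ → ℝ)
    (hw8 : ∀ n, w (n + 8) = w n) :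
    ∑ x ∈ range (8 * m), w x * ((jacobiSym (x : ℤ) m : ℤ) : ℝ) = 0 := by
  have hper : Function.Periodic w 8 := hw8
  have h1 : ∀ c : ℕ, ∑ x ∈ range (8 * m), (if x % 8 = c then 1 else 0) * jacobiSym (x : ℤ) m
      = 0 := by
    intro c
    have h := sum_crt 8 m (by
      have : Nat.Coprime 2 m := (Nat.coprime_two_left).2 hodd
      exact Nat.Coprime.pow_left 3 this) (by norm_num) (by omega)
      (fun x => if x % 8 = c then 1 else 0) (fun x => jacobiSym (x : ℤ) m)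
      (by intro x; simp only [Nat.add_mod_right])
      (by
        intro x
        rw [jacobiSym.mod_left, jacobiSym.mod_left (x : ℤ)]
        congr 1
        push_cast
        exact Int.add_emod_right _ _)
    rw [h, A4_sum_jacobi m hm1 hodd hm, mul_zero]
  have h2 : ∀ x : ℕ, w x * ((jacobiSym (x : ℤ) m : ℤ) : ℝ) =
      ∑ c ∈ range 8, w c * (((if x % 8 = c then 1 else 0) * jacobiSym (x : ℤ) m : ℤ) : ℝ) := by
    intro x
    have hx : x % 8 ∈ range 8 := mem_range.2 (Nat.mod_lt _ (by norm_num))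
    rw [sum_eq_single (x % 8)]
    · rw [if_pos rfl, one_mul, hper.map_mod_nat]
    · intro c _ hc
      rw [if_neg (Ne.symm hc), zero_mul, Int.cast_zero, mul_zero]
    · intro h
      exact absurd hx h
  rw [sum_congr rfl fun x _ => h2 x, sum_comm]
  refine sum_eq_zero fun c _ => ?_
  rw [← mul_sum, ← Int.cast_sum, h1 c, Int.cast_zero, mul_zero]

lemma A4_abs_jacobi (a : ℤ) (m : ℕ) : |((jacobiSym a m : ℤ) : ℝ)| ≤ 1 := by
  rcases jacobiSym.trichotomy a m with h | h | h <;> rw [h] <;> norm_num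

/-- LONG RANGE: periodicity. -/
theorem long_range (m : ℕ) (hm1 : 1 < m) (hodd : Odd m) (hm : Squarefree m) (w : ℕ → ℝ)
    (hw : ∀ n, |w n| ≤ 1) (hw8 : ∀ n, w (n + 8) = w n) (N : ℕ) : |SJ w m N| ≤ 8 * m := by
  set h : ℕ → ℝ := fun n => w n * ((jacobiSym (n : ℤ) m : ℤ) : ℝ) with hh
  have hb : ∀ n, |h n| ≤ 1 := by
    intro n
    rw [hh]
    simp only [abs_mul]
    exact mul_le_one₀ (hw n) (abs_nonneg _) (A4_abs_jacobi _ _)
  have hPer : ∀ n, h (8 * m + n) = h n := by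
    intro n
    have h1 : w (8 * m + n) = w n := by
      have hper : Function.Periodic w 8 := hw8
      have := hper.nat_mul m n
      rw [add_comm, mul_comm]
      simpa using this
    simp only [hh]
    rw [h1, jacobiSym.mod_left, jacobiSym.mod_left (n : ℤ)]
    congr 3
    push_cast
    rw [add_comm, mul_comm (8 : ℤ)]
    exact Int.add_mul_emod_self_left _ _ _
  set G : ℕ → ℝ := fun n => ∑ x ∈ range n, h x with hG
  have hGper : Function.Periodic G (8 * m) := by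
    intro n
    simp only [hG]
    rw [add_comm, sum_range_add, A4_period m hm1 hodd hm w hw8, zero_add]
    exact sum_congr rfl fun x _ => hPer x
  have hGb : ∀ n, |G n| ≤ 8 * m := by
    intro n
    rw [← hGper.map_mod_nat n]
    refine (abs_sum_le_sum_abs _ _).trans ?_
    refine (sum_le_sum fun x _ => hb x).trans ?_
    rw [sum_const, card_range, nsmul_eq_mul, mul_one]
    have : n % (8 * m) < 8 * m := Nat.mod_lt _ (by omega)
    exact_mod_cast this.le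
  have hS : SJ w m N = G (N + 1) := by
    simp only [hG]
    rw [sum_range_succ']
    have h0 : h 0 = 0 := by
      simp only [hh]
      rw [Nat.cast_zero, jacobiSym.zero_left hm1, Int.cast_zero, mul_zero]
    rw [h0, add_zero]
    unfold SJ
    have h1 : Icc 1 N = Ico 1 (N + 1) := by
      ext x
      simp only [mem_Icc, mem_Ico]
      omega
    rw [h1, sum_Ico_eq_sum_range, Nat.add_sub_cancel]
    refine sum_congr rfl fun x _ => ?_
    rw [add_comm 1 x]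
  rw [hS]
  exact hGb _

/-- the shift argument and Hölder -/
lemma A4_core (m : ℕ) (hm : Odd m) (w : ℕ → ℝ) (hw : ∀ n, |w n| ≤ 1) (hw8 : ∀ n, w (n + 8) = w n)
    (N A B r : ℕ) (hr : 1 ≤ r) (Q : Finset ℕ) (hQ : ∀ a ∈ Q, 1 ≤ a ∧ a ≤ A ∧ Nat.Coprime a m)
    (V Mo Y : ℝ) (hV : ((∑ x ∈ range m, (nu m N Q x) ^ 2 : ℕ) : ℝ) ≤ V)
    (hM : ∑ x ∈ range m, ((∑ b ∈ Icc 1 B, jacobiSym ((x : ℤ) + b) m : ℤ) : ℝ) ^ (2 * r) ≤ Mo)
    (hY0 : 0 ≤ Y) (hY : ((Q.card : ℝ) * N) ^ (2 * r - 2) * V * Mo ≤ Y ^ (2 * r)) :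
    (Q.card : ℝ) * B * |SJ w m N| ≤ Y + (Q.card : ℝ) * B * (16 * A * B) := by
  refine (shift m hm w hw hw8 N A B Q hQ).trans (by
    refine add_le_add ?_ le_rfl
    set F : ℕ → ℝ := fun x => |((∑ b ∈ Icc 1 B, jacobiSym ((x : ℤ) + b) m : ℤ) : ℝ)| with hF
    have h1 := holder (range m) (fun x => (nu m N Q x : ℝ)) F (fun i _ => Nat.cast_nonneg _)
      (fun i _ => abs_nonneg _) r hr
    have h2 : ∑ x ∈ range m, (nu m N Q x : ℝ) = Q.card * N := by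
      exact_mod_cast nu_sum m hm N Q (fun a ha => (hQ a ha).2.2)
    have h3 : ∑ x ∈ range m, (nu m N Q x : ℝ) ^ 2 ≤ V := by
      refine le_trans (le_of_eq ?_) hV
      push_cast
      rfl
    have h4 : ∑ x ∈ range m, F x ^ (2 * r) ≤ Mo := by
      refine le_trans (le_of_eq (sum_congr rfl fun x _ => ?_)) hM
      simp only [hF]
      exact (even_two_mul r).pow_abs _
    have h5 : 0 ≤ ∑ x ∈ range m, F x ^ (2 * r) :=
      sum_nonneg fun x _ => pow_nonneg (abs_nonneg _) _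
    have h6 : 0 ≤ ∑ x ∈ range m, (nu m N Q x : ℝ) ^ 2 := sum_nonneg fun x _ => sq_nonneg _
    rw [h2] at h1
    have h7 : (∑ x ∈ range m, (nu m N Q x : ℝ) * F x) ^ (2 * r) ≤ Y ^ (2 * r) := by
      refine h1.trans (le_trans ?_ hY)
      have h8 : (0 : ℝ) ≤ ((Q.card : ℝ) * N) ^ (2 * r - 2) := by (clear * -; positivity)
      have h9 : 0 ≤ V := h6.trans h3
      calc ((Q.card : ℝ) * N) ^ (2 * r - 2) * (∑ x ∈ range m, (nu m N Q x : ℝ) ^ 2) *
            ∑ x ∈ range m, F x ^ (2 * r)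
          ≤ ((Q.card : ℝ) * N) ^ (2 * r - 2) * V * ∑ x ∈ range m, F x ^ (2 * r) :=
            mul_le_mul_of_nonneg_right (mul_le_mul_of_nonneg_left h3 h8) h5
        _ ≤ _ := mul_le_mul_of_nonneg_left h4 (mul_nonneg h8 h9)
    have h10 : 0 ≤ ∑ x ∈ range m, (nu m N Q x : ℝ) * F x :=
      sum_nonneg fun x _ => mul_nonneg (Nat.cast_nonneg _) (abs_nonneg _)
    exact (pow_le_pow_iff_left₀ h10 hY0 (by omega)).1 h7)

/-- real inequalities for the short range -/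
lemma A4_params {ε μ N A q ρ : ℝ} (hε : 0 < ε) (hε4 : ε ≤ 1 / 4) (hμ : 1 < μ)
    (hρ0 : 0 ≤ ρ) (hρ : ρ ≤ ε / 8) (hN1 : μ ^ (1 / 4 + ε) ≤ N) (hN2 : N ≤ μ ^ (1 / 2 + ε / 16))
    (hA1 : N * μ ^ (-(ρ + ε / 4)) / 2 ≤ A) (hA2 : A ≤ N * μ ^ (-(ρ + ε / 4)))
    (hq : A ^ (1 - ε / 4) ≤ q) :
    A * N < μ ∧ μ ^ (1 / 2 + 5 * ε / 4) / 2 ≤ q * N := by
  have hμ0 : 0 < μ := by linarith only [hε, hε4, hμ]
  have hN0 : 0 < N := (Real.rpow_pos_of_pos hμ0 _).trans_le hN1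
  have hz : 0 < μ ^ (-(ρ + ε / 4)) := Real.rpow_pos_of_pos hμ0 _
  have hA0 : 0 < A := lt_of_lt_of_le (by (clear * - hN0 hμ; positivity)) hA1
  constructor
  · calc A * N ≤ N * μ ^ (-(ρ + ε / 4)) * N := mul_le_mul_of_nonneg_right hA2 hN0.le
      _ = N * N * μ ^ (-(ρ + ε / 4)) := by ring
      _ ≤ μ ^ (1 / 2 + ε / 16) * μ ^ (1 / 2 + ε / 16) * μ ^ (-(ρ + ε / 4)) :=
        mul_le_mul_of_nonneg_right (mul_le_mul hN2 hN2 hN0.le (by (clear * - hμ; positivity))) hz.le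
      _ = μ ^ (1 / 2 + ε / 16 + (1 / 2 + ε / 16) + -(ρ + ε / 4)) := by
        rw [← Real.rpow_add hμ0, ← Real.rpow_add hμ0]
      _ < μ ^ (1 : ℝ) := Real.rpow_lt_rpow_of_exponent_lt hμ (by linarith only [hε, hρ0])
      _ = μ := Real.rpow_one μ
  · have hAμ : A ≤ μ := by
      calc A ≤ N * μ ^ (-(ρ + ε / 4)) := hA2
        _ ≤ μ ^ (1 / 2 + ε / 16) * μ ^ (-(ρ + ε / 4)) := mul_le_mul_of_nonneg_right hN2 hz.le
        _ = μ ^ (1 / 2 + ε / 16 + -(ρ + ε / 4)) := by rw [← Real.rpow_add hμ0]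
        _ ≤ μ ^ (1 : ℝ) := Real.rpow_le_rpow_of_exponent_le hμ.le (by linarith only [hε, hε4, hρ0])
        _ = μ := Real.rpow_one μ
    have h1 : A * μ ^ (-(ε / 4)) ≤ q := by
      refine le_trans ?_ hq
      have h2 : μ ^ (-(ε / 4)) ≤ A ^ (-(ε / 4)) :=
        Real.rpow_le_rpow_of_nonpos hA0 hAμ (by linarith only [hε])
      calc A * μ ^ (-(ε / 4)) ≤ A * A ^ (-(ε / 4)) := mul_le_mul_of_nonneg_left h2 hA0.le
        _ = A ^ (1 - ε / 4) := by
          rw [sub_eq_add_neg, Real.rpow_add hA0, Real.rpow_one]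
    have h3 : 0 < μ ^ (-(ε / 4)) := Real.rpow_pos_of_pos hμ0 _
    calc μ ^ (1 / 2 + 5 * ε / 4) / 2
        ≤ μ ^ (1 / 4 + ε + (1 / 4 + ε) + -(ρ + ε / 4) + -(ε / 4)) / 2 :=
          div_le_div_of_nonneg_right
            (Real.rpow_le_rpow_of_exponent_le hμ.le (by linarith only [hε, hρ])) (by norm_num)
      _ = μ ^ (1 / 4 + ε) * μ ^ (1 / 4 + ε) * μ ^ (-(ρ + ε / 4)) * μ ^ (-(ε / 4)) / 2 := by
          rw [← Real.rpow_add hμ0, ← Real.rpow_add hμ0, ← Real.rpow_add hμ0]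
      _ ≤ N * N * μ ^ (-(ρ + ε / 4)) * μ ^ (-(ε / 4)) / 2 := by
          have h4 : μ ^ (1 / 4 + ε) * μ ^ (1 / 4 + ε) ≤ N * N :=
            mul_le_mul hN1 hN1 (by (clear * - hμ; positivity)) hN0.le
          gcongr
      _ = (N * μ ^ (-(ρ + ε / 4)) / 2) * μ ^ (-(ε / 4)) * N := by ring
      _ ≤ A * μ ^ (-(ε / 4)) * N := by gcongr
      _ ≤ q * N := mul_le_mul_of_nonneg_right h1 hN0.le

/-- SHORT RANGE `m^(1/4+ε) ≤ N ≤ m^(1/2+ε/16)`. -/
theorem short_range (ε : ℝ) (hε : 0 < ε) (hε4 : ε ≤ 1 / 4) : ∃ (δ C : ℝ) (M : ℕ), 0 < δ ∧ 0 < C ∧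
    ∀ m : ℕ, M ≤ m → Odd m → Squarefree m → ∀ w : ℕ → ℝ, (∀ n, |w n| ≤ 1) →
      (∀ n, w (n + 8) = w n) → ∀ N : ℕ, (m : ℝ) ^ (1 / 4 + ε) ≤ N →
      (N : ℝ) ≤ (m : ℝ) ^ (1 / 2 + ε / 16) → |SJ w m N| ≤ C * (N : ℝ) ^ (1 - δ) := by
  set r : ℕ := ⌈4 / ε⌉₊ with hr
  have hr4 : 4 / ε ≤ (r : ℝ) := Nat.le_ceil _
  have hrpos : (0 : ℝ) < r := lt_of_lt_of_le (by (clear * - hε; positivity)) hr4
  have hr1 : 1 ≤ r := by exact_mod_cast hrpos
  set ρ : ℝ := 1 / (2 * r) with hρ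
  have hρ0 : 0 < ρ := by (clear * - hε; positivity)
  have hρ8 : ρ ≤ ε / 8 := by
    have h1 : 4 ≤ ε * r := by
      have := (div_le_iff₀ hε).1 hr4
      linarith only [this]
    rw [hρ, div_le_div_iff₀ (by (clear * - hε; positivity)) (by norm_num)]
    linarith only [h1]
  have hρr : ρ * r = 1 / 2 := by
    rw [hρ]
    field_simp
  obtain ⟨C, hC, hmom⟩ := moment_eps r hr1 (ε / 4) (by (clear * - hε; positivity))
  obtain ⟨M₁, hM₁⟩ := many_primes (1 / 4) (ε / 4) (by norm_num) (by (clear * - hε; positivity))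
  set K : ℝ := max 1 (12 * C) with hK
  have hK1 : 1 ≤ K := le_max_left _ _
  refine ⟨ε * ρ, K + 32, max M₁ (⌈(2 : ℝ) ^ (2 / ε)⌉₊ + 2), by (clear * - hε; positivity), by linarith only [hε4, hρ0, hρ8, hK1], ?_⟩
  intro m hmM hodd hsq w hw hw8 N hN1 hN2
  have hmM1 : M₁ ≤ m := (le_max_left _ _).trans hmM
  have hmM2 : ⌈(2 : ℝ) ^ (2 / ε)⌉₊ + 2 ≤ m := (le_max_right _ _).trans hmM
  set μ : ℝ := (m : ℝ) with hμdef
  have hμ2 : (2 : ℝ) ≤ μ := by
    rw [hμdef]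
    exact_mod_cast (by omega : 2 ≤ m)
  have hμ1 : 1 < μ := by linarith only [hε4, hρ0, hρ8, hμ2]
  have hμ0 : 0 < μ := by linarith only [hε4, hρ0, hρ8, hμ2]
  have hμb : (2 : ℝ) ^ (2 / ε) ≤ μ := by
    refine (Nat.le_ceil _).trans ?_
    rw [hμdef]
    exact_mod_cast (by omega : ⌈(2 : ℝ) ^ (2 / ε)⌉₊ ≤ m)
  have hμε : 2 ≤ μ ^ (ε / 2) := by
    calc (2 : ℝ) = ((2 : ℝ) ^ (2 / ε)) ^ (ε / 2) := by
          rw [← Real.rpow_mul (by norm_num), div_mul_div_comm, mul_comm 2 ε, div_self (by (clear * - hε; positivity)),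
            Real.rpow_one]
      _ ≤ μ ^ (ε / 2) := Real.rpow_le_rpow (by (clear * -; positivity)) hμb (by (clear * - hε; positivity))
  have hN0 : (0 : ℝ) < N := (Real.rpow_pos_of_pos hμ0 _).trans_le hN1
  set y : ℝ := (N : ℝ) * μ ^ (-(ρ + ε / 4)) with hy
  have hylow : μ ^ (1 / 4 + ε / 2) ≤ y := by
    calc μ ^ (1 / 4 + ε / 2) ≤ μ ^ (1 / 4 + ε + -(ρ + ε / 4)) :=
          Real.rpow_le_rpow_of_exponent_le hμ1.le (by linarith only [hρ0, hρ8])
      _ = μ ^ (1 / 4 + ε) * μ ^ (-(ρ + ε / 4)) := Real.rpow_add hμ0 _ _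
      _ ≤ y := mul_le_mul_of_nonneg_right hN1 (Real.rpow_nonneg hμ0.le _)
  have hq14 : 1 ≤ μ ^ (1 / 4 : ℝ) := Real.one_le_rpow hμ1.le (by norm_num)
  have hy2 : 2 * μ ^ (1 / 4 : ℝ) ≤ y := by
    refine le_trans ?_ hylow
    rw [Real.rpow_add hμ0, mul_comm]
    exact mul_le_mul_of_nonneg_left hμε (by (clear * - hμ2; positivity))
  set A : ℕ := ⌊y⌋₊ with hA
  have hy0 : 0 ≤ y := by linarith only [hε4, hρ0, hρ8, hq14, hy2, hq14]
  have hA2 : (A : ℝ) ≤ y := Nat.floor_le hy0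
  have hA1 : y / 2 ≤ A := by
    have := Nat.lt_floor_add_one y
    have h2 : 2 ≤ y := by linarith only [hq14, hy2]
    rw [← hA] at this
    linarith only [hq14, hy2, this]
  have hA14 : μ ^ (1 / 4 : ℝ) ≤ (A : ℝ) := by linarith only [hy2, hA1]
  have hA0 : (0 : ℝ) < A := by linarith only [hε4, hρ0, hρ8, hq14, hy2, hA1]
  obtain ⟨Q, hQ, hQc⟩ := hM₁ m A hmM1 hA14
  set q : ℝ := (Q.card : ℝ) with hqdef
  have hq0 : 0 < q := (Real.rpow_pos_of_pos hA0 _).trans_le hQc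
  obtain ⟨hAN, hqN⟩ := A4_params hε hε4 hμ1 hρ0.le hρ8 hN1 hN2 hA1 hA2 hQc
  set B : ℕ := ⌈μ ^ ρ⌉₊ with hB
  have hμρ : 1 ≤ μ ^ ρ := Real.one_le_rpow hμ1.le hρ0.le
  have hB1 : μ ^ ρ ≤ B := Nat.le_ceil _
  have hB2 : (B : ℝ) ≤ 2 * μ ^ ρ := by
    have := Nat.ceil_lt_add_one (zero_le_one.trans hμρ)
    rw [← hB] at this
    linarith only [hμρ, this]
  have hB0 : (0 : ℝ) < B := by linarith only [hε4, hρ0, hρ8, hμρ, hB1]
  have hB1' : 1 ≤ B := by exact_mod_cast hB0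
  have hBr : √μ ≤ (B : ℝ) ^ r := by
    calc √μ = (μ ^ ρ) ^ r := by
          rw [← Real.rpow_natCast, ← Real.rpow_mul hμ0.le, hρr, Real.sqrt_eq_rpow]
      _ ≤ (B : ℝ) ^ r := pow_le_pow_left₀ (by (clear * - hμ2; positivity)) hB1 r
  -- the moment
  have hMo : ∑ x ∈ range m, ((∑ b ∈ Icc 1 B, jacobiSym ((x : ℤ) + b) m : ℤ) : ℝ) ^ (2 * r) ≤
      2 * C * μ ^ (1 / 2 + ε / 4) * (B : ℝ) ^ (2 * r) := by
    refine (hmom m hsq hodd B hB1').trans ?_
    have h1 : (B : ℝ) ^ r * μ ≤ (B : ℝ) ^ (2 * r) * √μ := by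
      calc (B : ℝ) ^ r * μ = (B : ℝ) ^ r * √μ * √μ := by
            rw [mul_assoc, Real.mul_self_sqrt hμ0.le]
        _ ≤ (B : ℝ) ^ r * (B : ℝ) ^ r * √μ := by gcongr
        _ = (B : ℝ) ^ (2 * r) * √μ := by rw [two_mul, pow_add]
    calc C * μ ^ (ε / 4) * ((B : ℝ) ^ r * μ + (B : ℝ) ^ (2 * r) * √μ)
        ≤ C * μ ^ (ε / 4) * ((B : ℝ) ^ (2 * r) * √μ + (B : ℝ) ^ (2 * r) * √μ) := by gcongr
      _ = 2 * C * (μ ^ (1 / 2 : ℝ) * μ ^ (ε / 4)) * (B : ℝ) ^ (2 * r) := by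
          rw [Real.sqrt_eq_rpow]
          ring
      _ = 2 * C * μ ^ (1 / 2 + ε / 4) * (B : ℝ) ^ (2 * r) := by rw [← Real.rpow_add hμ0]
  have hANm : A * N < m := by
    rw [hμdef] at hAN
    exact_mod_cast hAN
  have hA1' : 1 ≤ A := by exact_mod_cast hA0
  have hV := nu_sq_short m hodd N A hA1' hANm Q hQ
  have hz : 0 < μ ^ (-(ε * ρ)) := Real.rpow_pos_of_pos hμ0 _
  have hcore := A4_core m hodd w hw hw8 N A B r hr1 Q
    (fun a ha => ⟨(hQ a ha).1.one_le, (hQ a ha).2.2.1, (hQ a ha).2.2.2⟩)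
    (3 * Q.card * N) (2 * C * μ ^ (1 / 2 + ε / 4) * (B : ℝ) ^ (2 * r))
    (q * B * N * K * μ ^ (-(ε * ρ))) hV hMo (by (clear * - hq0 hμ2 hN0; positivity)) (by
      have h1 : (μ ^ (-(ε * ρ))) ^ (2 * r) = μ ^ (-ε) := by
        rw [← Real.rpow_natCast, ← Real.rpow_mul hμ0.le]
        congr 1
        push_cast
        have : ε * ρ * (2 * r) = ε := by
          calc ε * ρ * (2 * r) = 2 * ε * (ρ * r) := by ring
            _ = ε := by rw [hρr]; ring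
        linarith only [this]
      have h2 : 12 * C ≤ K ^ (2 * r) :=
        (le_max_right _ _).trans (le_self_pow₀ hK1 (by omega))
      have h3 : 6 * C * μ ^ (1 / 2 + ε / 4) ≤ q * N * K ^ (2 * r) * μ ^ (-ε) := by
        calc 6 * C * μ ^ (1 / 2 + ε / 4)
            = (μ ^ (1 / 2 + 5 * ε / 4) / 2) * (12 * C) * μ ^ (-ε) := by
              have : μ ^ (1 / 2 + ε / 4) = μ ^ (1 / 2 + 5 * ε / 4) * μ ^ (-ε) := by
                rw [← Real.rpow_add hμ0]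
                congr 1
                ring
              rw [this]
              ring
          _ ≤ q * N * K ^ (2 * r) * μ ^ (-ε) := by gcongr
      have h4 : (q * N) ^ (2 * r) = (q * N) ^ (2 * r - 2) * (q * N) * (q * N) := by
        rw [mul_assoc, ← pow_two, ← pow_add]
        congr 1
        omega
      calc (q * N) ^ (2 * r - 2) * (3 * Q.card * N) *
            (2 * C * μ ^ (1 / 2 + ε / 4) * (B : ℝ) ^ (2 * r))
          = (q * N) ^ (2 * r - 2) * (q * N) * (B : ℝ) ^ (2 * r) *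
            (6 * C * μ ^ (1 / 2 + ε / 4)) := by
            rw [← hqdef]
            ring
        _ ≤ (q * N) ^ (2 * r - 2) * (q * N) * (B : ℝ) ^ (2 * r) *
            (q * N * K ^ (2 * r) * μ ^ (-ε)) := by gcongr
        _ = (q * B * N * K * μ ^ (-(ε * ρ))) ^ (2 * r) := by
            have h5 : (q * B * N * K * μ ^ (-(ε * ρ))) ^ (2 * r) =
                (q * N) ^ (2 * r) * (B : ℝ) ^ (2 * r) * K ^ (2 * r) *
                  (μ ^ (-(ε * ρ))) ^ (2 * r) := by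
              rw [← mul_pow, ← mul_pow, ← mul_pow]
              congr 1
              ring
            rw [h5, h1, h4]
            ring)
  have hqB : 0 < q * B := by (clear * - hq0 hμ2; positivity)
  have hS : |SJ w m N| ≤ N * K * μ ^ (-(ε * ρ)) + 16 * A * B := by
    have h1 : q * B * |SJ w m N| ≤ q * B * (N * K * μ ^ (-(ε * ρ)) + 16 * A * B) := by
      refine hcore.trans (le_of_eq ?_)
      ring
    exact le_of_mul_le_mul_left h1 hqB
  have hρ1 : ρ ≤ 1 / 4 := by linarith only [hε4, hρ0, hρ8]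
  have h16 : 16 * (A : ℝ) * B ≤ 32 * N * μ ^ (-(ε * ρ)) := by
    calc 16 * (A : ℝ) * B ≤ 16 * y * (2 * μ ^ ρ) := by gcongr
      _ = 32 * N * (μ ^ (-(ρ + ε / 4)) * μ ^ ρ) := by
          rw [hy]
          ring
      _ = 32 * N * μ ^ (-(ε / 4)) := by
          rw [← Real.rpow_add hμ0]
          congr 2
          ring
      _ ≤ 32 * N * μ ^ (-(ε * ρ)) := by
          have : μ ^ (-(ε / 4)) ≤ μ ^ (-(ε * ρ)) :=
            Real.rpow_le_rpow_of_exponent_le hμ1.le (by nlinarith only [hρ0, hρ8, hε, hε4])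
          gcongr
  have hNμ : (N : ℝ) ≤ μ := by
    refine hN2.trans ?_
    calc μ ^ (1 / 2 + ε / 16) ≤ μ ^ (1 : ℝ) :=
          Real.rpow_le_rpow_of_exponent_le hμ1.le (by linarith only [hε4, hρ0, hρ8])
      _ = μ := Real.rpow_one μ
  have hfin : μ ^ (-(ε * ρ)) ≤ (N : ℝ) ^ (-(ε * ρ)) :=
    Real.rpow_le_rpow_of_nonpos hN0 hNμ (by
      have : 0 < ε * ρ := by (clear * - hε; positivity)
      linarith only [this])
  calc |SJ w m N| ≤ N * K * μ ^ (-(ε * ρ)) + 32 * N * μ ^ (-(ε * ρ)) := by linarith only [hS, h16]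
    _ = (K + 32) * (N * μ ^ (-(ε * ρ))) := by ring
    _ ≤ (K + 32) * (N * (N : ℝ) ^ (-(ε * ρ))) := by gcongr
    _ = (K + 32) * (N : ℝ) ^ (1 - ε * ρ) := by
        rw [sub_eq_add_neg, Real.rpow_add hN0, Real.rpow_one]

/-- MEDIUM RANGE `m^(1/2+ε/16) ≤ N ≤ m²`. -/
theorem medium_range (ε : ℝ) (hε : 0 < ε) (hε4 : ε ≤ 1 / 4) : ∃ (δ C : ℝ) (M : ℕ), 0 < δ ∧ 0 < C ∧
    ∀ m : ℕ, M ≤ m → Odd m → Squarefree m → ∀ w : ℕ → ℝ, (∀ n, |w n| ≤ 1) →
      (∀ n, w (n + 8) = w n) → ∀ N : ℕ, (m : ℝ) ^ (1 / 2 + ε / 16) ≤ N →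
      (N : ℝ) ≤ (m : ℝ) ^ 2 → |SJ w m N| ≤ C * (N : ℝ) ^ (1 - δ) := by
  obtain ⟨C, hC, hmom⟩ := moment_eps 1 le_rfl (ε / 32) (by (clear * - hε; positivity))
  set K : ℝ := √(4 * C) + 32 with hK
  have hK0 : 0 < K := by (clear * - hC; positivity)
  refine ⟨ε / 128, K, 2, by (clear * - hε; positivity), hK0, ?_⟩
  intro m hm2 hodd hsq w hw hw8 N hN1 hN2
  set μ : ℝ := (m : ℝ) with hμdef
  have hμ2 : (2 : ℝ) ≤ μ := by
    rw [hμdef]
    exact_mod_cast hm2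
  have hμ1 : 1 < μ := by linarith only [hε, hε4, hμ2]
  have hμ0 : 0 < μ := by linarith only [hε, hε4, hμ2]
  have hN0 : (0 : ℝ) < N := (Real.rpow_pos_of_pos hμ0 _).trans_le hN1
  have hN1' : (1 : ℝ) ≤ N := by
    have : 0 < N := by exact_mod_cast hN0
    exact_mod_cast this
  have hsμ : 1 ≤ √μ := by
    rw [Real.one_le_sqrt]
    exact hμ1.le
  set B : ℕ := ⌈√μ⌉₊ with hB
  have hB1 : √μ ≤ B := Nat.le_ceil _
  have hB2 : (B : ℝ) ≤ 2 * √μ := by
    have := Nat.ceil_lt_add_one (Real.sqrt_nonneg μ)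
    rw [← hB] at this
    linarith only [hsμ, this]
  have hB0 : (0 : ℝ) < B := by linarith only [hε, hε4, hsμ, hB1]
  have hB1' : 1 ≤ B := by exact_mod_cast hB0
  have hMo : ∑ x ∈ range m, ((∑ b ∈ Icc 1 B, jacobiSym ((x : ℤ) + b) m : ℤ) : ℝ) ^ (2 * 1) ≤
      2 * C * μ ^ (1 / 2 + ε / 32) * (B : ℝ) ^ 2 := by
    refine (hmom m hsq hodd B hB1').trans ?_
    have h1 : (B : ℝ) ^ 1 * μ ≤ (B : ℝ) ^ (2 * 1) * √μ := by
      calc (B : ℝ) ^ 1 * μ = (B : ℝ) ^ 1 * √μ * √μ := by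
            rw [mul_assoc, Real.mul_self_sqrt hμ0.le]
        _ ≤ (B : ℝ) ^ 1 * (B : ℝ) ^ 1 * √μ := by
            rw [pow_one]
            gcongr
        _ = (B : ℝ) ^ (2 * 1) * √μ := by rw [two_mul, pow_add]
    calc C * μ ^ (ε / 32) * ((B : ℝ) ^ 1 * μ + (B : ℝ) ^ (2 * 1) * √μ)
        ≤ C * μ ^ (ε / 32) * ((B : ℝ) ^ (2 * 1) * √μ + (B : ℝ) ^ (2 * 1) * √μ) := by gcongr
      _ = 2 * C * (μ ^ (1 / 2 : ℝ) * μ ^ (ε / 32)) * (B : ℝ) ^ 2 := by
          rw [Real.sqrt_eq_rpow, mul_one]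
          ring
      _ = 2 * C * μ ^ (1 / 2 + ε / 32) * (B : ℝ) ^ 2 := by rw [← Real.rpow_add hμ0]
  -- the two cases
  set z : ℝ := μ ^ (-(ε / 64)) with hz
  have hz0 : 0 < z := Real.rpow_pos_of_pos hμ0 _
  have hμN : (N : ℝ) * (N / μ + 1) * μ ^ (1 / 2 + ε / 32) ≤ 2 * (N * z) ^ 2 := by
    have hzz : z * z = μ ^ (-(ε / 32)) := by
      rw [hz, ← Real.rpow_add hμ0]
      congr 1
      ring
    rcases le_total (N : ℝ) μ with h | h
    · have h1 : (N : ℝ) / μ + 1 ≤ 2 := by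
        have := (div_le_one hμ0).2 h
        linarith only [this]
      have h2 : μ ^ (1 / 2 + ε / 32) ≤ N * μ ^ (-(ε / 32)) := by
        calc μ ^ (1 / 2 + ε / 32) = μ ^ (1 / 2 + ε / 16) * μ ^ (-(ε / 32)) := by
              rw [← Real.rpow_add hμ0]
              congr 1
              ring
          _ ≤ N * μ ^ (-(ε / 32)) := by gcongr
      calc (N : ℝ) * (N / μ + 1) * μ ^ (1 / 2 + ε / 32)
          ≤ N * 2 * (N * μ ^ (-(ε / 32))) := by gcongr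
        _ = 2 * (N * z) ^ 2 := by
            rw [← hzz]
            ring
    · have h1 : (N : ℝ) / μ + 1 ≤ 2 * (N / μ) := by
        have := (one_le_div hμ0).2 h
        linarith only [this]
      calc (N : ℝ) * (N / μ + 1) * μ ^ (1 / 2 + ε / 32)
          ≤ N * (2 * (N / μ)) * μ ^ (1 / 2 + ε / 32) := by gcongr
        _ = 2 * (N : ℝ) ^ 2 * (μ ^ (1 / 2 + ε / 32) * μ ^ (-(1 : ℝ))) := by
            rw [Real.rpow_neg_one]
            ring
        _ = 2 * (N : ℝ) ^ 2 * μ ^ (1 / 2 + ε / 32 + -(1 : ℝ)) := by rw [← Real.rpow_add hμ0]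
        _ ≤ 2 * (N : ℝ) ^ 2 * μ ^ (-(ε / 32)) := by
            have : μ ^ (1 / 2 + ε / 32 + -(1 : ℝ)) ≤ μ ^ (-(ε / 32)) :=
              Real.rpow_le_rpow_of_exponent_le hμ1.le (by linarith only [hε, hε4])
            gcongr
        _ = 2 * (N * z) ^ 2 := by
            rw [← hzz]
            ring
  have hsN : √μ ≤ N * z := by
    calc √μ = μ ^ (1 / 2 + ε / 16 + -(ε / 16)) := by
          rw [Real.sqrt_eq_rpow]
          congr 1
          ring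
      _ = μ ^ (1 / 2 + ε / 16) * μ ^ (-(ε / 16)) := Real.rpow_add hμ0 _ _
      _ ≤ N * z := by
          have : μ ^ (-(ε / 16)) ≤ z :=
            Real.rpow_le_rpow_of_exponent_le hμ1.le (by linarith only [hε])
          gcongr
  have hcore := A4_core m hodd w hw hw8 N 1 B 1 le_rfl {1}
    (fun a ha => by
      rw [mem_singleton] at ha
      subst ha
      exact ⟨le_rfl, le_rfl, Nat.coprime_one_left m⟩)
    (N * (N / μ + 1)) (2 * C * μ ^ (1 / 2 + ε / 32) * (B : ℝ) ^ 2)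
    (√(4 * C) * (N * z) * B) (nu_sq_one m hodd N) hMo (by (clear * - hC hN0 hm2; positivity)) (by
      have h1 : √(4 * C) ^ 2 = 4 * C := Real.sq_sqrt (by (clear * - hC; positivity))
      rw [show 2 * 1 - 2 = 0 from rfl, pow_zero, one_mul, mul_one, mul_pow, mul_pow, h1]
      calc (N : ℝ) * (N / μ + 1) * (2 * C * μ ^ (1 / 2 + ε / 32) * (B : ℝ) ^ 2)
          = 2 * C * (B : ℝ) ^ 2 * (N * (N / μ + 1) * μ ^ (1 / 2 + ε / 32)) := by ring
        _ ≤ 2 * C * (B : ℝ) ^ 2 * (2 * (N * z) ^ 2) := by gcongr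
        _ = 4 * C * (N * z) ^ 2 * (B : ℝ) ^ 2 := by ring)
  have hS : |SJ w m N| ≤ √(4 * C) * (N * z) + 16 * B := by
    have h1 : (B : ℝ) * |SJ w m N| ≤ B * (√(4 * C) * (N * z) + 16 * B) := by
      rw [card_singleton, Nat.cast_one, one_mul, mul_one] at hcore
      refine hcore.trans (le_of_eq ?_)
      ring
    exact le_of_mul_le_mul_left h1 hB0
  have hfin : z ≤ (N : ℝ) ^ (-(ε / 128)) := by
    have h1 : (N : ℝ) ^ (1 / 2 : ℝ) ≤ μ := by
      rw [← Real.sqrt_eq_rpow]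
      exact Real.sqrt_le_iff.2 ⟨hμ0.le, hN2⟩
    calc z ≤ ((N : ℝ) ^ (1 / 2 : ℝ)) ^ (-(ε / 64)) :=
          Real.rpow_le_rpow_of_nonpos (by (clear * - hN0; positivity)) h1 (by linarith only [hε])
      _ = (N : ℝ) ^ (-(ε / 128)) := by
          rw [← Real.rpow_mul hN0.le]
          congr 1
          ring
  calc |SJ w m N| ≤ √(4 * C) * (N * z) + 32 * (N * z) := by linarith only [hB2, hsN, hS]
    _ = K * (N * z) := by rw [hK]; ring
    _ ≤ K * (N * (N : ℝ) ^ (-(ε / 128))) := by gcongr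
    _ = K * (N : ℝ) ^ (1 - ε / 128) := by
        rw [sub_eq_add_neg, Real.rpow_add hN0, Real.rpow_one]

/-- THE BURGESS BOUND for real characters, sums starting at `1`, weight of period `8`. -/
theorem burgess (ε : ℝ) (hε : 0 < ε) : ∃ (δ C : ℝ) (M : ℕ), 0 < δ ∧ δ ≤ 1 / 2 ∧ 0 < C ∧
    ∀ m : ℕ, M ≤ m → Odd m → Squarefree m → ∀ w : ℕ → ℝ, (∀ n, |w n| ≤ 1) →
      (∀ n, w (n + 8) = w n) → ∀ N : ℕ, (m : ℝ) ^ (1 / 4 + ε) ≤ N →
      |SJ w m N| ≤ C * (N : ℝ) ^ (1 - δ) := by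
  set ε' : ℝ := min ε (1 / 4) with hε'
  have hε'0 : 0 < ε' := lt_min hε (by norm_num)
  have hε'4 : ε' ≤ 1 / 4 := min_le_right _ _
  have hε'ε : ε' ≤ ε := min_le_left _ _
  obtain ⟨δ₁, C₁, M₁, hδ₁, hC₁, h₁⟩ := short_range ε' hε'0 hε'4
  obtain ⟨δ₂, C₂, M₂, hδ₂, hC₂, h₂⟩ := medium_range ε' hε'0 hε'4
  set δ : ℝ := min (1 / 2) (min δ₁ δ₂) with hδ
  have hδ0 : 0 < δ := lt_min (by norm_num) (lt_min hδ₁ hδ₂)
  have hδ12 : δ ≤ 1 / 2 := min_le_left _ _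
  have hδ1 : δ ≤ δ₁ := (min_le_right _ _).trans (min_le_left _ _)
  have hδ2 : δ ≤ δ₂ := (min_le_right _ _).trans (min_le_right _ _)
  set C : ℝ := max 8 (max C₁ C₂) with hCdef
  have hC8 : 8 ≤ C := le_max_left _ _
  have hC1 : C₁ ≤ C := (le_max_left _ _).trans (le_max_right _ _)
  have hC2 : C₂ ≤ C := (le_max_right _ _).trans (le_max_right _ _)
  refine ⟨δ, C, max 2 (max M₁ M₂), hδ0, hδ12, by linarith only [hε'0, hε'4, hC8], ?_⟩
  intro m hmM hodd hsq w hw hw8 N hN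
  have hm2 : 2 ≤ m := (le_max_left _ _).trans hmM
  have hm1 : M₁ ≤ m := (le_max_left _ _).trans ((le_max_right _ _).trans hmM)
  have hm2' : M₂ ≤ m := (le_max_right _ _).trans ((le_max_right _ _).trans hmM)
  have hμ1 : (1 : ℝ) ≤ m := by exact_mod_cast (by omega : 1 ≤ m)
  have hμ0 : (0 : ℝ) < m := by linarith only [hε'0, hε'4, hμ1]
  have hN' : (m : ℝ) ^ (1 / 4 + ε') ≤ N :=
    (Real.rpow_le_rpow_of_exponent_le hμ1 (by linarith only [hε'ε])).trans hN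
  have hN0 : (0 : ℝ) < N := (Real.rpow_pos_of_pos hμ0 _).trans_le hN
  have hN1 : (1 : ℝ) ≤ N := by
    have : 0 < N := by exact_mod_cast hN0
    exact_mod_cast this
  rcases le_total (N : ℝ) ((m : ℝ) ^ (1 / 2 + ε' / 16)) with h | h
  · refine (h₁ m hm1 hodd hsq w hw hw8 N hN' h).trans ?_
    have : (N : ℝ) ^ (1 - δ₁) ≤ (N : ℝ) ^ (1 - δ) :=
      Real.rpow_le_rpow_of_exponent_le hN1 (by linarith only [hδ1])
    exact mul_le_mul hC1 this (by (clear * - hN0; positivity)) (by linarith only [hε'0, hε'4, hC8])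
  · rcases le_total (N : ℝ) ((m : ℝ) ^ 2) with h' | h'
    · refine (h₂ m hm2' hodd hsq w hw hw8 N h h').trans ?_
      have : (N : ℝ) ^ (1 - δ₂) ≤ (N : ℝ) ^ (1 - δ) :=
        Real.rpow_le_rpow_of_exponent_le hN1 (by linarith only [hδ2])
      exact mul_le_mul hC2 this (by (clear * - hN0; positivity)) (by linarith only [hε'0, hε'4, hC8])
    · refine (long_range m (by omega) hodd hsq w hw hw8 N).trans ?_
      have h3 : (m : ℝ) ≤ (N : ℝ) ^ (1 / 2 : ℝ) := by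
        rw [← Real.sqrt_eq_rpow]
        exact Real.le_sqrt_of_sq_le h'
      have h4 : (N : ℝ) ^ (1 / 2 : ℝ) ≤ (N : ℝ) ^ (1 - δ) :=
        Real.rpow_le_rpow_of_exponent_le hN1 (by linarith only [hδ12])
      exact mul_le_mul hC8 (h3.trans h4) hμ0.le (by linarith only [hε'0, hε'4, hC8])

end BG
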