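import Pool.Agent.W_aaa0df_h86.Defs
import Pool.Agent.W_MP_aaa0df_nt.RelA

/-!
# T1, C1: the Kronecker symbol `n ↦ (d/n)` as a function on the naturals
-/

set_option autoImplicit false

namespace BG

open Finset MPaaa0df

/-- the Kronecker symbol `(d / n)` for `n ≥ 1` (and `0` for `n = 0`) -/
def chi (d : ℤ) (n : ℕ) : ℤ :=
  if n = 0 then 0 else
    (if d % 8 = 1 then 1 else if d % 8 = 5 then -1 else 0) ^ (n.factorization 2) *
      jacobiSym d (ordCompl[2] n)

/-- The numbers `0, 1, -1`. -/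
def C1_T (x : ℤ) : Prop := x = 0 ∨ x = 1 ∨ x = -1

theorem C1_T_mul {x y : ℤ} (hx : C1_T x) (hy : C1_T y) : C1_T (x * y) := by
  unfold C1_T at *
  rcases hx with rfl | rfl | rfl <;> rcases hy with rfl | rfl | rfl <;> simp

theorem C1_T_pow {x : ℤ} (hx : C1_T x) (n : ℕ) : C1_T (x ^ n) := by
  induction n with
  | zero => exact Or.inr (Or.inl (pow_zero x))
  | succ n ih => rw [pow_succ]; exact C1_T_mul ih hx

theorem C1_T_jac (a : ℤ) (b : ℕ) : C1_T (jacobiSym a b) := jacobiSym.trichotomy a b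

theorem C1_T_abs {x : ℤ} (hx : C1_T x) : |(x : ℝ)| ≤ 1 := by
  rcases hx with rfl | rfl | rfl <;> simp

theorem C1_T_two (d : ℤ) : C1_T (if d % 8 = 1 then 1 else if d % 8 = 5 then -1 else 0) := by
  unfold C1_T
  split_ifs <;> simp

/-- PROOF. `(m n).factorization 2 = ..+..`, `ordCompl[2] (m n) = ordCompl[2] m * ordCompl[2] n`
(`Nat.ordCompl_mul`), `jacobiSym.mul_right`. -/
theorem chi_mul (d : ℤ) (m n : ℕ) : chi d (m * n) = chi d m * chi d n := by
  rcases Nat.eq_zero_or_pos m with rfl | hm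
  · simp [chi]
  rcases Nat.eq_zero_or_pos n with rfl | hn
  · simp [chi]
  have hm0 : m ≠ 0 := hm.ne'
  have hn0 : n ≠ 0 := hn.ne'
  unfold chi
  rw [if_neg (mul_ne_zero hm0 hn0), if_neg hm0, if_neg hn0, Nat.factorization_mul hm0 hn0,
    Finsupp.add_apply, pow_add]
  have h1 : m * n / 2 ^ (m.factorization 2 + n.factorization 2) =
      (m / 2 ^ m.factorization 2) * (n / 2 ^ n.factorization 2) := by
    have := Nat.ordCompl_mul m n 2
    rwa [Nat.factorization_mul hm0 hn0, Finsupp.add_apply] at this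
  rw [h1, jacobiSym.mul_right' d (Nat.ordCompl_pos 2 hm0).ne' (Nat.ordCompl_pos 2 hn0).ne']
  ring

/-- PROOF. `jacobiSym` takes the values `0, 1, -1`; so do the powers. -/
theorem chi_values (d : ℤ) (n : ℕ) : chi d n = 0 ∨ chi d n = 1 ∨ chi d n = -1 := by
  unfold chi
  split_ifs with h0
  · exact Or.inl rfl
  all_goals exact C1_T_mul (C1_T_pow (by unfold C1_T; simp) _) (C1_T_jac d _)

theorem chi_one (d : ℤ) : chi d 1 = 1 := by
  unfold chi
  simp

/-- PROOF. For odd `n` the factorization at `2` is `0` and `ordCompl[2] n = n`. -/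
theorem chi_odd (d : ℤ) (n : ℕ) (hn : Odd n) : chi d n = jacobiSym d n := by
  have h0 : n ≠ 0 := by
    rintro rfl
    exact absurd hn (by decide)
  have h1 : n.factorization 2 = 0 :=
    Nat.factorization_eq_zero_of_not_dvd (Odd.not_two_dvd_nat hn)
  unfold chi
  rw [if_neg h0, h1, pow_zero, pow_zero, Nat.div_one, one_mul]

theorem C1_two (d : ℤ) : chi d 2 = if d % 8 = 1 then 1 else if d % 8 = 5 then -1 else 0 := by
  have h1 : (2 : ℕ).factorization 2 = 1 := Nat.Prime.factorization_self Nat.prime_two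
  unfold chi
  rw [if_neg (by norm_num), h1, pow_one, pow_one, Nat.div_self (by norm_num), jacobiSym.one_right,
    mul_one]

/-- Splitting of a prime, also for `p = 2`.

PROOF. Odd `p`: `split_iff` (and if `p ∣ d` the symbol is `0`). `p = 2`: `x² ≡ d mod 8` with `d` odd
is solvable iff `d ≡ 1 mod 8` (`d ≡ 0, 1 mod 4`); `chi d 2 = 1` iff `d % 8 = 1`. -/
theorem chi_split (d : ℤ) (hd : d % 4 = 0 ∨ d % 4 = 1) (p : ℕ) (hp : p.Prime) :
    (¬ (p : ℤ) ∣ d ∧ ∃ x : ℤ, (4 * (p : ℤ)) ∣ x ^ 2 - d) ↔ chi d p = 1 := by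
  rcases hp.eq_two_or_odd' with rfl | hodd
  · rw [C1_two]
    constructor
    · rintro ⟨h1, x, hx⟩
      have h2 : (8 : ℤ) ∣ x ^ 2 - d := by
        have e : (4 * ((2 : ℕ) : ℤ)) = 8 := by norm_num
        rwa [e] at hx
      have h3 : ¬ (2 : ℤ) ∣ d := h1
      have h4 : x % 8 = 0 ∨ x % 8 = 1 ∨ x % 8 = 2 ∨ x % 8 = 3 ∨ x % 8 = 4 ∨ x % 8 = 5 ∨
        x % 8 = 6 ∨ x % 8 = 7 := by omega
      have h5 : x ^ 2 % 8 = (x % 8) ^ 2 % 8 := by
        rw [sq, sq, Int.mul_emod]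
      have h6 : d % 8 = 1 := by
        rcases h4 with h | h | h | h | h | h | h | h <;> rw [h] at h5 <;> norm_num at h5 <;> omega
      rw [if_pos h6]
    · intro h
      have h6 : d % 8 = 1 := by
        by_contra hc
        rw [if_neg hc] at h
        split_ifs at h <;> omega
      refine ⟨?_, 1, ?_⟩
      · change ¬ (2 : ℤ) ∣ d
        omega
      · have e : (4 * ((2 : ℕ) : ℤ)) = 8 := by norm_num
        rw [e]
        omega
  · rw [chi_odd d p hodd]
    have hp2 : p ≠ 2 := by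
      rintro rfl
      exact absurd hodd (by decide)
    have : Fact p.Prime := ⟨hp⟩
    constructor
    · rintro ⟨h1, h2⟩
      exact (MPaaa0df.split_iff hd hp hp2 h1).1 h2
    · intro h
      have h1 : ¬ (p : ℤ) ∣ d := by
        intro hdvd
        have e2 : jacobiSym d p = 0 := by
          rw [← jacobiSym.legendreSym.to_jacobiSym, legendreSym.eq_zero_iff,
            ZMod.intCast_zmod_eq_zero_iff_dvd]
          exact hdvd
        rw [e2] at h
        exact absurd h (by norm_num)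
      exact ⟨h1, (MPaaa0df.split_iff hd hp hp2 h1).2 h⟩

/-- `chi d p = 0` only for prime divisors of `d` (`d ≡ 0, 1 mod 4`).

PROOF. Odd `p`: `jacobiSym.eq_zero_iff_not_coprime`. `p = 2`: `chi d 2 = 0` means `d % 8 ∉ {1, 5}`, and
with `d ≡ 0, 1 mod 4` this gives `4 ∣ d`. -/
theorem chi_zero (d : ℤ) (hd : d % 4 = 0 ∨ d % 4 = 1) (p : ℕ) (hp : p.Prime)
    (h : chi d p = 0) : (p : ℤ) ∣ d := by
  rcases hp.eq_two_or_odd' with rfl | hodd
  · rw [C1_two] at h
    change (2 : ℤ) ∣ d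
    split_ifs at h with h1 h2 <;> omega
  · rw [chi_odd d p hodd] at h
    have : Fact p.Prime := ⟨hp⟩
    rwa [← jacobiSym.legendreSym.to_jacobiSym, legendreSym.eq_zero_iff,
      ZMod.intCast_zmod_eq_zero_iff_dvd] at h

/-- The weight. -/
def C1_w (d : ℤ) (v m n : ℕ) : ℤ :=
  if Odd n then (if 0 ≤ d then 1 else ZMod.χ₄ (n : ZMod 4)) * ZMod.χ₈ (n : ZMod 8) ^ v *
    qrSign n m else 0

theorem C1_w_T (d : ℤ) (v m n : ℕ) : C1_T (C1_w d v m n) := by
  unfold C1_w
  split_ifs with h1 h2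
  · exact C1_T_mul (C1_T_mul (Or.inr (Or.inl rfl)) (C1_T_pow (ZMod.isQuadratic_χ₈ _) v))
      (C1_T_jac _ _)
  · exact C1_T_mul (C1_T_mul (ZMod.isQuadratic_χ₄ _) (C1_T_pow (ZMod.isQuadratic_χ₈ _) v))
      (C1_T_jac _ _)
  · exact Or.inl rfl

theorem C1_w_per (d : ℤ) (v m n : ℕ) : C1_w d v m (n + 8) = C1_w d v m n := by
  have h4 : ((n + 8 : ℕ) : ZMod 4) = (n : ZMod 4) := by
    have h : (8 : ZMod 4) = 0 := by decide
    push_cast
    rw [h, add_zero]
  have h8 : ((n + 8 : ℕ) : ZMod 8) = (n : ZMod 8) := by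
    have h : (8 : ZMod 8) = 0 := by decide
    push_cast
    rw [h, add_zero]
  have ho : Odd (n + 8) ↔ Odd n := by
    rw [Nat.odd_iff, Nat.odd_iff]
    omega
  unfold C1_w qrSign
  simp only [h4, h8, ho]

/-- Reciprocity for the odd part: for `d ≠ 0` with `|d| = 2^v m`, `m` odd, there is a weight `w` of
period `8`, `|w| ≤ 1`, vanishing at even numbers, with `(d/n) = w(n) (n/m)` for odd `n`.

PROOF. For odd `n`: `d = ± 2^v m`, `jacobiSym d n = jacobiSym (±1) n * (jacobiSym 2 n)^v * jacobiSym m n`;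
`jacobiSym (-1) n = χ₄ n` (`jacobiSym.at_neg_one`), `jacobiSym 2 n = χ₈ n` (`jacobiSym.at_two`), and
`jacobiSym m n = jacobiSym n m` times `(-1)^((m/2)(n/2))` (`jacobiSym.quadratic_reciprocity`, both
odd), which depends only on `n mod 4`. Define `w n = 0` for even `n`. -/
theorem reciprocity (d : ℤ) (v m : ℕ) (hm : Odd m) (hd : d.natAbs = 2 ^ v * m) :
    ∃ w : ℕ → ℝ, (∀ n, |w n| ≤ 1) ∧ (∀ n, w (n + 8) = w n) ∧ (∀ n, Even n → w n = 0) ∧
      ∀ n : ℕ, Odd n → (jacobiSym d n : ℝ) = w n * (jacobiSym n m : ℝ) := by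
  refine ⟨fun n => (C1_w d v m n : ℝ), fun n => C1_T_abs (C1_w_T d v m n), fun n => ?_,
    fun n hn => ?_, fun n hn => ?_⟩
  · change ((C1_w d v m (n + 8) : ℤ) : ℝ) = _
    rw [C1_w_per]
  · have h : C1_w d v m n = 0 := by
      unfold C1_w
      rw [if_neg (Nat.not_odd_iff_even.2 hn)]
    change ((C1_w d v m n : ℤ) : ℝ) = 0
    rw [h, Int.cast_zero]
  · have hde : d = (if 0 ≤ d then 1 else -1) * ((2 : ℤ) ^ v * (m : ℤ)) := by
      have h1 : ((d.natAbs : ℕ) : ℤ) = (2 : ℤ) ^ v * (m : ℤ) := by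
        rw [hd]
        push_cast
        ring
      split_ifs with h0
      · rw [← h1]
        omega
      · rw [← h1]
        omega
    have h2 : jacobiSym d n = (if 0 ≤ d then 1 else ZMod.χ₄ (n : ZMod 4)) *
        ZMod.χ₈ (n : ZMod 8) ^ v * qrSign n m * jacobiSym n m := by
      have h3 : jacobiSym d n = jacobiSym (if 0 ≤ d then 1 else -1) n *
          (jacobiSym 2 n ^ v * jacobiSym m n) := by
        conv_lhs => rw [hde]
        rw [jacobiSym.mul_left, jacobiSym.mul_left, jacobiSym.pow_left]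
      rw [h3, jacobiSym.at_two hn, jacobiSym.quadratic_reciprocity' hm hn]
      have h4 : jacobiSym (if 0 ≤ d then 1 else -1) n =
          if 0 ≤ d then 1 else ZMod.χ₄ (n : ZMod 4) := by
        split_ifs
        · exact jacobiSym.one_left n
        · exact jacobiSym.at_neg_one hn
      rw [h4]
      ring
    have h5 : C1_w d v m n = (if 0 ≤ d then 1 else ZMod.χ₄ (n : ZMod 4)) *
        ZMod.χ₈ (n : ZMod 8) ^ v * qrSign n m := by
      unfold C1_w
      rw [if_pos hn]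
    change ((jacobiSym d n : ℤ) : ℝ) = ((C1_w d v m n : ℤ) : ℝ) * ((jacobiSym n m : ℤ) : ℝ)
    rw [h2, ← h5]
    push_cast
    ring

/-- A fundamental discriminant is `± 2^v m` with `m` odd and squarefree, `v ≤ 3`.

PROOF. `Twist.Fund`: `d ≡ 1 mod 4` squarefree (`v = 0`), or `d = 4 t`, `t ≡ 3 mod 4` squarefree
(`v = 2`), or `t ≡ 2 mod 4` squarefree (`v = 3`, `t = 2 s`, `s` odd squarefree). -/
theorem fund_odd_part (d : ℤ) (hd : Twist.Fund d) : ∃ v m : ℕ, v ≤ 3 ∧ Odd m ∧ Squarefree m ∧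
    d.natAbs = 2 ^ v * m := by
  rcases hd with ⟨h, hs⟩ | ⟨t, rfl, ht, hs⟩
  · refine ⟨0, d.natAbs, by norm_num, ?_, Int.squarefree_natAbs.2 hs, by simp⟩
    rw [Nat.odd_iff]
    omega
  · rcases ht with ht | ht
    · obtain ⟨s, rfl⟩ : ∃ s, t = 2 * s := ⟨t / 2, by omega⟩
      refine ⟨3, s.natAbs, le_rfl, ?_, Int.squarefree_natAbs.2
        (hs.squarefree_of_dvd (Dvd.intro_left 2 rfl)), ?_⟩
      · rw [Nat.odd_iff]
        omega
      · omega
    · refine ⟨2, t.natAbs, by norm_num, ?_, Int.squarefree_natAbs.2 hs, ?_⟩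
      · rw [Nat.odd_iff]
        omega
      · omega

/-- PROOF. Unfold. -/
theorem fund_mod (d : ℤ) (hd : Twist.Fund d) : d ≠ 0 ∧ (d % 4 = 0 ∨ d % 4 = 1) := by
  rcases hd with ⟨h, hs⟩ | ⟨t, rfl, ht, hs⟩
  · exact ⟨hs.ne_zero, Or.inr h⟩
  · have := hs.ne_zero
    refine ⟨by omega, Or.inl (by omega)⟩

end BG
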