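import Pool.Agent.W_aaa0df_bg.C1
import Pool.Agent.W_b58c63_h68.SgE

/-!
# T1, C2: the primitive Dirichlet character of a fundamental discriminant; `L(1, χ)`
-/

set_option autoImplicit false

namespace BG

open Finset DirichletCharacter

open scoped NumberTheorySymbols in
theorem C2_rec (d : ℤ) (h : d % 4 = 1) (n : ℕ) (hn : Odd n) :
    jacobiSym d n = jacobiSym (n : ℤ) d.natAbs := by
  rcases Int.natAbs_eq d with h1 | h1
  · have h2 : d.natAbs % 4 = 1 := by omega
    conv_lhs => rw [h1]
    exact jacobiSym.quadratic_reciprocity_one_mod_four h2 hn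
  · have h2 : d.natAbs % 4 = 3 := by omega
    have h3 : Odd d.natAbs := by
      rw [Nat.odd_iff]
      omega
    conv_lhs => rw [h1]
    rw [jacobiSym.neg _ hn]
    have h4 : n % 4 = 1 ∨ n % 4 = 3 := by
      have := Nat.odd_iff.1 hn
      omega
    rcases h4 with h4 | h4
    · rw [ZMod.χ₄_nat_one_mod_four h4, one_mul]
      exact jacobiSym.quadratic_reciprocity_one_mod_four' h3 h4
    · rw [ZMod.χ₄_nat_three_mod_four h4, jacobiSym.quadratic_reciprocity_three_mod_four h2 h4]
      ring

theorem C2_even (d : ℤ) (hd : d % 2 = 0) (n : ℕ) (hn : Even n) : chi d n = 0 := by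
  unfold chi
  split_ifs with h0 h1 h2
  · rfl
  · omega
  · omega
  · have h3 : 1 ≤ n.factorization 2 := by
      rw [← Nat.Prime.pow_dvd_iff_le_factorization Nat.prime_two h0, pow_one]
      exact hn.two_dvd
    rw [zero_pow (by omega), zero_mul]

theorem C2_two (d : ℤ) (h : d % 4 = 1) : chi d 2 = jacobiSym ((2 : ℕ) : ℤ) d.natAbs := by
  have hodd : Odd d.natAbs := by
    rw [Nat.odd_iff]
    omega
  have h1 : (2 : ℕ).factorization 2 = 1 := Nat.Prime.factorization_self Nat.prime_two
  have h2 : chi d 2 = if d % 8 = 1 then 1 else if d % 8 = 5 then -1 else 0 := by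
    unfold chi
    rw [h1]
    simp
  rw [h2, show ((2 : ℕ) : ℤ) = 2 by rfl, jacobiSym.at_two hodd, ZMod.χ₈_nat_eq_if_mod_eight]
  have h3 := Nat.odd_iff.1 hodd
  split_ifs <;> omega

/-- For `d ≡ 1 mod 4`. -/
theorem C2_odd (d : ℤ) (h : d % 4 = 1) (h1 : 1 < d.natAbs) (n : ℕ) :
    chi d n = jacobiSym (n : ℤ) d.natAbs := by
  induction n using Nat.strong_induction_on with
  | _ n ih =>
    rcases Nat.eq_zero_or_pos n with rfl | hn
    · rw [Nat.cast_zero, jacobiSym.zero_left h1]
      rfl
    rcases Nat.even_or_odd n with he | ho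
    · obtain ⟨k, hk⟩ := he
      have hk2 : n = 2 * k := by omega
      rw [hk2, chi_mul, ih k (by omega), C2_two d h, Nat.cast_mul, jacobiSym.mul_left]
    · rw [chi_odd d n ho, C2_rec d h n ho]

theorem C2_four (d t : ℤ) (hd : d = 4 * t) (n : ℕ) (hn : Odd n) : chi d n = jacobiSym t n := by
  rw [chi_odd d n hn, hd, jacobiSym.mul_left, jacobiSym.at_four hn, one_mul]

/-- A number `≡ 1` modulo `4 |e|`. -/
theorem C2_one (e : ℤ) (he : e ≠ 0) (a : ℕ) (ha : a ≡ 1 [MOD 4 * e.natAbs]) (hodd : Odd a) :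
    jacobiSym e a = 1 := by
  have he' : 0 < e.natAbs := Int.natAbs_pos.2 he
  rw [jacobiSym.mod_right e hodd]
  have h1 : a % (4 * e.natAbs) = 1 % (4 * e.natAbs) := ha
  rw [h1, Nat.mod_eq_of_lt (by omega), jacobiSym.one_right]

/-- Periodicity of the Kronecker symbol.

PROOF. `d ≡ 1 mod 4`: `chi d n = jacobiSym n d.natAbs` for every `n` (for odd `n` this is quadratic
reciprocity, for `n = 2` it is `jacobiSym.at_two` for `|d| ≡ ± 1, ± 3 mod 8`; both sides are completely
multiplicative; `n = 0`: both are `0` as `|d| > 1`), which has period `|d|`. `d = 4 t`,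
`t ≡ 3 mod 4`: zero for even `n`; for odd `n`, `jacobiSym d n = jacobiSym t n = χ₄(n) jacobiSym n |t|`
(reciprocity), period `4 |t|`. `d = 8 s`, `s` odd: for odd `n`, `jacobiSym (2 s) n =
χ₈(n) or χ₈'(n)` times `jacobiSym n |s|`, period `8 |s|`. -/
theorem chi_periodic (d : ℤ) (hd : Twist.Fund d) (h1 : 1 < d.natAbs) (n : ℕ) :
    chi d (n + d.natAbs) = chi d n := by
  rcases hd with ⟨h4, _⟩ | ⟨t, ht, _, _⟩
  · rw [C2_odd d h4 h1, C2_odd d h4 h1]
    refine jacobiSym.mod_left' ?_
    rw [Nat.cast_add, Int.add_emod_right]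
  · have hN : d.natAbs = 4 * t.natAbs := by
      rw [ht, Int.natAbs_mul]
      rfl
    rcases Nat.even_or_odd n with he | ho
    · rw [C2_even d (by omega) n he, C2_even d (by omega) _ ?_]
      rw [hN]
      exact he.add (Even.mul_right (by decide) _)
    · have ho2 : Odd (n + d.natAbs) := by
        rw [hN]
        exact ho.add_even (Even.mul_right (by decide) _)
      rw [C2_four d t ht n ho, C2_four d t ht _ ho2, jacobiSym.mod_right t ho2,
        jacobiSym.mod_right t ho, hN, Nat.add_mod_right]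

/-- The character detects every proper divisor of `|d|`: for each prime `p ∣ d` there is
`a ≡ 1 mod |d|/p`, coprime to `d`, with `chi d a = -1`.

PROOF. `p` odd (`p` divides `|d|` exactly once): take `a` odd, `a ≡ 1 mod 8|d|/p`-part coprime to `p`,
`a` a nonresidue mod `p` (Chinese remainder): all local factors are `1` except the one at `p`. If
`p = 2`, `|d| = 4 m`: `a ≡ 1 mod m`, `a ≡ 3 mod 4`; `|d| = 8 m`: `a ≡ 1 mod m`, `a ≡ 5 mod 8`
(`χ₈(5) = χ₈'(5) = -1`). Use the formulas of the proof of `chi_periodic`. -/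
theorem chi_detect (d : ℤ) (hd : Twist.Fund d) (h1 : 1 < d.natAbs) (p : ℕ) (hp : p.Prime)
    (hpd : p ∣ d.natAbs) : ∃ a : ℕ, a ≡ 1 [MOD (d.natAbs / p)] ∧ Nat.Coprime a d.natAbs ∧
      chi d a = -1 := by
  rcases hp.eq_two_or_odd' with rfl | hodd
  · -- `p = 2`
    rcases hd with ⟨h4, _⟩ | ⟨t, ht, h23, _⟩
    · exfalso
      omega
    have hN : d.natAbs = 4 * t.natAbs := by
      rw [ht, Int.natAbs_mul]
      rfl
    have hao : _root_.Odd (1 + 2 * t.natAbs) := by
      rw [Nat.odd_iff]
      omega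
    have hcop : Nat.Coprime (1 + 2 * t.natAbs) t.natAbs := by
      rw [Nat.coprime_add_mul_right_left]
      exact Nat.coprime_one_left _
    refine ⟨1 + 2 * t.natAbs, ?_, ?_, ?_⟩
    · have h2 : d.natAbs / 2 = 2 * t.natAbs := by omega
      rw [h2]
      show (1 + 2 * t.natAbs) % (2 * t.natAbs) = 1 % (2 * t.natAbs)
      rw [Nat.add_mod_right]
    · rw [hN]
      refine Nat.Coprime.mul_right ?_ hcop
      have h2 : Nat.Coprime (1 + 2 * t.natAbs) 2 := Nat.coprime_two_right.2 hao
      exact Nat.Coprime.mul_right h2 h2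
    · rw [C2_four d t ht _ hao]
      rcases h23 with h2 | h3
      · -- `t = 2 s`
        obtain ⟨s, hs⟩ : ∃ s, t = 2 * s := ⟨t / 2, by omega⟩
        have hs2 : t.natAbs = 2 * s.natAbs := by
          rw [hs, Int.natAbs_mul]
          rfl
        have hs0 : s ≠ 0 := by
          rintro rfl
          omega
        rw [hs, jacobiSym.mul_left, ← hs, jacobiSym.at_two hao, ZMod.χ₈_nat_eq_if_mod_eight,
          C2_one s hs0 _ ?_ hao]
        · split_ifs <;> omega
        · show (1 + 2 * t.natAbs) % (4 * s.natAbs) = 1 % (4 * s.natAbs)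
          rw [hs2, show 2 * (2 * s.natAbs) = 4 * s.natAbs by ring, Nat.add_mod_right]
      · -- `t ≡ 3 mod 4`
        have hone : jacobiSym ((1 + 2 * t.natAbs : ℕ) : ℤ) t.natAbs = 1 := by
          have h5 : jacobiSym ((1 + 2 * t.natAbs : ℕ) : ℤ) t.natAbs = jacobiSym 1 t.natAbs := by
            refine jacobiSym.mod_left' ?_
            push_cast
            rw [Int.add_mul_emod_self_right]
          rw [h5, jacobiSym.one_left]
        have ha4 : (1 + 2 * t.natAbs) % 4 = 3 := by omega
        rcases Int.natAbs_eq t with h5 | h5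
        · have h6 : t.natAbs % 4 = 3 := by omega
          have h7 := jacobiSym.quadratic_reciprocity_three_mod_four h6 ha4
          rw [hone, ← h5] at h7
          exact h7
        · have h6 : t.natAbs % 4 = 1 := by omega
          have h7 := jacobiSym.quadratic_reciprocity_one_mod_four h6 hao
          rw [hone] at h7
          have h8 : jacobiSym t (1 + 2 * t.natAbs) =
              jacobiSym (-(t.natAbs : ℤ)) (1 + 2 * t.natAbs) := by rw [← h5]
          rw [h8, jacobiSym.neg _ hao, ZMod.χ₄_nat_three_mod_four ha4, h7]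
          ring
  · -- `p` odd
    have : Fact p.Prime := ⟨hp⟩
    obtain ⟨e, he⟩ := hpd
    have hp0 : 0 < p := hp.pos
    have hpe : ¬ p ∣ e := by
      intro hpe
      obtain ⟨v, m, -, -, hsq, hdm⟩ := fund_odd_part d hd
      have h2 : p * p ∣ 2 ^ v * m := by
        rw [← hdm, he]
        exact Nat.mul_dvd_mul_left p hpe
      have h3 : Nat.Coprime (p * p) (2 ^ v) := by
        have h4 : Nat.Coprime p 2 := Nat.coprime_two_right.2 hodd
        exact Nat.Coprime.pow_right v (Nat.Coprime.mul_left h4 h4)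
      have h5 : p * p ∣ m := h3.dvd_of_dvd_mul_left h2
      exact hp.not_isUnit (hsq p h5)
    have he0 : 0 < e := by
      rcases Nat.eq_zero_or_pos e with h | h
      · rw [h] at he
        omega
      · exact h
    have hdiv : d.natAbs / p = e := by
      rw [he, Nat.mul_div_cancel_left _ hp0]
    have hring : ringChar (ZMod p) ≠ 2 := by
      rw [ZMod.ringChar_zmod_n]
      rintro rfl
      exact absurd hodd (by decide)
    obtain ⟨x, hx⟩ := FiniteField.exists_nonsquare hring
    have hcop : Nat.Coprime (8 * e) p := by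
      refine Nat.Coprime.mul_left ?_ ?_
      · have h4 : Nat.Coprime 2 p := Nat.coprime_two_left.2 hodd
        exact Nat.Coprime.pow_left 3 h4
      · exact (hp.coprime_iff_not_dvd.2 hpe).symm
    obtain ⟨a, ha1, ha2⟩ := Nat.chineseRemainder hcop 1 x.val
    have ha8 : a ≡ 1 [MOD 8] := ha1.of_mul_right e
    have hae : a ≡ 1 [MOD e] := by
      have := ha1
      rw [mul_comm] at this
      exact this.of_mul_right 8
    have ha4 : a % 4 = 1 := by
      have : a % 8 = 1 := ha8
      omega
    have hao : Odd a := by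
      rw [Nat.odd_iff]
      omega
    have hax : (a : ZMod p) = x := by
      have h5 : ((a : ℕ) : ZMod p) = ((x.val : ℕ) : ZMod p) := (ZMod.natCast_eq_natCast_iff _ _ _).2 ha2
      rw [h5, ZMod.natCast_zmod_val]
    have hap : Nat.Coprime a p := by
      rw [Nat.coprime_comm, hp.coprime_iff_not_dvd]
      intro h5
      apply hx
      rw [← hax, (ZMod.natCast_eq_zero_iff a p).2 h5]
      exact ⟨0, by simp⟩
    have hcae : Nat.Coprime a e := by
      have h5 : Nat.gcd a e = Nat.gcd 1 e := hae.gcd_eq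
      rw [Nat.coprime_iff_gcd_eq_one, h5, Nat.gcd_one_left]
    refine ⟨a, ?_, ?_, ?_⟩
    · rw [hdiv]
      exact hae
    · rw [he]
      exact Nat.Coprime.mul_right hap hcae
    · rw [chi_odd d a hao]
      obtain ⟨e', he'⟩ : ∃ e' : ℤ, d = e' * p := by
        have h5 : (p : ℤ) ∣ d := Int.natCast_dvd.2 ⟨e, he⟩
        obtain ⟨e', h6⟩ := h5
        exact ⟨e', by rw [h6, mul_comm]⟩
      have hee : e'.natAbs = e := by
        have h5 : d.natAbs = e'.natAbs * p := by
          rw [he', Int.natAbs_mul, Int.natAbs_natCast]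
        rw [he, mul_comm] at h5
        exact (Nat.eq_of_mul_eq_mul_right hp0 h5).symm
      have he0' : e' ≠ 0 := by
        rintro rfl
        rw [Int.natAbs_zero] at hee
        omega
      have h6 : jacobiSym e' a = 1 := by
        refine C2_one e' he0' a ?_ hao
        rw [hee]
        have h7 : 8 * e = 4 * e * 2 := by ring
        rw [h7] at ha1
        exact ha1.of_mul_right 2
      have h7 : jacobiSym (p : ℤ) a = jacobiSym (a : ℤ) p :=
        jacobiSym.quadratic_reciprocity_one_mod_four' hodd ha4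
      have h8 : jacobiSym (a : ℤ) p = -1 := by
        rw [ZMod.nonsquare_iff_jacobiSym_eq_neg_one, Int.cast_natCast, hax]
        exact hx
      rw [he', jacobiSym.mul_left, h6, h7, h8, one_mul]

/-- The primitive quadratic Dirichlet character attached to `d`.

PROOF. Define the `MulChar` on `ZMod |d|` by `a ↦ chi d a.val` (`chi_periodic`, `chi_mul`, zero at
nonunits: a common prime factor `p` of `a` and `d` gives `chi d p = 0`, hence `chi d a = 0`).
`χ² = 1` since the values at units are `± 1` (`chi_values`, and nonzero at units by `chi_zero`).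
Primitive: if the conductor `f` is a proper divisor of `|d|`, choose a prime `p ∣ |d|/f`, so
`f ∣ |d|/p`, and the `a` of `chi_detect` is `≡ 1 mod f`, so `χ a = 1`, contradiction
(`DirichletCharacter.factorsThrough_iff_ker_unitsMap` or the definition of `conductor`). -/
theorem exists_char (d : ℤ) (hd : Twist.Fund d) (h1 : 1 < d.natAbs) :
    ∃ χ : DirichletCharacter ℂ d.natAbs, χ.IsPrimitive ∧ χ ^ 2 = 1 ∧
      ∀ n : ℕ, χ (n : ZMod d.natAbs) = ((chi d n : ℤ) : ℂ) := by
  have hN0 : NeZero d.natAbs := ⟨by omega⟩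
  have hF : Fact (1 < d.natAbs) := ⟨h1⟩
  have hper : ∀ (k n : ℕ), chi d (n + d.natAbs * k) = chi d n := by
    intro k
    induction k with
    | zero => intro n; rw [mul_zero, add_zero]
    | succ k ih => intro n; rw [mul_add, mul_one, ← add_assoc, chi_periodic d hd h1, ih]
  have hmod : ∀ n : ℕ, chi d (n % d.natAbs) = chi d n := by
    intro n
    have := hper (n / d.natAbs) (n % d.natAbs)
    rw [Nat.mod_add_div] at this
    exact this.symm
  have hdm := (fund_mod d hd).2
  have hzero : ∀ n : ℕ, ¬ Nat.Coprime n d.natAbs → chi d n = 0 := by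
    intro n hn
    obtain ⟨p, hp, hpn, hpd⟩ := Nat.Prime.not_coprime_iff_dvd.1 hn
    have hp0 : chi d p = 0 := by
      rcases hp.eq_two_or_odd' with rfl | hodd
      · exact C2_even d (by omega) 2 (by decide)
      · rw [chi_odd d p hodd, jacobiSym.eq_zero_iff]
        refine ⟨hp.ne_zero, ?_⟩
        rw [Int.gcd_eq_natAbs, Int.natAbs_natCast, Nat.gcd_eq_right hpd]
        exact hp.ne_one
    obtain ⟨k, rfl⟩ := hpn
    rw [chi_mul, hp0, zero_mul]
  let χ : DirichletCharacter ℂ d.natAbs :=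
    { toFun := fun x => ((chi d x.val : ℤ) : ℂ)
      map_one' := by
        rw [ZMod.val_one, chi_one, Int.cast_one]
      map_mul' := fun x y => by
        rw [ZMod.val_mul, hmod, chi_mul, Int.cast_mul]
      map_nonunit' := fun x hx => by
        have h2 : ¬ Nat.Coprime x.val d.natAbs := by
          intro h3
          apply hx
          have h4 := (ZMod.isUnit_iff_coprime x.val d.natAbs).2 h3
          rwa [ZMod.natCast_zmod_val] at h4
        rw [hzero _ h2, Int.cast_zero] }
  have hval : ∀ n : ℕ, χ (n : ZMod d.natAbs) = ((chi d n : ℤ) : ℂ) := by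
    intro n
    show ((chi d (n : ZMod d.natAbs).val : ℤ) : ℂ) = _
    rw [ZMod.val_natCast, hmod]
  refine ⟨χ, ?_, ?_, hval⟩
  · -- primitive
    by_contra hne
    have hdvd := χ.conductor_dvd_level
    obtain ⟨k, hk⟩ := hdvd
    have hk1 : k ≠ 1 := by
      rintro rfl
      apply hne
      show χ.conductor = d.natAbs
      rw [mul_one] at hk
      exact hk.symm
    obtain ⟨p, hp, hpk⟩ := Nat.exists_prime_and_dvd hk1
    have hpd : p ∣ d.natAbs := by
      rw [hk]
      exact hpk.mul_left _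
    obtain ⟨a, ha1, ha2, ha3⟩ := chi_detect d hd h1 p hp hpd
    obtain ⟨hm, χ₀, hχ₀⟩ := χ.factorsThrough_conductor
    have hcd : χ.conductor ∣ d.natAbs / p := by
      obtain ⟨j, hj⟩ := hpk
      refine ⟨j, ?_⟩
      have h5 : d.natAbs = (χ.conductor * j) * p := by
        rw [mul_assoc, mul_comm j p, ← hj]
        exact hk
      exact Nat.div_eq_of_eq_mul_left hp.pos h5
    have h6 : χ (a : ZMod d.natAbs) = χ₀ (a : ZMod χ.conductor) := by
      have h7 := changeLevel_eq_cast_of_dvd' χ₀ hm (a := (a : ℤ)) (by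
        rw [Nat.isCoprime_iff_coprime]
        exact ha2)
      rw [← hχ₀] at h7
      rwa [Int.cast_natCast, Int.cast_natCast] at h7
    have h8 : (a : ZMod χ.conductor) = 1 := by
      have h9 : a ≡ 1 [MOD χ.conductor] := ha1.of_dvd hcd
      have := (ZMod.natCast_eq_natCast_iff a 1 χ.conductor).2 h9
      rw [this, Nat.cast_one]
    rw [hval, ha3, h8, map_one] at h6
    norm_num at h6
  · -- order two
    refine MulChar.ext fun u => ?_
    rw [MulChar.one_apply_coe, MulChar.pow_apply_coe]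
    have h2 : χ (u : ZMod d.natAbs) = ((chi d (u : ZMod d.natAbs).val : ℤ) : ℂ) := rfl
    have h3 : χ (u : ZMod d.natAbs) * χ ((u⁻¹ : (ZMod d.natAbs)ˣ) : ZMod d.natAbs) = 1 := by
      rw [← map_mul, Units.mul_inv, map_one]
    rcases chi_values d (u : ZMod d.natAbs).val with h4 | h4 | h4
    · rw [h2, h4, Int.cast_zero, zero_mul] at h3
      exact absurd h3 zero_ne_one
    · rw [h2, h4, Int.cast_one, one_pow]
    · rw [h2, h4]
      norm_num

/-- `L(1, χ)` is the limit of the partial sums, with error `O(q/N)`.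

PROOF. For real `σ > 1`, partial summation with `|∑_{n ≤ t} χ(n)| ≤ q` (the sum over a period
vanishes, `χ ≠ 1`): `|∑_{n > N} χ(n) n^(-σ)| ≤ 2 q N^(-σ) ≤ 2 q / N`. Let `σ → 1+`
(`LFunction χ` is continuous at `1`, equals the L-series for `σ > 1`; the finite sum is continuous). -/
theorem LOne_approx (q : ℕ) [NeZero q] (χ : DirichletCharacter ℂ q) (hχ : χ ≠ 1) (N : ℕ)
    (hN : 1 ≤ N) : ‖LFunction χ 1 - ∑ n ∈ Icc 1 N, χ (n : ZMod q) / (n : ℂ)‖ ≤ 2 * q / N := by
  have h1 := Pool.Agent.Wb58c63.sw_approx χ hχ (N := N + 1) (by omega) (s := 1) (by simp)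
  have h2 : ∑ n ∈ range (N + 1), χ (n : ZMod q) * (n : ℂ) ^ (-(1 : ℂ)) =
      ∑ n ∈ Icc 1 N, χ (n : ZMod q) / (n : ℂ) := by
    rw [Finset.sum_range_succ']
    have h3 : ((0 : ℕ) : ℂ) ^ (-(1 : ℂ)) = 0 := by
      rw [Nat.cast_zero, Complex.zero_cpow]
      norm_num
    rw [h3, mul_zero, add_zero]
    rw [Finset.sum_bij (fun (n : ℕ) _ => n + 1)]
    · intro n hn
      rw [Finset.mem_range] at hn
      rw [Finset.mem_Icc]
      omega
    · intro a _ b _ h
      exact Nat.succ_injective h
    · intro b hb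
      rw [Finset.mem_Icc] at hb
      exact ⟨b - 1, by rw [Finset.mem_range]; omega, by omega⟩
    · intro n _
      rw [Complex.cpow_neg_one, div_eq_mul_inv]
  rw [h2] at h1
  refine h1.trans ?_
  have h4 : (1 : ℝ) ≤ N := by exact_mod_cast hN
  have h5 : (((N + 1 : ℕ) : ℝ)) ^ (-(1 : ℂ).re) = 1 / (N + 1) := by
    rw [Complex.one_re, Real.rpow_neg_one]
    push_cast
    rw [one_div]
  rw [h5]
  have h6 : (1 : ℝ) + ‖(1 : ℂ)‖ / (1 : ℂ).re = 2 := by
    rw [norm_one, Complex.one_re]
    norm_num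
  rw [h6]
  have h7 : (0 : ℝ) ≤ q := Nat.cast_nonneg q
  have h8 : (1 : ℝ) / (N + 1) ≤ 1 / N := one_div_le_one_div_of_le (by linarith) (by linarith)
  calc (q : ℝ) * 2 * (1 / (N + 1)) ≤ q * 2 * (1 / N) :=
        mul_le_mul_of_nonneg_left h8 (by positivity)
    _ = 2 * q / N := by ring

/-- Siegel's theorem for fundamental discriminants, in terms of the real partial sums.

PROOF. `exists_char`, `L := (LFunction χ 1).re`; the partial sums are real, so `LOne_approx` gives
`|L - ∑ chi d n / n| ≤ 2|d|/N`, hence `LFunction χ 1` is real (imaginary part `≤ 2|d|/N` for all `N`),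
`|L| = ‖LFunction χ 1‖ ≥ c |d|^(-ε)` by `siegel`. (`χ ≠ 1`: primitive of modulus `> 1`.) -/
theorem siegel_fund (ε : ℝ) (hε : 0 < ε) : ∃ c : ℝ, 0 < c ∧ ∀ d : ℤ, Twist.Fund d →
    1 < d.natAbs → ∃ L : ℝ, c * (d.natAbs : ℝ) ^ (-ε) ≤ |L| ∧
      ∀ N : ℕ, 1 ≤ N → |L - ∑ n ∈ Icc 1 N, (chi d n : ℝ) / n| ≤ 2 * d.natAbs / N := by
  obtain ⟨c, hc, h⟩ := Pool.Agent.Wb58c63.siegel ε hε
  refine ⟨c, hc, fun d hd h1 => ?_⟩
  have hN0 : NeZero d.natAbs := ⟨by omega⟩
  obtain ⟨χ, hp, h2, hval⟩ := exists_char d hd h1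
  have hne := Pool.Agent.Wb58c63.sg_prim_ne_one χ h1 hp
  have hsum : ∀ N : ℕ, ∑ n ∈ Icc 1 N, χ (n : ZMod d.natAbs) / (n : ℂ) =
      ((∑ n ∈ Icc 1 N, (chi d n : ℝ) / n : ℝ) : ℂ) := by
    intro N
    push_cast
    refine Finset.sum_congr rfl fun n _ => ?_
    rw [hval]
  have happ := fun (N : ℕ) (hN : 1 ≤ N) => LOne_approx d.natAbs χ hne N hN
  have him : (LFunction χ 1).im = 0 := by
    have h3 : ∀ N : ℕ, 1 ≤ N → |(LFunction χ 1).im| ≤ 2 * d.natAbs / N := by
      intro N hN
      refine le_trans ?_ (happ N hN)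
      rw [hsum]
      have h4 := Complex.abs_im_le_norm
        (LFunction χ 1 - ((∑ n ∈ Icc 1 N, (chi d n : ℝ) / n : ℝ) : ℂ))
      rwa [Complex.sub_im, Complex.ofReal_im, sub_zero] at h4
    have h4 : Filter.Tendsto (fun N : ℕ => (2 * d.natAbs : ℝ) / N) Filter.atTop (nhds 0) :=
      tendsto_const_div_atTop_nhds_zero_nat _
    have h5 : |(LFunction χ 1).im| ≤ 0 := by
      refine ge_of_tendsto h4 ?_
      filter_upwards [Filter.eventually_ge_atTop 1] with N hN
      exact h3 N hN
    exact abs_nonpos_iff.1 h5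
  refine ⟨(LFunction χ 1).re, ?_, ?_⟩
  · have h3 := h d.natAbs χ h1 hp h2
    have h4 : ‖LFunction χ 1‖ = |(LFunction χ 1).re| := by
      rw [Complex.norm_def, Complex.normSq_apply, him, mul_zero, add_zero, Real.sqrt_mul_self_eq_abs]
    rwa [h4] at h3
  · intro N hN
    refine le_trans ?_ (happ N hN)
    rw [hsum]
    have h4 := Complex.abs_re_le_norm
      (LFunction χ 1 - ((∑ n ∈ Icc 1 N, (chi d n : ℝ) / n : ℝ) : ℂ))
    rwa [Complex.sub_re, Complex.ofReal_re] at h4

end BG
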