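import Pool.Agent.W_aaa0df_bg.C1
import Pool.Agent.W_aaa0df_bg.A4

/-!
# T1, C3: Burgess for `∑ chi d n`, and the divisor sums `r(n) = ∑_{m ∣ n} χ(m)`
-/

set_option autoImplicit false

namespace BG

open Finset

theorem C3_split (g : ℕ → ℝ) (M t : ℕ) (h : M ≤ t) :
    ∑ m ∈ Icc 1 t, g m = ∑ m ∈ Icc 1 M, g m + ∑ m ∈ Ioc M t, g m := by
  induction t, h using Nat.le_induction with
  | base => simp
  | succ t ht ih =>
    rw [Finset.sum_Icc_succ_top (by omega), Finset.sum_Ioc_succ_top ht, ih]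
    ring

theorem C3_abel (f : ℕ → ℝ) (t : ℕ) : ∑ m ∈ Icc 1 t, f m / m =
    (∑ m ∈ Icc 1 t, f m) / (t + 1) +
      ∑ m ∈ Icc 1 t, (∑ j ∈ Icc 1 m, f j) / (m * (m + 1)) := by
  induction t with
  | zero => simp
  | succ t ih =>
    simp only [Finset.sum_Icc_succ_top (show 1 ≤ t + 1 by omega), ih]
    have h1 : (t : ℝ) + 1 ≠ 0 := by (clear * -; positivity)
    have h2 : (t : ℝ) + 1 + 1 ≠ 0 := by (clear * -; positivity)
    push_cast
    field_simp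
    ring

theorem C3_rpow (δ : ℝ) (hδ : 0 < δ) (x : ℝ) (hx : 0 < x) :
    δ * (x + 1) ^ (-1 - δ) ≤ x ^ (-δ) - (x + 1) ^ (-δ) := by
  have hx1 : 0 < x + 1 := by linarith only [hx]
  have h1 : (x + 1) ^ (-1 - δ) = (x + 1) ^ (-δ) / (x + 1) := by
    rw [show -1 - δ = -δ - 1 by ring, Real.rpow_sub hx1, Real.rpow_one]
  have h2 : Real.log x ≤ Real.log (x + 1) - 1 / (x + 1) := by
    have h3 := Real.log_le_sub_one_of_pos (show 0 < x / (x + 1) by (clear * - hx; positivity))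
    rw [Real.log_div hx.ne' hx1.ne'] at h3
    have h4 : x / (x + 1) - 1 = -(1 / (x + 1)) := by
      field_simp
      ring
    linarith only [h3, h4]
  have h3 : (x + 1) ^ (-δ) * (1 + δ / (x + 1)) ≤ x ^ (-δ) := by
    rw [Real.rpow_def_of_pos hx, Real.rpow_def_of_pos hx1]
    have h5 : Real.log (x + 1) * -δ + δ / (x + 1) ≤ Real.log x * -δ := by
      have h6 := mul_le_mul_of_nonneg_left h2 hδ.le
      have h7 : δ * (Real.log (x + 1) - 1 / (x + 1)) = δ * Real.log (x + 1) - δ / (x + 1) := by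
        ring
      linarith only [h6, h7]
    calc Real.exp (Real.log (x + 1) * -δ) * (1 + δ / (x + 1))
        ≤ Real.exp (Real.log (x + 1) * -δ) * Real.exp (δ / (x + 1)) := by
          refine mul_le_mul_of_nonneg_left ?_ (Real.exp_pos _).le
          have := Real.add_one_le_exp (δ / (x + 1))
          linarith only [this]
      _ = Real.exp (Real.log (x + 1) * -δ + δ / (x + 1)) := (Real.exp_add _ _).symm
      _ ≤ Real.exp (Real.log x * -δ) := Real.exp_le_exp.2 h5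
  rw [h1]
  have h8 : (x + 1) ^ (-δ) * (1 + δ / (x + 1)) =
      (x + 1) ^ (-δ) + δ * ((x + 1) ^ (-δ) / (x + 1)) := by ring
  linarith only [h3, h8]

theorem C3_tail (δ : ℝ) (hδ : 0 < δ) (M t : ℕ) (hM : 1 ≤ M) (ht : M ≤ t) :
    ∑ m ∈ Ioc M t, (m : ℝ) ^ (-1 - δ) ≤ ((M : ℝ) ^ (-δ) - (t : ℝ) ^ (-δ)) / δ := by
  induction t, ht using Nat.le_induction with
  | base => simp
  | succ t ht ih =>
    rw [Finset.sum_Ioc_succ_top ht]
    have h1 := C3_rpow δ hδ t (by exact_mod_cast (show 0 < t by omega))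
    have h2 : ((t : ℝ) + 1) ^ (-1 - δ) ≤ ((t : ℝ) ^ (-δ) - ((t : ℝ) + 1) ^ (-δ)) / δ := by
      rw [le_div_iff₀ hδ]
      linarith only [h1]
    push_cast
    have h3 : ((M : ℝ) ^ (-δ) - ((t : ℝ) + 1) ^ (-δ)) / δ =
        ((M : ℝ) ^ (-δ) - (t : ℝ) ^ (-δ)) / δ +
          ((t : ℝ) ^ (-δ) - ((t : ℝ) + 1) ^ (-δ)) / δ := by ring
    linarith only [ih, h2, h3]

theorem C3_ineq (a g : ℕ → ℝ) (B : ℝ) (M t : ℕ) (ht : M + 1 ≤ t)
    (hB : ∀ s, M ≤ s → s ≤ t → |∑ m ∈ Ioc M s, a m| ≤ B)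
    (hg : ∀ s, M + 1 ≤ s → g (s + 1) ≤ g s) :
    |∑ m ∈ Ioc M t, a m * g m - (∑ m ∈ Ioc M t, a m) * g t| ≤ B * (g (M + 1) - g t) := by
  induction t, ht using Nat.le_induction with
  | base => simp
  | succ t ht ih =>
    have h1 := ih fun s h2 h3 => hB s h2 (by omega)
    rw [Finset.sum_Ioc_succ_top (by omega), Finset.sum_Ioc_succ_top (by omega)]
    have h2 : ∑ m ∈ Ioc M t, a m * g m + a (t + 1) * g (t + 1) -
        (∑ m ∈ Ioc M t, a m + a (t + 1)) * g (t + 1) =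
        (∑ m ∈ Ioc M t, a m * g m - (∑ m ∈ Ioc M t, a m) * g t) +
          (∑ m ∈ Ioc M t, a m) * (g t - g (t + 1)) := by ring
    rw [h2]
    refine (abs_add_le _ _).trans ?_
    have h3 : 0 ≤ g t - g (t + 1) := sub_nonneg.2 (hg t ht)
    have h4 : |(∑ m ∈ Ioc M t, a m) * (g t - g (t + 1))| ≤ B * (g t - g (t + 1)) := by
      rw [abs_mul, abs_of_nonneg h3]
      exact mul_le_mul_of_nonneg_right (hB t (by omega) (by omega)) h3
    have h5 : B * (g (M + 1) - g (t + 1)) = B * (g (M + 1) - g t) + B * (g t - g (t + 1)) := by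
      ring
    linarith only [h1, h4]

theorem C3_rec (d : ℤ) (w : ℕ → ℝ) (m : ℕ) (hev : ∀ n, Even n → w n = 0)
    (hodd : ∀ n : ℕ, Odd n → (jacobiSym d n : ℝ) = w n * (jacobiSym n m : ℝ)) (N : ℕ) :
    ∑ n ∈ Icc 1 N, (chi d n : ℝ) =
      SJ w m N + (chi d 2 : ℝ) * ∑ n ∈ Icc 1 (N / 2), (chi d n : ℝ) := by
  induction N with
  | zero => simp [SJ]
  | succ N ih =>
    unfold SJ at ih ⊢
    rw [Finset.sum_Icc_succ_top (by omega), ih, Finset.sum_Icc_succ_top (by omega)]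
    rcases Nat.even_or_odd (N + 1) with h | h
    · obtain ⟨k, hk⟩ := h
      have h1 : (N + 1) / 2 = N / 2 + 1 := by omega
      have h2 : N / 2 + 1 = k := by omega
      have h3 : chi d (N + 1) = chi d 2 * chi d k := by rw [hk, ← two_mul, chi_mul]
      rw [h1, Finset.sum_Icc_succ_top (by omega), hev _ ⟨k, hk⟩, h2, h3]
      push_cast
      ring
    · have h1 : (N + 1) / 2 = N / 2 := by
        obtain ⟨k, hk⟩ := h
        omega
      rw [h1, chi_odd d _ h, hodd _ h]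
      ring

theorem C3_abs (d : ℤ) (n : ℕ) : |(chi d n : ℝ)| ≤ 1 := by
  rcases chi_values d n with h | h | h <;> rw [h] <;> norm_num

theorem C3_triv (d : ℤ) (N : ℕ) : |∑ n ∈ Icc 1 N, (chi d n : ℝ)| ≤ N := by
  refine (Finset.abs_sum_le_sum_abs _ _).trans ((Finset.sum_le_sum fun n _ => C3_abs d n).trans ?_)
  simp

theorem C3_half (δ : ℝ) (hδ : δ ≤ 1 / 2) (N : ℕ) :
    ((N / 2 : ℕ) : ℝ) ^ (1 - δ) ≤ 3 / 4 * (N : ℝ) ^ (1 - δ) := by
  have h1 : ((N / 2 : ℕ) : ℝ) ≤ 1 / 2 * (N : ℝ) := by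
    have := Nat.cast_div_le (α := ℝ) (m := N) (n := 2)
    push_cast at this
    linarith only [this]
  have h2 : ((N / 2 : ℕ) : ℝ) ^ (1 - δ) ≤ (1 / 2 * (N : ℝ)) ^ (1 - δ) :=
    Real.rpow_le_rpow (Nat.cast_nonneg _) h1 (by linarith only [hδ])
  rw [Real.mul_rpow (by norm_num) (Nat.cast_nonneg _)] at h2
  have h3 : (1 / 2 : ℝ) ^ (1 - δ) ≤ (1 / 2 : ℝ) ^ (1 / 2 : ℝ) :=
    Real.rpow_le_rpow_of_exponent_ge (by norm_num) (by norm_num) (by linarith only [hδ])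
  have h4 : (1 / 2 : ℝ) ^ (1 / 2 : ℝ) ≤ 3 / 4 := by
    rw [← Real.sqrt_eq_rpow]
    exact Real.sqrt_le_iff.2 ⟨by norm_num, by norm_num⟩
  exact h2.trans (mul_le_mul_of_nonneg_right (h3.trans h4)
    (Real.rpow_nonneg (Nat.cast_nonneg _) _))

theorem C3_bound (δ C Y : ℝ) (hδ : δ ≤ 1 / 2) (hC : 0 < C) (hY : 0 < Y) (d : ℤ)
    (w : ℕ → ℝ) (m : ℕ) (hev : ∀ n, Even n → w n = 0)
    (hodd : ∀ n : ℕ, Odd n → (jacobiSym d n : ℝ) = w n * (jacobiSym n m : ℝ))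
    (hSJ : ∀ N : ℕ, Y ≤ N → |SJ w m N| ≤ C * (N : ℝ) ^ (1 - δ)) (N : ℕ) :
    |∑ n ∈ Icc 1 N, (chi d n : ℝ)| ≤ 4 * C * (N : ℝ) ^ (1 - δ) + Y := by
  induction N using Nat.strong_induction_on with
  | _ N ih =>
    have h0 : 0 ≤ (N : ℝ) ^ (1 - δ) := Real.rpow_nonneg (Nat.cast_nonneg _) _
    by_cases h : Y ≤ N
    · have hN : 1 ≤ N := by
        by_contra h1
        have h2 : N = 0 := by omega
        rw [h2, Nat.cast_zero] at h
        linarith only [hY, h]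
      rw [C3_rec d w m hev hodd N]
      have h1 := ih (N / 2) (by omega)
      have h2 : |(chi d 2 : ℝ) * ∑ n ∈ Icc 1 (N / 2), (chi d n : ℝ)| ≤
          4 * C * ((N / 2 : ℕ) : ℝ) ^ (1 - δ) + Y := by
        rw [abs_mul]
        calc |(chi d 2 : ℝ)| * |∑ n ∈ Icc 1 (N / 2), (chi d n : ℝ)|
            ≤ 1 * |∑ n ∈ Icc 1 (N / 2), (chi d n : ℝ)| :=
              mul_le_mul_of_nonneg_right (C3_abs d 2) (abs_nonneg _)
          _ ≤ _ := by rw [one_mul]; exact h1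
      have h3 := mul_le_mul_of_nonneg_left (C3_half δ hδ N) (show 0 ≤ 4 * C by (clear * - hC; positivity))
      refine (abs_add_le _ _).trans ?_
      have h4 := hSJ N h
      nlinarith only [h2, h3, h4]
    · push Not at h
      have h1 := C3_triv d N
      have h2 : 0 ≤ 4 * C * (N : ℝ) ^ (1 - δ) := by (clear * - hC; positivity)
      linarith only [h, h1, h2]

/-- Burgess for the Kronecker symbol of a fundamental discriminant.

PROOF. Write `n = 2^a n'`: `∑_{n ≤ N} chi d n = ∑_{a ≥ 0, 2^a ≤ N} (chi d 2)^a S_odd(N/2^a)`,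
`S_odd(N') = ∑_{n' ≤ N', odd} jacobiSym d n' = SJ w m N'` with `w, m` from `reciprocity`,
`fund_odd_part` (`w` vanishes at even numbers). `m ≤ |d| ≤ 8 m`. For `N/2^a ≥ m^(1/4+ε/2)` apply
`burgess (ε/2)`: these contribute at most `∑_a C (N/2^a)^(1-δ) ≤ C' N^(1-δ)` (geometric series, ratio
`2^(-(1-δ)) ≤ 2^(-1/2)`); the other `a` contribute at most `∑ N/2^a ≤ 2 m^(1/4+ε/2) ≤ 2 N^(1-δ')`
because `N ≥ |d|^(1/4+ε)`. Natural number division `N / 2^a` is meant as floor; the number of odd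
`n' ≤ N/2^a`. -/
theorem burgess_chi (ε : ℝ) (hε : 0 < ε) (hε4 : ε ≤ 1 / 4) : ∃ (δ C D : ℝ), 0 < δ ∧ δ ≤ 1 / 2 ∧
    0 < C ∧ ∀ d : ℤ, Twist.Fund d → D ≤ |(d : ℝ)| → ∀ N : ℕ, |(d : ℝ)| ^ (1 / 4 + ε) ≤ N →
      |∑ n ∈ Icc 1 N, (chi d n : ℝ)| ≤ C * (N : ℝ) ^ (1 - δ) := by
  obtain ⟨δ₀, C₀, M₀, hδ₀, hδ₁, hC₀, hB⟩ := burgess (ε / 2) (by linarith only [hε])
  refine ⟨min δ₀ ε, 4 * C₀ + 1, 8 * M₀ + 1, lt_min hδ₀ hε, (min_le_left _ _).trans hδ₁,
    by (clear * - hC₀; positivity), fun d hd hD N hN => ?_⟩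
  obtain ⟨v, m, hv, hmodd, hsq, hdm⟩ := fund_odd_part d hd
  obtain ⟨w, hw1, hw8, hev, hodd⟩ := reciprocity d v m hmodd hdm
  have habs : |(d : ℝ)| = 2 ^ v * m := by
    have h1 : ((d.natAbs : ℕ) : ℝ) = |(d : ℝ)| := by
      rw [Nat.cast_natAbs, Int.cast_abs]
    rw [← h1, hdm]
    push_cast
    ring
  have h2v : (1 : ℝ) ≤ 2 ^ v := one_le_pow₀ (by norm_num)
  have h2v' : (2 : ℝ) ^ v ≤ 8 := by
    calc (2 : ℝ) ^ v ≤ 2 ^ 3 := pow_le_pow_right₀ (by norm_num) hv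
      _ = 8 := by norm_num
  have hm0 : (0 : ℝ) ≤ m := Nat.cast_nonneg _
  have hmM : M₀ ≤ m := by
    by_contra h1
    push Not at h1
    have h2 : (m : ℝ) + 1 ≤ M₀ := by exact_mod_cast h1
    have h3 : |(d : ℝ)| ≤ 8 * m := by
      rw [habs]
      exact mul_le_mul_of_nonneg_right h2v' hm0
    linarith only [hε, hε4, hD, h2, h3]
  have hm1 : 1 ≤ (m : ℝ) := by
    have h1 := hmodd.pos
    exact_mod_cast h1
  have hmd : (m : ℝ) ≤ |(d : ℝ)| := by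
    rw [habs]
    nlinarith only [h2v]
  have hY0 : 0 < (m : ℝ) ^ (1 / 4 + ε / 2) := Real.rpow_pos_of_pos (by linarith only [hε, hε4, hm1]) _
  have hT := C3_bound δ₀ C₀ ((m : ℝ) ^ (1 / 4 + ε / 2)) hδ₁ hC₀ hY0 d w m hev hodd
    (fun N' hN' => hB m hmM hmodd hsq w hw1 hw8 N' hN') N
  have hd1 : 1 ≤ |(d : ℝ)| := hm1.trans hmd
  have hN1 : (1 : ℝ) ≤ N := (Real.one_le_rpow hd1 (by linarith only [hε, hε4])).trans hN
  have hY : (m : ℝ) ^ (1 / 4 + ε / 2) ≤ (N : ℝ) ^ (1 - min δ₀ ε) := by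
    calc (m : ℝ) ^ (1 / 4 + ε / 2) ≤ |(d : ℝ)| ^ (1 / 4 + ε / 2) :=
          Real.rpow_le_rpow hm0 hmd (by linarith only [hε, hε4])
      _ ≤ |(d : ℝ)| ^ ((1 / 4 + ε) * (1 - ε)) :=
          Real.rpow_le_rpow_of_exponent_le hd1 (by nlinarith only [hε, hε4])
      _ = (|(d : ℝ)| ^ (1 / 4 + ε)) ^ (1 - ε) := Real.rpow_mul (abs_nonneg _) _ _
      _ ≤ (N : ℝ) ^ (1 - ε) := Real.rpow_le_rpow (by (clear * - hd1; positivity)) hN (by linarith only [hε, hε4])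
      _ ≤ (N : ℝ) ^ (1 - min δ₀ ε) :=
          Real.rpow_le_rpow_of_exponent_le hN1 (by linarith only [min_le_right δ₀ ε])
  have hN2 : (N : ℝ) ^ (1 - δ₀) ≤ (N : ℝ) ^ (1 - min δ₀ ε) :=
    Real.rpow_le_rpow_of_exponent_le hN1 (by linarith only [min_le_left δ₀ ε])
  have h4 := mul_le_mul_of_nonneg_left hN2 (show 0 ≤ 4 * C₀ by (clear * - hC₀; positivity))
  linarith only [hT, hY, h4]

/-- the divisor sum `r(n)` -/
def rr (f : ℕ → ℤ) (n : ℕ) : ℤ := ∑ m ∈ n.divisors, f m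

/-- abstract completely multiplicative function with values in `{0, 1, -1}` -/
structure CM (f : ℕ → ℤ) : Prop where
  one : f 1 = 1
  mul : ∀ m n, f (m * n) = f m * f n
  val : ∀ n, f n = 0 ∨ f n = 1 ∨ f n = -1

/-- PROOF. `chi_one`, `chi_mul`, `chi_values`. -/
theorem CM_chi (d : ℤ) : CM (chi d) := ⟨chi_one d, chi_mul d, chi_values d⟩

theorem C3_pow (f : ℕ → ℤ) (hf : CM f) (p j : ℕ) : f (p ^ j) = f p ^ j := by
  induction j with
  | zero => rw [pow_zero, pow_zero, hf.one]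
  | succ j ih => rw [pow_succ, pow_succ, hf.mul, ih]

theorem C3_geom (x : ℤ) (hx : x = 0 ∨ x = 1 ∨ x = -1) (k : ℕ) :
    0 ≤ ∑ j ∈ range (k + 1), x ^ j := by
  rcases hx with rfl | rfl | rfl
  · exact Finset.sum_nonneg fun j _ => by (clear * -; positivity)
  · exact Finset.sum_nonneg fun j _ => by (clear * -; positivity)
  · rw [neg_one_geom_sum]
    split_ifs <;> norm_num

theorem C3_mul (f : ℕ → ℤ) (hf : CM f) (a b : ℕ) (hab : a.Coprime b) :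
    rr f (a * b) = rr f a * rr f b := by
  let F : ArithmeticFunction ℤ := ⟨fun n => if n = 0 then 0 else f n, by simp⟩
  have hF : F.IsMultiplicative := by
    refine ArithmeticFunction.IsMultiplicative.iff_ne_zero.2 ⟨?_, fun {m n} hm hn _ => ?_⟩
    · change (if (1 : ℕ) = 0 then 0 else f 1) = 1
      rw [if_neg one_ne_zero, hf.one]
    · change (if m * n = 0 then 0 else f (m * n)) =
        (if m = 0 then 0 else f m) * (if n = 0 then 0 else f n)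
      rw [if_neg hm, if_neg hn, if_neg (mul_ne_zero hm hn), hf.mul]
  have hG := hF.mul (ArithmeticFunction.isMultiplicative_zeta.natCast (R := ℤ))
  have hrr : ∀ n, (F * ((ArithmeticFunction.zeta : ArithmeticFunction ℕ) :
      ArithmeticFunction ℤ)) n = rr f n := by
    intro n
    rw [ArithmeticFunction.coe_mul_zeta_apply]
    refine Finset.sum_congr rfl fun m hm => ?_
    change (if m = 0 then 0 else f m) = f m
    rw [if_neg (Nat.pos_of_mem_divisors hm).ne']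
  rw [← hrr, ← hrr, ← hrr]
  exact hG.map_mul_of_coprime hab

/-- PROOF. `rr f` is multiplicative (Dirichlet convolution of `1` and `f`; e.g.
`Nat.Coprime.sum_divisors_mul`..., or `ArithmeticFunction.IsMultiplicative`), at a prime power
`rr f (p^k) = ∑_{j ≤ k} f(p)^j ≥ 0`. And `rr f n ≤` number of divisors, as `f ≤ 1`. -/
theorem rr_nonneg (f : ℕ → ℤ) (hf : CM f) (n : ℕ) : 0 ≤ rr f n ∧ rr f n ≤ n.divisors.card := by
  constructor
  · induction n using Nat.recOnPosPrimePosCoprime with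
    | prime_pow p k hp hk =>
      unfold rr
      rw [Nat.sum_divisors_prime_pow hp]
      have h1 := C3_geom (f p) (hf.val p) k
      refine h1.trans_eq (Finset.sum_congr rfl fun j _ => ?_)
      rw [C3_pow f hf]
    | zero => simp [rr]
    | one => simp [rr, hf.one]
    | coprime a b ha hb hab iha ihb =>
      rw [C3_mul f hf a b hab]
      exact mul_nonneg iha ihb
  · unfold rr
    have h1 : ∑ m ∈ n.divisors, f m ≤ ∑ m ∈ n.divisors, (1 : ℤ) := by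
      refine Finset.sum_le_sum fun m _ => ?_
      rcases hf.val m with h | h | h <;> rw [h] <;> norm_num
    simpa using h1

/-- the summatory function -/
def R (f : ℕ → ℤ) (N : ℕ) : ℤ := ∑ n ∈ Icc 1 N, rr f n

theorem C3_R_eq (f : ℕ → ℤ) (N : ℕ) : R f N = ∑ m ∈ Icc 1 N, f m * ((N / m : ℕ) : ℤ) := by
  unfold R rr
  rw [Finset.sum_comm' (t' := Icc 1 N) (s' := fun m => (Icc 1 N).filter fun n => m ∣ n)]
  · refine Finset.sum_congr rfl fun m hm => ?_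
    rw [Finset.sum_const, nsmul_eq_mul, mul_comm]
    congr 2
    have h1 := Nat.Ioc_filter_dvd_card_eq_div N m
    rw [← h1]
    rfl
  · intro n m
    simp only [Finset.mem_Icc, Nat.mem_divisors, Finset.mem_filter]
    constructor
    · rintro ⟨⟨h1, h2⟩, h3, h4⟩
      exact ⟨⟨⟨h1, h2⟩, h3⟩, Nat.pos_of_dvd_of_pos h3 (by omega), (Nat.le_of_dvd (by omega) h3).trans h2⟩
    · rintro ⟨⟨⟨h1, h2⟩, h3⟩, _, _⟩
      exact ⟨⟨h1, h2⟩, h3, by omega⟩

/-- PROOF. `0 ≤ R` by `rr_nonneg`; `R f N ≤ ∑_{n ≤ N} τ(n) = ∑_{m ≤ N} ⌊N/m⌋ ≤ N (1 + log N)`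
(`∑ 1/m ≤ 1 + log N`: `harmonic_le_one_add_log`). -/
theorem R_bounds (f : ℕ → ℤ) (hf : CM f) (N : ℕ) (hN : 1 ≤ N) :
    0 ≤ R f N ∧ ((R f N : ℤ) : ℝ) ≤ N * (1 + Real.log N) := by
  refine ⟨Finset.sum_nonneg fun n _ => (rr_nonneg f hf n).1, ?_⟩
  have h1 : R f N ≤ R (fun _ => 1) N := by
    refine Finset.sum_le_sum fun n _ => ?_
    have h2 := (rr_nonneg f hf n).2
    refine h2.trans_eq ?_
    simp [rr]
  rw [C3_R_eq (fun _ => 1) N] at h1
  have h3 : ((R f N : ℤ) : ℝ) ≤ ∑ m ∈ Icc 1 N, ((N / m : ℕ) : ℝ) := by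
    have h4 : ((R f N : ℤ) : ℝ) ≤ ((∑ m ∈ Icc 1 N, 1 * ((N / m : ℕ) : ℤ) : ℤ) : ℝ) := by
      exact_mod_cast h1
    refine h4.trans_eq ?_
    rw [Int.cast_sum]
    refine Finset.sum_congr rfl fun m _ => ?_
    rw [one_mul, Int.cast_natCast]
  refine h3.trans ?_
  have h5 : ∑ m ∈ Icc 1 N, ((N / m : ℕ) : ℝ) ≤ N * ∑ m ∈ Icc 1 N, ((m : ℝ))⁻¹ := by
    rw [Finset.mul_sum]
    refine Finset.sum_le_sum fun m _ => ?_
    rw [← div_eq_mul_inv]
    exact Nat.cast_div_le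
  refine h5.trans (mul_le_mul_of_nonneg_left ?_ (Nat.cast_nonneg _))
  have h6 := harmonic_le_one_add_log N
  rw [harmonic_eq_sum_Icc] at h6
  push_cast at h6
  exact h6

/-- PROOF. Exchange the sums: `∑_{n ≤ N} ∑_{m ∣ n} f(m) = ∑_{m ≤ N} f(m) (N / m)`. -/
theorem R_eq (f : ℕ → ℤ) (N : ℕ) : R f N = ∑ m ∈ Icc 1 N, f m * ((N / m : ℕ) : ℤ) :=
  C3_R_eq f N

theorem C3_Ltail (δ C : ℝ) (hδ : 0 < δ) (hC : 0 < C) (f : ℕ → ℝ) (M t : ℕ) (hM : 1 ≤ M)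
    (ht : M ≤ t) (hS : ∀ s : ℕ, M ≤ s → |∑ n ∈ Icc 1 s, f n| ≤ C * (s : ℝ) ^ (1 - δ)) :
    |∑ m ∈ Icc 1 t, f m / m - ∑ m ∈ Icc 1 M, f m / m| ≤ C * (2 + 1 / δ) * (M : ℝ) ^ (-δ) := by
  have hMr : (0 : ℝ) < M := by exact_mod_cast (show 0 < M by omega)
  have h4 : 0 < (M : ℝ) ^ (-δ) := Real.rpow_pos_of_pos hMr _
  have hpow : ∀ s : ℕ, M ≤ s → (s : ℝ) ^ (1 - δ) = s * (s : ℝ) ^ (-δ) := by
    intro s hs
    have hsr : (0 : ℝ) < s := by exact_mod_cast (show 0 < s by omega)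
    rw [show 1 - δ = 1 + -δ by ring, Real.rpow_add hsr, Real.rpow_one]
  have key : ∀ s : ℕ, M ≤ s → |(∑ m ∈ Icc 1 s, f m) / (s + 1)| ≤ C * (M : ℝ) ^ (-δ) := by
    intro s hs
    have hsr : (0 : ℝ) < s := by exact_mod_cast (show 0 < s by omega)
    have h0 : (0 : ℝ) < (s : ℝ) + 1 := by (clear * - hsr; positivity)
    rw [abs_div, abs_of_pos h0, div_le_iff₀ h0]
    have h1 := hS s hs
    have h3 : (s : ℝ) ^ (-δ) ≤ (M : ℝ) ^ (-δ) :=
      Real.rpow_le_rpow_of_nonpos hMr (by exact_mod_cast hs) (by linarith only [hδ])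
    rw [hpow s hs] at h1
    calc |∑ m ∈ Icc 1 s, f m| ≤ C * (s * (s : ℝ) ^ (-δ)) := h1
      _ ≤ C * (s * (M : ℝ) ^ (-δ)) := by gcongr
      _ ≤ C * (M : ℝ) ^ (-δ) * (s + 1) := by nlinarith only [hC, h4, mul_pos hC h4]
  have h5 : |∑ m ∈ Ioc M t, (∑ j ∈ Icc 1 m, f j) / (m * (m + 1))| ≤
      C * ((M : ℝ) ^ (-δ) / δ) := by
    refine (Finset.abs_sum_le_sum_abs _ _).trans ?_
    have h6 : ∀ m ∈ Ioc M t, |(∑ j ∈ Icc 1 m, f j) / (m * (m + 1))| ≤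
        C * (m : ℝ) ^ (-1 - δ) := by
      intro m hm
      have hm1 : M < m := (Finset.mem_Ioc.1 hm).1
      have hmr : (0 : ℝ) < m := by exact_mod_cast (show 0 < m by omega)
      have h0 : (0 : ℝ) < (m : ℝ) * (m + 1) := by (clear * - hmr; positivity)
      rw [abs_div, abs_of_pos h0, div_le_iff₀ h0]
      refine (hS m hm1.le).trans ?_
      have h7 : (m : ℝ) ^ (-1 - δ) * (m * m) = (m : ℝ) ^ (1 - δ) := by
        rw [show 1 - δ = (-1 - δ) + 1 + 1 by ring, Real.rpow_add hmr, Real.rpow_add hmr,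
          Real.rpow_one]
        ring
      have h8 : 0 < (m : ℝ) ^ (-1 - δ) := Real.rpow_pos_of_pos hmr _
      rw [← h7, mul_assoc C]
      refine mul_le_mul_of_nonneg_left ?_ hC.le
      refine mul_le_mul_of_nonneg_left ?_ h8.le
      nlinarith only [hmr]
    refine (Finset.sum_le_sum h6).trans ?_
    rw [← Finset.mul_sum]
    refine mul_le_mul_of_nonneg_left ((C3_tail δ hδ M t hM ht).trans ?_) hC.le
    refine div_le_div_of_nonneg_right ?_ hδ.le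
    have h9 : 0 ≤ (t : ℝ) ^ (-δ) := Real.rpow_nonneg (Nat.cast_nonneg _) _
    linarith only [h9]
  have h6 := key t ht
  have h7 := key M le_rfl
  rw [C3_abel f t, C3_abel f M, C3_split (fun m => (∑ j ∈ Icc 1 m, f j) / (m * (m + 1))) M t ht]
  rw [abs_le] at h5 h6 h7 ⊢
  have h8 : C * (2 + 1 / δ) * (M : ℝ) ^ (-δ) =
      C * (M : ℝ) ^ (-δ) + C * (M : ℝ) ^ (-δ) + C * ((M : ℝ) ^ (-δ) / δ) := by ring
  rw [h8]
  constructor <;> linarith only [h5, h6, h7, h5.1, h5.2, h6.1, h6.2, h7.1, h7.2]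

theorem C3_div (N m : ℕ) (hm : 1 ≤ m) : |((N / m : ℕ) : ℝ) - N / m| ≤ 1 := by
  have hmr : (0 : ℝ) < m := by exact_mod_cast (show 0 < m by omega)
  have h1 : ((N / m : ℕ) : ℝ) ≤ (N : ℝ) / m := Nat.cast_div_le
  have h2 : (N : ℝ) < m * (((N / m : ℕ) : ℝ) + 1) := by
    exact_mod_cast Nat.lt_mul_div_succ N hm
  have h3 : (N : ℝ) / m < ((N / m : ℕ) : ℝ) + 1 := by
    rw [div_lt_iff₀ hmr]
    linarith only [h2]
  rw [abs_le]
  constructor <;> linarith only [h3, h1]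

/-- THE ASYMPTOTIC FORMULA `R(N) = L N + O(N^(1-δ/2))`.

PROOF. `S(t) = ∑_{n ≤ t} f n`, `|S(t)| ≤ C t^(1-δ)` for natural `t ≥ T`. Put `M = ⌈N^(1-δ/2)⌉₊ ≥ T`,
`M ≤ N` for `N ≥ 2`... (if `M > N`, i.e. `N = 1`, use `M = N`). Tail of `L`: for `M ≤ M'`, Abel
summation `∑_{M < m ≤ M'} f(m)/m = S(M')/M' - S(M)/(M+1) + ∑_{M < m < M'} S(m)/(m(m+1))`, at most
`C M^(-δ) (2 + 1/δ)·2`; letting `M' → ∞` (hypothesis `hL`), `|L - ∑_{m ≤ M} f(m)/m| ≤ C₁ M^(-δ)`.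
`R_eq`: the `m ≤ M` contribute `N ∑_{m≤M} f(m)/m + O(M) = N L + O(N M^(-δ) C₁ + M)`. The `m > M`:
`∑_{M < m ≤ N} f(m) ⌊N/m⌋ = ∑_{k ≤ N/M} (S(N/k) - S(M))` (over `k` with `N/k > M`), at most
`(N/M) 2 C N^(1-δ) ≤ 2 C N^(1-δ/2)`. And `N M^(-δ) ≤ N^(1 - δ(1-δ/2)) ≤ N^(1-δ/2)` as `δ ≤ 1/2`... -/
theorem R_asym (δ C : ℝ) (hδ : 0 < δ) (hδ1 : δ ≤ 1 / 2) (hC : 0 < C) : ∃ E : ℝ, 0 < E ∧
    ∀ f : ℕ → ℤ, CM f → ∀ (L T : ℝ), 1 ≤ T →
      (∀ t : ℕ, T ≤ t → |((∑ n ∈ Icc 1 t, f n : ℤ) : ℝ)| ≤ C * (t : ℝ) ^ (1 - δ)) →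
      Filter.Tendsto (fun t : ℕ => ∑ n ∈ Icc 1 t, (f n : ℝ) / n) Filter.atTop (nhds L) →
      ∀ N : ℕ, 1 ≤ N → T ≤ (N : ℝ) ^ (1 - δ / 2) →
        |((R f N : ℤ) : ℝ) - L * N| ≤ E * (N : ℝ) ^ (1 - δ / 2) := by
  refine ⟨2 + C * (2 + 1 / δ) + 2 * C, by (clear * - hC hδ; positivity), fun f hf L T hT hS hL N hN hTN => ?_⟩
  have hNr : (1 : ℝ) ≤ N := by exact_mod_cast hN
  have hN0 : (0 : ℝ) < N := by linarith only [hδ, hδ1, hNr]
  set X : ℝ := (N : ℝ) ^ (1 - δ / 2) with hX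
  have hX1 : 1 ≤ X := Real.one_le_rpow hNr (by linarith only [hδ, hδ1])
  have hX0 : 0 < X := by linarith only [hδ, hδ1, hT, hTN]
  have hXN : X ≤ N := by
    calc X ≤ (N : ℝ) ^ (1 : ℝ) := Real.rpow_le_rpow_of_exponent_le hNr (by linarith only [hδ])
      _ = N := Real.rpow_one _
  set M : ℕ := ⌈X⌉₊ with hM
  have hMX : X ≤ M := Nat.le_ceil _
  have hMN : M ≤ N := Nat.ceil_le.2 hXN
  have hM2 : (M : ℝ) ≤ 2 * X := by
    have := Nat.ceil_lt_add_one hX0.le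
    linarith only [hT, hTN, this]
  have hM1 : 1 ≤ M := by exact_mod_cast hX1.trans hMX
  have hMr : (0 : ℝ) < M := by exact_mod_cast (show 0 < M by omega)
  have hSF : ∀ s : ℕ, M ≤ s → |∑ n ∈ Icc 1 s, (f n : ℝ)| ≤ C * (s : ℝ) ^ (1 - δ) := by
    intro s hs
    have h0 := hS s (hTN.trans (hMX.trans (by exact_mod_cast hs)))
    rwa [Int.cast_sum] at h0
  have htail : |L - ∑ m ∈ Icc 1 M, (f m : ℝ) / m| ≤ C * (2 + 1 / δ) * (M : ℝ) ^ (-δ) := by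
    have hlim := (hL.sub_const (∑ m ∈ Icc 1 M, (f m : ℝ) / m)).abs
    refine le_of_tendsto hlim ?_
    filter_upwards [Filter.eventually_ge_atTop M] with t ht
    exact C3_Ltail δ C hδ hC (fun n => (f n : ℝ)) M t hM1 ht hSF
  have hR : ((R f N : ℤ) : ℝ) = ∑ m ∈ Icc 1 N, (f m : ℝ) * ((N / m : ℕ) : ℝ) := by
    rw [R_eq, Int.cast_sum]
    refine Finset.sum_congr rfl fun m _ => ?_
    rw [Int.cast_mul, Int.cast_natCast]
  have h1 : |∑ m ∈ Icc 1 M, (f m : ℝ) * ((N / m : ℕ) : ℝ) -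
      N * ∑ m ∈ Icc 1 M, (f m : ℝ) / m| ≤ M := by
    rw [Finset.mul_sum, ← Finset.sum_sub_distrib]
    refine (Finset.abs_sum_le_sum_abs _ _).trans ?_
    have h2 : ∀ m ∈ Icc 1 M, |(f m : ℝ) * ((N / m : ℕ) : ℝ) - N * ((f m : ℝ) / m)| ≤ 1 := by
      intro m hm
      have hm1 : 1 ≤ m := (Finset.mem_Icc.1 hm).1
      have e : (f m : ℝ) * ((N / m : ℕ) : ℝ) - N * ((f m : ℝ) / m) =
          (f m : ℝ) * (((N / m : ℕ) : ℝ) - N / m) := by ring
      rw [e, abs_mul]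
      have hF : |(f m : ℝ)| ≤ 1 := by
        rcases hf.val m with h | h | h <;> rw [h] <;> norm_num
      calc |(f m : ℝ)| * |((N / m : ℕ) : ℝ) - N / m| ≤ 1 * 1 :=
            mul_le_mul hF (C3_div N m hm1) (abs_nonneg _) zero_le_one
        _ = 1 := one_mul 1
    refine (Finset.sum_le_sum h2).trans ?_
    simp
  have h2 : |∑ m ∈ Ioc M N, (f m : ℝ) * ((N / m : ℕ) : ℝ)| ≤ 2 * C * X := by
    rcases hMN.eq_or_lt with h | h
    · rw [h, Finset.Ioc_self, Finset.sum_empty, abs_zero]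
      (clear * - hC hN; positivity)
    · have hB : ∀ s, M ≤ s → s ≤ N →
          |∑ m ∈ Ioc M s, (f m : ℝ)| ≤ 2 * C * (N : ℝ) ^ (1 - δ) := by
        intro s hs hsN
        have e := C3_split (fun m => (f m : ℝ)) M s hs
        have e' : ∑ m ∈ Ioc M s, (f m : ℝ) =
            ∑ m ∈ Icc 1 s, (f m : ℝ) - ∑ m ∈ Icc 1 M, (f m : ℝ) := by linarith only [e]
        rw [e']
        have a1 := hSF s hs
        have a2 := hSF M le_rfl
        have a3 : (s : ℝ) ^ (1 - δ) ≤ (N : ℝ) ^ (1 - δ) :=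
          Real.rpow_le_rpow (Nat.cast_nonneg _) (by exact_mod_cast hsN) (by linarith only [hδ, hδ1])
        have a4 : (M : ℝ) ^ (1 - δ) ≤ (N : ℝ) ^ (1 - δ) :=
          Real.rpow_le_rpow (Nat.cast_nonneg _) (by exact_mod_cast hMN) (by linarith only [hδ, hδ1])
        have a5 := mul_le_mul_of_nonneg_left a3 hC.le
        have a6 := mul_le_mul_of_nonneg_left a4 hC.le
        rw [abs_le] at a1 a2 ⊢
        constructor <;> linarith only [a1, a2, a5, a6, a1.1, a1.2, a2.1, a2.2]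
      have h3 := C3_ineq (fun m => (f m : ℝ)) (fun m => ((N / m : ℕ) : ℝ))
        (2 * C * (N : ℝ) ^ (1 - δ)) M N h hB (fun s hs => by
          exact_mod_cast Nat.div_le_div_left (Nat.le_succ s) (by omega))
      have h4 := hB N hMN le_rfl
      have h5 : (0 : ℝ) ≤ ((N / N : ℕ) : ℝ) := Nat.cast_nonneg _
      have h6 : |(∑ m ∈ Ioc M N, (f m : ℝ)) * ((N / N : ℕ) : ℝ)| ≤
          2 * C * (N : ℝ) ^ (1 - δ) * ((N / N : ℕ) : ℝ) := by
        rw [abs_mul, abs_of_nonneg h5]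
        exact mul_le_mul_of_nonneg_right h4 h5
      have h7 : ((N / (M + 1) : ℕ) : ℝ) ≤ N / X := by
        refine (Nat.cast_div_le).trans ?_
        refine div_le_div_of_nonneg_left hN0.le hX0 ?_
        push_cast
        linarith only [hδ, hδ1, hMX]
      have h8 : (N : ℝ) ^ (1 - δ) * (N / X) = X := by
        have h9 : (N : ℝ) / X = (N : ℝ) ^ (δ / 2) := by
          rw [hX, div_eq_iff (by (clear * - hN; positivity)), ← Real.rpow_add hN0,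
            show δ / 2 + (1 - δ / 2) = 1 by ring, Real.rpow_one]
        rw [h9, ← Real.rpow_add hN0, hX]
        congr 1
        ring
      have h10 : 2 * C * (N : ℝ) ^ (1 - δ) * ((N / (M + 1) : ℕ) : ℝ) ≤ 2 * C * X := by
        have h11 : 0 ≤ 2 * C * (N : ℝ) ^ (1 - δ) := by (clear * - hC hN; positivity)
        calc 2 * C * (N : ℝ) ^ (1 - δ) * ((N / (M + 1) : ℕ) : ℝ)
            ≤ 2 * C * (N : ℝ) ^ (1 - δ) * (N / X) := mul_le_mul_of_nonneg_left h7 h11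
          _ = 2 * C * ((N : ℝ) ^ (1 - δ) * (N / X)) := by ring
          _ = 2 * C * X := by rw [h8]
      beta_reduce at h3
      rw [abs_le] at h3 h6 ⊢
      constructor <;> nlinarith only [h3, h6, h10, h3.1, h3.2, h6.1, h6.2]
  have h3 : (N : ℝ) * (M : ℝ) ^ (-δ) ≤ X := by
    have h4 : (M : ℝ) ^ (-δ) ≤ X ^ (-δ) :=
      Real.rpow_le_rpow_of_nonpos hX0 hMX (by linarith only [hδ])
    have h5 : (N : ℝ) * X ^ (-δ) ≤ X := by
      have h6 : (N : ℝ) * X ^ (-δ) = (N : ℝ) ^ (1 + (1 - δ / 2) * -δ) := by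
        rw [Real.rpow_add hN0, Real.rpow_one, Real.rpow_mul hN0.le]
      rw [h6, hX]
      refine Real.rpow_le_rpow_of_exponent_le hNr ?_
      nlinarith only [hδ, hδ1]
    exact (mul_le_mul_of_nonneg_left h4 hN0.le).trans h5
  have h4 : |(N : ℝ) * (L - ∑ m ∈ Icc 1 M, (f m : ℝ) / m)| ≤ C * (2 + 1 / δ) * X := by
    rw [abs_mul, abs_of_pos hN0]
    have h5 : 0 ≤ C * (2 + 1 / δ) := by (clear * - hC hδ; positivity)
    calc (N : ℝ) * |L - ∑ m ∈ Icc 1 M, (f m : ℝ) / m|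
        ≤ N * (C * (2 + 1 / δ) * (M : ℝ) ^ (-δ)) := mul_le_mul_of_nonneg_left htail hN0.le
      _ = C * (2 + 1 / δ) * (N * (M : ℝ) ^ (-δ)) := by ring
      _ ≤ C * (2 + 1 / δ) * X := mul_le_mul_of_nonneg_left h3 h5
  rw [hR, C3_split (fun m => (f m : ℝ) * ((N / m : ℕ) : ℝ)) M N hMN]
  rw [abs_le] at h1 h2 h4 ⊢
  constructor <;> nlinarith only [hM2, h1, h2, h4, h1.1, h1.2, h2.1, h2.2, h4.1, h4.2]

end BG
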