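import Pool.Agent.W_aaa0df_bg.C3

/-!
# T1, C4: the von Mangoldt identity and the contribution of small and of non-prime `k`
-/

set_option autoImplicit false

namespace BG

open Finset ArithmeticFunction

open scoped ArithmeticFunction.zeta

/-- the arithmetic function attached to `f` -/
noncomputable def C4_F (f : ℕ → ℤ) : ArithmeticFunction ℝ :=
  ⟨fun n => if n = 0 then 0 else (f n : ℝ), if_pos rfl⟩

theorem C4_F_apply (f : ℕ → ℤ) {n : ℕ} (hn : n ≠ 0) : C4_F f n = (f n : ℝ) := by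
  show (if n = 0 then (0 : ℝ) else (f n : ℝ)) = _
  rw [if_neg hn]

theorem C4_zF (f : ℕ → ℤ) (n : ℕ) :
    ((ζ : ArithmeticFunction ℝ) * C4_F f) n = ((rr f n : ℤ) : ℝ) := by
  rw [coe_zeta_mul_apply]
  unfold rr
  rw [Int.cast_sum]
  exact sum_congr rfl fun m hm => C4_F_apply f (Nat.pos_of_mem_divisors hm).ne'

/-- multiplication by the logarithm -/
noncomputable def C4_D (g : ArithmeticFunction ℝ) : ArithmeticFunction ℝ :=
  ⟨fun n => g n * Real.log n, by simp⟩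

theorem C4_D_apply (g : ArithmeticFunction ℝ) (n : ℕ) : C4_D g n = g n * Real.log n := rfl

theorem C4_leib (g h : ArithmeticFunction ℝ) : C4_D (g * h) = C4_D g * h + g * C4_D h := by
  ext n
  rw [C4_D_apply, ArithmeticFunction.add_apply, ArithmeticFunction.mul_apply,
    ArithmeticFunction.mul_apply, ArithmeticFunction.mul_apply, ← sum_add_distrib, sum_mul]
  refine sum_congr rfl fun x hx => ?_
  obtain ⟨h1, h2⟩ := Nat.mem_divisorsAntidiagonal.1 hx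
  have h3 : x.1 ≠ 0 := fun h0 => h2 (by rw [← h1, h0, zero_mul])
  have h4 : x.2 ≠ 0 := fun h0 => h2 (by rw [← h1, h0, mul_zero])
  have h5 : Real.log n = Real.log x.1 + Real.log x.2 := by
    rw [← h1, Nat.cast_mul, Real.log_mul (by exact_mod_cast h3) (by exact_mod_cast h4)]
  rw [C4_D_apply, C4_D_apply, h5]
  ring

theorem C4_D_zeta : C4_D (ζ : ArithmeticFunction ℝ) = Λ * (ζ : ArithmeticFunction ℝ) := by
  rw [vonMangoldt_mul_zeta]
  ext n
  rw [C4_D_apply, ArithmeticFunction.log_apply]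
  rcases eq_or_ne n 0 with rfl | hn
  · simp
  · rw [natCoe_apply, zeta_apply_ne hn, Nat.cast_one, one_mul]

/-- `Λ f` -/
noncomputable def C4_G (f : ℕ → ℤ) : ArithmeticFunction ℝ :=
  ⟨fun n => Λ n * C4_F f n, by simp⟩

theorem C4_G_apply (f : ℕ → ℤ) (n : ℕ) : C4_G f n = Λ n * C4_F f n := rfl

theorem C4_D_F (f : ℕ → ℤ) (hf : CM f) : C4_D (C4_F f) = C4_G f * C4_F f := by
  ext n
  rw [C4_D_apply, ArithmeticFunction.mul_apply]
  have h1 : ∀ x ∈ n.divisorsAntidiagonal, C4_G f x.1 * C4_F f x.2 = Λ x.1 * C4_F f n := by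
    intro x hx
    obtain ⟨h1, h2⟩ := Nat.mem_divisorsAntidiagonal.1 hx
    have h3 : x.1 ≠ 0 := fun h0 => h2 (by rw [← h1, h0, zero_mul])
    have h4 : x.2 ≠ 0 := fun h0 => h2 (by rw [← h1, h0, mul_zero])
    rw [C4_G_apply, C4_F_apply f h3, C4_F_apply f h4, C4_F_apply f h2, ← h1, hf.mul]
    push_cast
    ring
  rw [sum_congr rfl h1, ← sum_mul, Nat.sum_divisorsAntidiagonal (f := fun a _ => Λ a),
    vonMangoldt_sum, mul_comm]

theorem C4_Icc (N : ℕ) : Icc 1 N = Ioc 0 N := by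
  ext x
  simp only [mem_Icc, mem_Ioc]
  omega

/-- PROOF. `r = 1 * f` (Dirichlet convolution). `r · log = (log) * f + 1 * (f log)`
(`log (a b) = log a + log b`), `log = 1 * Λ` (`ArithmeticFunction.vonMangoldt_mul_zeta`), and
`f log = f * (f Λ)` (complete multiplicativity). So `r log = r * (Λ (1 + f))`; sum over `n ≤ N`:
`∑_{n ≤ N} r(n) log n = ∑_{k ≤ N} Λ(k) (1 + f k) R(N / k)`. -/
theorem mangoldt_identity (f : ℕ → ℤ) (hf : CM f) (N : ℕ) :
    ∑ n ∈ Icc 1 N, ((rr f n : ℤ) : ℝ) * Real.log n =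
      ∑ k ∈ Icc 1 N, Λ k * (1 + (f k : ℝ)) * ((R f (N / k) : ℤ) : ℝ) := by
  have key : C4_D ((ζ : ArithmeticFunction ℝ) * C4_F f) =
      (Λ + C4_G f) * ((ζ : ArithmeticFunction ℝ) * C4_F f) := by
    rw [C4_leib, C4_D_zeta, C4_D_F f hf]
    ring
  have h1 : ∑ n ∈ Icc 1 N, ((rr f n : ℤ) : ℝ) * Real.log n =
      ∑ n ∈ Ioc 0 N, ((Λ + C4_G f) * ((ζ : ArithmeticFunction ℝ) * C4_F f)) n := by
    rw [C4_Icc]
    refine sum_congr rfl fun n _ => ?_
    rw [← key, C4_D_apply, C4_zF]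
  rw [h1, sum_Ioc_mul_eq_sum_sum, C4_Icc]
  refine sum_congr rfl fun k hk => ?_
  have hk0 : k ≠ 0 := by
    have := (mem_Ioc.1 hk).1
    omega
  have h2 : ∑ m ∈ Ioc 0 (N / k), ((ζ : ArithmeticFunction ℝ) * C4_F f) m =
      ((R f (N / k) : ℤ) : ℝ) := by
    unfold R
    rw [C4_Icc, Int.cast_sum]
    exact sum_congr rfl fun m _ => C4_zF f m
  rw [h2, ArithmeticFunction.add_apply, C4_G_apply, C4_F_apply f hk0]
  ring

theorem C4_log4 : Real.log 4 ≤ 2 := by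
  have h1 : Real.log 4 = 2 * Real.log 2 := by
    rw [show (4 : ℝ) = 2 ^ 2 by norm_num, Real.log_pow]
    norm_num
  have h2 := Real.log_two_lt_d9
  rw [h1]
  linarith

/-- Mertens: `∑_{k ≤ K} Λ(k)/k ≤ log K + 2`.

PROOF. `∑_{n ≤ K} log n = ∑_{k ≤ K} Λ(k) ⌊K/k⌋ ≥ K ∑ Λ(k)/k - ψ(K)`; `∑_{n≤K} log n ≤ K log K`
and `ψ(K) ≤ 2 K` (`Chebyshev.psi_le_const_mul_self` has constant `log 4 + 4`; then the bound is
`log K + 6`, so we claim `log K + 6`). -/
theorem mertens (K : ℕ) (hK : 1 ≤ K) : ∑ k ∈ Icc 1 K, Λ k / (k : ℝ) ≤ Real.log K + 6 := by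
  have hK0 : (0 : ℝ) < K := by exact_mod_cast hK
  have h1 : ∑ n ∈ Ioc 0 K, Real.log n = ∑ n ∈ Ioc 0 K, Λ n * ((K / n : ℕ) : ℝ) := by
    rw [← sum_Ioc_mul_zeta_eq_sum, vonMangoldt_mul_zeta]
    exact sum_congr rfl fun n _ => ArithmeticFunction.log_apply.symm
  have h2 : ∑ n ∈ Ioc 0 K, Real.log n ≤ K * Real.log K := by
    calc ∑ n ∈ Ioc 0 K, Real.log n ≤ ∑ n ∈ Ioc 0 K, Real.log K := by
          refine sum_le_sum fun n hn => ?_
          obtain ⟨a, b⟩ := mem_Ioc.1 hn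
          exact Real.log_le_log (by exact_mod_cast a) (by exact_mod_cast b)
      _ = K * Real.log K := by
          rw [sum_const, Nat.card_Ioc, nsmul_eq_mul, Nat.sub_zero]
  have h3 : K * ∑ k ∈ Ioc 0 K, Λ k / (k : ℝ) - ∑ k ∈ Ioc 0 K, Λ k ≤
      ∑ n ∈ Ioc 0 K, Λ n * ((K / n : ℕ) : ℝ) := by
    rw [mul_sum, ← sum_sub_distrib]
    refine sum_le_sum fun n hn => ?_
    obtain ⟨a, b⟩ := mem_Ioc.1 hn
    have hn0 : (0 : ℝ) < n := by exact_mod_cast a
    have h4 : (K : ℝ) / n - 1 ≤ ((K / n : ℕ) : ℝ) := by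
      have h5 : (K : ℝ) < (((K / n : ℕ) : ℝ) + 1) * n := by
        have h6 := Nat.lt_mul_div_succ K a
        have h7 : ((K : ℕ) : ℝ) < ((n * (K / n + 1) : ℕ) : ℝ) := by exact_mod_cast h6
        push_cast at h7
        linarith
      have h8 : (K : ℝ) / n < ((K / n : ℕ) : ℝ) + 1 := by
        rw [div_lt_iff₀ hn0]
        exact h5
      linarith
    have h9 := mul_le_mul_of_nonneg_left h4 (vonMangoldt_nonneg (n := n))
    calc K * (Λ n / n) - Λ n = Λ n * (K / n - 1) := by ring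
      _ ≤ _ := h9
  have h4 : ∑ k ∈ Ioc 0 K, Λ k ≤ (Real.log 4 + 4) * K := by
    have h5 := Chebyshev.psi_le_const_mul_self (x := (K : ℝ)) hK0.le
    have h6 : Chebyshev.psi (K : ℝ) = ∑ k ∈ Ioc 0 K, Λ k := by
      unfold Chebyshev.psi
      rw [Nat.floor_natCast]
    rw [← h6]
    exact h5
  have h5 := C4_log4
  rw [C4_Icc]
  have h6 : K * ∑ k ∈ Ioc 0 K, Λ k / (k : ℝ) ≤ K * (Real.log K + 6) := by
    have h7 : Real.log 4 * K ≤ 2 * K := mul_le_mul_of_nonneg_right h5 hK0.le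
    nlinarith
  exact le_of_mul_le_mul_left h6 hK0

theorem C4_abel (g : ℕ → ℝ) (K N : ℕ) (hKN : K ≤ N) :
    ∑ k ∈ Ioc K N, g k / (k : ℝ) = (∑ i ∈ Ioc 0 N, g i) / (N + 1) -
      (∑ i ∈ Ioc 0 K, g i) / (K + 1) +
      ∑ k ∈ Ioc K N, (∑ i ∈ Ioc 0 k, g i) / (k * (k + 1)) := by
  induction N, hKN using Nat.le_induction with
  | base => simp
  | succ n hn ih =>
    rw [sum_Ioc_succ_top hn, sum_Ioc_succ_top hn, ih, sum_Ioc_succ_top (Nat.zero_le n)]
    have h1 : ((n : ℝ) + 1) ≠ 0 := by positivity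
    have h2 : ((n : ℝ) + 1 + 1) ≠ 0 := by positivity
    push_cast
    field_simp
    ring

theorem C4_sqrt (k : ℕ) (hk : 1 ≤ k) :
    √((k + 1 : ℕ) : ℝ) / (((k + 1 : ℕ) : ℝ) * (((k + 1 : ℕ) : ℝ) + 1)) ≤
      2 / √(k : ℝ) - 2 / √((k + 1 : ℕ) : ℝ) := by
  have hk0 : (0 : ℝ) < k := by exact_mod_cast hk
  have hk1 : (0 : ℝ) < ((k + 1 : ℕ) : ℝ) := by positivity
  have ha := Real.sqrt_pos.2 hk0
  have hb := Real.sqrt_pos.2 hk1
  have ha2 := Real.sq_sqrt hk0.le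
  have hb2 := Real.sq_sqrt hk1.le
  have hab : √(k : ℝ) ≤ √((k + 1 : ℕ) : ℝ) := Real.sqrt_le_sqrt (by push_cast; linarith)
  set a := √(k : ℝ) with hadef
  set b := √((k + 1 : ℕ) : ℝ) with hbdef
  have h1 : b ^ 2 - a ^ 2 = 1 := by
    rw [ha2, hb2]
    push_cast
    ring
  have h2 : 2 / a - 2 / b = 2 / (a * b * (a + b)) := by
    have h3 : 2 / a - 2 / b = 2 * (b ^ 2 - a ^ 2) / (a * b * (a + b)) := by
      field_simp
      ring
    rw [h3, h1]
    ring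
  rw [h2, ← hb2, div_le_div_iff₀ (by positivity) (by positivity)]
  have h4 : a * b * (a + b) ≤ b * b * (b + b) := by
    have := mul_le_mul_of_nonneg_right hab hb.le
    have h5 : a + b ≤ b + b := by linarith
    exact mul_le_mul this h5 (by positivity) (by positivity)
  nlinarith [mul_le_mul_of_nonneg_left h4 hb.le]

theorem C4_tele (K N : ℕ) (hK : 1 ≤ K) (hKN : K ≤ N) :
    ∑ k ∈ Ioc K N, √(k : ℝ) / ((k : ℝ) * ((k : ℝ) + 1)) ≤ 2 / √(K : ℝ) - 2 / √(N : ℝ) := by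
  induction N, hKN using Nat.le_induction with
  | base => simp
  | succ n hn ih =>
    rw [sum_Ioc_succ_top hn]
    have := C4_sqrt n (hK.trans hn)
    linarith

/-- Prime powers that are not primes contribute little.

PROOF. `Λ k ≤ log N`, and `Λ k ≠ 0` with `k` not prime means `k = p^j`, `j ≥ 2`. The number of such
`k ≤ t` is at most `√t log₂ t ≤ 2 √t log t` (`t ≥ 2`): `p ≤ √t`, `j ≤ log₂ t`. Dyadic
summation over `[2^i K, 2^(i+1) K)`: `∑ 1/k ≤ ∑_i 2 √(2^(i+1) K) log(2N) / (2^i K) ≤ 10 log (2N)/√K`.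
Total `≤ 10 (log (2N))² / √K`; the constant `20` is generous. -/
theorem prime_powers (N K : ℕ) (hK : 1 ≤ K) (hKN : K ≤ N) :
    ∑ k ∈ (Ioc K N).filter (fun k => ¬ k.Prime), Λ k / (k : ℝ) ≤
      20 * (Real.log (2 * N)) ^ 2 / √(K : ℝ) := by
  have hK0 : (0 : ℝ) < K := by exact_mod_cast hK
  have hN : 1 ≤ N := hK.trans hKN
  have hN0 : (0 : ℝ) < N := by exact_mod_cast hN
  have hN1 : (1 : ℝ) ≤ N := by exact_mod_cast hN
  set g : ℕ → ℝ := fun k => if ¬ k.Prime then Λ k else 0 with hg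
  have h0 : ∑ k ∈ (Ioc K N).filter (fun k => ¬ k.Prime), Λ k / (k : ℝ) =
      ∑ k ∈ Ioc K N, g k / (k : ℝ) := by
    rw [sum_filter]
    refine sum_congr rfl fun k _ => ?_
    rw [hg]
    simp only
    split_ifs
    · rw [zero_div]
    · rfl
  have hG : ∀ t : ℕ, ∑ i ∈ Ioc 0 t, g i = Chebyshev.psi (t : ℝ) - Chebyshev.theta (t : ℝ) := by
    intro t
    rw [Chebyshev.psi_sub_theta_eq_sum_not_prime, Nat.floor_natCast, sum_filter]
  have hG0 : ∀ t : ℕ, 0 ≤ ∑ i ∈ Ioc 0 t, g i := by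
    intro t
    refine sum_nonneg fun i _ => ?_
    rw [hg]
    simp only
    split_ifs
    · exact le_rfl
    · exact vonMangoldt_nonneg
  have hGle : ∀ t : ℕ, 1 ≤ t → t ≤ N →
      ∑ i ∈ Ioc 0 t, g i ≤ 2 * √(t : ℝ) * Real.log N := by
    intro t ht htN
    rw [hG]
    have ht0 : (1 : ℝ) ≤ t := by exact_mod_cast ht
    have h1 := Chebyshev.psi_sub_theta_le ht0
    have h2 : Real.log t ≤ Real.log N :=
      Real.log_le_log (by linarith) (by exact_mod_cast htN)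
    have h3 := mul_le_mul_of_nonneg_left h2 (show 0 ≤ 2 * √(t : ℝ) by positivity)
    linarith
  have hlog : 0 ≤ Real.log N := Real.log_nonneg hN1
  have hsN := Real.sqrt_pos.2 hN0
  have hsK := Real.sqrt_pos.2 hK0
  have h1 : (∑ i ∈ Ioc 0 N, g i) / ((N : ℝ) + 1) ≤ 2 * Real.log N / √(N : ℝ) := by
    rw [div_le_div_iff₀ (by positivity) hsN]
    have h2 := hGle N hN le_rfl
    have h3 := mul_le_mul_of_nonneg_right h2 hsN.le
    have h4 := Real.mul_self_sqrt hN0.le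
    have h5 : 2 * √(N : ℝ) * Real.log N * √(N : ℝ) = 2 * Real.log N * N := by
      rw [← h4]
      rw [show √(√(N : ℝ) * √(N : ℝ)) = √(N : ℝ) by rw [h4]]
      ring
    rw [h5] at h3
    nlinarith
  have h2 : ∑ k ∈ Ioc K N, (∑ i ∈ Ioc 0 k, g i) / ((k : ℝ) * (k + 1)) ≤
      2 * Real.log N * (2 / √(K : ℝ) - 2 / √(N : ℝ)) := by
    calc ∑ k ∈ Ioc K N, (∑ i ∈ Ioc 0 k, g i) / ((k : ℝ) * (k + 1))
        ≤ ∑ k ∈ Ioc K N, 2 * Real.log N * (√(k : ℝ) / ((k : ℝ) * ((k : ℝ) + 1))) := by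
          refine sum_le_sum fun k hk => ?_
          obtain ⟨a, b⟩ := mem_Ioc.1 hk
          have hk1 : 1 ≤ k := by omega
          have hk0 : (0 : ℝ) < k := by exact_mod_cast hk1
          have h3 := hGle k hk1 b
          calc (∑ i ∈ Ioc 0 k, g i) / ((k : ℝ) * (k + 1))
              ≤ (2 * √(k : ℝ) * Real.log N) / ((k : ℝ) * (k + 1)) :=
                div_le_div_of_nonneg_right h3 (by positivity)
            _ = _ := by ring
      _ = 2 * Real.log N * ∑ k ∈ Ioc K N, √(k : ℝ) / ((k : ℝ) * ((k : ℝ) + 1)) := by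
          rw [mul_sum]
      _ ≤ _ := mul_le_mul_of_nonneg_left (C4_tele K N hK hKN) (by positivity)
  have h3 : 0 ≤ (∑ i ∈ Ioc 0 K, g i) / ((K : ℝ) + 1) :=
    div_nonneg (hG0 K) (by positivity)
  rw [h0, C4_abel g K N hKN]
  have h4 : (∑ i ∈ Ioc 0 N, g i) / ((N : ℝ) + 1) - (∑ i ∈ Ioc 0 K, g i) / ((K : ℝ) + 1) +
      ∑ k ∈ Ioc K N, (∑ i ∈ Ioc 0 k, g i) / ((k : ℝ) * (k + 1)) ≤
      4 * Real.log N / √(K : ℝ) := by
    have h5 : 2 * Real.log N / √(N : ℝ) + 2 * Real.log N * (2 / √(K : ℝ) - 2 / √(N : ℝ)) =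
        4 * Real.log N / √(K : ℝ) - 2 * Real.log N / √(N : ℝ) := by ring
    have h6 : 0 ≤ 2 * Real.log N / √(N : ℝ) := by positivity
    linarith
  refine h4.trans ?_
  refine div_le_div_of_nonneg_right ?_ hsK.le
  have h5 : Real.log (2 * N) = Real.log 2 + Real.log N :=
    Real.log_mul (by norm_num) hN0.ne'
  rw [h5]
  have h6 := Real.log_two_gt_d9
  nlinarith [mul_nonneg (show 0 ≤ Real.log 2 - 0.6931471803 by linarith) hlog,
    sq_nonneg (Real.log 2), sq_nonneg (Real.log N)]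

theorem C4_one_add (f : ℕ → ℤ) (hf : CM f) (k : ℕ) :
    0 ≤ 1 + (f k : ℝ) ∧ 1 + (f k : ℝ) ≤ 2 := by
  rcases hf.val k with h | h | h <;> rw [h] <;> constructor <;> norm_num

theorem C4_R_nonneg (f : ℕ → ℤ) (hf : CM f) (N : ℕ) : 0 ≤ ((R f N : ℤ) : ℝ) := by
  have : 0 ≤ R f N := by
    unfold R
    exact sum_nonneg fun n _ => (rr_nonneg f hf n).1
  exact_mod_cast this

/-- The small `k`.

PROOF. For `k ≤ K`: `N / k ≥ N / K ≥ T`, so `R(N/k) ≤ L ⌊N/k⌋ + E ⌊N/k⌋^(1-δ) ≤ L N/k + E N/k (N/K)^(-δ)...`: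
precisely `t^(1-δ) ≤ t T^(-δ)` for `t ≥ T ≥ 1`, and `⌊N/k⌋ ≤ N/k`. With `1 + f k ≤ 2`, `R ≥ 0` and
`mertens`: the sum is at most `2 (L + E T^(-δ)) N (log K + 6)`. (`L ≥ 0` is assumed.) -/
theorem small_k (f : ℕ → ℤ) (hf : CM f) (L E T δ : ℝ) (hL : 0 ≤ L) (hE : 0 ≤ E) (hT : 1 ≤ T)
    (hδ : 0 < δ) (hδ1 : δ ≤ 1)
    (hR : ∀ t : ℕ, T ≤ t → |((R f t : ℤ) : ℝ) - L * t| ≤ E * (t : ℝ) ^ (1 - δ))
    (N K : ℕ) (hK : 1 ≤ K) (hKN : T ≤ ((N / K : ℕ) : ℝ)) :
    ∑ k ∈ Icc 1 K, Λ k * (1 + (f k : ℝ)) * ((R f (N / k) : ℤ) : ℝ) ≤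
      2 * (L + E * T ^ (-δ)) * N * (Real.log K + 6) := by
  have hT0 : 0 < T := by linarith
  set B : ℝ := L + E * T ^ (-δ) with hB
  have hTd : 0 < T ^ (-δ) := Real.rpow_pos_of_pos hT0 _
  have hB0 : 0 ≤ B := by positivity
  have hterm : ∀ k ∈ Icc 1 K, Λ k * (1 + (f k : ℝ)) * ((R f (N / k) : ℤ) : ℝ) ≤
      2 * B * N * (Λ k / (k : ℝ)) := by
    intro k hk
    obtain ⟨hk1, hkK⟩ := mem_Icc.1 hk
    have hk0 : (0 : ℝ) < k := by exact_mod_cast hk1
    have ht : T ≤ ((N / k : ℕ) : ℝ) := by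
      refine hKN.trans ?_
      exact_mod_cast Nat.div_le_div_left hkK hk1
    have ht0 : 0 < ((N / k : ℕ) : ℝ) := by linarith
    have h1 := (abs_le.1 (hR _ ht)).2
    have h2 : ((N / k : ℕ) : ℝ) ^ (1 - δ) ≤ ((N / k : ℕ) : ℝ) * T ^ (-δ) := by
      rw [sub_eq_add_neg, Real.rpow_add ht0, Real.rpow_one]
      refine mul_le_mul_of_nonneg_left ?_ ht0.le
      exact Real.rpow_le_rpow_of_nonpos hT0 ht (by linarith)
    have h3 : ((R f (N / k) : ℤ) : ℝ) ≤ B * ((N / k : ℕ) : ℝ) := by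
      have h4 := mul_le_mul_of_nonneg_left h2 hE
      rw [hB]
      nlinarith
    have h4 : ((N / k : ℕ) : ℝ) ≤ (N : ℝ) / k := Nat.cast_div_le
    have h5 : ((R f (N / k) : ℤ) : ℝ) ≤ B * ((N : ℝ) / k) :=
      h3.trans (mul_le_mul_of_nonneg_left h4 hB0)
    have h6 := C4_one_add f hf k
    have h7 := C4_R_nonneg f hf (N / k)
    have h8 : (0 : ℝ) ≤ Λ k := vonMangoldt_nonneg
    calc Λ k * (1 + (f k : ℝ)) * ((R f (N / k) : ℤ) : ℝ)
        ≤ Λ k * 2 * (B * ((N : ℝ) / k)) :=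
          mul_le_mul (mul_le_mul_of_nonneg_left h6.2 h8) h5 h7 (by positivity)
      _ = 2 * B * N * (Λ k / (k : ℝ)) := by ring
  calc ∑ k ∈ Icc 1 K, Λ k * (1 + (f k : ℝ)) * ((R f (N / k) : ℤ) : ℝ)
      ≤ ∑ k ∈ Icc 1 K, 2 * B * N * (Λ k / (k : ℝ)) := sum_le_sum hterm
    _ = 2 * B * N * ∑ k ∈ Icc 1 K, Λ k / (k : ℝ) := by rw [mul_sum]
    _ ≤ 2 * B * N * (Real.log K + 6) :=
        mul_le_mul_of_nonneg_left (mertens K hK) (by positivity)

/-- The left side from below.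

PROOF. `∑_{n ≤ N} r(n) log n ≥ log P · (R(N) - R(P))` with `P = ⌊N^(1-θ)⌋₊`... `log n ≥ log P'`,
`P' = P + 1 ≥ N^(1-θ)` for `n > P`: so `≥ (1-θ) log N (L N - E N^(1-δ) - N^(1-θ)(1 + log N))`
(`R_bounds` for `P`, `P ≤ N^(1-θ)`, `P ≥ 1`). -/
theorem left_side (f : ℕ → ℤ) (hf : CM f) (L E δ θ : ℝ) (hE : 0 ≤ E) (hθ : 0 < θ) (hθ1 : θ < 1)
    (N : ℕ) (hN : 1 ≤ N)
    (hR : |((R f N : ℤ) : ℝ) - L * N| ≤ E * (N : ℝ) ^ (1 - δ)) :
    (1 - θ) * Real.log N * (L * N - E * (N : ℝ) ^ (1 - δ) -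
      (N : ℝ) ^ (1 - θ) * (1 + Real.log N)) ≤
      ∑ n ∈ Icc 1 N, ((rr f n : ℤ) : ℝ) * Real.log n := by
  have hN0 : (0 : ℝ) < N := by exact_mod_cast hN
  have hN1 : (1 : ℝ) ≤ N := by exact_mod_cast hN
  have hlog : 0 ≤ Real.log N := Real.log_nonneg hN1
  set P : ℕ := ⌊(N : ℝ) ^ (1 - θ)⌋₊ with hP
  have hNt : 1 ≤ (N : ℝ) ^ (1 - θ) := Real.one_le_rpow hN1 (by linarith)
  have hP1 : 1 ≤ P := Nat.le_floor (by simpa using hNt)
  have hPle : (P : ℝ) ≤ (N : ℝ) ^ (1 - θ) := Nat.floor_le (by linarith)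
  have hPN : P ≤ N := by
    have h1 : (N : ℝ) ^ (1 - θ) ≤ N := by
      calc (N : ℝ) ^ (1 - θ) ≤ (N : ℝ) ^ (1 : ℝ) :=
            Real.rpow_le_rpow_of_exponent_le hN1 (by linarith)
        _ = N := Real.rpow_one _
    exact_mod_cast hPle.trans h1
  have hrr : ∀ n, (0 : ℝ) ≤ ((rr f n : ℤ) : ℝ) := fun n => by
    exact_mod_cast (rr_nonneg f hf n).1
  have hsplit : Icc 1 N = Icc 1 P ∪ Ioc P N := by
    ext x
    simp only [mem_union, mem_Icc, mem_Ioc]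
    omega
  have hdisj : Disjoint (Icc 1 P) (Ioc P N) := by
    rw [Finset.disjoint_left]
    intro x hx hx'
    have h1 := (mem_Icc.1 hx).2
    have h2 := (mem_Ioc.1 hx').1
    omega
  have hRN : ((R f N : ℤ) : ℝ) = ((R f P : ℤ) : ℝ) + ∑ n ∈ Ioc P N, ((rr f n : ℤ) : ℝ) := by
    unfold R
    rw [hsplit, sum_union hdisj]
    push_cast
    rfl
  have h1 : (1 - θ) * Real.log N * ∑ n ∈ Ioc P N, ((rr f n : ℤ) : ℝ) ≤
      ∑ n ∈ Icc 1 N, ((rr f n : ℤ) : ℝ) * Real.log n := by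
    rw [hsplit, sum_union hdisj, mul_sum]
    have h2 : 0 ≤ ∑ n ∈ Icc 1 P, ((rr f n : ℤ) : ℝ) * Real.log n := by
      refine sum_nonneg fun n hn => mul_nonneg (hrr n) (Real.log_nonneg ?_)
      exact_mod_cast (mem_Icc.1 hn).1
    have h3 : ∑ n ∈ Ioc P N, (1 - θ) * Real.log N * ((rr f n : ℤ) : ℝ) ≤
        ∑ n ∈ Ioc P N, ((rr f n : ℤ) : ℝ) * Real.log n := by
      refine sum_le_sum fun n hn => ?_
      have h4 := (mem_Ioc.1 hn).1
      have h5 : (N : ℝ) ^ (1 - θ) ≤ n := by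
        have h6 := Nat.lt_floor_add_one ((N : ℝ) ^ (1 - θ))
        rw [← hP] at h6
        have h7 : (P : ℝ) + 1 ≤ n := by exact_mod_cast h4
        linarith
      have h6 : (1 - θ) * Real.log N ≤ Real.log n := by
        rw [← Real.log_rpow hN0]
        exact Real.log_le_log (by linarith) h5
      rw [mul_comm]
      exact mul_le_mul_of_nonneg_left h6 (hrr n)
    linarith
  refine le_trans ?_ h1
  refine mul_le_mul_of_nonneg_left ?_ (mul_nonneg (by linarith) hlog)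
  have h2 := (abs_le.1 hR).1
  have h3 := (R_bounds f hf P hP1).2
  have h4 : (P : ℝ) * (1 + Real.log P) ≤ (N : ℝ) ^ (1 - θ) * (1 + Real.log N) := by
    have h5 : Real.log P ≤ Real.log N :=
      Real.log_le_log (by exact_mod_cast hP1) (by exact_mod_cast hPN)
    have h6 : 0 ≤ Real.log P := Real.log_nonneg (by exact_mod_cast hP1)
    exact mul_le_mul hPle (by linarith) (by linarith) (by linarith)
  linarith

theorem C4_le (f : ℕ → ℤ) (hf : CM f) (N k : ℕ) (hk1 : 1 ≤ k) (hkN : k ≤ N) :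
    Λ k * (1 + (f k : ℝ)) * ((R f (N / k) : ℤ) : ℝ) ≤
      N * (1 + Real.log N) * (Λ k / (k : ℝ) * (1 + (f k : ℝ))) := by
  have hk0 : (0 : ℝ) < k := by exact_mod_cast hk1
  have hN0 : (0 : ℝ) < N := by exact_mod_cast (hk1.trans hkN)
  have hN1 : (1 : ℝ) ≤ N := by exact_mod_cast (hk1.trans hkN)
  have hd : 1 ≤ N / k := (Nat.one_le_div_iff hk1).2 hkN
  have h1 := (R_bounds f hf (N / k) hd).2
  have h2 : ((N / k : ℕ) : ℝ) ≤ (N : ℝ) / k := Nat.cast_div_le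
  have hd1 : (1 : ℝ) ≤ ((N / k : ℕ) : ℝ) := by exact_mod_cast hd
  have h3 : Real.log ((N / k : ℕ) : ℝ) ≤ Real.log N := by
    refine Real.log_le_log (by linarith) ?_
    exact_mod_cast Nat.div_le_self N k
  have h4 : 0 ≤ Real.log ((N / k : ℕ) : ℝ) := Real.log_nonneg hd1
  have h5 : ((R f (N / k) : ℤ) : ℝ) ≤ (N : ℝ) / k * (1 + Real.log N) :=
    h1.trans (mul_le_mul h2 (by linarith) (by linarith) (by positivity))
  have h6 : 0 ≤ Λ k * (1 + (f k : ℝ)) :=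
    mul_nonneg vonMangoldt_nonneg (C4_one_add f hf k).1
  calc Λ k * (1 + (f k : ℝ)) * ((R f (N / k) : ℤ) : ℝ)
      ≤ Λ k * (1 + (f k : ℝ)) * ((N : ℝ) / k * (1 + Real.log N)) :=
        mul_le_mul_of_nonneg_left h5 h6
    _ = _ := by ring

/-- The large `k`.

PROOF. For `K < k ≤ N`: `R(N/k) ≤ (N/k)(1 + log N)` (`R_bounds`), `0 ≤ 1 + f k ≤ 2`. Non-primes:
`prime_powers`. Primes with `f k = -1` contribute `0`; primes with `f k = 0`: at most `W` of them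
(hypothesis), each at most `Λ k / k ≤ log N / K`; primes with `f k = 1`: `2 Λ k / k ≤ 2 log N / K`
each. -/
theorem large_k (f : ℕ → ℤ) (hf : CM f) (N K : ℕ) (hK : 1 ≤ K) (hKN : K ≤ N) (W : ℝ)
    (hW : (((Ioc K N).filter (fun k => k.Prime ∧ f k = 0)).card : ℝ) ≤ W) :
    ∑ k ∈ Ioc K N, Λ k * (1 + (f k : ℝ)) * ((R f (N / k) : ℤ) : ℝ) ≤
      N * (1 + Real.log N) * (40 * (Real.log (2 * N)) ^ 2 / √(K : ℝ) + W * Real.log N / K +
        2 * Real.log N / K * ((Ioc K N).filter (fun k => k.Prime ∧ f k = 1)).card) := by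
  have hK0 : (0 : ℝ) < K := by exact_mod_cast hK
  have hN1 : (1 : ℝ) ≤ N := by exact_mod_cast (hK.trans hKN)
  have hN0 : (0 : ℝ) < N := by linarith
  have hlog : 0 ≤ Real.log N := Real.log_nonneg hN1
  have hA : 0 ≤ (N : ℝ) * (1 + Real.log N) := by positivity
  calc ∑ k ∈ Ioc K N, Λ k * (1 + (f k : ℝ)) * ((R f (N / k) : ℤ) : ℝ)
      ≤ ∑ k ∈ Ioc K N, N * (1 + Real.log N) * (Λ k / (k : ℝ) * (1 + (f k : ℝ))) := by
        refine sum_le_sum fun k hk => ?_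
        obtain ⟨a, b⟩ := mem_Ioc.1 hk
        exact C4_le f hf N k (by omega) b
    _ = N * (1 + Real.log N) * ∑ k ∈ Ioc K N, Λ k / (k : ℝ) * (1 + (f k : ℝ)) := by
        rw [mul_sum]
    _ ≤ _ := mul_le_mul_of_nonneg_left ?_ hA
  have hpt : ∀ k ∈ Ioc K N, Λ k / (k : ℝ) * (1 + (f k : ℝ)) ≤
      2 * (if ¬ k.Prime then Λ k / (k : ℝ) else 0) +
      Real.log N / K * (if k.Prime ∧ f k = 0 then 1 else 0) +
      2 * Real.log N / K * (if k.Prime ∧ f k = 1 then 1 else 0) := by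
    intro k hk
    obtain ⟨a, b⟩ := mem_Ioc.1 hk
    have hk0 : (0 : ℝ) < k := by
      have : 0 < k := by omega
      exact_mod_cast this
    have h8 : (0 : ℝ) ≤ Λ k := vonMangoldt_nonneg
    have h9 : 0 ≤ Λ k / (k : ℝ) := div_nonneg h8 hk0.le
    have h10 : Λ k / (k : ℝ) ≤ Real.log N / K := by
      have h11 : Λ k ≤ Real.log N := vonMangoldt_le_log.trans
        (Real.log_le_log hk0 (by exact_mod_cast b))
      exact div_le_div₀ hlog h11 hK0 (by exact_mod_cast a.le)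
    have h12 : 0 ≤ Real.log N / K := by positivity
    by_cases hp : k.Prime
    · rcases hf.val k with h | h | h
      · have h13 : ¬ (f k = 1) := by rw [h]; norm_num
        simp only [hp, h, not_true_eq_false, if_false, true_and, if_true, Int.cast_zero,
          mul_zero, add_zero, mul_one, zero_add, show ¬ ((0 : ℤ) = 1) by norm_num]
        exact h10
      · simp only [hp, h, not_true_eq_false, if_false, true_and, if_true, Int.cast_one,
          mul_zero, add_zero, mul_one, zero_add, show ¬ ((1 : ℤ) = 0) by norm_num]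
        have : 2 * Real.log N / K = 2 * (Real.log N / K) := by ring
        rw [this]
        linarith
      · simp only [hp, h, not_true_eq_false, if_false, true_and, Int.cast_neg, Int.cast_one,
          mul_zero, add_zero, show ¬ ((-1 : ℤ) = 0) by norm_num,
          show ¬ ((-1 : ℤ) = 1) by norm_num]
        norm_num
    · simp only [hp, not_false_eq_true, if_true, false_and, if_false, mul_zero, add_zero]
      have h13 := (C4_one_add f hf k).2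
      nlinarith
  refine (sum_le_sum hpt).trans ?_
  rw [sum_add_distrib, sum_add_distrib, ← mul_sum, ← mul_sum, ← mul_sum, ← sum_filter,
    ← sum_filter, ← sum_filter, sum_const, sum_const, nsmul_eq_mul, nsmul_eq_mul, mul_one, mul_one]
  have h1 := prime_powers N K hK hKN
  have h2 : Real.log N / K * (((Ioc K N).filter (fun k => k.Prime ∧ f k = 0)).card : ℝ) ≤
      W * Real.log N / K := by
    calc Real.log N / K * (((Ioc K N).filter (fun k => k.Prime ∧ f k = 0)).card : ℝ)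
        ≤ Real.log N / K * W := mul_le_mul_of_nonneg_left hW (by positivity)
      _ = _ := by ring
  have h3 : 2 * (20 * (Real.log (2 * N)) ^ 2 / √(K : ℝ)) =
      40 * (Real.log (2 * N)) ^ 2 / √(K : ℝ) := by ring
  linarith

end BG
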