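import Pool.Agent.W_aaa0df_bg.C2
import Pool.Agent.W_aaa0df_bg.C4

/-!
# T1, C5: many split primes below `|d|^(1/4+ε)` for every fundamental discriminant
-/

set_option autoImplicit false

namespace BG

open Finset MPaaa0df

theorem C5_ev (m : ℕ) (C c s : ℝ) (hC : 0 ≤ C) (hc : 0 < c) (hs : 0 < s) :
    ∀ᶠ Q : ℝ in Filter.atTop, C * (Real.log Q) ^ m ≤ c * Q ^ s := by
  have h1 := (isLittleO_log_rpow_rpow_atTop (m : ℝ) hs).def
    (show 0 < c / (C + 1) by (clear * - hc hC; positivity))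
  filter_upwards [h1, Filter.eventually_ge_atTop (1 : ℝ)] with Q hQ hQ1
  have h0 : 0 ≤ Real.log Q := Real.log_nonneg hQ1
  rw [Real.rpow_natCast, Real.norm_of_nonneg (pow_nonneg h0 m),
    Real.norm_of_nonneg (Real.rpow_nonneg (by linarith only [hQ1]) s)] at hQ
  have h2 : 0 ≤ Q ^ s := Real.rpow_nonneg (by linarith only [hQ1]) s
  calc C * (Real.log Q) ^ m ≤ C * (c / (C + 1) * Q ^ s) := mul_le_mul_of_nonneg_left hQ hC
    _ = (C / (C + 1)) * (c * Q ^ s) := by field_simp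
    _ ≤ 1 * (c * Q ^ s) := by
      apply mul_le_mul_of_nonneg_right _ (by (clear * - hc hQ1; positivity))
      rw [div_le_one (by (clear * - hC; positivity))]
      linarith only
    _ = c * Q ^ s := one_mul _

theorem C5_natAbs (d : ℤ) : ((d.natAbs : ℕ) : ℝ) = |(d : ℝ)| := by
  rw [Nat.cast_natAbs, Int.cast_abs]

theorem C5_core {E η L ℓ lN lK l2N e1 e2 e3 sK iK W P X Y : ℝ} (hE : 0 ≤ E) (hη : 0 < η)
    (hη1 : η ≤ 1) (hℓ : 1 ≤ ℓ)
    (h0 : (1 - η) * lN * (L - E * e1 - e2 * (1 + lN)) ≤ 2 * (L + E * e3) * (lK + 6) +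
      (1 + lN) * (40 * l2N ^ 2 * sK + W * lN * iK + 2 * lN * iK * P))
    (hlN : 0 ≤ lN) (hlN1 : 1 + lN ≤ ℓ) (hl2 : 0 ≤ l2N) (hl2' : l2N ≤ ℓ) (hlK : 0 ≤ lK)
    (hlK' : lK + 6 ≤ 7 * ℓ) (he1 : 0 ≤ e1) (he1' : e1 ≤ 2 * X) (he2 : 0 ≤ e2)
    (he2' : e2 ≤ 2 * X) (he3 : 0 ≤ e3) (he3' : e3 ≤ X) (hs : 0 ≤ sK) (hs' : sK ≤ 2 * X)
    (hi : 0 ≤ iK) (hi' : iK ≤ 2 * X) (hi'' : iK ≤ 2 * Y) (hW : 0 ≤ W) (hW' : W ≤ 2 * ℓ)
    (hP : 0 ≤ P) (hL : 0 ≤ L) (hmain : η / 4 * ℓ ≤ (1 - η) * lN - 2 * (lK + 6)) :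
    L * (η / 4 * ℓ) ≤ (16 * E + 86) * ℓ ^ 3 * X + 4 * ℓ ^ 2 * Y * P := by
  have hX : 0 ≤ X := by linarith only [he1, he1']
  have hℓ0 : 0 ≤ ℓ := by linarith only [hℓ]
  have hlN' : lN ≤ ℓ := by linarith only [hlN1]
  have h2 : ℓ ≤ ℓ ^ 3 := by nlinarith only [hη, hlN1, hlK, hmain, hℓ, hlN, mul_nonneg hℓ0 hℓ0, mul_le_mul hℓ hℓ zero_le_one hℓ0]
  have h3 : ℓ ^ 2 ≤ ℓ ^ 3 := by nlinarith only [hℓ, mul_nonneg hℓ0 hℓ0, mul_le_mul hℓ hℓ zero_le_one hℓ0]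
  have hEX : 0 ≤ E * X := mul_nonneg hE hX
  have h1η : 0 ≤ 1 - η := by linarith only [hη1]
  have ha : L * (η / 4 * ℓ) ≤ L * ((1 - η) * lN - 2 * (lK + 6)) :=
    mul_le_mul_of_nonneg_left hmain hL
  have t1 : (1 - η) * lN * (E * e1) ≤ 2 * E * (ℓ ^ 3 * X) := by
    calc (1 - η) * lN * (E * e1) ≤ 1 * ℓ * (E * (2 * X)) := by
          gcongr
          linarith only [hη]
      _ = 2 * (E * X) * ℓ := by ring
      _ ≤ 2 * (E * X) * ℓ ^ 3 := mul_le_mul_of_nonneg_left h2 (by (clear * - hE hX; positivity))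
      _ = 2 * E * (ℓ ^ 3 * X) := by ring
  have t2 : (1 - η) * lN * (e2 * (1 + lN)) ≤ 2 * (ℓ ^ 3 * X) := by
    calc (1 - η) * lN * (e2 * (1 + lN)) ≤ 1 * ℓ * (2 * X * ℓ) := by
          gcongr
          linarith only [hη]
      _ = 2 * X * ℓ ^ 2 := by ring
      _ ≤ 2 * X * ℓ ^ 3 := mul_le_mul_of_nonneg_left h3 (by (clear * - hX; positivity))
      _ = 2 * (ℓ ^ 3 * X) := by ring
  have t3 : 2 * (E * e3) * (lK + 6) ≤ 14 * E * (ℓ ^ 3 * X) := by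
    calc 2 * (E * e3) * (lK + 6) ≤ 2 * (E * X) * (7 * ℓ) := by
          gcongr
      _ = 14 * (E * X) * ℓ := by ring
      _ ≤ 14 * (E * X) * ℓ ^ 3 := mul_le_mul_of_nonneg_left h2 (by (clear * - hE hX; positivity))
      _ = 14 * E * (ℓ ^ 3 * X) := by ring
  have t4 : (1 + lN) * (40 * l2N ^ 2 * sK) ≤ 80 * (ℓ ^ 3 * X) := by
    calc (1 + lN) * (40 * l2N ^ 2 * sK) ≤ ℓ * (40 * ℓ ^ 2 * (2 * X)) := by
          gcongr
      _ = 80 * (ℓ ^ 3 * X) := by ring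
  have t5 : (1 + lN) * (W * lN * iK) ≤ 4 * (ℓ ^ 3 * X) := by
    calc (1 + lN) * (W * lN * iK) ≤ ℓ * (2 * ℓ * ℓ * (2 * X)) := by
          gcongr
      _ = 4 * (ℓ ^ 3 * X) := by ring
  have t6 : (1 + lN) * (2 * lN * iK * P) ≤ 4 * ℓ ^ 2 * Y * P := by
    calc (1 + lN) * (2 * lN * iK * P) ≤ ℓ * (2 * ℓ * (2 * Y) * P) := by
          gcongr
      _ = 4 * ℓ ^ 2 * Y * P := by ring
  linarith only [h0, ha, t1, t2, t3, t4, t5, t6, ha, t1, t2, t3, t4, t5, t6, h0]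

theorem C5_final {E η ε σ b Q L P : ℝ} (hη : 0 < η) (hQ : 1 < Q) (hb : b = ε - η / 2)
    (hσ : σ ≤ η / 4) (hE : 0 ≤ E) (hℓ : 1 ≤ Real.log Q) (hL : Q ^ (-σ) ≤ L) (hP : 0 ≤ P)
    (h1 : (16 * E + 86) * Real.log Q ^ 3 ≤ η / 8 * Q ^ σ)
    (h2 : 1 * Real.log Q ^ 1 ≤ η / 32 * Q ^ (η / 4))
    (h : L * (η / 4 * Real.log Q) ≤ (16 * E + 86) * Real.log Q ^ 3 * Q ^ (-(2 * σ)) +
      4 * Real.log Q ^ 2 * Q ^ (-b) * P) : Q ^ (ε - η) ≤ P := by
  have hQ0 : 0 < Q := by linarith only [hQ]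
  set ℓ := Real.log Q with hℓdef
  have hA : 0 < Q ^ (-σ) := Real.rpow_pos_of_pos hQ0 _
  have h3 : (16 * E + 86) * ℓ ^ 3 * Q ^ (-(2 * σ)) ≤ η / 8 * Q ^ (-σ) := by
    calc (16 * E + 86) * ℓ ^ 3 * Q ^ (-(2 * σ)) ≤ η / 8 * Q ^ σ * Q ^ (-(2 * σ)) :=
          mul_le_mul_of_nonneg_right h1 (Real.rpow_nonneg hQ0.le _)
      _ = η / 8 * Q ^ (-σ) := by
          rw [mul_assoc, ← Real.rpow_add hQ0]
          congr 2
          ring
  have h4 : Q ^ (-σ) * (η / 4 * ℓ) ≤ L * (η / 4 * ℓ) :=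
    mul_le_mul_of_nonneg_right hL (by (clear * - hη hℓ; positivity))
  have h5 : η / 8 * Q ^ (-σ) ≤ η / 8 * Q ^ (-σ) * ℓ :=
    le_mul_of_one_le_right (by (clear * - hη hQ; positivity)) hℓ
  have h6 : η / 8 * ℓ * Q ^ (-σ) ≤ 4 * ℓ ^ 2 * Q ^ (-b) * P := by nlinarith only [h, h3, h4, h5]
  have hℓ0 : 0 < ℓ := by linarith only [hℓ]
  have h7 : η / 32 * Q ^ (-σ) ≤ ℓ * Q ^ (-b) * P := by
    have h8 : ℓ * (η / 32 * Q ^ (-σ)) ≤ ℓ * (ℓ * Q ^ (-b) * P) := by nlinarith only [h, h3, h4, h5]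
    exact le_of_mul_le_mul_left h8 hℓ0
  have h9 : ℓ * Q ^ (-b) * P ≤ η / 32 * Q ^ (η / 4) * Q ^ (-b) * P := by
    have h10 : ℓ ≤ η / 32 * Q ^ (η / 4) := by simpa using h2
    have h11 : 0 ≤ Q ^ (-b) := Real.rpow_nonneg hQ0.le _
    gcongr
  have h12 : Q ^ (-σ) ≤ Q ^ (η / 4) * Q ^ (-b) * P := by
    have h13 : η / 32 * Q ^ (-σ) ≤ η / 32 * (Q ^ (η / 4) * Q ^ (-b) * P) := by
      calc η / 32 * Q ^ (-σ) ≤ ℓ * Q ^ (-b) * P := h7
        _ ≤ η / 32 * Q ^ (η / 4) * Q ^ (-b) * P := h9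
        _ = η / 32 * (Q ^ (η / 4) * Q ^ (-b) * P) := by ring
    exact le_of_mul_le_mul_left h13 (by (clear * - hη; positivity))
  have h14 : Q ^ (b - η / 4 - σ) ≤ P := by
    have h15 : Q ^ (b - η / 4) * Q ^ (-σ) ≤ Q ^ (b - η / 4) * (Q ^ (η / 4) * Q ^ (-b) * P) :=
      mul_le_mul_of_nonneg_left h12 (Real.rpow_nonneg hQ0.le _)
    rw [← Real.rpow_add hQ0, ← Real.rpow_add hQ0, ← mul_assoc, ← Real.rpow_add hQ0] at h15
    have h16 : b - η / 4 + (η / 4 + -b) = 0 := by ring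
    rw [h16, Real.rpow_zero, one_mul] at h15
    have h17 : b - η / 4 + -σ = b - η / 4 - σ := by ring
    rwa [h17] at h15
  refine le_trans ?_ h14
  apply Real.rpow_le_rpow_of_exponent_le hQ.le
  rw [hb]
  linarith only [hσ]

theorem C5_zero_card (d : ℤ) (hd : Twist.Fund d) (K N : ℕ) :
    (((Ioc K N).filter (fun k => k.Prime ∧ chi d k = 0)).card : ℝ) ≤ 2 * Real.log |(d : ℝ)| := by
  obtain ⟨hd0, hd4⟩ := fund_mod d hd
  have hn0 : d.natAbs ≠ 0 := Int.natAbs_ne_zero.2 hd0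
  have hsub : (Ioc K N).filter (fun k => k.Prime ∧ chi d k = 0) ⊆ d.natAbs.primeFactors := by
    intro p hp
    rw [mem_filter] at hp
    rw [Nat.mem_primeFactors]
    exact ⟨hp.2.1, Int.natCast_dvd.1 (chi_zero d hd4 p hp.2.1 hp.2.2), hn0⟩
  have h1 : 2 ^ d.natAbs.primeFactors.card ≤ d.natAbs := by
    calc 2 ^ d.natAbs.primeFactors.card = ∏ _p ∈ d.natAbs.primeFactors, 2 := by
          rw [Finset.prod_const]
      _ ≤ ∏ p ∈ d.natAbs.primeFactors, p :=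
          Finset.prod_le_prod' fun p hp => (Nat.prime_of_mem_primeFactors hp).two_le
      _ ≤ d.natAbs := Nat.le_of_dvd (Nat.pos_of_ne_zero hn0) (Nat.prod_primeFactors_dvd _)
  have h2 : (d.natAbs.primeFactors.card : ℝ) * Real.log 2 ≤ Real.log |(d : ℝ)| := by
    rw [← Real.log_pow, ← C5_natAbs]
    apply Real.log_le_log (by (clear * -; positivity))
    exact_mod_cast h1
  have h3 : (((Ioc K N).filter (fun k => k.Prime ∧ chi d k = 0)).card : ℝ) ≤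
      d.natAbs.primeFactors.card := by exact_mod_cast Finset.card_le_card hsub
  have h4 : (1 : ℝ) / 2 ≤ Real.log 2 := by
    have := Real.log_two_gt_d9
    linarith only [this]
  have h5 : (0 : ℝ) ≤ d.natAbs.primeFactors.card := by (clear * -; positivity)
  nlinarith only [h2, h3, h4]

theorem C5_split_card (d : ℤ) (hd : Twist.Fund d) (K N : ℕ) (y : ℝ) (hN : (N : ℝ) < y) :
    (((Ioc K N).filter (fun k => k.Prime ∧ chi d k = 1)).card : ℝ) ≤ splitCount d y := by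
  obtain ⟨_, hd4⟩ := fund_mod d hd
  unfold splitCount
  have hfin : {p : ℕ | p.Prime ∧ (p : ℝ) < y ∧ ¬ ((p : ℤ) ∣ d) ∧
      ∃ x : ℤ, (4 * (p : ℤ)) ∣ x ^ 2 - d}.Finite := by
    refine (Set.finite_lt_nat (⌈y⌉₊)).subset ?_
    rintro p ⟨_, hp, _⟩
    exact Nat.lt_ceil.2 hp
  have hsub : (((Ioc K N).filter (fun k => k.Prime ∧ chi d k = 1) : Finset ℕ) : Set ℕ) ⊆
      {p : ℕ | p.Prime ∧ (p : ℝ) < y ∧ ¬ ((p : ℤ) ∣ d) ∧
        ∃ x : ℤ, (4 * (p : ℤ)) ∣ x ^ 2 - d} := by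
    intro p hp
    rw [Finset.mem_coe, mem_filter, mem_Ioc] at hp
    have h1 := (chi_split d hd4 p hp.2.1).2 hp.2.2
    refine ⟨hp.2.1, lt_of_le_of_lt ?_ hN, h1.1, h1.2⟩
    exact_mod_cast hp.1.2
  have h2 := Set.ncard_le_ncard hsub hfin
  rw [Set.ncard_coe_finset] at h2
  exact_mod_cast h2

/-- Everything known about `f = chi d` in one package: for `0 < ε ≤ 1/4` there are `δ, E` and for each
`σ > 0` a `D` such that for every fundamental `|d| ≥ D` there is `L ≥ |d|^(-σ)` with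
`|R(N) - L N| ≤ E N^(1-δ)` for all `N ≥ |d|^(1/4+ε)`.

PROOF. `burgess_chi (ε/2)` gives `δ₁ ≤ 1/2, C, D₁`. `siegel_fund (σ/2)` gives `L` with
`|L| ≥ c |d|^(-σ/2) ≥ |d|^(-σ)` for large `|d|` and the partial sums tend to `L`. `R_asym` with
`T = |d|^(1/4+ε/2)` (`t ≥ T`): valid for `N^(1-δ₁/2) ≥ T`, which holds for `N ≥ |d|^(1/4+ε)` if
`(1/4+ε)(1-δ₁/2) ≥ 1/4+ε/2`, i.e. `δ₁ ≤ ε / (1/4+ε)`; so first decrease `δ₁` to `min δ₁ ε` (allowed:
`N^(1-δ)` increases). `δ = δ₁/2`. `L ≥ 0`: otherwise `R(N) ≤ L N + E N^(1-δ) < 0` for large `N`,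
contradicting `R_bounds`. So `L = |L|`. -/
theorem package (ε : ℝ) (hε : 0 < ε) (hε4 : ε ≤ 1 / 4) : ∃ (δ E : ℝ), 0 < δ ∧ δ ≤ 1 ∧ 0 < E ∧
    ∀ σ : ℝ, 0 < σ → ∃ D : ℝ, ∀ d : ℤ, Twist.Fund d → D ≤ |(d : ℝ)| →
      ∃ L : ℝ, |(d : ℝ)| ^ (-σ) ≤ L ∧ ∀ N : ℕ, |(d : ℝ)| ^ (1 / 4 + ε) ≤ N →
        |((R (chi d) N : ℤ) : ℝ) - L * N| ≤ E * (N : ℝ) ^ (1 - δ) := by
  obtain ⟨δ₁, C, D₁, hδ₁, hδ₁2, hC, hB⟩ := burgess_chi (ε / 2) (half_pos hε) (by linarith only [hε, hε4])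
  set δ₂ : ℝ := min δ₁ ε with hδ₂def
  have hδ₂ : 0 < δ₂ := lt_min hδ₁ hε
  have hδ₂2 : δ₂ ≤ 1 / 2 := (min_le_left _ _).trans hδ₁2
  have hδ₂ε : δ₂ ≤ ε := min_le_right _ _
  obtain ⟨E, hE, hRa⟩ := R_asym δ₂ C hδ₂ hδ₂2 hC
  refine ⟨δ₂ / 2, E, by linarith only [hδ₂], by linarith only [hε, hε4, hδ₂2], hE, fun σ hσ => ?_⟩
  obtain ⟨c, hc, hS⟩ := siegel_fund (σ / 2) (half_pos hσ)
  have hev : ∀ᶠ Q : ℝ in Filter.atTop, 1 / c ≤ Q ^ (σ / 2) :=
    (tendsto_rpow_atTop (half_pos hσ)).eventually_ge_atTop _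
  obtain ⟨D₂, hD₂⟩ := Filter.eventually_atTop.1 hev
  refine ⟨max D₁ (max D₂ 2), fun d hd hdD => ?_⟩
  have hdD₁ : D₁ ≤ |(d : ℝ)| := (le_max_left _ _).trans hdD
  have hdD₂ : D₂ ≤ |(d : ℝ)| := ((le_max_left _ _).trans (le_max_right _ _)).trans hdD
  have hd2 : 2 ≤ |(d : ℝ)| := ((le_max_right _ _).trans (le_max_right _ _)).trans hdD
  set Q : ℝ := |(d : ℝ)| with hQdef
  have hQ0 : 0 < Q := by linarith only [hε, hε4, hd2]
  have hQ1 : 1 ≤ Q := by linarith only [hε, hε4, hd2]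
  have hnat : 1 < d.natAbs := by
    have h1 : (1 : ℝ) < (d.natAbs : ℕ) := by rw [C5_natAbs]; linarith only [hε, hε4, hd2]
    exact_mod_cast h1
  obtain ⟨L, hLc, hLS⟩ := hS d hd hnat
  rw [C5_natAbs] at hLc
  -- the limit
  have htend : Filter.Tendsto (fun t : ℕ => ∑ n ∈ Icc 1 t, (chi d n : ℝ) / n) Filter.atTop
      (nhds L) := by
    rw [tendsto_iff_dist_tendsto_zero]
    have h1 : Filter.Tendsto (fun t : ℕ => 2 * Q / (t : ℝ)) Filter.atTop (nhds 0) :=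
      tendsto_const_nhds.div_atTop tendsto_natCast_atTop_atTop
    refine squeeze_zero' (Filter.Eventually.of_forall fun t => dist_nonneg) ?_ h1
    filter_upwards [Filter.eventually_ge_atTop 1] with t ht
    have h2 := hLS t ht
    rw [C5_natAbs] at h2
    rw [Real.dist_eq, abs_sub_comm]
    exact h2
  have hT1 : 1 ≤ Q ^ (1 / 4 + ε / 2) := Real.one_le_rpow hQ1 (by linarith only [hε, hε4])
  have hsum : ∀ t : ℕ, Q ^ (1 / 4 + ε / 2) ≤ t →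
      |((∑ n ∈ Icc 1 t, chi d n : ℤ) : ℝ)| ≤ C * (t : ℝ) ^ (1 - δ₂) := by
    intro t ht
    have h1 := hB d hd hdD₁ t ht
    have ht1 : (1 : ℝ) ≤ t := hT1.trans ht
    push_cast
    refine h1.trans (mul_le_mul_of_nonneg_left ?_ hC.le)
    apply Real.rpow_le_rpow_of_exponent_le ht1
    have := min_le_left δ₁ ε
    linarith only [this]
  have hmain : ∀ N : ℕ, Q ^ (1 / 4 + ε) ≤ N →
      |((R (chi d) N : ℤ) : ℝ) - L * N| ≤ E * (N : ℝ) ^ (1 - δ₂ / 2) := by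
    intro N hN
    have hN1' : (1 : ℝ) ≤ N := (Real.one_le_rpow hQ1 (by linarith only [hε, hε4])).trans hN
    have hN1 : 1 ≤ N := by exact_mod_cast hN1'
    refine hRa (chi d) (CM_chi d) L (Q ^ (1 / 4 + ε / 2)) hT1 hsum htend N hN1 ?_
    calc Q ^ (1 / 4 + ε / 2) ≤ Q ^ ((1 / 4 + ε) * (1 - δ₂ / 2)) := by
          apply Real.rpow_le_rpow_of_exponent_le hQ1
          nlinarith only [hδ₂ε, hε, hε4, hδ₂2]
      _ = (Q ^ (1 / 4 + ε)) ^ (1 - δ₂ / 2) := Real.rpow_mul hQ0.le _ _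
      _ ≤ (N : ℝ) ^ (1 - δ₂ / 2) :=
          Real.rpow_le_rpow (Real.rpow_nonneg hQ0.le _) hN (by linarith only [hε, hε4, hδ₂2])
  -- `L ≥ 0`
  have hL0 : 0 ≤ L := by
    have h1 : Filter.Tendsto (fun N : ℕ => E * (N : ℝ) ^ (-(δ₂ / 2))) Filter.atTop (nhds 0) := by
      have h2 := (tendsto_rpow_neg_atTop (show 0 < δ₂ / 2 by linarith only [hδ₂])).comp
        tendsto_natCast_atTop_atTop
      have h3 := h2.const_mul E
      rw [mul_zero] at h3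
      exact h3
    have h4 : ∀ᶠ N : ℕ in Filter.atTop, -L ≤ E * (N : ℝ) ^ (-(δ₂ / 2)) := by
      filter_upwards [Filter.eventually_ge_atTop (max 1 ⌈Q ^ (1 / 4 + ε)⌉₊)] with N hN
      have hN1 : 1 ≤ N := (le_max_left _ _).trans hN
      have hN2 : Q ^ (1 / 4 + ε) ≤ N := (Nat.le_ceil _).trans
        (by exact_mod_cast (le_max_right _ _).trans hN)
      have hNpos : (0 : ℝ) < N := by exact_mod_cast hN1
      have h5 := hmain N hN2
      have h6 : (0 : ℝ) ≤ ((R (chi d) N : ℤ) : ℝ) := by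
        exact_mod_cast (R_bounds (chi d) (CM_chi d) N hN1).1
      have h7 := (abs_le.1 h5).2
      have h8 : (N : ℝ) ^ (1 - δ₂ / 2) = N * (N : ℝ) ^ (-(δ₂ / 2)) := by
        rw [sub_eq_add_neg, Real.rpow_add hNpos, Real.rpow_one]
      rw [h8] at h7
      have h9 : -L * N ≤ E * (N : ℝ) ^ (-(δ₂ / 2)) * N := by nlinarith only [h6, h7]
      exact le_of_mul_le_mul_right h9 hNpos
    have h10 := ge_of_tendsto h1 h4
    linarith only [h10]
  refine ⟨L, ?_, hmain⟩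
  rw [abs_of_nonneg hL0] at hLc
  refine le_trans ?_ hLc
  have h1 := hD₂ Q hdD₂
  have h2 : Q ^ (-σ) = Q ^ (-(σ / 2)) * Q ^ (-(σ / 2)) := by
    rw [← Real.rpow_add hQ0]
    congr 1
    ring
  rw [h2]
  apply mul_le_mul_of_nonneg_right _ (Real.rpow_nonneg hQ0.le _)
  rw [Real.rpow_neg hQ0.le]
  rw [div_le_iff₀ hc] at h1
  rw [inv_le_iff_one_le_mul₀ (Real.rpow_pos_of_pos hQ0 _)]
  linarith only [h1]

/-- THEOREM T1. For `0 < η < ε ≤ 1/4` and every fundamental discriminant `d` with `|d|` large there are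
at least `|d|^(ε-η)` primes `p < |d|^(1/4+ε)` that split in `ℚ(√d)`.

PROOF. We may assume `η ≤ ε/2`. `q = |d|`. Apply `package` with `ε' = η/4` (`T = q^(1/4+ε')`),
getting `δ, E`. Let `N = ⌈q^(1/4+ε)⌉₊ - 1` (so the primes `p ≤ N` are `< q^(1/4+ε)`, `N ≥ q^(1/4+ε)/2`),
`K = ⌊q^(ε-η/2)⌋₊`. Then `N / K ≥ q^(1/4+η/2)/4 ≥ T` for large `q`. `θ` small: as
`log K / log N ≤ (ε - η/2)/(1/4+ε) + o(1) < 1/2 - κ₁` with `κ₁ > 0` depending only on `ε, η`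
(`(ε - η/2)/(1/4 + ε) < 1/2` iff `ε/2 - η/2 < 1/8`, true as `ε ≤ 1/4`), choose `θ = κ₁/2`,
and `σ > 0` so small that all the error terms below are `≤ (κ₁/8) L N log N`, `L ≥ q^(-σ)`:
`left_side`: error `N^(1-δ) log N`, `N^(1-θ) (log N)²`; `small_k`: `E T^(-δ) N log`; constants
`12 L N`. So by `mangoldt_identity` the sum over `K < k ≤ N` is at least
`(1-θ) L N log N - 2 L N log K - (κ₁/2) L N log N ≥ κ₁ L N log N`. `large_k` with
`W = log q / log K`-type bound: the primes `p > K` with `chi d p = 0` divide `d` (`chi_zero`), at most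
`log q / log 2` of them, `W = 2 log q`. Dividing by `N (1 + log N) ≤ 2 N log N`:
`(κ₁/2) L ≤ 40 (log 2N)²/√K + 2 log q log N / K + (2 log N/K) #`, and the first two terms are
`≤ (κ₁/8) L` each for large `q` if `σ < (ε - η/2)/4`. So `# ≥ κ₁ L K / (8 log N) ≥ q^(ε-η)` for
large `q` if `σ ≤ η/4`. Finally `# ≤ splitCount d (q^(1/4+ε))`: `chi_split` for the primes
`K < p ≤ N`. -/
theorem many_split (ε η : ℝ) (hη : 0 < η) (hηε : η < ε) (hε : ε ≤ 1 / 4) :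
    ∃ D : ℝ, ∀ d : ℤ, Twist.Fund d → D ≤ |(d : ℝ)| →
      |(d : ℝ)| ^ (ε - η) ≤ splitCount d (|(d : ℝ)| ^ (1 / 4 + ε)) := by
  obtain ⟨δ, E, hδ, hδ1, hE, hpk⟩ := package (η / 4) (by linarith only [hη]) (by linarith only [hη, hηε, hε])
  set a : ℝ := 1 / 4 + ε with ha
  set b : ℝ := ε - η / 2 with hb
  have hb0 : 0 < b := by rw [hb]; linarith only [hη, hηε]
  set σ : ℝ := min (δ / 8) (min (η / 8) (b / 4)) with hσdef
  have hσ : 0 < σ := lt_min (by linarith only [hδ]) (lt_min (by linarith only [hη]) (by linarith only [hη, hηε, hb]))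
  have hσ1 : σ ≤ δ / 8 := min_le_left _ _
  have hσ2 : σ ≤ η / 8 := (min_le_right _ _).trans (min_le_left _ _)
  have hσ3 : σ ≤ b / 4 := (min_le_right _ _).trans (min_le_right _ _)
  obtain ⟨D₀, hD₀⟩ := hpk σ hσ
  have hη4 : 0 < η / 4 := by linarith only [hσ, hσ2]
  have hev : ∀ᶠ Q : ℝ in Filter.atTop, D₀ ≤ Q ∧ 4 ≤ Q ∧
      (16 * E + 86) * Real.log Q ^ 3 ≤ η / 8 * Q ^ σ ∧
      1 * Real.log Q ^ 1 ≤ η / 32 * Q ^ (η / 4) ∧
      52 / η + 2 ≤ Real.log Q ∧ 4 ≤ Q ^ (η / 4) ∧ 2 ≤ Q ^ b := by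
    filter_upwards [Filter.eventually_ge_atTop D₀, Filter.eventually_ge_atTop (4 : ℝ),
      C5_ev 3 (16 * E + 86) (η / 8) σ (by (clear * - hE; positivity)) (by (clear * - hη; positivity)) hσ,
      C5_ev 1 1 (η / 32) (η / 4) (by (clear * -; positivity)) (by (clear * - hη; positivity)) hη4,
      Real.tendsto_log_atTop.eventually_ge_atTop (52 / η + 2),
      (tendsto_rpow_atTop hη4).eventually_ge_atTop 4,
      (tendsto_rpow_atTop hb0).eventually_ge_atTop 2] with Q h1 h2 h3 h4 h5 h6 h7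
    exact ⟨h1, h2, h3, h4, h5, h6, h7⟩
  obtain ⟨D, hD⟩ := Filter.eventually_atTop.1 hev
  refine ⟨D, fun d hd hdD => ?_⟩
  obtain ⟨g0, g4, g1, g2, gl, gη, gb⟩ := hD |(d : ℝ)| hdD
  obtain ⟨L, hLσ, hRL⟩ := hD₀ d hd g0
  have hzc := C5_zero_card d hd
  set Q : ℝ := |(d : ℝ)| with hQdef
  have hQ0 : 0 < Q := by linarith only [hηε, hε, hσ, hσ2, g4]
  have hQ1 : 1 < Q := by linarith only [hηε, hε, hσ, hσ2, g4]
  set ℓ : ℝ := Real.log Q with hℓdef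
  have hℓ2 : 2 ≤ ℓ := by
    have : 0 < 52 / η := by (clear * - hη; positivity)
    linarith only [gl, this]
  have hL0 : 0 ≤ L := (Real.rpow_pos_of_pos hQ0 _).le.trans hLσ
  -- `N` and `K`
  set N : ℕ := ⌈Q ^ a⌉₊ - 1 with hNdef
  set K : ℕ := ⌊Q ^ b⌋₊ with hKdef
  have ha0 : 0 < a := by rw [ha]; linarith only [hηε, hε, hσ, hσ2]
  have hab : a - b = 1 / 4 + η / 2 := by rw [ha, hb]; ring
  have hQa4 : Q ^ (1 / 4 + η / 4) * 4 ≤ Q ^ (a - b) := by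
    have h1 : a - b = (1 / 4 + η / 4) + η / 4 := by rw [hab]; ring
    rw [h1, Real.rpow_add hQ0 (1 / 4 + η / 4) (η / 4)]
    exact mul_le_mul_of_nonneg_left gη (Real.rpow_nonneg hQ0.le _)
  have hT1 : 1 ≤ Q ^ (1 / 4 + η / 4) := Real.one_le_rpow hQ1.le (by linarith only [hηε, hε, hσ, hσ2])
  have hQaab : Q ^ a = Q ^ (a - b) * Q ^ b := by
    rw [← Real.rpow_add hQ0]
    congr 1
    ring
  have hQa8 : 8 ≤ Q ^ a := by
    rw [hQaab]
    have h1 : (4 : ℝ) ≤ Q ^ (a - b) := by linarith only [hQa4, hT1]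
    calc (8 : ℝ) = 4 * 2 := by norm_num
      _ ≤ Q ^ (a - b) * Q ^ b := mul_le_mul h1 gb (by norm_num) (by linarith only [hηε, hε, hσ, hσ2, hQa4, hT1])
  have hceil1 : 1 ≤ ⌈Q ^ a⌉₊ := Nat.one_le_ceil_iff.2 (by linarith only [hηε, hε, hσ, hσ2, hQa8])
  have hNcast : (N : ℝ) = (⌈Q ^ a⌉₊ : ℝ) - 1 := by
    rw [hNdef, Nat.cast_sub hceil1, Nat.cast_one]
  have hNlt : (N : ℝ) < Q ^ a := by
    rw [hNcast]
    have := Nat.ceil_lt_add_one (show 0 ≤ Q ^ a by linarith only [hηε, hε, hσ, hσ2, hQa8])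
    linarith only [this]
  have hNge : Q ^ a - 1 ≤ N := by
    rw [hNcast]
    have := Nat.le_ceil (Q ^ a)
    linarith only [this]
  have hNhalf : Q ^ a / 2 ≤ N := by linarith only [hηε, hε, hσ, hσ2, hQa8, hNge]
  have hKle : (K : ℝ) ≤ Q ^ b := Nat.floor_le (by linarith only [hηε, hε, hσ, hσ2, gb])
  have hKge : Q ^ b - 1 ≤ K := by
    have := Nat.lt_floor_add_one (Q ^ b)
    linarith only [this]
  have hKhalf : Q ^ b / 2 ≤ K := by linarith only [gb, hKge]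
  have hK1' : (1 : ℝ) ≤ K := by linarith only [gb, hKge]
  have hK1 : 1 ≤ K := by exact_mod_cast hK1'
  have hKpos : (0 : ℝ) < K := by linarith only [hηε, hε, hσ, hσ2, gb, hKge]
  have hNpos : (0 : ℝ) < N := by linarith only [hηε, hε, hσ, hσ2, hQa8, hNge]
  have hN1' : (1 : ℝ) ≤ N := by linarith only [hηε, hε, hσ, hσ2, hQa8, hNge]
  have hN1 : 1 ≤ N := by exact_mod_cast hN1'
  have hTNK : Q ^ (1 / 4 + η / 4) ≤ ((N / K : ℕ) : ℝ) := by
    have h1 : (N : ℝ) / K - 1 ≤ ((N / K : ℕ) : ℝ) := by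
      have h2 := Nat.lt_floor_add_one ((N : ℝ) / K)
      rw [Nat.floor_div_eq_div] at h2
      linarith only [h2]
    have h3 : Q ^ (a - b) / 2 ≤ (N : ℝ) / K := by
      rw [le_div_iff₀ hKpos]
      calc Q ^ (a - b) / 2 * K ≤ Q ^ (a - b) / 2 * Q ^ b := by
            apply mul_le_mul_of_nonneg_left hKle
            linarith only [hηε, hε, hσ, hσ2, hQa4, hT1]
        _ = Q ^ a / 2 := by rw [hQaab]; ring
        _ ≤ N := hNhalf
    linarith only [hQa4, hT1, h1, h3]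
  have hKN : K ≤ N := by
    by_contra hlt
    have h1 : N / K = 0 := Nat.div_eq_of_lt (not_le.1 hlt)
    rw [h1, Nat.cast_zero] at hTNK
    linarith only [hηε, hε, hσ, hσ2, hT1, hTNK]
  -- powers
  have ha2 : a ≤ 1 / 2 := by rw [ha]; linarith only [hε]
  have ha4 : 1 / 4 ≤ a := by rw [ha]; linarith only [hηε, hσ, hσ2]
  have hpw : ∀ s : ℝ, 0 < s → s ≤ 1 → 2 * σ ≤ s / 4 → (N : ℝ) ^ (-s) ≤ 2 * Q ^ (-(2 * σ)) := by
    intro s hs hs1 hsσ
    have h1 : (N : ℝ) ^ (-s) ≤ (Q ^ a / 2) ^ (-s) :=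
      Real.rpow_le_rpow_of_nonpos (by linarith only [hηε, hε, hσ, hσ2, hQa8]) hNhalf (by linarith only [hσ, hsσ])
    refine h1.trans ?_
    rw [Real.div_rpow (by linarith only [hηε, hε, hσ, hσ2, hQa8]) (by norm_num), ← Real.rpow_mul hQ0.le]
    have h2 : (2 : ℝ) ^ (-s) ≥ 1 / 2 := by
      calc (2 : ℝ) ^ (-s) ≥ (2 : ℝ) ^ (-1 : ℝ) :=
            Real.rpow_le_rpow_of_exponent_le (by norm_num) (by linarith only [hs1])
        _ = 1 / 2 := by rw [Real.rpow_neg_one]; norm_num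
    have h3 : Q ^ (a * -s) ≤ Q ^ (-(2 * σ)) := by
      apply Real.rpow_le_rpow_of_exponent_le hQ1.le
      have h5 := mul_le_mul_of_nonneg_right ha4 hs.le
      linarith only [hsσ, h5]
    have h4 : 0 < Q ^ (a * -s) := Real.rpow_pos_of_pos hQ0 _
    rw [div_le_iff₀ (by linarith only [hηε, hε, hσ, hσ2, h2])]
    have h6 : 0 ≤ 2 * Q ^ (-(2 * σ)) := by
      have := Real.rpow_pos_of_pos hQ0 (-(2 * σ))
      linarith only [h3, h4]
    have h7 := mul_le_mul_of_nonneg_left h2 h6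
    linarith only [h3, h7]
  have hX0 : 0 < Q ^ (-(2 * σ)) := Real.rpow_pos_of_pos hQ0 _
  have hiK : 1 / (K : ℝ) ≤ 2 * Q ^ (-b) := by
    rw [Real.rpow_neg hQ0.le, ← div_eq_mul_inv, div_le_div_iff₀ hKpos (by linarith only [hηε, hε, hσ, hσ2, gb])]
    linarith only [gb, hKge]
  have hbX : Q ^ (-b) ≤ Q ^ (-(2 * σ)) := by
    apply Real.rpow_le_rpow_of_exponent_le hQ1.le
    linarith only [hηε, hb, hσ, hσ2]
  have hiK' : 1 / (K : ℝ) ≤ 2 * Q ^ (-(2 * σ)) := by linarith only [hiK, hbX]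
  have hsK : 1 / √(K : ℝ) ≤ 2 * Q ^ (-(2 * σ)) := by
    have h1 : Q ^ (b / 2) / 2 ≤ √(K : ℝ) := by
      apply Real.le_sqrt_of_sq_le
      have h2 : (Q ^ (b / 2) / 2) ^ 2 = Q ^ b / 4 := by
        rw [div_pow, ← Real.rpow_natCast, ← Real.rpow_mul hQ0.le]
        norm_num
      rw [h2]
      linarith only [hηε, hε, hσ, hσ2, gb, hKge]
    have h3 : 0 < Q ^ (b / 2) := Real.rpow_pos_of_pos hQ0 _
    have h4 : 1 / √(K : ℝ) ≤ 2 * Q ^ (-(b / 2)) := by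
      rw [Real.rpow_neg hQ0.le, ← div_eq_mul_inv, div_le_div_iff₀ (by linarith only [h1, h3]) h3]
      linarith only [h1]
    have h5 : Q ^ (-(b / 2)) ≤ Q ^ (-(2 * σ)) := by
      apply Real.rpow_le_rpow_of_exponent_le hQ1.le
      linarith only [hηε, hb, hσ2]
    linarith only [h4, h5]
  -- logarithms
  have hlNup : Real.log N ≤ a * ℓ := by
    rw [← Real.log_rpow hQ0]
    exact Real.log_le_log hNpos hNlt.le
  have hlNlow : a * ℓ - 1 ≤ Real.log N := by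
    have h1 : Real.log (Q ^ a / 2) ≤ Real.log N := Real.log_le_log (by linarith only [hηε, hε, hσ, hσ2, hQa8]) hNhalf
    rw [Real.log_div (by linarith only [hηε, hε, hσ, hσ2, hQa8]) (by norm_num), Real.log_rpow hQ0] at h1
    have := Real.log_two_lt_d9
    linarith only [hηε, hε, hσ, hσ2, h1, this]
  have haℓ : a * ℓ ≤ 1 / 2 * ℓ := mul_le_mul_of_nonneg_right ha2 (by linarith only [hηε, hε, hσ, hσ2, hℓ2])
  have hb4 : b ≤ 1 / 4 := by rw [hb]; linarith only [hε, hσ, hσ2]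
  have hbℓ : b * ℓ ≤ 1 / 4 * ℓ := mul_le_mul_of_nonneg_right hb4 (by linarith only [hηε, hε, hσ, hσ2, hℓ2])
  have hlKup : Real.log K ≤ b * ℓ := by
    rw [← Real.log_rpow hQ0]
    exact Real.log_le_log hKpos hKle
  have hlN0 : 0 ≤ Real.log N := Real.log_nonneg hN1'
  have hlK0 : 0 ≤ Real.log K := Real.log_nonneg hK1'
  have hl2N : Real.log (2 * N) ≤ ℓ := by
    rw [Real.log_mul (by norm_num) hNpos.ne']
    have := Real.log_two_lt_d9
    linarith only [hηε, hε, hσ, hσ2, hℓ2, hlNup, haℓ, this]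
  have hl2N0 : 0 ≤ Real.log (2 * N) := Real.log_nonneg (by linarith only [hηε, hε, hσ, hσ2, hQa8, hNge])
  -- the identity
  have hid := mangoldt_identity (chi d) (CM_chi d) N
  have hsplit : ∑ k ∈ Icc 1 N, ArithmeticFunction.vonMangoldt k * (1 + (chi d k : ℝ)) *
      ((R (chi d) (N / k) : ℤ) : ℝ) =
      ∑ k ∈ Icc 1 K, ArithmeticFunction.vonMangoldt k * (1 + (chi d k : ℝ)) *
        ((R (chi d) (N / k) : ℤ) : ℝ) +
      ∑ k ∈ Ioc K N, ArithmeticFunction.vonMangoldt k * (1 + (chi d k : ℝ)) *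
        ((R (chi d) (N / k) : ℤ) : ℝ) := by
    rw [← Finset.sum_union]
    · congr 1
      ext k
      simp only [mem_union, mem_Icc, mem_Ioc]
      omega
    · rw [Finset.disjoint_left]
      intro k hk hk'
      simp only [mem_Icc] at hk
      simp only [mem_Ioc] at hk'
      omega
  have hη1 : η < 1 := by linarith only [hηε, hε, hσ, hσ2]
  have hRN := hRL N (by
    refine le_trans ?_ hTNK |>.trans ?_
    · exact le_rfl
    · exact_mod_cast Nat.div_le_self N K)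
  have hleft := left_side (chi d) (CM_chi d) L E δ η hE.le hη hη1 N hN1 hRN
  have hsmall := small_k (chi d) (CM_chi d) L E (Q ^ (1 / 4 + η / 4)) δ hL0 hE.le hT1 hδ hδ1
    hRL N K hK1 hTNK
  have hlarge := large_k (chi d) (CM_chi d) N K hK1 hKN (2 * ℓ) (hzc K N)
  set P : ℝ := (((Ioc K N).filter (fun k => k.Prime ∧ chi d k = 1)).card : ℝ) with hPdef
  have hcore0 : (1 - η) * Real.log N * (L - E * (N : ℝ) ^ (-δ) -
      (N : ℝ) ^ (-η) * (1 + Real.log N)) ≤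
      2 * (L + E * (Q ^ (1 / 4 + η / 4)) ^ (-δ)) * (Real.log K + 6) +
      (1 + Real.log N) * (40 * (Real.log (2 * N)) ^ 2 * (1 / √(K : ℝ)) +
        2 * ℓ * Real.log N * (1 / (K : ℝ)) + 2 * Real.log N * (1 / (K : ℝ)) * P) := by
    have h1 : ∀ s : ℝ, (N : ℝ) ^ (1 - s) = N * (N : ℝ) ^ (-s) := by
      intro s
      rw [sub_eq_add_neg, Real.rpow_add hNpos, Real.rpow_one]
    rw [hid, hsplit, h1, h1] at hleft
    have h2 := hleft.trans (add_le_add hsmall hlarge)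
    have h3 : (N : ℝ) * ((1 - η) * Real.log N * (L - E * (N : ℝ) ^ (-δ) -
        (N : ℝ) ^ (-η) * (1 + Real.log N))) ≤
        N * (2 * (L + E * (Q ^ (1 / 4 + η / 4)) ^ (-δ)) * (Real.log K + 6) +
        (1 + Real.log N) * (40 * (Real.log (2 * N)) ^ 2 * (1 / √(K : ℝ)) +
          2 * ℓ * Real.log N * (1 / (K : ℝ)) + 2 * Real.log N * (1 / (K : ℝ)) * P)) := by
      calc (N : ℝ) * ((1 - η) * Real.log N * (L - E * (N : ℝ) ^ (-δ) -
            (N : ℝ) ^ (-η) * (1 + Real.log N))) =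
            (1 - η) * Real.log N * (L * N - E * (N * (N : ℝ) ^ (-δ)) -
              N * (N : ℝ) ^ (-η) * (1 + Real.log N)) := by ring
        _ ≤ _ := h2
        _ = _ := by ring
    exact le_of_mul_le_mul_left h3 hNpos
  have hTδ : (Q ^ (1 / 4 + η / 4)) ^ (-δ) ≤ Q ^ (-(2 * σ)) := by
    rw [← Real.rpow_mul hQ0.le]
    apply Real.rpow_le_rpow_of_exponent_le hQ1.le
    have h1 : 0 ≤ η * δ := mul_nonneg hη.le hδ.le
    linarith only [hσ1, h1]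
  have hmain : η / 4 * ℓ ≤ (1 - η) * Real.log N - 2 * (Real.log K + 6) := by
    have h1 : (1 - η) * (a * ℓ - 1) ≤ (1 - η) * Real.log N :=
      mul_le_mul_of_nonneg_left hlNlow (by linarith only [hηε, hε, hσ, hσ2])
    have h2 : a - 2 * b ≥ η := by rw [ha, hb]; linarith only [hε]
    have h3 : η * a ≤ η * (1 / 2) := mul_le_mul_of_nonneg_left ha2 hη.le
    have h4 : η / 4 * (52 / η + 2) ≤ η / 4 * ℓ := mul_le_mul_of_nonneg_left gl (by linarith only [hσ, hσ2])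
    have h5 : η / 4 * (52 / η + 2) = 13 + η / 2 := by
      field_simp
      ring
    have h6 : (a - 2 * b) * ℓ ≥ η * ℓ := mul_le_mul_of_nonneg_right h2 (by linarith only [hηε, hε, hσ, hσ2, hℓ2])
    have h7 : η * a * ℓ ≤ η * (1 / 2) * ℓ := mul_le_mul_of_nonneg_right h3 (by linarith only [hηε, hε, hσ, hσ2, haℓ, hlKup, hlK0, h4, h5, h6])
    linarith only [hσ, hσ2, hlKup, h1, h4, h5, h6, h7]
  have hfin := C5_core (Y := Q ^ (-b)) hE.le hη hη1.le (by linarith only [hηε, hε, hσ, hσ2, hℓ2]) hcore0 hlN0 (by linarith only [hℓ2, hlNup, haℓ])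
    hl2N0 hl2N hlK0 (by linarith only [hηε, hε, hσ, hσ2, hℓ2, hbℓ, hlKup]) (Real.rpow_nonneg hNpos.le _)
    (hpw δ hδ hδ1 (by linarith only [hσ1])) (Real.rpow_nonneg hNpos.le _)
    (hpw η hη hη1.le (by linarith only [hσ2])) (Real.rpow_nonneg (Real.rpow_nonneg hQ0.le _) _) hTδ
    (by (clear * - hK1; positivity)) hsK (by (clear * - hK1; positivity)) hiK' hiK (by linarith only [hηε, hε, hσ, hσ2, hℓ2]) (by linarith only)
    (by (clear * -; positivity)) hL0 hmain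
  exact (C5_final hη hQ1 hb (by linarith only [hσ, hσ2]) hE.le (by linarith only [hηε, hε, hσ, hσ2, hℓ2]) hLσ (by (clear * -; positivity)) g1 g2
    hfin).trans (C5_split_card d hd K N _ hNlt)

end BG
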