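import Pool.Agent.W_aaa0df_bg.C2
import Pool.Agent.W_aaa0df_bg.C4

/-!
# T1*, D1: from a power saving in the character sums of length `≥ Y` to split primes, at all scales
-/

set_option autoImplicit false

namespace BG

open Finset MPaaa0df ArithmeticFunction

/-- the character sums of length at least `Y` have a power saving -/
def CS (d : ℤ) (Y C δ : ℝ) : Prop :=
  ∀ N : ℕ, Y ≤ N → |∑ n ∈ Icc 1 N, (chi d n : ℝ)| ≤ C * (N : ℝ) ^ (1 - δ)

/-- As `package` in C5, for a general starting point `Y` instead of `|d|^(1/4+ε)`; the constants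
`δ', E` do not depend on `d, Y, σ`.

PROOF. `q = |d|`. Put `δ₁ = min δ (min ε (1/2))`; `CS d Y C δ` implies `CS d Y C δ₁` (`N ≥ 1`: `N^(1-δ)`
increases when `δ` decreases). `siegel_fund (σ/2)` gives `L₀`, `|L₀| ≥ c q^(-σ/2) ≥ q^(-σ)` for large
`q`, and the partial sums of `∑ chi d n / n` tend to `L₀` (squeeze `2 q / N → 0`). `R_asym δ₁ C` with
`T = Y`: its hypothesis is `Y ≤ N^(1-δ₁/2)`; for `N ≥ Y q^ε`: if `N ≤ q^2` then
`N^(δ₁/2) ≤ q^δ₁ ≤ q^ε`, so `N^(1-δ₁/2) ≥ N q^(-ε) ≥ Y`; if `N > q^2` then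
`N^(1-δ₁/2) ≥ N^(3/4) ≥ q^(3/2) ≥ q ≥ Y`. So `δ' = δ₁/2`. `L₀ ≥ 0`: otherwise
`R(N) ≤ L₀ N + E N^(1-δ') < 0` for large `N`, contradicting `R_bounds`; so `L = L₀ = |L₀|`. -/
theorem package_of (C δ ε : ℝ) (hC : 0 < C) (hδ : 0 < δ) (hδ1 : δ ≤ 1 / 2) (hε : 0 < ε) :
    ∃ (δ' E : ℝ), 0 < δ' ∧ δ' ≤ 1 / 2 ∧ 0 < E ∧ ∀ σ : ℝ, 0 < σ → ∃ D : ℝ, ∀ d : ℤ,
      Twist.Fund d → D ≤ |(d : ℝ)| → ∀ Y : ℝ, 1 ≤ Y → Y ≤ |(d : ℝ)| → CS d Y C δ →
      ∃ L : ℝ, |(d : ℝ)| ^ (-σ) ≤ L ∧ ∀ N : ℕ, Y * |(d : ℝ)| ^ ε ≤ N →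
        |((R (chi d) N : ℤ) : ℝ) - L * N| ≤ E * (N : ℝ) ^ (1 - δ') := by
  set δ₂ : ℝ := min δ ε with hδ₂def
  have hδ₂ : 0 < δ₂ := lt_min hδ hε
  have hδ₂2 : δ₂ ≤ 1 / 2 := (min_le_left _ _).trans hδ1
  have hδ₂ε : δ₂ ≤ ε := min_le_right _ _
  obtain ⟨E, hE, hRa⟩ := R_asym δ₂ C hδ₂ hδ₂2 hC
  refine ⟨δ₂ / 2, E, by linarith, by linarith, hE, fun σ hσ => ?_⟩
  obtain ⟨c, hc, hS⟩ := siegel_fund (σ / 2) (half_pos hσ)
  have hev : ∀ᶠ Q : ℝ in Filter.atTop, 1 / c ≤ Q ^ (σ / 2) :=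
    (tendsto_rpow_atTop (half_pos hσ)).eventually_ge_atTop _
  obtain ⟨D₂, hD₂⟩ := Filter.eventually_atTop.1 hev
  refine ⟨max D₂ 2, fun d hd hdD Y hY1 hYQ hCS => ?_⟩
  have hdD₂ : D₂ ≤ |(d : ℝ)| := (le_max_left _ _).trans hdD
  have hd2 : 2 ≤ |(d : ℝ)| := (le_max_right _ _).trans hdD
  set Q : ℝ := |(d : ℝ)| with hQdef
  have hQ0 : 0 < Q := by linarith
  have hQ1 : 1 ≤ Q := by linarith
  have hnatabs : ((d.natAbs : ℕ) : ℝ) = Q := by
    rw [Nat.cast_natAbs, Int.cast_abs]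
  have hnat : 1 < d.natAbs := by
    have h1 : (1 : ℝ) < (d.natAbs : ℕ) := by rw [hnatabs]; linarith
    exact_mod_cast h1
  obtain ⟨L, hLc, hLS⟩ := hS d hd hnat
  rw [hnatabs] at hLc
  -- the limit
  have htend : Filter.Tendsto (fun t : ℕ => ∑ n ∈ Icc 1 t, (chi d n : ℝ) / n) Filter.atTop
      (nhds L) := by
    rw [tendsto_iff_dist_tendsto_zero]
    have h1 : Filter.Tendsto (fun t : ℕ => 2 * Q / (t : ℝ)) Filter.atTop (nhds 0) :=
      tendsto_const_nhds.div_atTop tendsto_natCast_atTop_atTop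
    refine squeeze_zero' (Filter.Eventually.of_forall fun t => dist_nonneg) ?_ h1
    filter_upwards [Filter.eventually_ge_atTop 1] with t ht
    have h2 := hLS t ht
    rw [hnatabs] at h2
    rw [Real.dist_eq, abs_sub_comm]
    exact h2
  have hsum : ∀ t : ℕ, Y ≤ t →
      |((∑ n ∈ Icc 1 t, chi d n : ℤ) : ℝ)| ≤ C * (t : ℝ) ^ (1 - δ₂) := by
    intro t ht
    have h1 := hCS t ht
    have ht1 : (1 : ℝ) ≤ t := hY1.trans ht
    push_cast
    refine h1.trans (mul_le_mul_of_nonneg_left ?_ hC.le)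
    apply Real.rpow_le_rpow_of_exponent_le ht1
    have := min_le_left δ ε
    linarith
  have hYE : 1 ≤ Y * Q ^ ε := by
    have h1 : 1 ≤ Q ^ ε := Real.one_le_rpow hQ1 hε.le
    nlinarith
  have hmain : ∀ N : ℕ, Y * Q ^ ε ≤ N →
      |((R (chi d) N : ℤ) : ℝ) - L * N| ≤ E * (N : ℝ) ^ (1 - δ₂ / 2) := by
    intro N hN
    have hN1' : (1 : ℝ) ≤ N := hYE.trans hN
    have hN0 : (0 : ℝ) < N := by linarith
    have hN1 : 1 ≤ N := by exact_mod_cast hN1'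
    refine hRa (chi d) (CM_chi d) L Y hY1 hsum htend N hN1 ?_
    rcases le_or_gt (N : ℝ) (Q ^ (2 : ℝ)) with h | h
    · have h1 : (N : ℝ) ^ (δ₂ / 2) ≤ Q ^ ε := by
        calc (N : ℝ) ^ (δ₂ / 2) ≤ (Q ^ (2 : ℝ)) ^ (δ₂ / 2) :=
              Real.rpow_le_rpow hN0.le h (by linarith)
          _ = Q ^ δ₂ := by
              rw [← Real.rpow_mul hQ0.le]
              congr 1
              ring
          _ ≤ Q ^ ε := Real.rpow_le_rpow_of_exponent_le hQ1 hδ₂ε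
      have h2 : (N : ℝ) = (N : ℝ) ^ (1 - δ₂ / 2) * (N : ℝ) ^ (δ₂ / 2) := by
        rw [← Real.rpow_add hN0, sub_add_cancel, Real.rpow_one]
      have h3 : 0 < (N : ℝ) ^ (δ₂ / 2) := Real.rpow_pos_of_pos hN0 _
      have h4 : Y * (N : ℝ) ^ (δ₂ / 2) ≤ (N : ℝ) ^ (1 - δ₂ / 2) * (N : ℝ) ^ (δ₂ / 2) := by
        rw [← h2]
        exact (mul_le_mul_of_nonneg_left h1 (by linarith)).trans hN
      exact le_of_mul_le_mul_right h4 h3
    · calc Y ≤ Q := hYQ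
        _ = (Q ^ (2 : ℝ)) ^ (1 / 2 : ℝ) := by
            rw [← Real.rpow_mul hQ0.le, show (2 : ℝ) * (1 / 2) = 1 by norm_num, Real.rpow_one]
        _ ≤ (N : ℝ) ^ (1 / 2 : ℝ) :=
            Real.rpow_le_rpow (Real.rpow_nonneg hQ0.le _) h.le (by norm_num)
        _ ≤ (N : ℝ) ^ (1 - δ₂ / 2) :=
            Real.rpow_le_rpow_of_exponent_le hN1' (by linarith)
  -- `L ≥ 0`
  have hL0 : 0 ≤ L := by
    have h1 : Filter.Tendsto (fun N : ℕ => E * (N : ℝ) ^ (-(δ₂ / 2))) Filter.atTop (nhds 0) := by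
      have h2 := (tendsto_rpow_neg_atTop (show 0 < δ₂ / 2 by linarith)).comp
        tendsto_natCast_atTop_atTop
      have h3 := h2.const_mul E
      rw [mul_zero] at h3
      exact h3
    have h4 : ∀ᶠ N : ℕ in Filter.atTop, -L ≤ E * (N : ℝ) ^ (-(δ₂ / 2)) := by
      filter_upwards [Filter.eventually_ge_atTop (max 1 ⌈Y * Q ^ ε⌉₊)] with N hN
      have hN1 : 1 ≤ N := (le_max_left _ _).trans hN
      have hN2 : Y * Q ^ ε ≤ N := (Nat.le_ceil _).trans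
        (by exact_mod_cast (le_max_right _ _).trans hN)
      have hNpos : (0 : ℝ) < N := by exact_mod_cast hN1
      have h5 := hmain N hN2
      have h6 : (0 : ℝ) ≤ ((R (chi d) N : ℤ) : ℝ) := by
        exact_mod_cast (R_bounds (chi d) (CM_chi d) N hN1).1
      have h7 := (abs_le.1 h5).2
      have h8 : (N : ℝ) ^ (1 - δ₂ / 2) = N * (N : ℝ) ^ (-(δ₂ / 2)) := by
        rw [sub_eq_add_neg, Real.rpow_add hNpos, Real.rpow_one]
      rw [h8] at h7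
      have h9 : -L * N ≤ E * (N : ℝ) ^ (-(δ₂ / 2)) * N := by nlinarith
      exact le_of_mul_le_mul_right h9 hNpos
    have h10 := ge_of_tendsto h1 h4
    linarith
  refine ⟨L, ?_, hmain⟩
  rw [abs_of_nonneg hL0] at hLc
  refine le_trans ?_ hLc
  have h1 := hD₂ Q hdD₂
  have h2 : Q ^ (-σ) = Q ^ (-(σ / 2)) * Q ^ (-(σ / 2)) := by
    rw [← Real.rpow_add hQ0]
    congr 1
    ring
  rw [h2]
  apply mul_le_mul_of_nonneg_right _ (Real.rpow_nonneg hQ0.le _)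
  rw [Real.rpow_neg hQ0.le]
  rw [div_le_iff₀ hc] at h1
  rw [inv_le_iff_one_le_mul₀ (Real.rpow_pos_of_pos hQ0 _)]
  linarith

/-- PROOF. Non-primes: `prime_powers` and `1 + f k ≤ 2`. Primes with `f k = -1` contribute `0`; primes
with `f k = 0` (at most `W`): each at most `log k / k ≤ log K₁ / K₀`; primes with `f k = 1`: each at most
`2 log K₁ / K₀`. -/
theorem mid_k (f : ℕ → ℤ) (hf : CM f) (K₀ K₁ : ℕ) (hK : 1 ≤ K₀) (hKN : K₀ ≤ K₁) (W : ℝ)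
    (hW : (((Ioc K₀ K₁).filter (fun k => k.Prime ∧ f k = 0)).card : ℝ) ≤ W) :
    ∑ k ∈ Ioc K₀ K₁, Λ k * (1 + (f k : ℝ)) / k ≤
      40 * (Real.log (2 * K₁)) ^ 2 / √(K₀ : ℝ) + W * Real.log K₁ / K₀ +
        2 * Real.log K₁ / K₀ * ((Ioc K₀ K₁).filter (fun k => k.Prime ∧ f k = 1)).card := by
  have hK0 : (0 : ℝ) < K₀ := by exact_mod_cast hK
  have hN1 : (1 : ℝ) ≤ K₁ := by exact_mod_cast (hK.trans hKN)
  have hN0 : (0 : ℝ) < K₁ := by linarith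
  have hlog : 0 ≤ Real.log K₁ := Real.log_nonneg hN1
  have hpt : ∀ k ∈ Ioc K₀ K₁, Λ k * (1 + (f k : ℝ)) / (k : ℝ) ≤
      2 * (if ¬ k.Prime then Λ k / (k : ℝ) else 0) +
      Real.log K₁ / K₀ * (if k.Prime ∧ f k = 0 then 1 else 0) +
      2 * Real.log K₁ / K₀ * (if k.Prime ∧ f k = 1 then 1 else 0) := by
    intro k hk
    obtain ⟨a, b⟩ := mem_Ioc.1 hk
    have hk0 : (0 : ℝ) < k := by
      have : 0 < k := by omega
      exact_mod_cast this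
    have h8 : (0 : ℝ) ≤ Λ k := vonMangoldt_nonneg
    have h9 : 0 ≤ Λ k / (k : ℝ) := div_nonneg h8 hk0.le
    have h10 : Λ k / (k : ℝ) ≤ Real.log K₁ / K₀ := by
      have h11 : Λ k ≤ Real.log K₁ := vonMangoldt_le_log.trans
        (Real.log_le_log hk0 (by exact_mod_cast b))
      exact div_le_div₀ hlog h11 hK0 (by exact_mod_cast a.le)
    have h12 : 0 ≤ Real.log K₁ / K₀ := by positivity
    have e0 : Λ k * (1 + (f k : ℝ)) / (k : ℝ) = Λ k / (k : ℝ) * (1 + (f k : ℝ)) := by ring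
    rw [e0]
    by_cases hp : k.Prime
    · rcases hf.val k with h | h | h
      · have h13 : ¬ (f k = 1) := by rw [h]; norm_num
        simp only [hp, h, not_true_eq_false, if_false, true_and, if_true, Int.cast_zero,
          mul_zero, add_zero, mul_one, zero_add, show ¬ ((0 : ℤ) = 1) by norm_num]
        exact h10
      · simp only [hp, h, not_true_eq_false, if_false, true_and, if_true, Int.cast_one,
          mul_zero, add_zero, mul_one, zero_add, show ¬ ((1 : ℤ) = 0) by norm_num]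
        have : 2 * Real.log K₁ / K₀ = 2 * (Real.log K₁ / K₀) := by ring
        rw [this]
        linarith
      · simp only [hp, h, not_true_eq_false, if_false, true_and, Int.cast_neg, Int.cast_one,
          mul_zero, add_zero, show ¬ ((-1 : ℤ) = 0) by norm_num,
          show ¬ ((-1 : ℤ) = 1) by norm_num]
        norm_num
    · simp only [hp, not_false_eq_true, if_true, false_and, if_false, mul_zero, add_zero]
      have h13 := (C4_one_add f hf k).2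
      nlinarith
  refine (sum_le_sum hpt).trans ?_
  rw [sum_add_distrib, sum_add_distrib, ← mul_sum, ← mul_sum, ← mul_sum, ← sum_filter,
    ← sum_filter, ← sum_filter, sum_const, sum_const, nsmul_eq_mul, nsmul_eq_mul, mul_one, mul_one]
  have h1 := prime_powers K₁ K₀ hK hKN
  have h2 : Real.log K₁ / K₀ * (((Ioc K₀ K₁).filter (fun k => k.Prime ∧ f k = 0)).card : ℝ) ≤
      W * Real.log K₁ / K₀ := by
    calc Real.log K₁ / K₀ * (((Ioc K₀ K₁).filter (fun k => k.Prime ∧ f k = 0)).card : ℝ)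
        ≤ Real.log K₁ / K₀ * W := mul_le_mul_of_nonneg_left hW (by positivity)
      _ = _ := by ring
  have h3 : 2 * (20 * (Real.log (2 * K₁)) ^ 2 / √(K₀ : ℝ)) =
      40 * (Real.log (2 * K₁)) ^ 2 / √(K₀ : ℝ) := by ring
  linarith

/-- PROOF. For `k ≤ K`: `N / k ≥ N / K ≥ T` (natural division), so with `t = N / k`:
`R(t) ≤ L t + E t^(1-δ) ≤ t (L + E T^(-δ)) ≤ (N/k) (L + E T^(-δ))` (real division, `L ≥ 0`). -/
theorem small_k_sharp (f : ℕ → ℤ) (hf : CM f) (L E T δ : ℝ) (hL : 0 ≤ L) (hE : 0 ≤ E) (hT : 1 ≤ T)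
    (hδ : 0 < δ) (hδ1 : δ ≤ 1)
    (hR : ∀ t : ℕ, T ≤ t → |((R f t : ℤ) : ℝ) - L * t| ≤ E * (t : ℝ) ^ (1 - δ))
    (N K : ℕ) (hK : 1 ≤ K) (hKN : T ≤ ((N / K : ℕ) : ℝ)) :
    ∑ k ∈ Icc 1 K, Λ k * (1 + (f k : ℝ)) * ((R f (N / k) : ℤ) : ℝ) ≤
      (L + E * T ^ (-δ)) * N * ∑ k ∈ Icc 1 K, Λ k * (1 + (f k : ℝ)) / k := by
  have hT0 : 0 < T := by linarith
  set B : ℝ := L + E * T ^ (-δ) with hB
  have hTd : 0 < T ^ (-δ) := Real.rpow_pos_of_pos hT0 _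
  have hB0 : 0 ≤ B := by positivity
  rw [mul_sum]
  refine sum_le_sum fun k hk => ?_
  obtain ⟨hk1, hkK⟩ := mem_Icc.1 hk
  have hk0 : (0 : ℝ) < k := by exact_mod_cast hk1
  have ht : T ≤ ((N / k : ℕ) : ℝ) := by
    refine hKN.trans ?_
    exact_mod_cast Nat.div_le_div_left hkK hk1
  have ht0 : 0 < ((N / k : ℕ) : ℝ) := by linarith
  have h1 := (abs_le.1 (hR _ ht)).2
  have h2 : ((N / k : ℕ) : ℝ) ^ (1 - δ) ≤ ((N / k : ℕ) : ℝ) * T ^ (-δ) := by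
    rw [sub_eq_add_neg, Real.rpow_add ht0, Real.rpow_one]
    refine mul_le_mul_of_nonneg_left ?_ ht0.le
    exact Real.rpow_le_rpow_of_nonpos hT0 ht (by linarith)
  have h3 : ((R f (N / k) : ℤ) : ℝ) ≤ B * ((N / k : ℕ) : ℝ) := by
    have h4 := mul_le_mul_of_nonneg_left h2 hE
    rw [hB]
    nlinarith
  have h4 : ((N / k : ℕ) : ℝ) ≤ (N : ℝ) / k := Nat.cast_div_le
  have h5 : ((R f (N / k) : ℤ) : ℝ) ≤ B * ((N : ℝ) / k) :=
    h3.trans (mul_le_mul_of_nonneg_left h4 hB0)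
  have h6 : 0 ≤ Λ k * (1 + (f k : ℝ)) :=
    mul_nonneg vonMangoldt_nonneg (C4_one_add f hf k).1
  calc Λ k * (1 + (f k : ℝ)) * ((R f (N / k) : ℤ) : ℝ)
      ≤ Λ k * (1 + (f k : ℝ)) * (B * ((N : ℝ) / k)) := mul_le_mul_of_nonneg_left h5 h6
    _ = B * N * (Λ k * (1 + (f k : ℝ)) / k) := by ring

/-- Upper bound for the sum over the small `k`, from the identity at the scale `K * T`.

PROOF. `N = K T` (naturals). `mangoldt_identity` at `N`: the left side is at most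
`log N * R(N) ≤ log N (L N + E N^(1-δ)) ≤ N log N (L + E T^(-δ))` (`N ≥ T`); all terms of the right
side are nonnegative (`R_bounds` or `C4_R_nonneg`); keep `k ≤ K`: `t = N / k ≥ T`,
`t ≥ N/k - 1 ≥ (N/k)(1 - 1/T)` (as `N/k ≥ T` as reals), `t ≤ N/k`, so
`R(t) ≥ L t - E t^(1-δ) ≥ (N/k) (L (1 - 1/T) - E T^(-δ))` (`t^(1-δ) ≤ t T^(-δ)`). Divide by `N > 0`. -/
theorem lower_k (f : ℕ → ℤ) (hf : CM f) (L E δ : ℝ) (hL : 0 ≤ L) (hE : 0 ≤ E)
    (hδ : 0 < δ) (hδ1 : δ ≤ 1) (T K : ℕ) (hT : 1 ≤ T) (hK : 1 ≤ K)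
    (hR : ∀ t : ℕ, T ≤ t → |((R f t : ℤ) : ℝ) - L * t| ≤ E * (t : ℝ) ^ (1 - δ)) :
    (L * (1 - 1 / (T : ℝ)) - E * (T : ℝ) ^ (-δ)) *
        (∑ k ∈ Icc 1 K, Λ k * (1 + (f k : ℝ)) / k) ≤
      (L + E * (T : ℝ) ^ (-δ)) * Real.log ((K * T : ℕ) : ℝ) := by
  set N : ℕ := K * T with hN
  have hT0 : (0 : ℝ) < T := by exact_mod_cast hT
  have hTN : T ≤ N := by
    rw [hN]
    exact Nat.le_mul_of_pos_left T hK
  have hKN : K ≤ N := by
    rw [hN]
    exact Nat.le_mul_of_pos_right K hT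
  have hN1 : 1 ≤ N := hT.trans hTN
  have hN0 : (0 : ℝ) < N := by exact_mod_cast hN1
  have hN1' : (1 : ℝ) ≤ N := by exact_mod_cast hN1
  have hTd : 0 < (T : ℝ) ^ (-δ) := Real.rpow_pos_of_pos hT0 _
  have hlog : 0 ≤ Real.log N := Real.log_nonneg hN1'
  have hpow : ∀ t : ℕ, T ≤ t → (t : ℝ) ^ (1 - δ) ≤ t * (T : ℝ) ^ (-δ) := by
    intro t ht
    have ht0 : (0 : ℝ) < t := by exact_mod_cast (lt_of_lt_of_le hT ht)
    rw [sub_eq_add_neg, Real.rpow_add ht0, Real.rpow_one]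
    refine mul_le_mul_of_nonneg_left ?_ ht0.le
    exact Real.rpow_le_rpow_of_nonpos hT0 (by exact_mod_cast ht) (by linarith)
  have hrr : ∀ n, (0 : ℝ) ≤ ((rr f n : ℤ) : ℝ) := fun n => by
    exact_mod_cast (rr_nonneg f hf n).1
  -- the left side
  have hleft : ∑ n ∈ Icc 1 N, ((rr f n : ℤ) : ℝ) * Real.log n ≤
      N * ((L + E * (T : ℝ) ^ (-δ)) * Real.log N) := by
    have h1 : ∑ n ∈ Icc 1 N, ((rr f n : ℤ) : ℝ) * Real.log n ≤
        ((R f N : ℤ) : ℝ) * Real.log N := by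
      unfold R
      rw [Int.cast_sum, sum_mul]
      refine sum_le_sum fun n hn => ?_
      obtain ⟨a, b⟩ := mem_Icc.1 hn
      refine mul_le_mul_of_nonneg_left ?_ (hrr n)
      exact Real.log_le_log (by exact_mod_cast a) (by exact_mod_cast b)
    have h2 : ((R f N : ℤ) : ℝ) ≤ N * (L + E * (T : ℝ) ^ (-δ)) := by
      have h3 := (abs_le.1 (hR N hTN)).2
      have h4 := mul_le_mul_of_nonneg_left (hpow N hTN) hE
      nlinarith
    refine h1.trans ((mul_le_mul_of_nonneg_right h2 hlog).trans_eq ?_)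
    ring
  rw [mangoldt_identity f hf N] at hleft
  -- the right side
  have hright : N * ((L * (1 - 1 / (T : ℝ)) - E * (T : ℝ) ^ (-δ)) *
      (∑ k ∈ Icc 1 K, Λ k * (1 + (f k : ℝ)) / k)) ≤
      ∑ k ∈ Icc 1 N, Λ k * (1 + (f k : ℝ)) * ((R f (N / k) : ℤ) : ℝ) := by
    have h0 : ∀ k : ℕ, 0 ≤ Λ k * (1 + (f k : ℝ)) := fun k =>
      mul_nonneg vonMangoldt_nonneg (C4_one_add f hf k).1
    have h1 : ∑ k ∈ Icc 1 K, Λ k * (1 + (f k : ℝ)) * ((R f (N / k) : ℤ) : ℝ) ≤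
        ∑ k ∈ Icc 1 N, Λ k * (1 + (f k : ℝ)) * ((R f (N / k) : ℤ) : ℝ) := by
      refine sum_le_sum_of_subset_of_nonneg (Icc_subset_Icc le_rfl hKN) fun k _ _ => ?_
      exact mul_nonneg (h0 k) (C4_R_nonneg f hf _)
    refine le_trans ?_ h1
    rw [mul_sum, mul_sum]
    refine sum_le_sum fun k hk => ?_
    obtain ⟨hk1, hkK⟩ := mem_Icc.1 hk
    have hk0 : (0 : ℝ) < k := by exact_mod_cast hk1
    have htT : T ≤ N / k := by
      rw [Nat.le_div_iff_mul_le hk1, hN, mul_comm]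
      exact Nat.mul_le_mul_right T hkK
    have h2 := (abs_le.1 (hR _ htT)).1
    have h3 := mul_le_mul_of_nonneg_left (hpow _ htT) hE
    have h4 : ((N / k : ℕ) : ℝ) ≤ (N : ℝ) / k := Nat.cast_div_le
    have h5 : (N : ℝ) / k - 1 ≤ ((N / k : ℕ) : ℝ) := by
      have h6 := Nat.lt_floor_add_one ((N : ℝ) / k)
      rw [Nat.floor_div_eq_div] at h6
      linarith
    have h6 : (T : ℝ) ≤ (N : ℝ) / k := by
      refine le_trans ?_ h4
      exact_mod_cast htT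
    have h7 : (N : ℝ) / k * (1 - 1 / (T : ℝ)) ≤ ((N / k : ℕ) : ℝ) := by
      have h8 : 1 ≤ (N : ℝ) / k * (1 / (T : ℝ)) := by
        rw [mul_one_div, le_div_iff₀ hT0, one_mul]
        exact h6
      nlinarith
    have h8 : (N : ℝ) / k * (L * (1 - 1 / (T : ℝ)) - E * (T : ℝ) ^ (-δ)) ≤
        ((R f (N / k) : ℤ) : ℝ) := by
      have h9 := mul_le_mul_of_nonneg_left h7 hL
      have h10 : ((N / k : ℕ) : ℝ) * (T : ℝ) ^ (-δ) ≤ (N : ℝ) / k * (T : ℝ) ^ (-δ) :=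
        mul_le_mul_of_nonneg_right h4 hTd.le
      have h11 := mul_le_mul_of_nonneg_left h10 hE
      have h12 : (N : ℝ) / k * (L * (1 - 1 / (T : ℝ)) - E * (T : ℝ) ^ (-δ)) =
          L * ((N : ℝ) / k * (1 - 1 / (T : ℝ))) - E * ((N : ℝ) / k * (T : ℝ) ^ (-δ)) := by ring
      rw [h12]
      linarith
    have h9 := mul_le_mul_of_nonneg_left h8 (h0 k)
    refine le_trans (le_of_eq ?_) h9
    ring
  exact le_of_mul_le_mul_left (hright.trans hleft) hN0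

end BG
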