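import Pool.Agent.W_aaa0df_bg.D1a
import Pool.Agent.W_aaa0df_bg.C5

/-!
# T1*, D1b: the two-scale argument
-/

set_option autoImplicit false

namespace BG

open Finset MPaaa0df ArithmeticFunction

/-- The algebra of the two scales. -/
theorem D1b_alg {L τ κ e S V l0 l1 θ r B g : ℝ} (hL : 0 < L) (hg : 1 ≤ g * L) (hτ : τ ≤ r * L)
    (hκ : κ ≤ r) (he : e ≤ r * L) (hr0 : 0 ≤ r) (hr : r ≤ 1 / 4) (hl0 : 0 ≤ l0)
    (hl01 : l0 ≤ l1) (hl1 : l1 ≤ B) (hθ : 0 ≤ θ) (hθ1 : θ ≤ 1) (hS : 0 ≤ S) (hV : 0 ≤ V)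
    (h1 : (L * (1 - κ) - τ) * S ≤ (L + τ) * l0)
    (h2 : (1 - θ) * l1 * (L - e) ≤ (L + τ) * (S + V) + (1 + l1) * V) :
    l1 - l0 ≤ θ * B + 10 * r * B + V * (2 + (1 + B) * g) := by
  have hl1' : 0 ≤ l1 := hl0.trans hl01
  have hB : 0 ≤ B := hl1'.trans hl1
  have hS1 : S ≤ (1 + 6 * r) * l0 := by
    have a1 : L * ((1 - 2 * r) * S) ≤ L * ((1 + r) * l0) := by
      have b1 : L * (1 - 2 * r) ≤ L * (1 - κ) - τ := by nlinarith only [hτ, hL, hκ]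
      have b2 : (L + τ) * l0 ≤ (L + r * L) * l0 := mul_le_mul_of_nonneg_right (by linarith only [hτ]) hl0
      have b3 := mul_le_mul_of_nonneg_right b1 hS
      nlinarith only [h1, b2, b3]
    have a2 : (1 - 2 * r) * S ≤ (1 + r) * l0 := le_of_mul_le_mul_left a1 hL
    have a3 : (1 + r) * l0 ≤ (1 - 2 * r) * ((1 + 6 * r) * l0) := by
      have b4 : (1 + r) ≤ (1 - 2 * r) * (1 + 6 * r) := by nlinarith only [hr0, hr]
      have b5 := mul_le_mul_of_nonneg_right b4 hl0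
      linarith only [b5]
    exact le_of_mul_le_mul_left (a2.trans a3) (by linarith only [hr])
  have hSV : 0 ≤ S + V := add_nonneg hS hV
  have a4 : L * ((1 - θ) * l1 * (1 - r)) ≤ L * ((1 + r) * (S + V) + (1 + B) * V * g) := by
    have b1 : (1 - θ) * l1 * (L * (1 - r)) ≤ (1 - θ) * l1 * (L - e) := by
      apply mul_le_mul_of_nonneg_left _ (mul_nonneg (by linarith only [hθ1]) hl1')
      linarith only [he]
    have b2 : (L + τ) * (S + V) ≤ (L + r * L) * (S + V) :=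
      mul_le_mul_of_nonneg_right (by linarith only [hτ]) hSV
    have b3 : (1 + l1) * V ≤ (1 + B) * V := mul_le_mul_of_nonneg_right (by linarith only [hl1]) hV
    have b4 : (1 + B) * V * 1 ≤ (1 + B) * V * (g * L) :=
      mul_le_mul_of_nonneg_left hg (mul_nonneg (by linarith only [hl0, hl01, hl1]) hV)
    linarith only [h2, b1, b2, b3, b4]
  have a5 : (1 - θ) * l1 * (1 - r) ≤ (1 + r) * (S + V) + (1 + B) * V * g :=
    le_of_mul_le_mul_left a4 hL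
  have a6 : l1 - θ * B - r * B ≤ (1 - θ) * l1 * (1 - r) := by
    have b1 : θ * l1 ≤ θ * B := mul_le_mul_of_nonneg_left hl1 hθ
    have b2 : r * l1 ≤ r * B := mul_le_mul_of_nonneg_left hl1 hr0
    have b3 : 0 ≤ θ * r * l1 := mul_nonneg (mul_nonneg hθ hr0) hl1'
    linarith only [b1, b2, b3]
  have a7 : (1 + r) * S ≤ l0 + 9 * (r * B) := by
    have b1 : (1 + r) * S ≤ (1 + r) * ((1 + 6 * r) * l0) :=
      mul_le_mul_of_nonneg_left hS1 (by linarith only [hr0])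
    have b2 : r * r ≤ 1 / 4 * r := mul_le_mul_of_nonneg_right hr hr0
    have b3 : (1 + r) * (1 + 6 * r) ≤ 1 + 9 * r := by linarith only [hr0, b2]
    have b4 := mul_le_mul_of_nonneg_right b3 hl0
    have b5 : r * l0 ≤ r * B := mul_le_mul_of_nonneg_left (hl01.trans hl1) hr0
    linarith only [b1, b4, b5]
  have a8 : (1 + r) * V ≤ 2 * V := mul_le_mul_of_nonneg_right (by linarith only [hr]) hV
  linarith only [a5, a6, a7, a8]

/-- The sums over the two ranges. -/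
theorem D1b_V {ℓ lK lN l2K l2N k0 k1 s0 s1 m1 m2 m : ℝ} (hℓ : 0 ≤ ℓ) (hlK : 0 ≤ lK)
    (hlKN : lK ≤ lN) (h2K : 0 ≤ l2K) (h2KN : l2K ≤ l2N) (hk0 : 0 < k0) (hk01 : k0 ≤ k1)
    (hs0 : 0 < s0) (hs01 : s0 ≤ s1) (hm1 : 0 ≤ m1) (hm1' : m1 ≤ m) (hm2 : 0 ≤ m2)
    (hm2' : m2 ≤ m) :
    40 * l2K ^ 2 / s0 + 2 * ℓ * lK / k0 + 2 * lK / k0 * m1 ≤
      40 * l2N ^ 2 / s0 + 2 * ℓ * lN / k0 + 2 * lN / k0 * m ∧
    40 * l2N ^ 2 / s1 + 2 * ℓ * lN / k1 + 2 * lN / k1 * m2 ≤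
      40 * l2N ^ 2 / s0 + 2 * ℓ * lN / k0 + 2 * lN / k0 * m := by
  have hlN : 0 ≤ lN := hlK.trans hlKN
  have h2N : 0 ≤ l2N := h2K.trans h2KN
  constructor
  · gcongr
  · gcongr

/-- The case `η ≤ 1 ≤ A`. -/
theorem D1b_core (C δ η A : ℝ) (hC : 0 < C) (hδ : 0 < δ) (hδ1 : δ ≤ 1 / 2) (hη : 0 < η)
    (hη1 : η ≤ 1) (hA : 1 ≤ A) :
    ∃ D : ℝ, 1 ≤ D ∧ ∀ d : ℤ, Twist.Fund d → D ≤ |(d : ℝ)| → ∀ Y : ℝ, 1 ≤ Y → Y ≤ |(d : ℝ)| →
      CS d Y C δ → ∀ x : ℝ, Y * |(d : ℝ)| ^ η ≤ x → x ≤ |(d : ℝ)| ^ A →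
        x / (Y * |(d : ℝ)| ^ η) ≤ splitCount d x := by
  obtain ⟨δ', E, hδ', hδ'1, hE, hpk⟩ := package_of C δ (η / 8) hC hδ hδ1 (by linarith only [hη])
  set θ : ℝ := η / (64 * (A + 1)) with hθdef
  have hA0 : 0 < A := by linarith only [hδ, hδ1, hA]
  have hθ : 0 < θ := by (clear * - hη hA; positivity)
  have hθA : θ * A ≤ η / 64 := by
    rw [hθdef, div_mul_eq_mul_div, div_le_div_iff₀ (by (clear * - hA; positivity)) (by norm_num)]
    linarith only [hη]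
  have hθ1 : θ < 1 := by
    have h1 : θ * 1 ≤ θ * A := mul_le_mul_of_nonneg_left hA hθ.le
    linarith only [hη1, hθ, hθA, h1]
  set σ : ℝ := min (η * δ' / 64) (η * θ / 64) with hσdef
  have hσ : 0 < σ := lt_min (by (clear * - hη hδ'; positivity)) (by (clear * - hη hA; positivity))
  have hσ1 : 8 * σ ≤ η / 8 * δ' := by
    have : σ ≤ η * δ' / 64 := min_le_left _ _
    linarith only [this]
  have hσ2 : 8 * σ ≤ η / 8 * θ := by
    have : σ ≤ η * θ / 64 := min_le_right _ _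
    linarith only [this]
  have hσ3 : 8 * σ ≤ η / 8 := by
    have h1 : η / 8 * δ' ≤ η / 8 * 1 := mul_le_mul_of_nonneg_left (by linarith only [hδ, hδ1, hδ'1]) (by linarith only [hη])
    linarith only [hσ1, h1]
  obtain ⟨D₀, hD₀⟩ := hpk σ hσ
  have hev : ∀ᶠ Q : ℝ in Filter.atTop, D₀ ≤ Q ∧ 4 ≤ Q ∧ 4 ≤ Q ^ (η / 8) ∧ 4 ≤ Q ^ (4 * σ) ∧
      (E + 1 + A) * Real.log Q ^ 1 ≤ 1 * Q ^ (3 * σ) ∧
      (10 * A) * Real.log Q ^ 1 ≤ 1 * Q ^ (4 * σ) ∧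
      64 / η + 1 ≤ Real.log Q ∧
      (3 + A) * Real.log Q ^ 1 ≤ 1 * Q ^ σ ∧
      (80 * A ^ 2 + 4 * A) * Real.log Q ^ 2 ≤ 1 / 2 * Q ^ (η / 8) ∧
      (8 * A) * Real.log Q ^ 1 ≤ 1 * Q ^ (η / 4) := by
    filter_upwards [Filter.eventually_ge_atTop D₀, Filter.eventually_ge_atTop (4 : ℝ),
      (tendsto_rpow_atTop (show 0 < η / 8 by (clear * - hη; positivity))).eventually_ge_atTop 4,
      (tendsto_rpow_atTop (show 0 < 4 * σ by (clear * - hη hδ' hA; positivity))).eventually_ge_atTop 4,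
      C5_ev 1 (E + 1 + A) 1 (3 * σ) (by (clear * - hE hA; positivity)) (by norm_num) (by (clear * - hη hδ' hA; positivity)),
      C5_ev 1 (10 * A) 1 (4 * σ) (by (clear * - hA; positivity)) (by norm_num) (by (clear * - hη hδ' hA; positivity)),
      Real.tendsto_log_atTop.eventually_ge_atTop (64 / η + 1),
      C5_ev 1 (3 + A) 1 σ (by (clear * - hA; positivity)) (by norm_num) hσ,
      C5_ev 2 (80 * A ^ 2 + 4 * A) (1 / 2) (η / 8) (by (clear * - hA; positivity)) (by norm_num) (by (clear * - hη; positivity)),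
      C5_ev 1 (8 * A) 1 (η / 4) (by (clear * - hA; positivity)) (by norm_num) (by (clear * - hη; positivity))] with Q h1 h2 h3 h4
      h5 h6 h7 h8 h9 h10
    exact ⟨h1, h2, h3, h4, h5, h6, h7, h8, h9, h10⟩
  obtain ⟨D, hD⟩ := Filter.eventually_atTop.1 hev
  refine ⟨max D 1, le_max_right _ _, fun d hd hdD Y hY1 hYq hCS x hx1 hx2 => ?_⟩
  obtain ⟨g0, g1, g2, g3, g4, g5, g6, g7, g8, g9⟩ := hD |(d : ℝ)| ((le_max_left _ _).trans hdD)
  obtain ⟨L, hLσ, hRL⟩ := hD₀ d hd g0 Y hY1 hYq hCS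
  have hzc := C5_zero_card d hd
  set Q : ℝ := |(d : ℝ)| with hQdef
  have hQ0 : 0 < Q := by linarith only [hη1, hσ, hσ3, g1]
  have hQ1 : 1 < Q := by linarith only [hη1, hσ, hσ3, g1]
  set ℓ : ℝ := Real.log Q with hℓdef
  simp only [pow_one, one_mul] at g4 g5 g7 g9
  have hηi : 0 < 64 / η := by (clear * - hη; positivity)
  have hℓ1 : 1 ≤ ℓ := by linarith only [g6, hηi]
  have hL : 0 < L := (Real.rpow_pos_of_pos hQ0 _).trans_le hLσ
  have hY0 : 0 < Y := by linarith only [hη1, hσ, hσ3, hY1]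
  have hQη8 : 0 < Q ^ (η / 8) := by linarith only [hη1, hσ, hσ3, g2]
  have hQη4 : Q ^ (η / 4) = Q ^ (η / 8) * Q ^ (η / 8) := by
    rw [← Real.rpow_add hQ0]
    congr 1
    ring
  have hQη2 : Q ^ (η / 2) = Q ^ (η / 4) * Q ^ (η / 4) := by
    rw [← Real.rpow_add hQ0]
    congr 1
    ring
  have hQη : Q ^ η = Q ^ (η / 2) * Q ^ (η / 2) := by
    rw [← Real.rpow_add hQ0]
    congr 1
    ring
  have h16 : 16 ≤ Q ^ (η / 4) := by
    rw [hQη4]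
    have h := mul_le_mul g2 g2 (by norm_num) hQη8.le
    linarith only [h]
  have h256 : 16 ≤ Q ^ (η / 2) := by
    rw [hQη2]
    have h := mul_le_mul h16 h16 (by norm_num) (by linarith only [hη1, hσ, hσ3, h16])
    linarith only [hη1, hσ, hσ3, h]
  have hx0 : 0 < x := by
    have : 0 < Y * Q ^ η := by (clear * - hY1 g1; positivity)
    linarith only [hx1, this]
  -- `T`
  set T : ℕ := ⌈Y * Q ^ (η / 8)⌉₊ with hTdef
  have hYQ : Q ^ (η / 8) ≤ Y * Q ^ (η / 8) := le_mul_of_one_le_left hQη8.le hY1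
  have hT1 : Y * Q ^ (η / 8) ≤ T := Nat.le_ceil _
  have hT2 : (T : ℝ) ≤ 2 * (Y * Q ^ (η / 8)) := by
    have h1 := Nat.ceil_lt_add_one (show 0 ≤ Y * Q ^ (η / 8) by (clear * - hY1 g1; positivity))
    linarith only [hη1, hσ, hσ3, g2, hYQ, h1]
  have hTQ : Q ^ (η / 8) ≤ T := hYQ.trans hT1
  have hT0 : (0 : ℝ) < T := by linarith only [hη1, hσ, hσ3, g2, hYQ, hT1]
  have hT1n : 1 ≤ T := by
    have : (1 : ℝ) ≤ T := by linarith only [hη1, hσ, hσ3, g2, hYQ, hT1]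
    exact_mod_cast this
  -- `K₀`
  set z : ℝ := x / (Y * Q ^ (η / 2)) with hzdef
  have hYQ2 : 0 < Y * Q ^ (η / 2) := by (clear * - hY1 g1; positivity)
  have hz : Q ^ (η / 2) ≤ z := by
    rw [hzdef, le_div_iff₀ hYQ2]
    calc Q ^ (η / 2) * (Y * Q ^ (η / 2)) = Y * Q ^ η := by rw [hQη]; ring
      _ ≤ x := hx1
  set K₀ : ℕ := ⌊z⌋₊ with hK₀def
  have hK0le : (K₀ : ℝ) ≤ z := Nat.floor_le (by linarith only [hη1, hσ, hσ3, h256, hz])
  have hK0ge : z / 2 ≤ K₀ := by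
    have := Nat.lt_floor_add_one z
    linarith only [hη1, hσ, hσ3, h256, hz, this]
  have hK0pos : (0 : ℝ) < K₀ := by linarith only [hη1, hσ, hσ3, h256, hz, hK0ge]
  have hK0one : (1 : ℝ) ≤ K₀ := by linarith only [hη1, hσ, hσ3, h256, hz, hK0ge]
  have hK0n : 1 ≤ K₀ := by exact_mod_cast hK0one
  -- `K₁`
  set w : ℝ := K₀ * Q ^ (η / 8) with hwdef
  have hw4 : (K₀ : ℝ) * 4 ≤ w := mul_le_mul_of_nonneg_left g2 hK0pos.le
  set K₁ : ℕ := ⌊w⌋₊ with hK₁def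
  have hK1le : (K₁ : ℝ) ≤ w := Nat.floor_le (by linarith only [hη1, hσ, hσ3, h256, hz, hK0ge, hw4])
  have hK1ge : w / 2 ≤ K₁ := by
    have := Nat.lt_floor_add_one w
    linarith only [hη1, hσ, hσ3, h256, hz, hK0ge, hw4, this]
  have hK01 : (K₀ : ℝ) ≤ K₁ := by linarith only [hη1, hσ, hσ3, h256, hz, hK0ge, hw4, hK1ge]
  have hK01n : K₀ ≤ K₁ := by exact_mod_cast hK01
  have hK1n : 1 ≤ K₁ := hK0n.trans hK01n
  have hK1pos : (0 : ℝ) < K₁ := by linarith only [hη1, hσ, hσ3, h256, hz, hK0ge, hw4, hK1ge]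
  -- `N₁`
  set N₁ : ℕ := K₁ * T with hN₁def
  have hN1c : (N₁ : ℝ) = K₁ * T := by rw [hN₁def]; push_cast; ring
  have hN1x : (N₁ : ℝ) * Q ^ (η / 4) ≤ 2 * x := by
    calc (N₁ : ℝ) * Q ^ (η / 4) = K₁ * T * Q ^ (η / 4) := by rw [hN1c]
      _ ≤ w * (2 * (Y * Q ^ (η / 8))) * Q ^ (η / 4) := by gcongr
      _ = 2 * (K₀ * (Y * Q ^ (η / 2))) := by rw [hwdef, hQη2, hQη4]; ring
      _ ≤ 2 * x := by
        have h1 : (K₀ : ℝ) * (Y * Q ^ (η / 2)) ≤ x := by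
          rw [← le_div_iff₀ hYQ2]
          exact hK0le
        linarith only [h1]
  have hN1pos : (0 : ℝ) < N₁ := by rw [hN1c]; (clear * - hK1n hY1 g1; positivity)
  have h2N1 : 2 * (N₁ : ℝ) ≤ x := by
    have h := mul_le_mul_of_nonneg_left h16 hN1pos.le
    linarith only [hN1x, hN1pos, h]
  have hN1lt : (N₁ : ℝ) < x := by linarith only [hN1pos, h2N1]
  have hTN : (T : ℝ) ≤ N₁ := by
    rw [hN1c]
    have : (1 : ℝ) ≤ K₁ := by exact_mod_cast hK1n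
    exact le_mul_of_one_le_left hT0.le this
  have hN1n : 1 ≤ N₁ := Nat.mul_pos hK1n hT1n
  have hK1N : K₁ ≤ N₁ := Nat.le_mul_of_pos_right _ hT1n
  have hQN : Q ^ (η / 8) ≤ N₁ := hTQ.trans hTN
  have hK1N' : (K₁ : ℝ) ≤ N₁ := by exact_mod_cast hK1N
  -- logarithms
  have hlx : Real.log x ≤ A * ℓ := by
    rw [hℓdef, ← Real.log_rpow hQ0]
    exact Real.log_le_log hx0 hx2
  have hl2N : Real.log (2 * N₁) ≤ A * ℓ :=
    (Real.log_le_log (by (clear * - hK1n hY1 g1; positivity)) h2N1).trans hlx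
  have hlN : Real.log N₁ ≤ A * ℓ := (Real.log_le_log hN1pos hN1lt.le).trans hlx
  have hlK0 : 0 ≤ Real.log K₁ := Real.log_nonneg (by linarith only [hη1, hσ, hσ3, h256, hz, hK0ge, hw4, hK1ge])
  have hlKN : Real.log K₁ ≤ Real.log N₁ := Real.log_le_log hK1pos hK1N'
  have hlN0 : 0 ≤ Real.log N₁ := hlK0.trans hlKN
  have hN0c : ((K₀ * T : ℕ) : ℝ) = K₀ * T := by push_cast; ring
  have hl0' : 0 ≤ Real.log ((K₀ * T : ℕ) : ℝ) := by
    rw [hN0c]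
    apply Real.log_nonneg
    have h1 : (1 : ℝ) ≤ T := by linarith only [hη1, hσ, hσ3, g2, hYQ, hT1]
    exact one_le_mul_of_one_le_of_one_le hK0one h1
  have hgap : η / 8 * ℓ - 1 ≤ Real.log N₁ - Real.log ((K₀ * T : ℕ) : ℝ) := by
    rw [hN0c, hN1c, Real.log_mul hK1pos.ne' hT0.ne', Real.log_mul hK0pos.ne' hT0.ne']
    have h1 : Real.log (w / 2) ≤ Real.log K₁ := Real.log_le_log (by (clear * - hK0n g1; positivity)) hK1ge
    rw [Real.log_div (by (clear * - hK0n g1; positivity)) (by norm_num), hwdef, Real.log_mul hK0pos.ne' hQη8.ne',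
      Real.log_rpow hQ0] at h1
    have := Real.log_two_lt_d9
    linarith only [hη1, hσ, hσ3, h1, this]
  have hl01 : Real.log ((K₀ * T : ℕ) : ℝ) ≤ Real.log N₁ := by
    rw [hN0c, hN1c]
    exact Real.log_le_log (by (clear * - hK0n hY1 g1; positivity)) (mul_le_mul_of_nonneg_right hK01 hT0.le)
  -- powers
  have hpw : ∀ X s : ℝ, Q ^ (η / 8) ≤ X → 0 ≤ s → 8 * σ ≤ η / 8 * s →
      X ^ (-s) ≤ Q ^ (-(8 * σ)) := by
    intro X s hX hs hsσ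
    calc X ^ (-s) ≤ (Q ^ (η / 8)) ^ (-s) :=
          Real.rpow_le_rpow_of_nonpos hQη8 hX (by linarith only [hs])
      _ = Q ^ (η / 8 * -s) := (Real.rpow_mul hQ0.le _ _).symm
      _ ≤ Q ^ (-(8 * σ)) := by
        apply Real.rpow_le_rpow_of_exponent_le hQ1.le
        linarith only [hsσ]
  set r : ℝ := Q ^ (-(4 * σ)) with hrdef
  have hr0 : 0 < r := Real.rpow_pos_of_pos hQ0 _
  have hrinv : r * Q ^ (4 * σ) = 1 := by
    rw [hrdef, ← Real.rpow_add hQ0]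
    simp
  have hr4 : r ≤ 1 / 4 := by
    have h := mul_le_mul_of_nonneg_left g3 hr0.le
    rw [hrinv] at h
    linarith only [h]
  have hr8 : Q ^ (-(8 * σ)) * Q ^ (3 * σ) ≤ r * L := by
    have h1 : Q ^ (-(8 * σ)) * Q ^ (3 * σ) = r * Q ^ (-σ) := by
      rw [hrdef, ← Real.rpow_add hQ0, ← Real.rpow_add hQ0]
      congr 1
      ring
    rw [h1]
    exact mul_le_mul_of_nonneg_left hLσ hr0.le
  have h8 : 0 < Q ^ (-(8 * σ)) := Real.rpow_pos_of_pos hQ0 _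
  have hEℓ : E ≤ Q ^ (3 * σ) := by
    have h1 := le_mul_of_one_le_right (show 0 ≤ E + 1 + A by (clear * - hE hA; positivity)) hℓ1
    linarith only [hη1, hA, hσ, hσ3, g4, h1]
  have hτ : E * (T : ℝ) ^ (-δ') ≤ r * L := by
    refine le_trans ?_ hr8
    calc E * (T : ℝ) ^ (-δ') ≤ Q ^ (3 * σ) * Q ^ (-(8 * σ)) :=
          mul_le_mul hEℓ (hpw T δ' hTQ hδ'.le hσ1) (Real.rpow_nonneg hT0.le _)
            (Real.rpow_nonneg hQ0.le _)
      _ = _ := mul_comm _ _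
  have hκ : 1 / (T : ℝ) ≤ r := by
    rw [div_le_iff₀ hT0]
    have h1 : Q ^ (4 * σ) ≤ T := by
      refine le_trans ?_ hTQ
      apply Real.rpow_le_rpow_of_exponent_le hQ1.le
      linarith only [hσ, hσ3]
    calc (1 : ℝ) = r * Q ^ (4 * σ) := hrinv.symm
      _ ≤ r * T := mul_le_mul_of_nonneg_left h1 hr0.le
  have he : E * (N₁ : ℝ) ^ (-δ') + (N₁ : ℝ) ^ (-θ) * (1 + Real.log N₁) ≤ r * L := by
    refine le_trans ?_ hr8
    have h1 := hpw N₁ δ' hQN hδ'.le hσ1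
    have h2 := hpw N₁ θ hQN hθ.le hσ2
    calc E * (N₁ : ℝ) ^ (-δ') + (N₁ : ℝ) ^ (-θ) * (1 + Real.log N₁) ≤
          E * Q ^ (-(8 * σ)) + Q ^ (-(8 * σ)) * (1 + A * ℓ) := by gcongr
      _ = Q ^ (-(8 * σ)) * (E + 1 + A * ℓ) := by ring
      _ ≤ Q ^ (-(8 * σ)) * Q ^ (3 * σ) := by
        apply mul_le_mul_of_nonneg_left _ h8.le
        refine le_trans ?_ g4
        have h3 := le_mul_of_one_le_right hE.le hℓ1
        linarith only [g6, hηi, h3]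
  have hg : 1 ≤ Q ^ σ * L := by
    have h1 : Q ^ σ * Q ^ (-σ) = 1 := by
      rw [← Real.rpow_add hQ0]
      simp
    rw [← h1]
    exact mul_le_mul_of_nonneg_left hLσ (Real.rpow_nonneg hQ0.le _)
  -- the identity
  have hRT : ∀ t : ℕ, T ≤ t → |((R (chi d) t : ℤ) : ℝ) - L * t| ≤ E * (t : ℝ) ^ (1 - δ') := by
    intro t ht
    apply hRL
    have : (T : ℝ) ≤ t := by exact_mod_cast ht
    linarith only [hT1, this]
  have hlow := lower_k (chi d) (CM_chi d) L E δ' hL.le hE.le hδ' (by linarith only [hη1, hδ'1, hσ, hσ3]) T K₀ hT1n hK0n hRT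
  have hleft := left_side (chi d) (CM_chi d) L E δ' θ hE.le hθ hθ1 N₁ hN1n
    (hRT N₁ (by exact_mod_cast hTN))
  have hNK : N₁ / K₁ = T := by
    rw [hN₁def]
    exact Nat.mul_div_cancel_left T hK1n
  have hsmall := small_k_sharp (chi d) (CM_chi d) L E (T : ℝ) δ' hL.le hE.le
    (by exact_mod_cast hT1n) hδ' (by linarith only [hη1, hδ'1, hσ, hσ3])
    (fun t ht => hRT t (by exact_mod_cast ht)) N₁ K₁ hK1n (by rw [hNK])
  have hmid := mid_k (chi d) (CM_chi d) K₀ K₁ hK0n hK01n (2 * ℓ) (hzc K₀ K₁)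
  have hlarge := large_k (chi d) (CM_chi d) N₁ K₁ hK1n hK1N (2 * ℓ) (hzc K₁ N₁)
  set M : ℝ := (((Ioc K₀ N₁).filter (fun k => k.Prime ∧ chi d k = 1)).card : ℝ) with hMdef
  have hM1 : (((Ioc K₀ K₁).filter (fun k => k.Prime ∧ chi d k = 1)).card : ℝ) ≤ M := by
    rw [hMdef]
    exact_mod_cast Finset.card_le_card (Finset.filter_subset_filter _
      (Finset.Ioc_subset_Ioc_right hK1N))
  have hM2 : (((Ioc K₁ N₁).filter (fun k => k.Prime ∧ chi d k = 1)).card : ℝ) ≤ M := by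
    rw [hMdef]
    exact_mod_cast Finset.card_le_card (Finset.filter_subset_filter _
      (Finset.Ioc_subset_Ioc_left hK01n))
  have hs0 : 0 < √(K₀ : ℝ) := Real.sqrt_pos.2 hK0pos
  have hs01 : √(K₀ : ℝ) ≤ √(K₁ : ℝ) := Real.sqrt_le_sqrt hK01
  have hl2K0 : 0 ≤ Real.log (2 * K₁) := Real.log_nonneg (by linarith only [hη1, hσ, hσ3, h256, hz, hK0ge, hw4, hK1ge])
  have hl2KN : Real.log (2 * K₁) ≤ Real.log (2 * N₁) :=
    Real.log_le_log (by (clear * - hK1n; positivity)) (by linarith only [hK1N'])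
  obtain ⟨hV1, hV2⟩ := D1b_V (ℓ := ℓ) (by linarith only [hη1, hσ, hσ3, g6, hηi]) hlK0 hlKN hl2K0 hl2KN hK0pos hK01 hs0 hs01
    (Nat.cast_nonneg _) hM1 (Nat.cast_nonneg _) hM2
  set V : ℝ := 40 * (Real.log (2 * N₁)) ^ 2 / √(K₀ : ℝ) + 2 * ℓ * Real.log N₁ / K₀ +
    2 * Real.log N₁ / K₀ * M with hVdef
  have hM0 : 0 ≤ M := Nat.cast_nonneg _
  have hV0 : 0 ≤ V := by
    have h1 : 0 ≤ ℓ := by linarith only [hη1, hσ, hσ3, g6, hηi]
    (clear * - hK0n hℓ1; positivity)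
  set S : ℝ := ∑ k ∈ Icc 1 K₀, Λ k * (1 + (chi d k : ℝ)) / k with hSdef
  have hS0 : 0 ≤ S := by
    apply Finset.sum_nonneg
    intro k _
    have h1 : 0 ≤ 1 + (chi d k : ℝ) := by
      have := abs_le.1 (C3_abs d k)
      linarith only [this, this.1]
    exact div_nonneg (mul_nonneg vonMangoldt_nonneg h1) (Nat.cast_nonneg k)
  have hmid' := hmid.trans hV1
  have hIcc : ∀ (a b : ℕ) (F : ℕ → ℝ), a ≤ b →
      ∑ k ∈ Icc 1 b, F k = ∑ k ∈ Icc 1 a, F k + ∑ k ∈ Ioc a b, F k := by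
    intro a b F hab
    rw [← Finset.sum_union]
    · congr 1
      ext k
      simp only [mem_union, mem_Icc, mem_Ioc]
      omega
    · rw [Finset.disjoint_left]
      intro k hk hk'
      simp only [mem_Icc] at hk
      simp only [mem_Ioc] at hk'
      omega
  rw [hIcc K₀ K₁ (fun k => Λ k * (1 + (chi d k : ℝ)) / k) hK01n] at hsmall
  rw [mangoldt_identity (chi d) (CM_chi d) N₁, hIcc K₁ N₁ _ hK1N] at hleft
  have hτ0 : 0 ≤ E * (T : ℝ) ^ (-δ') := mul_nonneg hE.le (Real.rpow_nonneg hT0.le _)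
  have h2 : (1 - θ) * Real.log N₁ * (L - (E * (N₁ : ℝ) ^ (-δ') +
      (N₁ : ℝ) ^ (-θ) * (1 + Real.log N₁))) ≤
      (L + E * (T : ℝ) ^ (-δ')) * (S + V) + (1 + Real.log N₁) * V := by
    have h1 : ∀ s : ℝ, (N₁ : ℝ) ^ (1 - s) = N₁ * (N₁ : ℝ) ^ (-s) := by
      intro s
      rw [sub_eq_add_neg, Real.rpow_add hN1pos, Real.rpow_one]
    rw [h1, h1] at hleft
    have e1 := hleft.trans (add_le_add hsmall hlarge)
    have e2 : (L + E * (T : ℝ) ^ (-δ')) * N₁ * (S + ∑ k ∈ Ioc K₀ K₁,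
        Λ k * (1 + (chi d k : ℝ)) / k) ≤ (L + E * (T : ℝ) ^ (-δ')) * N₁ * (S + V) := by
      apply mul_le_mul_of_nonneg_left _ (by (clear * - hL hE hY1 g1 hK1n; positivity))
      linarith only [hmid, hV1]
    have e3 := mul_le_mul_of_nonneg_left hV2
      (show (0 : ℝ) ≤ N₁ * (1 + Real.log N₁) by (clear * - hK1n hY1 g1; positivity))
    refine le_of_mul_le_mul_left (a := (N₁ : ℝ)) ?_ hN1pos
    calc (N₁ : ℝ) * ((1 - θ) * Real.log N₁ * (L - (E * (N₁ : ℝ) ^ (-δ') +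
          (N₁ : ℝ) ^ (-θ) * (1 + Real.log N₁)))) =
          (1 - θ) * Real.log N₁ * (L * N₁ - E * (N₁ * (N₁ : ℝ) ^ (-δ')) -
            N₁ * (N₁ : ℝ) ^ (-θ) * (1 + Real.log N₁)) := by ring
      _ ≤ _ := e1
      _ ≤ (L + E * (T : ℝ) ^ (-δ')) * N₁ * (S + V) + N₁ * (1 + Real.log N₁) * V :=
        add_le_add e2 e3
      _ = _ := by ring
  have hB : Real.log N₁ ≤ A * ℓ := hlN
  have hfin := D1b_alg hL hg hτ hκ he hr0.le hr4 hl0' hl01 hB hθ.le hθ1.le hS0 hV0 hlow h2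
  -- lower bound for `V`
  have hQσ1 : 1 ≤ Q ^ σ := Real.one_le_rpow hQ1.le hσ.le
  have hQ2σ : Q ^ (2 * σ) = Q ^ σ * Q ^ σ := by
    rw [← Real.rpow_add hQ0]
    congr 1
    ring
  have hAℓ : 0 ≤ A * ℓ := by (clear * - hA hℓ1; positivity)
  have hc1 : 2 + (1 + A * ℓ) * Q ^ σ ≤ Q ^ (2 * σ) := by
    rw [hQ2σ]
    have h1 : 3 + A * ℓ ≤ Q ^ σ := by
      refine le_trans ?_ g7
      linarith only [g6, hηi]
    have h3 := mul_le_mul_of_nonneg_right h1 (show 0 ≤ Q ^ σ by linarith only [hη1, hσ, hσ3, g6, g7, hηi, hlN, hlK0, hlKN])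
    linarith only [hη1, hσ, hσ3, g6, g7, hηi, hlN, hlK0, hlKN, h3]
  have hc2 : 10 * r * (A * ℓ) ≤ 1 := by
    have h1 := mul_le_mul_of_nonneg_left g5 hr0.le
    rw [hrinv] at h1
    linarith only [h1]
  have hc3 : θ * (A * ℓ) ≤ η / 64 * ℓ := by
    have h1 := mul_le_mul_of_nonneg_right hθA (show 0 ≤ ℓ by linarith only [hη1, hσ, hσ3, g6, hηi])
    linarith only [h1]
  have hc4 : 64 ≤ η * ℓ := by
    have h1 : η * (64 / η) ≤ η * ℓ := mul_le_mul_of_nonneg_left (by linarith only [hη1, hσ, hσ3, g6]) hη.le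
    have h3 : η * (64 / η) = 64 := by field_simp
    linarith only [h1, h3]
  have hVlow : 1 ≤ V * Q ^ (2 * σ) := by
    have h1 := mul_le_mul_of_nonneg_left hc1 hV0
    linarith only [hη1, hσ, hσ3, hgap, hfin, hc2, hc3, hc4, h1]
  -- the first two terms of `V`
  have hsK : 1 / √(K₀ : ℝ) ≤ 2 / Q ^ (η / 4) := by
    have h1 : Q ^ (η / 4) / 2 ≤ √(K₀ : ℝ) := by
      apply Real.le_sqrt_of_sq_le
      have h3 : (Q ^ (η / 4) / 2) ^ 2 = Q ^ (η / 2) / 4 := by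
        rw [hQη2]
        ring
      rw [h3]
      linarith only [hη1, hσ, hσ3, h256, hz, hK0ge]
    rw [div_le_div_iff₀ hs0 (by linarith only [hη1, hσ, hσ3, g9, hlN, hl0', hgap, hc4])]
    linarith only [h1]
  have hiK : 1 / (K₀ : ℝ) ≤ 2 / Q ^ (η / 4) := by
    rw [div_le_div_iff₀ hK0pos (by linarith only [hη1, hσ, hσ3, g9, hlN, hl0', hgap, hc4])]
    have h1 : Q ^ (η / 4) ≤ Q ^ (η / 2) := by
      rw [hQη2]
      exact le_mul_of_one_le_left (by linarith only [hη1, hσ, hσ3, g9, hlN, hl0', hgap, hc4]) (by linarith only [hη1, hσ, hσ3, g9, hlN, hl0', hgap, hc4])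
    linarith only [hz, hK0ge, h1]
  have hfirst : 40 * (Real.log (2 * N₁)) ^ 2 / √(K₀ : ℝ) + 2 * ℓ * Real.log N₁ / K₀ ≤
      (80 * A ^ 2 + 4 * A) * ℓ ^ 2 / Q ^ (η / 4) := by
    have hl2N0 : 0 ≤ Real.log (2 * N₁) := hl2K0.trans hl2KN
    have hℓ0 : 0 ≤ ℓ := by linarith only [hη1, hσ, hσ3, g6, hηi]
    have hQ4 : 0 < Q ^ (η / 4) := by linarith only [hη1, hσ, hσ3, g9, hlN, hl0', hgap, hc4]
    have h1 : 40 * (Real.log (2 * N₁)) ^ 2 / √(K₀ : ℝ) ≤ 40 * (A * ℓ) ^ 2 * (2 / Q ^ (η / 4)) := by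
      rw [← mul_one_div]
      gcongr
    have h3 : 2 * ℓ * Real.log N₁ / K₀ ≤ 2 * ℓ * (A * ℓ) * (2 / Q ^ (η / 4)) := by
      rw [← mul_one_div]
      gcongr
    calc _ ≤ 40 * (A * ℓ) ^ 2 * (2 / Q ^ (η / 4)) + 2 * ℓ * (A * ℓ) * (2 / Q ^ (η / 4)) :=
          add_le_add h1 h3
      _ = _ := by ring
  have hQ2 : 0 < Q ^ (2 * σ) := Real.rpow_pos_of_pos hQ0 _
  have hfirst2 : (80 * A ^ 2 + 4 * A) * ℓ ^ 2 / Q ^ (η / 4) * Q ^ (2 * σ) ≤ 1 / 2 := by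
    have hQ28 : Q ^ (2 * σ) ≤ Q ^ (η / 8) := by
      apply Real.rpow_le_rpow_of_exponent_le hQ1.le
      linarith only [hσ, hσ3]
    rw [div_mul_eq_mul_div, div_le_iff₀ (by linarith only [hη1, hσ, hσ3, g9, hlN, hl0', hgap, hc4])]
    calc (80 * A ^ 2 + 4 * A) * ℓ ^ 2 * Q ^ (2 * σ) ≤ 1 / 2 * Q ^ (η / 8) * Q ^ (η / 8) :=
          mul_le_mul g8 hQ28 hQ2.le (by (clear * - g1; positivity))
      _ = 1 / 2 * Q ^ (η / 4) := by rw [hQη4]; ring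
  have hthird : 1 / 2 ≤ 2 * Real.log N₁ / K₀ * M * Q ^ (2 * σ) := by
    have h1 := mul_le_mul_of_nonneg_right hfirst hQ2.le
    have h3 : V * Q ^ (2 * σ) = (40 * (Real.log (2 * N₁)) ^ 2 / √(K₀ : ℝ) +
        2 * ℓ * Real.log N₁ / K₀) * Q ^ (2 * σ) + 2 * Real.log N₁ / K₀ * M * Q ^ (2 * σ) := by
      rw [hVdef]
      ring
    linarith only [hVlow, hfirst2, h1]
  have hMlow : (K₀ : ℝ) ≤ 4 * (A * ℓ) * M * Q ^ (2 * σ) := by
    have h1 : 2 * Real.log N₁ / K₀ * M * Q ^ (2 * σ) =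
        2 * Real.log N₁ * M * Q ^ (2 * σ) / K₀ := by ring
    rw [h1, le_div_iff₀ hK0pos] at hthird
    have h3 : Real.log N₁ * (M * Q ^ (2 * σ)) ≤ A * ℓ * (M * Q ^ (2 * σ)) :=
      mul_le_mul_of_nonneg_right hlN (by (clear * - g1; positivity))
    linarith only [hthird, h3]
  have hfinal : x / (Y * Q ^ η) ≤ M := by
    rw [div_le_iff₀ (by (clear * - hY1 g1; positivity))]
    have h1 : x = z * (Y * Q ^ (η / 2)) := by
      rw [hzdef]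
      field_simp
    have h3 : z ≤ 2 * K₀ := by linarith only [hK0ge]
    have h4 : z ≤ M * Q ^ (η / 2) := by
      calc z ≤ 2 * K₀ := h3
        _ ≤ 2 * (4 * (A * ℓ) * M * Q ^ (2 * σ)) := by linarith only [hMlow]
        _ = M * ((8 * A * ℓ) * Q ^ (2 * σ)) := by ring
        _ ≤ M * (Q ^ (η / 4) * Q ^ (η / 4)) := by
          apply mul_le_mul_of_nonneg_left _ hM0
          have h5 : Q ^ (2 * σ) ≤ Q ^ (η / 4) := by
            apply Real.rpow_le_rpow_of_exponent_le hQ1.le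
            linarith only [hσ, hσ3]
          exact mul_le_mul g9 h5 hQ2.le (by linarith only [hη1, hσ, hσ3, g9, hlN, hl0', hgap, hc4])
        _ = M * Q ^ (η / 2) := by rw [hQη2]
    calc x = z * (Y * Q ^ (η / 2)) := h1
      _ ≤ M * Q ^ (η / 2) * (Y * Q ^ (η / 2)) := mul_le_mul_of_nonneg_right h4 hYQ2.le
      _ = M * (Y * Q ^ η) := by rw [hQη]; ring
  exact hfinal.trans (C5_split_card d hd K₀ N₁ x hN1lt)

/-- THEOREM (two scales). If the character sums of length `≥ Y` have a power saving then for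
`Y |d|^η ≤ x ≤ |d|^A` at least `x / (Y |d|^η)` primes `p < x` split.

PROOF. `q = |d|` large, `η ≤ 1`. `package_of C δ (η/8)` gives `δ', E`; take `σ = min (η/16) (η δ'/32)`
(and `D` accordingly), `L ≥ q^(-σ)`. Naturals: `T = ⌈Y q^(η/8)⌉₊`, `K₀ = ⌊x/(Y q^(η/2))⌋₊`,
`K₁ = ⌊K₀ q^(η/8)⌋₊`. For large `q`: `Y q^(η/8) ≤ T ≤ 2 Y q^(η/8)`, `K₀ ≥ q^(η/2)/2`,
`K₀ ≥ x/(2 Y q^(η/2))`, `K₁ ≥ K₀ q^(η/8)/2`, `N₁ = K₁ T ≤ 2 x q^(-η/4) < x`, `N₀ = K₀ T`,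
`log N₁ - log N₀ = log (K₁/K₀) ≥ (η/8) log q - log 2`, `log N₁ ≤ A log q` and `A > 0`.
`ρ := 1/T + (E/L) T^(-δ') ≤ q^(-c)` with `c = c(η, δ') > 0` (`T ≥ q^(η/8)`, `σ ≤ ηδ'/32`).
* `lower_k` (`K = K₀`): `S₀ := ∑_{k ≤ K₀} Λ(k)(1+χ(k))/k ≤ log N₀ (1+ρ)/(1-ρ) ≤ log N₀ + 1`.
* `mid_k`, `K₀ < k ≤ K₁`: `S₁ ≤ V` and `large_k` (C4, with `K = K₁`, `N = N₁`): the sum over
`K₁ < k ≤ N₁` is at most `N₁ (1 + log N₁) V`, where
`V = 40 (log (2 N₁))²/√K₀ + W log N₁/K₀ + 2 log N₁/K₀ · M`, `W = 2 log q` bounds the number of primes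
`p ∣ d` (`chi_zero`: `chi d p = 0` implies `p ∣ d`; `2^ω ≤ |d|`), `M = #{p prime, K₀ < p ≤ N₁, chi d p = 1}`
(monotone in the ranges, `K₀ ≤ K₁ ≤ N₁`).
* `left_side` with `θ = η/(64 (A+1))`, `N = N₁`, and `small_k_sharp` (`K = K₁`), `mangoldt_identity`:
`(1-θ) log N₁ (L N₁ - E N₁^(1-δ') - N₁^(1-θ)(1+log N₁)) ≤
 (L + E T^(-δ')) N₁ (S₀ + S₁) + N₁ (1+log N₁) V`. Dividing by `L N₁` (`1/L ≤ q^σ`; `N₁ ≥ T ≥ q^(η/8)`;
take also `σ ≤ θ η/16` so that `N₁^(-θ)(1+log N₁)/L → 0` as a power):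
`log N₁ - θ log N₁ - o(1) ≤ (1+ρ)(log N₀ + 1 + V) + q^σ (1+log N₁) V`, so
`(η/8) log q - log 2 - θ A log q - 2 ≤ 2 V + q^σ (1 + log N₁) V`, hence `V ≥ q^(-2σ)` for large `q`.
* The first two terms of `V` are `≤ q^(-η/8)`-small (`K₀ ≥ q^(η/2)/2`), less than `q^(-2σ)/2`
(`σ ≤ η/32`, decrease `σ` if needed). So `M ≥ q^(-2σ) K₀ /(4 log N₁) ≥ x/(Y q^η)` for large `q`.
Finally `M ≤ splitCount d x`: the primes counted are `< x` (`N₁ < x`) and split by `chi_split`; the set in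
`splitCount` is finite. (`η > 1`: apply the result with `η = 1` — for `x ≥ Y q^η` it gives more.) -/
theorem many_split_of (C δ η A : ℝ) (hC : 0 < C) (hδ : 0 < δ) (hδ1 : δ ≤ 1 / 2) (hη : 0 < η) :
    ∃ D : ℝ, ∀ d : ℤ, Twist.Fund d → D ≤ |(d : ℝ)| → ∀ Y : ℝ, 1 ≤ Y → Y ≤ |(d : ℝ)| →
      CS d Y C δ → ∀ x : ℝ, Y * |(d : ℝ)| ^ η ≤ x → x ≤ |(d : ℝ)| ^ A →
        x / (Y * |(d : ℝ)| ^ η) ≤ splitCount d x := by
  obtain ⟨D, hD1, hD⟩ := D1b_core C δ (min η 1) (max A 1) hC hδ hδ1 (lt_min hη one_pos)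
    (min_le_right _ _) (le_max_right _ _)
  refine ⟨D, fun d hd hdD Y hY1 hYq hCS x hx1 hx2 => ?_⟩
  have hq1 : 1 ≤ |(d : ℝ)| := hD1.trans hdD
  have hq0 : 0 < |(d : ℝ)| := by linarith only [hδ, hδ1, hD1, hdD]
  have hY0 : 0 < Y := by linarith only [hδ, hδ1, hY1]
  have h1 : |(d : ℝ)| ^ (min η 1) ≤ |(d : ℝ)| ^ η :=
    Real.rpow_le_rpow_of_exponent_le hq1 (min_le_left _ _)
  have h2 : |(d : ℝ)| ^ A ≤ |(d : ℝ)| ^ (max A 1) :=
    Real.rpow_le_rpow_of_exponent_le hq1 (le_max_left _ _)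
  have h3 : Y * |(d : ℝ)| ^ (min η 1) ≤ Y * |(d : ℝ)| ^ η := mul_le_mul_of_nonneg_left h1 hY0.le
  have h4 := hD d hd hdD Y hY1 hYq hCS x (h3.trans hx1) (hx2.trans h2)
  refine le_trans ?_ h4
  have h5 : 0 < Y * |(d : ℝ)| ^ (min η 1) := mul_pos hY0 (Real.rpow_pos_of_pos hq0 _)
  have hx0 : 0 ≤ x := by
    have : 0 < Y * |(d : ℝ)| ^ η := mul_pos hY0 (Real.rpow_pos_of_pos hq0 _)
    linarith only [hx1, h3, h5]
  exact div_le_div_of_nonneg_left hx0 h5 h3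

end BG
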