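import Pool.Agent.W_aaa0df_bg.D1b
import Pool.Agent.W_aaa0df_bg.C3

/-!
# T1*, D2: split primes at all scales above `|d|^(1/4+η)`, every fundamental discriminant
-/

set_option autoImplicit false

namespace BG

open Finset MPaaa0df

/-- THEOREM T1*. For `η, A > 0` and every fundamental discriminant `d` with `|d|` large, for all
`x ∈ [|d|^(1/4+η), |d|^A]` at least `x / |d|^(1/4+η)` primes `p < x` split in `ℚ(√d)`.

PROOF. `burgess_chi (min (η/2) (1/4))` gives `C, δ, D₁`; `CS d (|d|^(1/4+η')) C δ` with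
`η' = min (η/2) (1/4)`. `many_split_of C δ (η - η') A` with `Y = |d|^(1/4+η')` (`≤ |d|`, `≥ 1`):
`Y |d|^(η-η') = |d|^(1/4+η)`. -/
theorem many_split_all (η A : ℝ) (hη : 0 < η) :
    ∃ D : ℝ, ∀ d : ℤ, Twist.Fund d → D ≤ |(d : ℝ)| → ∀ x : ℝ, |(d : ℝ)| ^ (1 / 4 + η) ≤ x →
      x ≤ |(d : ℝ)| ^ A → x / |(d : ℝ)| ^ (1 / 4 + η) ≤ splitCount d x := by
  have hη1 : 0 < min (η / 2) (1 / 4) := lt_min (by linarith) (by norm_num)
  have hη2 : min (η / 2) (1 / 4) ≤ 1 / 4 := min_le_right _ _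
  have hη3 : min (η / 2) (1 / 4) ≤ η / 2 := min_le_left _ _
  obtain ⟨δ, C, D₁, hδ, hδ1, hC, hB⟩ := burgess_chi (min (η / 2) (1 / 4)) hη1 hη2
  obtain ⟨D₂, hD₂⟩ := many_split_of C δ (η - min (η / 2) (1 / 4)) A hC hδ hδ1 (by linarith)
  refine ⟨max (max D₁ D₂) 1, fun d hd hD x hx hxA => ?_⟩
  have hd1 : 1 ≤ |(d : ℝ)| := (le_max_right _ _).trans hD
  have hd2 : D₁ ≤ |(d : ℝ)| := (le_max_left _ _).trans ((le_max_left _ _).trans hD)
  have hd3 : D₂ ≤ |(d : ℝ)| := (le_max_right _ _).trans ((le_max_left _ _).trans hD)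
  have hY1 : 1 ≤ |(d : ℝ)| ^ (1 / 4 + min (η / 2) (1 / 4)) :=
    Real.one_le_rpow hd1 (by linarith)
  have hY2 : |(d : ℝ)| ^ (1 / 4 + min (η / 2) (1 / 4)) ≤ |(d : ℝ)| := by
    calc |(d : ℝ)| ^ (1 / 4 + min (η / 2) (1 / 4)) ≤ |(d : ℝ)| ^ (1 : ℝ) :=
          Real.rpow_le_rpow_of_exponent_le hd1 (by linarith)
      _ = |(d : ℝ)| := Real.rpow_one _
  have hprod : |(d : ℝ)| ^ (1 / 4 + min (η / 2) (1 / 4)) *
      |(d : ℝ)| ^ (η - min (η / 2) (1 / 4)) = |(d : ℝ)| ^ (1 / 4 + η) := by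
    rw [← Real.rpow_add (by linarith)]
    congr 1
    ring
  have h := hD₂ d hd hd3 _ hY1 hY2 (fun N hN => hB d hd hd2 N hN) x (by rw [hprod]; exact hx) hxA
  rwa [hprod] at h

end BG
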