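import Pool.Agent.W_aaa0df_bg.S3d
import Pool.Agent.W_aaa0df_bg.D1b
import Pool.Agent.W_aaa0df_bg.C3

/-!
# Structured discriminants, S4: many small split primes
-/

set_option autoImplicit false

namespace BG

open Finset MPaaa0df

/-- at most one prime factor of the discriminant `d` exceeds `y`, and none exceeds `y²` -/
def StructD (d : ℤ) (y : ℝ) : Prop :=
  (∀ p : ℕ, p.Prime → (p : ℤ) ∣ d → (p : ℝ) ≤ y ^ 2) ∧
    ∀ p p' : ℕ, p.Prime → p'.Prime → (p : ℤ) ∣ d → (p' : ℤ) ∣ d → y < p → y < p' → p = p'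

/-- PROOF. As `burgess_chi` in C3: `fund_odd_part`, `reciprocity`, `m ≤ |d| ≤ 8 m`, `Struct m y`;
`struct_SJ (ε/2)` gives `|SJ w m N| ≤ C₀ N^(1-δ₀)` for `N ≥ y m^(ε/2)`; `C3_bound` with `Y = y m^(ε/2)`:
`|∑| ≤ 4 C₀ N^(1-δ) + y m^(ε/2)` with `δ = min δ₀ (ε/4)` and also `δ ≤ 1/2`. For `N ≤ |d|²`:
`y m^(ε/2) ≤ N |d|^(-ε/2) ≤ N N^(-ε/4) ≤ N^(1-δ)`; for `N > |d|²`: `y m^(ε/2) ≤ |d|^(1/2+ε/2) ≤ |d| ≤ N^(1/2)`
(`ε ≤ 1`; if `ε > 1` use `ε = 1`). -/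
theorem struct_chi (ε : ℝ) (hε : 0 < ε) : ∃ (δ C D : ℝ), 0 < δ ∧ δ ≤ 1 / 2 ∧ 0 < C ∧
    ∀ d : ℤ, Twist.Fund d → D ≤ |(d : ℝ)| → ∀ y : ℝ, 1 ≤ y → y ≤ |(d : ℝ)| ^ (1 / 2 : ℝ) →
      StructD d y → CS d (y * |(d : ℝ)| ^ ε) C δ := by
  have he0 : 0 < min ε 1 := lt_min hε (by norm_num)
  have he1 : min ε 1 ≤ 1 := min_le_right _ _
  have hele : min ε 1 ≤ ε := min_le_left _ _
  generalize min ε 1 = e at he0 he1 hele
  obtain ⟨δ₀, C₀, M₀, hδ₀, hδ₁, hC₀, hB⟩ := struct_SJ (e / 2) (by linarith)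
  refine ⟨min δ₀ (e / 4), 4 * C₀ + 1, 8 * M₀ + 1, lt_min hδ₀ (by linarith),
    (min_le_left _ _).trans hδ₁, by positivity, fun d hd hD y hy hyd hs N hN => ?_⟩
  obtain ⟨v, m, hv, hmodd, hsq, hdm⟩ := fund_odd_part d hd
  obtain ⟨w, hw1, hw8, hev, hodd⟩ := reciprocity d v m hmodd hdm
  have habs : |(d : ℝ)| = 2 ^ v * m := by
    have h1 : ((d.natAbs : ℕ) : ℝ) = |(d : ℝ)| := by
      rw [Nat.cast_natAbs, Int.cast_abs]
    rw [← h1, hdm]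
    push_cast
    ring
  have h2v : (1 : ℝ) ≤ 2 ^ v := one_le_pow₀ (by norm_num)
  have h2v' : (2 : ℝ) ^ v ≤ 8 := by
    calc (2 : ℝ) ^ v ≤ 2 ^ 3 := pow_le_pow_right₀ (by norm_num) hv
      _ = 8 := by norm_num
  have hm0 : (0 : ℝ) ≤ m := Nat.cast_nonneg _
  have hmM : M₀ ≤ m := by
    by_contra h1
    push Not at h1
    have h2 : (m : ℝ) + 1 ≤ M₀ := by exact_mod_cast h1
    have h3 : |(d : ℝ)| ≤ 8 * m := by
      rw [habs]
      exact mul_le_mul_of_nonneg_right h2v' hm0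
    linarith
  have hm1 : 1 ≤ (m : ℝ) := by
    have h1 := hmodd.pos
    exact_mod_cast h1
  have hmd : (m : ℝ) ≤ |(d : ℝ)| := by
    rw [habs]
    nlinarith
  have hdvd : ∀ p : ℕ, p ∣ m → (p : ℤ) ∣ d := by
    intro p hp
    have h1 : p ∣ d.natAbs := by
      rw [hdm]
      exact Dvd.dvd.mul_left hp _
    exact Int.natCast_dvd.2 h1
  have hsm : Struct m y := ⟨fun p hp hpm => hs.1 p hp (hdvd p hpm),
    fun p p' hp hp' hpm hpm' => hs.2 p p' hp hp' (hdvd p hpm) (hdvd p' hpm')⟩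
  have hY0 : 0 < y * (m : ℝ) ^ (e / 2) := by
    have := Real.rpow_pos_of_pos (show (0 : ℝ) < m by linarith) (e / 2)
    positivity
  have hT := C3_bound δ₀ C₀ (y * (m : ℝ) ^ (e / 2)) hδ₁ hC₀ hY0 d w m hev hodd
    (fun N' hN' => hB m hmM hmodd hsq w hw1 hw8 y hy hsm N' hN') N
  have hd1 : 1 ≤ |(d : ℝ)| := hm1.trans hmd
  have hd0 : 0 < |(d : ℝ)| := by linarith
  have hde : 1 ≤ |(d : ℝ)| ^ ε := Real.one_le_rpow hd1 hε.le
  have hN1 : (1 : ℝ) ≤ N := by nlinarith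
  have hN0 : (0 : ℝ) < N := by linarith
  have hδh : min δ₀ (e / 4) ≤ 1 / 2 := (min_le_left _ _).trans hδ₁
  have hδe : min δ₀ (e / 4) ≤ e / 4 := min_le_right _ _
  have hδ00 : min δ₀ (e / 4) ≤ δ₀ := min_le_left _ _
  generalize min δ₀ (e / 4) = δ at hδh hδe hδ00 ⊢
  have hY1 : y * (m : ℝ) ^ (e / 2) ≤ y * |(d : ℝ)| ^ (e / 2) :=
    mul_le_mul_of_nonneg_left (Real.rpow_le_rpow hm0 hmd (by linarith)) (by linarith)
  have hNe : y * |(d : ℝ)| ^ e ≤ N := by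
    refine le_trans ?_ hN
    exact mul_le_mul_of_nonneg_left (Real.rpow_le_rpow_of_exponent_le hd1 hele) (by linarith)
  have hY : y * |(d : ℝ)| ^ (e / 2) ≤ (N : ℝ) ^ (1 - δ) := by
    by_cases hbig : |(d : ℝ)| ^ 2 ≤ N
    · have h5 : |(d : ℝ)| ≤ (N : ℝ) ^ (1 / 2 : ℝ) := by
        rw [← Real.sqrt_eq_rpow]
        exact Real.le_sqrt_of_sq_le hbig
      calc y * |(d : ℝ)| ^ (e / 2) ≤ |(d : ℝ)| ^ (1 / 2 : ℝ) * |(d : ℝ)| ^ (e / 2) :=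
            mul_le_mul_of_nonneg_right hyd (Real.rpow_nonneg hd0.le _)
        _ = |(d : ℝ)| ^ (1 / 2 + e / 2) := by rw [← Real.rpow_add hd0]
        _ ≤ |(d : ℝ)| ^ (1 : ℝ) := Real.rpow_le_rpow_of_exponent_le hd1 (by linarith)
        _ = |(d : ℝ)| := Real.rpow_one _
        _ ≤ (N : ℝ) ^ (1 / 2 : ℝ) := h5
        _ ≤ (N : ℝ) ^ (1 - δ) := Real.rpow_le_rpow_of_exponent_le hN1 (by linarith)
    · push Not at hbig
      have h5 : (N : ℝ) ^ (1 / 2 : ℝ) ≤ |(d : ℝ)| := by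
        rw [← Real.sqrt_eq_rpow]
        exact Real.sqrt_le_iff.2 ⟨hd0.le, hbig.le⟩
      have h6 : (0 : ℝ) < (N : ℝ) ^ (1 / 2 : ℝ) := Real.rpow_pos_of_pos hN0 _
      have h7 : |(d : ℝ)| ^ (-(e / 2)) ≤ (N : ℝ) ^ (-(e / 4)) := by
        calc |(d : ℝ)| ^ (-(e / 2)) ≤ ((N : ℝ) ^ (1 / 2 : ℝ)) ^ (-(e / 2)) :=
              Real.rpow_le_rpow_of_nonpos h6 h5 (by linarith)
          _ = (N : ℝ) ^ (-(e / 4)) := by
              rw [← Real.rpow_mul hN0.le]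
              congr 1
              ring
      calc y * |(d : ℝ)| ^ (e / 2) = y * |(d : ℝ)| ^ e * |(d : ℝ)| ^ (-(e / 2)) := by
            rw [mul_assoc, ← Real.rpow_add hd0]
            congr 2
            ring
        _ ≤ N * (N : ℝ) ^ (-(e / 4)) :=
            mul_le_mul hNe h7 (Real.rpow_nonneg hd0.le _) hN0.le
        _ = (N : ℝ) ^ (1 - e / 4) := by
            rw [sub_eq_add_neg, Real.rpow_add hN0, Real.rpow_one]
        _ ≤ (N : ℝ) ^ (1 - δ) := Real.rpow_le_rpow_of_exponent_le hN1 (by linarith)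
  have hN2 : (N : ℝ) ^ (1 - δ₀) ≤ (N : ℝ) ^ (1 - δ) :=
    Real.rpow_le_rpow_of_exponent_le hN1 (by linarith)
  have h4 := mul_le_mul_of_nonneg_left hN2 (show 0 ≤ 4 * C₀ by positivity)
  linarith

/-- A square root always works. PROOF. Every prime factor of `d` is `≤ |d| = (|d|^(1/2))²`; two different
prime factors `> |d|^(1/2)` would have a product `> |d|` dividing `d`. `d ≠ 0`. -/
theorem struct_sqrt (d : ℤ) (hd : Twist.Fund d) : StructD d (|(d : ℝ)| ^ (1 / 2 : ℝ)) := by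
  have hd0 : d ≠ 0 := (fund_mod d hd).1
  have habs : ((d.natAbs : ℕ) : ℝ) = |(d : ℝ)| := by
    rw [Nat.cast_natAbs, Int.cast_abs]
  have hpos : 0 < d.natAbs := Int.natAbs_pos.2 hd0
  have hsq : (|(d : ℝ)| ^ (1 / 2 : ℝ)) ^ 2 = |(d : ℝ)| := by
    rw [← Real.sqrt_eq_rpow, Real.sq_sqrt (abs_nonneg _)]
  constructor
  · intro p hp hpd
    rw [hsq, ← habs]
    exact_mod_cast Nat.le_of_dvd hpos (Int.natCast_dvd.1 hpd)
  · intro p p' hp hp' hpd hpd' h1 h2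
    by_contra hne
    have hcop : Nat.Coprime p p' := (Nat.coprime_primes hp hp').2 hne
    have h3 : p * p' ∣ d.natAbs :=
      hcop.mul_dvd_of_dvd_of_dvd (Int.natCast_dvd.1 hpd) (Int.natCast_dvd.1 hpd')
    have h4 : ((p * p' : ℕ) : ℝ) ≤ |(d : ℝ)| := by
      rw [← habs]
      exact_mod_cast Nat.le_of_dvd hpos h3
    have h5 : 0 ≤ |(d : ℝ)| ^ (1 / 2 : ℝ) := Real.rpow_nonneg (abs_nonneg _) _
    have h6 : (|(d : ℝ)| ^ (1 / 2 : ℝ)) ^ 2 < (p : ℝ) * p' := by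
      rw [sq]
      exact mul_lt_mul'' h1 h2 h5 h5
    rw [hsq] at h6
    push_cast at h4
    linarith

/-- THEOREM U. Let `η, A > 0` and let `|d|` be large. If at most one prime factor of `d` exceeds `y` and none
exceeds `y²` (`y ≥ 1`), then for `y |d|^η ≤ x ≤ |d|^A` at least `x / (y |d|^η)` primes `p < x` split in
`ℚ(√d)`.

PROOF. Let `η ≤ 1/2` first (for larger `η` use `η = 1/2`: the claim for `x ≥ y |d|^η` gets weaker). `y' = min y (|d|^(1/2))`; `StructD d y'` (`struct_sqrt`). `struct_chi (η/2)`,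
`Y = y' |d|^(η/2) ≤ |d|`, `many_split_of C δ (η/2) A`: `Y |d|^(η/2) = y' |d|^η ≤ y |d|^η ≤ x`, and the
result is `x/(y' |d|^η) ≥ x/(y |d|^η)`. -/
theorem many_split_struct (η A : ℝ) (hη : 0 < η) :
    ∃ D : ℝ, ∀ d : ℤ, Twist.Fund d → D ≤ |(d : ℝ)| → ∀ y : ℝ, 1 ≤ y → StructD d y →
      ∀ x : ℝ, y * |(d : ℝ)| ^ η ≤ x → x ≤ |(d : ℝ)| ^ A →
        x / (y * |(d : ℝ)| ^ η) ≤ splitCount d x := by
  have he0 : 0 < min η (1 / 2) := lt_min hη (by norm_num)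
  have he1 : min η (1 / 2) ≤ 1 / 2 := min_le_right _ _
  have hele : min η (1 / 2) ≤ η := min_le_left _ _
  generalize min η (1 / 2) = e at he0 he1 hele
  obtain ⟨δ, C, D₁, hδ, hδ1, hC, h₁⟩ := struct_chi (e / 2) (by linarith)
  obtain ⟨D₂, h₂⟩ := many_split_of C δ (e / 2) A hC hδ hδ1 (by linarith)
  refine ⟨max (max D₁ D₂) 1, fun d hd hD y hy hs x hx hxA => ?_⟩
  have hD1 : D₁ ≤ |(d : ℝ)| := (le_max_left _ _).trans ((le_max_left _ _).trans hD)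
  have hD2 : D₂ ≤ |(d : ℝ)| := (le_max_right _ _).trans ((le_max_left _ _).trans hD)
  have hd1 : 1 ≤ |(d : ℝ)| := (le_max_right _ _).trans hD
  have hd0 : 0 < |(d : ℝ)| := by linarith
  have hs' : StructD d (min y (|(d : ℝ)| ^ (1 / 2 : ℝ))) := by
    rcases min_choice y (|(d : ℝ)| ^ (1 / 2 : ℝ)) with h | h <;> rw [h]
    · exact hs
    · exact struct_sqrt d hd
  have hy1 : 1 ≤ min y (|(d : ℝ)| ^ (1 / 2 : ℝ)) :=
    le_min hy (Real.one_le_rpow hd1 (by norm_num))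
  have hy2 : min y (|(d : ℝ)| ^ (1 / 2 : ℝ)) ≤ |(d : ℝ)| ^ (1 / 2 : ℝ) := min_le_right _ _
  have hy3 : min y (|(d : ℝ)| ^ (1 / 2 : ℝ)) ≤ y := min_le_left _ _
  generalize min y (|(d : ℝ)| ^ (1 / 2 : ℝ)) = z at hs' hy1 hy2 hy3
  have hz0 : 0 < z := by linarith
  have hde : 1 ≤ |(d : ℝ)| ^ (e / 2) := Real.one_le_rpow hd1 (by linarith)
  have hY1 : 1 ≤ z * |(d : ℝ)| ^ (e / 2) := by nlinarith
  have hY2 : z * |(d : ℝ)| ^ (e / 2) ≤ |(d : ℝ)| := by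
    calc z * |(d : ℝ)| ^ (e / 2) ≤ |(d : ℝ)| ^ (1 / 2 : ℝ) * |(d : ℝ)| ^ (e / 2) :=
          mul_le_mul_of_nonneg_right hy2 (by linarith)
      _ = |(d : ℝ)| ^ (1 / 2 + e / 2) := by rw [← Real.rpow_add hd0]
      _ ≤ |(d : ℝ)| ^ (1 : ℝ) := Real.rpow_le_rpow_of_exponent_le hd1 (by linarith)
      _ = |(d : ℝ)| := Real.rpow_one _
  have hYe : z * |(d : ℝ)| ^ (e / 2) * |(d : ℝ)| ^ (e / 2) = z * |(d : ℝ)| ^ e := by
    rw [mul_assoc, ← Real.rpow_add hd0]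
    congr 2
    ring
  have hle : z * |(d : ℝ)| ^ e ≤ y * |(d : ℝ)| ^ η :=
    mul_le_mul hy3 (Real.rpow_le_rpow_of_exponent_le hd1 hele)
      (Real.rpow_nonneg hd0.le _) (by linarith)
  have hpos : 0 < z * |(d : ℝ)| ^ e := mul_pos hz0 (Real.rpow_pos_of_pos hd0 _)
  have h3 := h₂ d hd hD2 (z * |(d : ℝ)| ^ (e / 2)) hY1 hY2 (h₁ d hd hD1 z hy1 hy2 hs') x
    (by rw [hYe]; exact hle.trans hx) hxA
  rw [hYe] at h3
  refine le_trans ?_ h3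
  have hx0 : 0 ≤ x := (hpos.le.trans hle).trans hx
  exact div_le_div_of_nonneg_left hx0 hpos hle

end BG
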