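import Pool.Agent.W_aaa0df_bg.D2
import Pool.Agent.W_aaa0df_bg.S4

/-!
# T1* and U in one statement
-/

set_option autoImplicit false

namespace BG

open Finset MPaaa0df

theorem many_split_union (η A : ℝ) (hη : 0 < η) :
    ∃ D : ℝ, ∀ d : ℤ, Twist.Fund d → D ≤ |(d : ℝ)| → ∀ y : ℝ, 1 ≤ y →
      (|(d : ℝ)| ^ (1 / 4 : ℝ) ≤ y ∨ StructD d y) →
      ∀ x : ℝ, y * |(d : ℝ)| ^ η ≤ x → x ≤ |(d : ℝ)| ^ A →
        x / (y * |(d : ℝ)| ^ η) ≤ splitCount d x := by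
  obtain ⟨D₁, h1⟩ := many_split_all η A hη
  obtain ⟨D₂, h2⟩ := many_split_struct η A hη
  refine ⟨max (max D₁ D₂) 1, fun d hd hD y hy hcase x hx hxA => ?_⟩
  have hD1 : D₁ ≤ |(d : ℝ)| := ((le_max_left _ _).trans (le_max_left _ _)).trans hD
  have hD2 : D₂ ≤ |(d : ℝ)| := ((le_max_right _ _).trans (le_max_left _ _)).trans hD
  have hq : 1 ≤ |(d : ℝ)| := (le_max_right _ _).trans hD
  have hq0 : 0 < |(d : ℝ)| := by linarith
  rcases hcase with h | h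
  · have e1 : |(d : ℝ)| ^ (1 / 4 + η) = |(d : ℝ)| ^ (1 / 4 : ℝ) * |(d : ℝ)| ^ η :=
      Real.rpow_add hq0 _ _
    have hη0 : 0 < |(d : ℝ)| ^ η := Real.rpow_pos_of_pos hq0 _
    have h40 : 0 < |(d : ℝ)| ^ (1 / 4 : ℝ) := Real.rpow_pos_of_pos hq0 _
    have h3 : |(d : ℝ)| ^ (1 / 4 + η) ≤ y * |(d : ℝ)| ^ η := by
      rw [e1]
      exact mul_le_mul_of_nonneg_right h hη0.le
    have hx0 : 0 ≤ x := by
      have : 0 ≤ y * |(d : ℝ)| ^ η := by positivity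
      linarith
    refine le_trans ?_ (h1 d hd hD1 x (h3.trans hx) hxA)
    exact div_le_div_of_nonneg_left hx0 (by rw [e1]; positivity) h3
  · exact h2 d hd hD2 y hy h x hx hxA

end BG
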