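import Mathlib

/-!
# Structured moduli, S1: van der Corput (Weyl) differencing for functions with a periodic factor
-/

set_option autoImplicit false

namespace BG

open Finset

/-- all sums of `g` over intervals of length at most `N` are bounded by `B` -/
def MS (g : ℤ → ℝ) (N : ℕ) (B : ℝ) : Prop :=
  ∀ (A : ℤ) (N' : ℕ), N' ≤ N → |∑ n ∈ Ico A (A + N'), g n| ≤ B

theorem S1a_shift (J0 J1 c : ℤ) (F : ℤ → ℝ) :
    ∑ m ∈ Ico J0 J1, F (m + c) = ∑ n ∈ Ico (J0 + c) (J1 + c), F n := by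
  rw [← Finset.sum_image (s := Ico J0 J1) (g := fun m => m + c) (f := F)
    (by intro a _ b _ h; exact add_right_cancel h)]
  rw [Finset.image_add_right_Ico]

theorem S1a_restrict (I K : Finset ℤ) (hIK : I ⊆ K) (F : ℤ → ℝ)
    (hF : ∀ n, n ∉ I → F n = 0) : ∑ n ∈ K, F n = ∑ n ∈ I, F n :=
  (Finset.sum_subset hIK (fun n _ hn => hF n hn)).symm

theorem S1a_up (H h : ℕ) (B : ℕ → ℝ) (hB : ∀ t ∈ Ico 1 H, 0 ≤ B t) :
    ∑ h' ∈ (range H).filter (fun h' => h < h'), B (h' - h) ≤ ∑ t ∈ Ico 1 H, B t := by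
  have hinj : Set.InjOn (fun h' => h' - h)
      (((range H).filter (fun h' => h < h') : Finset ℕ) : Set ℕ) := by
    intro a ha b hb hab
    simp only [coe_filter, mem_range, Set.mem_setOf_eq] at ha hb
    simp only at hab
    omega
  rw [← Finset.sum_image (g := fun h' => h' - h) (f := B) hinj]
  apply Finset.sum_le_sum_of_subset_of_nonneg
  · intro t ht
    simp only [mem_image, mem_filter, mem_range] at ht
    obtain ⟨a, ha, rfl⟩ := ht
    simp only [mem_Ico]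
    omega
  · intro t ht _
    exact hB t ht

theorem S1a_down (H h : ℕ) (hh : h < H) (B : ℕ → ℝ) (hB : ∀ t ∈ Ico 1 H, 0 ≤ B t) :
    ∑ h' ∈ (range H).filter (fun h' => h' < h), B (h - h') ≤ ∑ t ∈ Ico 1 H, B t := by
  have hinj : Set.InjOn (fun h' => h - h')
      (((range H).filter (fun h' => h' < h) : Finset ℕ) : Set ℕ) := by
    intro a ha b hb hab
    simp only [coe_filter, mem_range, Set.mem_setOf_eq] at ha hb
    simp only at hab
    omega
  rw [← Finset.sum_image (g := fun h' => h - h') (f := B) hinj]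
  apply Finset.sum_le_sum_of_subset_of_nonneg
  · intro t ht
    simp only [mem_image, mem_filter, mem_range] at ht
    obtain ⟨a, ha, rfl⟩ := ht
    simp only [mem_Ico]
    omega
  · intro t ht _
    exact hB t ht

theorem S1a_rows (H : ℕ) (N : ℝ) (B : ℕ → ℝ) (hB : ∀ t ∈ Ico 1 H, 0 ≤ B t)
    (P : ℕ → ℕ → ℝ) (h0 : ∀ h ∈ range H, P h h ≤ N)
    (h1 : ∀ h ∈ range H, ∀ h' ∈ range H, h < h' → P h h' ≤ B (h' - h))
    (h2 : ∀ h ∈ range H, ∀ h' ∈ range H, h' < h → P h h' ≤ B (h - h')) :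
    ∑ h ∈ range H, ∑ h' ∈ range H, P h h' ≤ H * (N + 2 * ∑ t ∈ Ico 1 H, B t) := by
  have hrow : ∀ h ∈ range H, ∑ h' ∈ range H, P h h' ≤ N + 2 * ∑ t ∈ Ico 1 H, B t := by
    intro h hh
    have hlt : h < H := mem_range.mp hh
    have hle : ∑ h' ∈ range H, P h h' ≤ ∑ h' ∈ range H,
        ((if h' = h then N else 0) + ((if h < h' then B (h' - h) else 0) +
          (if h' < h then B (h - h') else 0))) := by
      apply Finset.sum_le_sum
      intro h' hh'
      rcases lt_trichotomy h h' with hc | hc | hc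
      · rw [if_neg (by omega), if_pos hc, if_neg (by omega)]
        have := h1 h hh h' hh' hc
        linarith
      · subst hc
        rw [if_pos rfl, if_neg (lt_irrefl _)]
        have := h0 h hh
        linarith
      · rw [if_neg (by omega), if_neg (by omega), if_pos hc]
        have := h2 h hh h' hh' hc
        linarith
    have e : ∑ h' ∈ range H,
        ((if h' = h then N else 0) + ((if h < h' then B (h' - h) else 0) +
          (if h' < h then B (h - h') else 0))) = N +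
        (∑ h' ∈ (range H).filter (fun h' => h < h'), B (h' - h) +
          ∑ h' ∈ (range H).filter (fun h' => h' < h), B (h - h')) := by
      rw [Finset.sum_add_distrib, Finset.sum_add_distrib, Finset.sum_filter, Finset.sum_filter,
        Finset.sum_ite_eq' (range H) h (fun _ => N), if_pos hh]
    have b1 := S1a_up H h B hB
    have b2 := S1a_down H h hlt B hB
    rw [e] at hle
    linarith
  calc ∑ h ∈ range H, ∑ h' ∈ range H, P h h'
      ≤ ∑ _h ∈ range H, (N + 2 * ∑ t ∈ Ico 1 H, B t) := Finset.sum_le_sum hrow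
    _ = H * (N + 2 * ∑ t ∈ Ico 1 H, B t) := by
        rw [Finset.sum_const, card_range, nsmul_eq_mul]

/-- the truncation of `g` to `Ico A (A + N')` -/
noncomputable def S1a_E (g : ℤ → ℝ) (A : ℤ) (N' : ℕ) (n : ℤ) : ℝ :=
  if n ∈ Ico A (A + (N' : ℤ)) then g n else 0

theorem S1a_E_out (g : ℤ → ℝ) (A : ℤ) (N' : ℕ) (n : ℤ) (hn : n ∉ Ico A (A + (N' : ℤ))) :
    S1a_E g A N' n = 0 := by
  unfold S1a_E; rw [if_neg hn]

theorem S1a_E_in (g : ℤ → ℝ) (A : ℤ) (N' : ℕ) (n : ℤ) (hn : n ∈ Ico A (A + (N' : ℤ))) :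
    S1a_E g A N' n = g n := by
  unfold S1a_E; rw [if_pos hn]

theorem S1a_per (u : ℤ → ℝ) (Q : ℕ) (hper : ∀ n, u (n + Q) = u n) (h : ℕ) (n : ℤ) :
    u (n + (h : ℤ) * Q) = u n := by
  induction h with
  | zero => simp
  | succ k ih =>
    have e : n + ((k + 1 : ℕ) : ℤ) * Q = (n + (k : ℤ) * Q) + Q := by push_cast; ring
    rw [e, hper, ih]

/-- pair sums for `h ≤ h'` -/
theorem S1a_pair (g : ℤ → ℝ) (Q H : ℕ) (A : ℤ) (N' : ℕ) (h t : ℕ) (hh : h < H) :
    ∑ m ∈ Ico (A - (H : ℤ) * Q) (A + (N' : ℤ)),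
      S1a_E g A N' (m + (h : ℤ) * Q) * S1a_E g A N' (m + ((h + t : ℕ) : ℤ) * Q) =
    ∑ n ∈ Ico A (A + (N' : ℤ)), S1a_E g A N' n * S1a_E g A N' (n + (t : ℤ) * Q) := by
  have e1 : ∑ m ∈ Ico (A - (H : ℤ) * Q) (A + (N' : ℤ)),
      S1a_E g A N' (m + (h : ℤ) * Q) * S1a_E g A N' (m + ((h + t : ℕ) : ℤ) * Q) =
      ∑ m ∈ Ico (A - (H : ℤ) * Q) (A + (N' : ℤ)),
        (fun n => S1a_E g A N' n * S1a_E g A N' (n + (t : ℤ) * Q)) (m + (h : ℤ) * Q) := by
    apply Finset.sum_congr rfl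
    intro m _
    have : m + ((h + t : ℕ) : ℤ) * Q = m + (h : ℤ) * Q + (t : ℤ) * Q := by push_cast; ring
    simp only [this]
  rw [e1, S1a_shift (A - (H : ℤ) * Q) (A + (N' : ℤ)) ((h : ℤ) * Q)
    (fun n => S1a_E g A N' n * S1a_E g A N' (n + (t : ℤ) * Q))]
  apply S1a_restrict
  · apply Finset.Ico_subset_Ico
    · have : (h : ℤ) * Q ≤ (H : ℤ) * Q := by
        apply mul_le_mul_of_nonneg_right
        · exact_mod_cast hh.le
        · positivity
      linarith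
    · have : (0 : ℤ) ≤ (h : ℤ) * Q := by positivity
      linarith
  · intro n hn
    simp only [S1a_E_out g A N' n hn, zero_mul]

theorem S1a_corr (g : ℤ → ℝ) (Q : ℕ) (N : ℕ) (A : ℤ) (N' : ℕ) (hN' : N' ≤ N) (t : ℕ) (b : ℝ)
    (hb : MS (fun n => g n * g (n + (t : ℤ) * Q)) N b) :
    ∑ n ∈ Ico A (A + (N' : ℤ)), S1a_E g A N' n * S1a_E g A N' (n + (t : ℤ) * Q) ≤ b := by
  have hK : ∑ n ∈ Ico A (A + (N' : ℤ)), S1a_E g A N' n * S1a_E g A N' (n + (t : ℤ) * Q) =
      ∑ n ∈ Ico A (A + ((N' - t * Q : ℕ) : ℤ)), g n * g (n + (t : ℤ) * Q) := by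
    have e1 : ∑ n ∈ Ico A (A + ((N' - t * Q : ℕ) : ℤ)), g n * g (n + (t : ℤ) * Q) =
        ∑ n ∈ Ico A (A + ((N' - t * Q : ℕ) : ℤ)),
          S1a_E g A N' n * S1a_E g A N' (n + (t : ℤ) * Q) := by
      apply Finset.sum_congr rfl
      intro n hn
      rw [mem_Ico] at hn
      obtain ⟨h1, h2⟩ := hn
      have h3 : n < A + (N' : ℤ) := by omega
      have h0 : (0 : ℤ) ≤ (t : ℤ) * Q := by positivity
      have h4 : n + (t : ℤ) * Q < A + (N' : ℤ) := by
        have hlt : (0 : ℤ) < ((N' - t * Q : ℕ) : ℤ) := by linarith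
        have hpos : t * Q ≤ N' := by omega
        rw [Nat.cast_sub hpos] at h2
        push_cast at h2
        linarith
      rw [S1a_E_in g A N' n (mem_Ico.mpr ⟨h1, h3⟩),
        S1a_E_in g A N' _ (mem_Ico.mpr ⟨by linarith, h4⟩)]
    rw [e1]
    symm
    apply Finset.sum_subset
    · apply Finset.Ico_subset_Ico le_rfl
      have : ((N' - t * Q : ℕ) : ℤ) ≤ (N' : ℤ) := by exact_mod_cast Nat.sub_le _ _
      linarith
    · intro n hn hn2
      rw [mem_Ico] at hn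
      obtain ⟨h1, h2⟩ := hn
      have h3 : A + ((N' - t * Q : ℕ) : ℤ) ≤ n := by
        by_contra hc
        exact hn2 (mem_Ico.mpr ⟨h1, not_le.mp hc⟩)
      have h4 : n + (t : ℤ) * Q ∉ Ico A (A + (N' : ℤ)) := by
        rw [mem_Ico]
        rintro ⟨_, h6⟩
        have h7 : (N' : ℤ) - (t * Q : ℕ) ≤ ((N' - t * Q : ℕ) : ℤ) := by omega
        push_cast at h7
        linarith
      rw [S1a_E_out g A N' _ h4, mul_zero]
  rw [hK]
  exact (le_abs_self _).trans (hb A (N' - t * Q) ((Nat.sub_le _ _).trans hN'))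

/-- PROOF. `I = Ico A (A+N')`, `F = u g`, `S = ∑_{n ∈ I} F n`. For every `h < H`, substituting
`n = m + hQ`: `S = ∑_{m ∈ J} 1_{m+hQ ∈ I} u(m) g(m+hQ)`, `J = Ico (A - HQ) (A+N')`, as
`u(m+hQ) = u(m)`. So `H S = ∑_{m ∈ J} u(m) ∑_{h<H} 1_{m+hQ ∈ I} g(m+hQ)` and by Cauchy-Schwarz
(`|u| ≤ 1`, `|J| = N' + HQ ≤ 2N`)
`H² S² ≤ 2N ∑_{h,h' < H} ∑_{m ∈ J} 1 1 g(m+hQ) g(m+h'Q)`. The diagonal `h = h'` is at most `H N`. For
`h' = h + t`, `1 ≤ t < H`: with `n = m + hQ` the inner sum is `∑_{n ∈ Ico A (A+N'-tQ)} g(n) g(n+tQ)`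
(an interval of length `≤ N`; empty if `N' ≤ tQ`), at most `B t`; there are `≤ H` such pairs, and
symmetrically for `h' < h`. So `H² S² ≤ 2N (H N + 2H ∑_t B t)`. (`B t ≥ 0` by `hB` with `N' = 0`.) -/
theorem vdc (u g : ℤ → ℝ) (hu : ∀ n, |u n| ≤ 1) (hg : ∀ n, |g n| ≤ 1) (Q H N : ℕ) (hQ : 1 ≤ Q)
    (hH : 1 ≤ H) (hHQ : H * Q ≤ N) (hper : ∀ n, u (n + Q) = u n) (B : ℕ → ℝ)
    (hB : ∀ t ∈ Ico 1 H, MS (fun n => g n * g (n + (t : ℤ) * Q)) N (B t)) (A : ℤ) (N' : ℕ)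
    (hN' : N' ≤ N) :
    (∑ n ∈ Ico A (A + N'), u n * g n) ^ 2 ≤
      2 * (N : ℝ) ^ 2 / H + 4 * N / H * ∑ t ∈ Ico 1 H, B t := by
  have hBn : ∀ t ∈ Ico 1 H, 0 ≤ B t := by
    intro t ht
    have := hB t ht A 0 (Nat.zero_le _)
    exact (abs_nonneg _).trans this
  have hHpos : (0 : ℝ) < H := by exact_mod_cast hH
  set J : Finset ℤ := Ico (A - (H : ℤ) * Q) (A + (N' : ℤ)) with hJ
  set S : ℝ := ∑ n ∈ Ico A (A + (N' : ℤ)), u n * g n with hS
  have hSh : ∀ h ∈ range H, S = ∑ m ∈ J, u m * S1a_E g A N' (m + (h : ℤ) * Q) := by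
    intro h hh
    have hlt : h < H := mem_range.mp hh
    have e1 : ∑ m ∈ J, u m * S1a_E g A N' (m + (h : ℤ) * Q) =
        ∑ m ∈ J, (fun n => u n * S1a_E g A N' n) (m + (h : ℤ) * Q) := by
      apply Finset.sum_congr rfl
      intro m _
      simp only [S1a_per u Q hper h m]
    rw [e1, hJ, S1a_shift (A - (H : ℤ) * Q) (A + (N' : ℤ)) ((h : ℤ) * Q)
      (fun n => u n * S1a_E g A N' n)]
    rw [S1a_restrict (Ico A (A + (N' : ℤ))) _ _ (fun n => u n * S1a_E g A N' n)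
      (fun n hn => by simp only [S1a_E_out g A N' n hn, mul_zero])]
    · rw [hS]
      apply Finset.sum_congr rfl
      intro n hn
      rw [S1a_E_in g A N' n hn]
    · apply Finset.Ico_subset_Ico
      · have : (h : ℤ) * Q ≤ (H : ℤ) * Q := by
          apply mul_le_mul_of_nonneg_right
          · exact_mod_cast hlt.le
          · positivity
        linarith
      · have : (0 : ℤ) ≤ (h : ℤ) * Q := by positivity
        linarith
  have hHS : (H : ℝ) * S = ∑ m ∈ J, u m * ∑ h ∈ range H, S1a_E g A N' (m + (h : ℤ) * Q) := by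
    have e1 : (H : ℝ) * S = ∑ _h ∈ range H, S := by
      rw [Finset.sum_const, card_range, nsmul_eq_mul]
    rw [e1, Finset.sum_congr rfl hSh, Finset.sum_comm]
    apply Finset.sum_congr rfl
    intro m _
    rw [Finset.mul_sum]
  have hcs : ((H : ℝ) * S) ^ 2 ≤
      (∑ m ∈ J, (u m) ^ 2) * ∑ m ∈ J, (∑ h ∈ range H, S1a_E g A N' (m + (h : ℤ) * Q)) ^ 2 := by
    rw [hHS]
    exact Finset.sum_mul_sq_le_sq_mul_sq J _ _
  have hcard : (∑ m ∈ J, (u m) ^ 2) ≤ 2 * (N : ℝ) := by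
    have e1 : ∑ m ∈ J, (u m) ^ 2 ≤ ∑ _m ∈ J, (1 : ℝ) := by
      apply Finset.sum_le_sum
      intro m _
      have := hu m
      rw [← sq_abs]
      nlinarith [abs_nonneg (u m)]
    have e2 : ∑ _m ∈ J, (1 : ℝ) = ((N' + H * Q : ℕ) : ℝ) := by
      rw [Finset.sum_const, nsmul_eq_mul, mul_one, hJ, Int.card_Ico]
      have : (A + (N' : ℤ) - (A - (H : ℤ) * Q)).toNat = N' + H * Q := by
        have : A + (N' : ℤ) - (A - (H : ℤ) * Q) = ((N' + H * Q : ℕ) : ℤ) := by push_cast; ring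
        rw [this, Int.toNat_natCast]
      rw [this]
    have e3 : ((N' + H * Q : ℕ) : ℝ) ≤ 2 * (N : ℝ) := by
      have : N' + H * Q ≤ 2 * N := by omega
      exact_mod_cast this
    linarith
  have hW : ∑ m ∈ J, (∑ h ∈ range H, S1a_E g A N' (m + (h : ℤ) * Q)) ^ 2 ≤
      H * ((N : ℝ) + 2 * ∑ t ∈ Ico 1 H, B t) := by
    have e1 : ∑ m ∈ J, (∑ h ∈ range H, S1a_E g A N' (m + (h : ℤ) * Q)) ^ 2 =
        ∑ h ∈ range H, ∑ h' ∈ range H,
          ∑ m ∈ J, S1a_E g A N' (m + (h : ℤ) * Q) * S1a_E g A N' (m + (h' : ℤ) * Q) := by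
      have : ∀ m ∈ J, (∑ h ∈ range H, S1a_E g A N' (m + (h : ℤ) * Q)) ^ 2 =
          ∑ h ∈ range H, ∑ h' ∈ range H,
            S1a_E g A N' (m + (h : ℤ) * Q) * S1a_E g A N' (m + (h' : ℤ) * Q) := by
        intro m _
        rw [sq, Finset.sum_mul_sum]
      rw [Finset.sum_congr rfl this, Finset.sum_comm]
      apply Finset.sum_congr rfl
      intro h _
      rw [Finset.sum_comm]
    rw [e1]
    apply S1a_rows H N B hBn
    · intro h hh
      have hlt := mem_range.mp hh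
      have p := S1a_pair g Q H A N' h 0 hlt
      simp only [Nat.add_zero, Nat.cast_zero, zero_mul, add_zero] at p
      rw [hJ, p]
      have : ∀ n ∈ Ico A (A + (N' : ℤ)), S1a_E g A N' n * S1a_E g A N' n ≤ 1 := by
        intro n hn
        rw [S1a_E_in g A N' n hn]
        have := hg n
        rw [← abs_mul_abs_self]
        nlinarith [abs_nonneg (g n)]
      refine (Finset.sum_le_sum this).trans ?_
      rw [Finset.sum_const, nsmul_eq_mul, mul_one, Int.card_Ico]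
      have : (A + (N' : ℤ) - A).toNat = N' := by
        have : A + (N' : ℤ) - A = (N' : ℤ) := by ring
        rw [this, Int.toNat_natCast]
      rw [this]
      exact_mod_cast hN'
    · intro h hh h' hh' hlt
      have hltH := mem_range.mp hh
      have hlt' := mem_range.mp hh'
      have p := S1a_pair g Q H A N' h (h' - h) hltH
      rw [show h + (h' - h) = h' from by omega] at p
      rw [hJ, p]
      exact S1a_corr g Q N A N' hN' (h' - h) _
        (hB (h' - h) (mem_Ico.mpr ⟨by omega, by omega⟩))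
    · intro h hh h' hh' hlt
      have hltH := mem_range.mp hh
      have hlt' := mem_range.mp hh'
      have p := S1a_pair g Q H A N' h' (h - h') hlt'
      rw [show h' + (h - h') = h from by omega] at p
      have hc : ∑ m ∈ J, S1a_E g A N' (m + (h : ℤ) * Q) * S1a_E g A N' (m + (h' : ℤ) * Q) =
          ∑ m ∈ J, S1a_E g A N' (m + (h' : ℤ) * Q) * S1a_E g A N' (m + (h : ℤ) * Q) :=
        Finset.sum_congr rfl (fun m _ => mul_comm _ _)
      rw [hc, hJ, p]
      exact S1a_corr g Q N A N' hN' (h - h') _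
        (hB (h - h') (mem_Ico.mpr ⟨by omega, by omega⟩))
  have hBs : 0 ≤ ∑ t ∈ Ico 1 H, B t := Finset.sum_nonneg hBn
  have hfin : ((H : ℝ) * S) ^ 2 ≤ 2 * (N : ℝ) * (H * ((N : ℝ) + 2 * ∑ t ∈ Ico 1 H, B t)) := by
    refine hcs.trans ?_
    apply mul_le_mul hcard hW
    · exact Finset.sum_nonneg (fun _ _ => sq_nonneg _)
    · positivity
  have hrhs : 2 * (N : ℝ) ^ 2 / H + 4 * N / H * ∑ t ∈ Ico 1 H, B t =
      (2 * (N : ℝ) * (H * ((N : ℝ) + 2 * ∑ t ∈ Ico 1 H, B t))) / (H : ℝ) ^ 2 := by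
    field_simp
    ring
  rw [hrhs, le_div_iff₀ (by positivity)]
  calc S ^ 2 * (H : ℝ) ^ 2 = ((H : ℝ) * S) ^ 2 := by ring
    _ ≤ _ := hfin

end BG
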