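import Pool.Agent.W_aaa0df_bg.S1a

/-!
# Structured moduli, S1b: iterated differencing
-/

set_option autoImplicit false

namespace BG

open Finset

/-- the multiple (multiplicative) difference with shifts `s i` -/
def dl {k : ℕ} (s : Fin k → ℤ) (g : ℤ → ℝ) (n : ℤ) : ℝ :=
  ∏ e : Finset (Fin k), g (n + ∑ i ∈ e, s i)

theorem dl_abs {k : ℕ} (s : Fin k → ℤ) (g : ℤ → ℝ) (hg : ∀ n, |g n| ≤ 1) (n : ℤ) :
    |dl s g n| ≤ 1 := by
  unfold dl
  rw [Finset.abs_prod]
  exact Finset.prod_le_one (fun _ _ => abs_nonneg _) (fun _ _ => hg _)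

/-- PROOF. The subsets of `Fin (k+1)` are the images of subsets `e` of `Fin k` under `Fin.succ`, and these
with `0` added. -/
theorem dl_succ {k : ℕ} (s : Fin (k + 1) → ℤ) (g : ℤ → ℝ) (n : ℤ) :
    dl s g n = dl (fun i : Fin k => s i.succ) (fun n => g n * g (n + s 0)) n := by
  classical
  unfold dl
  have h0 : (0 : Fin (k + 1)) ∉ (univ : Finset (Fin k)).image Fin.succ := by
    intro h
    obtain ⟨i, _, hi⟩ := Finset.mem_image.1 h
    exact Fin.succ_ne_zero i hi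
  have h1 : (univ : Finset (Finset (Fin (k + 1)))) =
      (insert (0 : Fin (k + 1)) ((univ : Finset (Fin k)).image Fin.succ)).powerset := by
    ext e
    simp only [Finset.mem_univ, Finset.mem_powerset, true_iff]
    intro i _
    rw [Finset.mem_insert, Finset.mem_image]
    rcases Fin.eq_zero_or_eq_succ i with hi | ⟨j, hj⟩
    · exact Or.inl hi
    · exact Or.inr ⟨j, Finset.mem_univ _, hj.symm⟩
  have h2 : ∀ e : Finset (Fin k), ∑ i ∈ e.image Fin.succ, s i = ∑ i ∈ e, s i.succ := by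
    intro e
    exact Finset.sum_image (fun i _ j _ h => Fin.succ_injective k h)
  have h3 : ∀ e : Finset (Fin k), ∑ i ∈ insert (0 : Fin (k + 1)) (e.image Fin.succ), s i =
      s 0 + ∑ i ∈ e, s i.succ := by
    intro e
    rw [Finset.sum_insert, h2]
    intro h
    obtain ⟨i, _, hi⟩ := Finset.mem_image.1 h
    exact Fin.succ_ne_zero i hi
  have hinj : Set.InjOn (fun e : Finset (Fin k) => e.image Fin.succ)
      ((univ : Finset (Fin k)).powerset : Set (Finset (Fin k))) :=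
    fun a _ b _ h => Finset.image_injective (Fin.succ_injective k) h
  rw [h1, Finset.prod_powerset_insert h0, Finset.powerset_image, Finset.prod_image hinj,
    Finset.prod_image hinj, Finset.powerset_univ, ← Finset.prod_mul_distrib]
  refine Finset.prod_congr rfl fun e _ => ?_
  simp only [h2, h3]
  have h4 : n + (s 0 + ∑ i ∈ e, s i.succ) = n + ∑ i ∈ e, s i.succ + s 0 := by ring
  rw [h4]

theorem S1b_MS_nonneg {g : ℤ → ℝ} {N : ℕ} {B : ℝ} (h : MS g N B) : 0 ≤ B := by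
  have h1 := h 0 0 (Nat.zero_le _)
  exact (abs_nonneg _).trans h1

/-- the sum over `piFinset` of `Fin (k + 1)` -/
theorem S1b_sum {k : ℕ} (S : Finset ℕ) (B : (Fin (k + 1) → ℕ) → ℝ) :
    ∑ t ∈ Fintype.piFinset (fun _ : Fin (k + 1) => S), B t =
      ∑ t ∈ S, ∑ t' ∈ Fintype.piFinset (fun _ : Fin k => S), B (Fin.cons t t') := by
  rw [← Finset.sum_product']
  refine Finset.sum_nbij' (fun t => (t 0, Fin.tail t)) (fun q => Fin.cons q.1 q.2) ?_ ?_ ?_ ?_ ?_
  · intro t ht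
    rw [Fintype.mem_piFinset] at ht
    rw [Finset.mem_product, Fintype.mem_piFinset]
    exact ⟨ht 0, fun i => ht i.succ⟩
  · intro q hq
    rw [Finset.mem_product, Fintype.mem_piFinset] at hq
    rw [Fintype.mem_piFinset]
    intro i
    refine Fin.cases ?_ (fun j => ?_) i
    · exact hq.1
    · exact hq.2 j
  · intro t _
    exact Fin.cons_self_tail t
  · intro q _
    rfl
  · intro t _
    have h : (Fin.cons (t 0) (Fin.tail t) : Fin (k + 1) → ℕ) = t := Fin.cons_self_tail t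
    change B t = B (Fin.cons (t 0) (Fin.tail t))
    rw [h]

/-- the numerical part of the induction step -/
theorem S1b_num (p : ℕ) (hp : 1 ≤ p) (H : ℕ) (hH : 1 ≤ H) (y : ℕ → ℝ) (hy : ∀ t ∈ Ico 1 H, 0 ≤ y t)
    (x C D : ℝ) (hx : 0 ≤ x) (hC : 0 ≤ C) (hD : 0 ≤ D)
    (h1 : x ^ 2 ≤ 2 / H + 4 / H * ∑ t ∈ Ico 1 H, y t)
    (h2 : ∑ t ∈ Ico 1 H, y t ^ p ≤ C * (1 + H * D)) :
    x ^ (2 * p) ≤ (2 ^ p * (2 ^ p + 4 ^ p * C)) * (1 / H + D) := by
  have hH0 : (0 : ℝ) < H := by exact_mod_cast hH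
  have hH1 : (1 : ℝ) ≤ H := by exact_mod_cast hH
  obtain ⟨q, rfl⟩ : ∃ q, p = q + 1 := ⟨p - 1, by omega⟩
  set Y := ∑ t ∈ Ico 1 H, y t with hY
  have hY0 : 0 ≤ Y := Finset.sum_nonneg hy
  have a1 : x ^ (2 * (q + 1)) = (x ^ 2) ^ (q + 1) := pow_mul x 2 (q + 1)
  have a2 : (x ^ 2) ^ (q + 1) ≤ (2 / H + 4 / H * Y) ^ (q + 1) :=
    pow_le_pow_left₀ (sq_nonneg x) h1 _
  have a3 : (2 / (H : ℝ) + 4 / H * Y) ^ (q + 1) ≤
      2 ^ (q + 1 - 1) * ((2 / (H : ℝ)) ^ (q + 1) + (4 / H * Y) ^ (q + 1)) :=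
    add_pow_le (by positivity) (by positivity) _
  have a4 : (2 / (H : ℝ)) ^ (q + 1) ≤ 2 ^ (q + 1) * (1 / H) := by
    rw [div_pow, div_eq_mul_inv, ← one_div]
    apply mul_le_mul_of_nonneg_left _ (by positivity)
    apply one_div_le_one_div_of_le hH0
    calc (H : ℝ) = H ^ 1 := (pow_one _).symm
      _ ≤ H ^ (q + 1) := pow_le_pow_right₀ hH1 (by omega)
  have a5 : (4 / (H : ℝ) * Y) ^ (q + 1) ≤ 4 ^ (q + 1) * (C * (1 / H + D)) := by
    have b1 : Y ^ (q + 1) ≤ ((Ico 1 H).card : ℝ) ^ q * ∑ t ∈ Ico 1 H, y t ^ (q + 1) :=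
      pow_sum_le_card_mul_sum_pow hy q
    have b2 : ((Ico 1 H).card : ℝ) ^ q ≤ (H : ℝ) ^ q := by
      apply pow_le_pow_left₀ (Nat.cast_nonneg _)
      rw [Nat.card_Ico]
      exact_mod_cast Nat.sub_le H 1
    have b3 : 0 ≤ ∑ t ∈ Ico 1 H, y t ^ (q + 1) :=
      Finset.sum_nonneg fun t ht => pow_nonneg (hy t ht) _
    have b4 : Y ^ (q + 1) ≤ (H : ℝ) ^ q * (C * (1 + H * D)) :=
      b1.trans (mul_le_mul b2 h2 b3 (by positivity))
    rw [mul_pow, div_pow]
    calc (4 : ℝ) ^ (q + 1) / H ^ (q + 1) * Y ^ (q + 1)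
        ≤ 4 ^ (q + 1) / H ^ (q + 1) * ((H : ℝ) ^ q * (C * (1 + H * D))) :=
          mul_le_mul_of_nonneg_left b4 (by positivity)
      _ = 4 ^ (q + 1) * (C * (1 / H + D)) := by
          rw [pow_succ (H : ℝ) q]
          field_simp
  have a6 : (2 : ℝ) ^ (q + 1 - 1) ≤ 2 ^ (q + 1) := pow_le_pow_right₀ (by norm_num) (by omega)
  have a7 : 0 ≤ 1 / (H : ℝ) + D := by positivity
  calc x ^ (2 * (q + 1)) ≤ 2 ^ (q + 1 - 1) * ((2 / (H : ℝ)) ^ (q + 1) + (4 / H * Y) ^ (q + 1)) := by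
        rw [a1]; exact a2.trans a3
    _ ≤ 2 ^ (q + 1) * (2 ^ (q + 1) * (1 / H) + 4 ^ (q + 1) * (C * (1 / H + D))) := by
        apply mul_le_mul a6 (add_le_add a4 a5) (by positivity) (by positivity)
    _ ≤ 2 ^ (q + 1) * (2 ^ (q + 1) * (1 / H + D) + 4 ^ (q + 1) * (C * (1 / H + D))) := by
        apply mul_le_mul_of_nonneg_left _ (by positivity)
        apply add_le_add _ le_rfl
        apply mul_le_mul_of_nonneg_left _ (by positivity)
        linarith
    _ = _ := by ring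

/-- ITERATED DIFFERENCING. `F = (∏ u i) g`, each `u i` has period `Q i`.

PROOF. Induction on `k`. `k = 0`: `C = 1`, `dl _ g n = g n` (one subset, empty sum), `piFinset` over
`Fin 0` has one element. Step `k → k+1`, `C = C_{k+1} = 16^(2^k) (1 + C_k)` (generous): apply `vdc` to
`u 0` and `g' = (∏_{i ≥ 1} u i) g`; `g'(n) g'(n + t Q₀) = (∏_{i≥1} u i n * u i (n + t Q₀)) (g n g(n+tQ₀))`,
the functions `n ↦ u i n * u i (n + t Q₀)` again have period `Q i` and absolute value `≤ 1`; the induction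
hypothesis with `B' t' = B (Fin.cons t t')` (`dl_succ`) bounds all interval sums by
`y_t N`, `y_t^(2^k) = C_k (1/H + ∑_{t'} B(t,t') /(H^k N))`. So (with `x = |∑|/N`)
`x² ≤ 2/H + (4/H) ∑_{t ∈ Ico 1 H} y_t`, and raising to the power `2^k` (`(a+b)^p ≤ 2^p (a^p + b^p)`,
`(2/H)^p ≤ 2^p / H`, `((1/H) ∑ y_t)^p ≤ (1/H) ∑ y_t^p`, power mean inequality for at most `H` terms):
`x^(2^(k+1)) ≤ 2^p (2^p/H + 4^p (1/H) ∑_t C_k (1/H + ∑_{t'} B /(H^k N)))`. The sum over `t ∈ Ico 1 H` and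
`t' ∈ piFinset` is the sum over `piFinset` of `Fin (k+1)` (`Fin.consEquiv`, or
`Fintype.piFinset`/`Fin.cons` bijection). -/
theorem iterate (k : ℕ) : ∃ C : ℝ, 0 < C ∧ ∀ (Q : Fin k → ℕ) (u : Fin k → ℤ → ℝ) (g : ℤ → ℝ)
    (H N : ℕ) (B : (Fin k → ℕ) → ℝ), (∀ i, 1 ≤ Q i) → 1 ≤ H → 1 ≤ N → (∀ i, H * Q i ≤ N) →
      (∀ i n, |u i n| ≤ 1) → (∀ n, |g n| ≤ 1) → (∀ i n, u i (n + Q i) = u i n) →
      (∀ t ∈ Fintype.piFinset (fun _ : Fin k => Ico 1 H),
        MS (dl (fun i => (t i : ℤ) * Q i) g) N (B t)) →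
      ∀ (A : ℤ) (N' : ℕ), N' ≤ N →
        (|∑ n ∈ Ico A (A + N'), (∏ i, u i n) * g n| / N) ^ (2 ^ k) ≤
          C * (1 / H + (∑ t ∈ Fintype.piFinset (fun _ : Fin k => Ico 1 H), B t) /
            ((H : ℝ) ^ k * N)) := by
  induction k with
  | zero =>
    refine ⟨1, one_pos, fun Q u g H N B _ hH hN _ _ _ _ hMS A N' hN' => ?_⟩
    have hN0 : (0 : ℝ) < N := by exact_mod_cast hN
    have h1 : ∀ n : ℤ, (∏ i : Fin 0, u i n) * g n = g n := fun n => by
      rw [Finset.univ_eq_empty, Finset.prod_empty, one_mul]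
    have h2 : ∀ (s : Fin 0 → ℤ), dl s g = g := by
      intro s
      funext n
      unfold dl
      have e : (univ : Finset (Finset (Fin 0))) = {∅} := by
        ext a
        simp only [Finset.mem_univ, Finset.mem_singleton, true_iff]
        exact Finset.eq_empty_of_isEmpty a
      rw [e, Finset.prod_singleton, Finset.sum_empty, add_zero]
    have h3 : (Fintype.piFinset (fun _ : Fin 0 => Ico 1 H)) = {default} := by
      ext t
      rw [Fintype.mem_piFinset, Finset.mem_singleton]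
      exact ⟨fun _ => Subsingleton.elim _ _, fun _ i => i.elim0⟩
    have h4 := hMS default (by rw [h3]; exact Finset.mem_singleton_self _)
    rw [h2] at h4
    have h5 := h4 A N' hN'
    rw [Finset.sum_congr rfl (fun n _ => h1 n), h3, Finset.sum_singleton, pow_zero, pow_one,
      pow_zero, one_mul, one_mul]
    have h6 : |∑ n ∈ Ico A (A + N'), g n| / (N : ℝ) ≤ B default / N :=
      div_le_div_of_nonneg_right h5 hN0.le
    have h7 : (0 : ℝ) ≤ 1 / H := by positivity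
    linarith
  | succ k ih =>
    obtain ⟨C, hC0, hC⟩ := ih
    refine ⟨2 ^ (2 ^ k) * (2 ^ (2 ^ k) + 4 ^ (2 ^ k) * C), by positivity, ?_⟩
    intro Q u g H N B hQ hH hN hHQ hu hg hper hMS A N' hN'
    have hN0 : (0 : ℝ) < N := by exact_mod_cast hN
    have hH0 : (0 : ℝ) < H := by exact_mod_cast hH
    have hp : 1 ≤ 2 ^ k := Nat.one_le_two_pow
    set PF := Fintype.piFinset (fun _ : Fin k => Ico 1 H) with hPF
    -- nonnegativity of the bounds
    have hmem : ∀ t ∈ Ico 1 H, ∀ t' ∈ PF, (Fin.cons t t' : Fin (k + 1) → ℕ) ∈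
        Fintype.piFinset (fun _ : Fin (k + 1) => Ico 1 H) := by
      intro t ht t' ht'
      rw [Fintype.mem_piFinset]
      rw [hPF, Fintype.mem_piFinset] at ht'
      intro i
      refine Fin.cases ?_ (fun j => ?_) i
      · exact ht
      · exact ht' j
    have hB0 : ∀ t ∈ Ico 1 H, ∀ t' ∈ PF, 0 ≤ B (Fin.cons t t') := fun t ht t' ht' =>
      S1b_MS_nonneg (hMS _ (hmem t ht t' ht'))
    set E : ℕ → ℝ := fun t => C * (1 / H + (∑ t' ∈ PF, B (Fin.cons t t')) / ((H : ℝ) ^ k * N))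
      with hE
    have hE0 : ∀ t ∈ Ico 1 H, 0 ≤ E t := by
      intro t ht
      have h1 : 0 ≤ ∑ t' ∈ PF, B (Fin.cons t t') := Finset.sum_nonneg fun t' ht' => hB0 t ht t' ht'
      have h2 : 0 ≤ (∑ t' ∈ PF, B (Fin.cons t t')) / ((H : ℝ) ^ k * N) := by positivity
      have h3 : (0 : ℝ) ≤ 1 / H := by positivity
      exact mul_nonneg hC0.le (by linarith)
    set y : ℕ → ℝ := fun t => (E t) ^ (((2 ^ k : ℕ) : ℝ)⁻¹) with hy
    have hyp : ∀ t ∈ Ico 1 H, y t ^ (2 ^ k) = E t := fun t ht =>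
      Real.rpow_inv_natCast_pow (hE0 t ht) (by omega)
    have hy0 : ∀ t ∈ Ico 1 H, 0 ≤ y t := fun t ht => Real.rpow_nonneg (hE0 t ht) _
    set g' : ℤ → ℝ := fun n => (∏ i : Fin k, u i.succ n) * g n with hg'
    have hprod : ∀ n, |∏ i : Fin k, u i.succ n| ≤ 1 := by
      intro n
      rw [Finset.abs_prod]
      exact Finset.prod_le_one (fun _ _ => abs_nonneg _) (fun _ _ => hu _ _)
    have hg'1 : ∀ n, |g' n| ≤ 1 := by
      intro n
      rw [hg', abs_mul]
      exact mul_le_one₀ (hprod n) (abs_nonneg _) (hg n)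
    -- the bound for the differenced functions
    have key : ∀ t ∈ Ico 1 H, MS (fun n => g' n * g' (n + (t : ℤ) * Q 0)) N (N * y t) := by
      intro t ht A₁ N₁ hN₁
      have h1 := hC (fun i => Q i.succ) (fun i n => u i.succ n * u i.succ (n + (t : ℤ) * Q 0))
        (fun n => g n * g (n + (t : ℤ) * Q 0)) H N (fun t' => B (Fin.cons t t'))
        (fun i => hQ _) hH hN (fun i => hHQ _)
        (fun i n => by
          rw [abs_mul]
          exact mul_le_one₀ (hu _ _) (abs_nonneg _) (hu _ _))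
        (fun n => by
          rw [abs_mul]
          exact mul_le_one₀ (hg _) (abs_nonneg _) (hg _))
        (fun i n => by
          have e : n + (Q i.succ : ℤ) + (t : ℤ) * Q 0 = n + (t : ℤ) * Q 0 + (Q i.succ : ℤ) := by
            ring
          change u i.succ (n + (Q i.succ : ℤ)) * u i.succ (n + (Q i.succ : ℤ) + (t : ℤ) * Q 0) =
            u i.succ n * u i.succ (n + (t : ℤ) * Q 0)
          rw [e, hper, hper])
        (fun t' ht' => by
          have h2 := hMS _ (hmem t ht t' ht')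
          have h3 : dl (fun i : Fin (k + 1) => ((Fin.cons t t' : Fin (k + 1) → ℕ) i : ℤ) * Q i) g =
              dl (fun i : Fin k => (t' i : ℤ) * Q i.succ)
                (fun n => g n * g (n + (t : ℤ) * Q 0)) := by
            funext n
            rw [dl_succ]
            rfl
          rw [h3] at h2
          exact h2) A₁ N₁ hN₁
      have h4 : ∑ n ∈ Ico A₁ (A₁ + N₁), g' n * g' (n + (t : ℤ) * Q 0) =
          ∑ n ∈ Ico A₁ (A₁ + N₁), (∏ i : Fin k, (u i.succ n * u i.succ (n + (t : ℤ) * Q 0))) *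
            (g n * g (n + (t : ℤ) * Q 0)) := by
        refine Finset.sum_congr rfl fun n _ => ?_
        rw [hg', Finset.prod_mul_distrib]
        ring
      change |∑ n ∈ Ico A₁ (A₁ + N₁), g' n * g' (n + (t : ℤ) * Q 0)| ≤ N * y t
      rw [h4]
      have h5 : (|∑ n ∈ Ico A₁ (A₁ + N₁), (∏ i : Fin k, (u i.succ n *
          u i.succ (n + (t : ℤ) * Q 0))) * (g n * g (n + (t : ℤ) * Q 0))| / N) ^ (2 ^ k) ≤
            y t ^ (2 ^ k) := by
        rw [hyp t ht]
        exact h1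
      have h6 := le_of_pow_le_pow_left₀ (by omega : (2 ^ k : ℕ) ≠ 0) (hy0 t ht) h5
      rw [div_le_iff₀ hN0] at h6
      linarith
    have hv := vdc (u 0) g' (hu 0) hg'1 (Q 0) H N (hQ 0) hH (hHQ 0) (hper 0) (fun t => N * y t)
      key A N' hN'
    have hS : ∑ n ∈ Ico A (A + N'), (∏ i, u i n) * g n = ∑ n ∈ Ico A (A + N'), u 0 n * g' n := by
      refine Finset.sum_congr rfl fun n _ => ?_
      rw [Fin.prod_univ_succ, hg', mul_assoc]
    rw [hS, pow_succ' 2 k, S1b_sum]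
    have hD : 0 ≤ (∑ t ∈ Ico 1 H, ∑ t' ∈ PF, B (Fin.cons t t')) / ((H : ℝ) ^ (k + 1) * N) := by
      have : 0 ≤ ∑ t ∈ Ico 1 H, ∑ t' ∈ PF, B (Fin.cons t t') :=
        Finset.sum_nonneg fun t ht => Finset.sum_nonneg fun t' ht' => hB0 t ht t' ht'
      positivity
    refine S1b_num (2 ^ k) hp H hH y hy0 _ C _ (by positivity) hC0.le hD ?_ ?_
    · rw [div_pow, sq_abs, div_le_iff₀ (by positivity)]
      refine hv.trans (le_of_eq ?_)
      rw [← Finset.mul_sum]
      field_simp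
    · rw [Finset.sum_congr rfl hyp, hE, ← Finset.mul_sum]
      apply mul_le_mul_of_nonneg_left _ hC0.le
      rw [Finset.sum_add_distrib, Finset.sum_const, nsmul_eq_mul, ← Finset.sum_div]
      have e1 : ((Ico 1 H).card : ℝ) * (1 / H) ≤ 1 := by
        rw [mul_one_div, div_le_one hH0, Nat.card_Ico]
        exact_mod_cast Nat.sub_le H 1
      have e2 : (H : ℝ) * ((∑ t ∈ Ico 1 H, ∑ t' ∈ PF, B (Fin.cons t t')) /
          ((H : ℝ) ^ (k + 1) * N)) =
          (∑ t ∈ Ico 1 H, ∑ t' ∈ PF, B (Fin.cons t t')) / ((H : ℝ) ^ k * N) := by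
        rw [pow_succ]
        field_simp
      rw [e2]
      linarith

end BG
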