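import Mathlib

/-!
# Structured moduli, S1c: the last step, a periodic function with small autocorrelations
-/

set_option autoImplicit false

namespace BG

open Finset

theorem S1c_Ico (G : ℤ → ℝ) (A : ℤ) (m : ℕ) :
    ∑ n ∈ Ico A (A + m), G n = ∑ i ∈ range m, G (A + i) := by
  symm
  apply Finset.sum_bij (fun (i : ℕ) _ => A + (i : ℤ))
  · intro i hi
    rw [Finset.mem_Ico]
    have := Finset.mem_range.1 hi
    constructor <;> omega
  · intro i _ j _ h
    have : (A : ℤ) + i = A + j := h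
    omega
  · intro n hn
    rw [Finset.mem_Ico] at hn
    refine ⟨(n - A).toNat, ?_, ?_⟩
    · rw [Finset.mem_range]; omega
    · show A + ((n - A).toNat : ℤ) = n
      omega
  · intro i _
    rfl

theorem S1c_step (G : ℤ → ℝ) (a : ℤ) (m : ℕ) :
    ∑ i ∈ range m, G (a + 1 + i) = ∑ i ∈ range m, G (a + i) + (G (a + m) - G a) := by
  have h1 := Finset.sum_range_succ (fun i : ℕ => G (a + i)) m
  have h2 := Finset.sum_range_succ' (fun i : ℕ => G (a + i)) m
  rw [h1] at h2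
  have h3 : ∑ i ∈ range m, G (a + 1 + i) = ∑ i ∈ range m, G (a + ((i + 1 : ℕ) : ℤ)) := by
    refine Finset.sum_congr rfl (fun i _ => ?_)
    congr 1
    push_cast
    ring
  rw [h3]
  simp only [Nat.cast_zero, add_zero] at h2
  linarith

theorem S1c_period (q : ℕ) (G : ℤ → ℝ) (hper : ∀ n, G (n + q) = G n) (a : ℤ) :
    ∑ i ∈ range q, G (a + i) = ∑ i ∈ range q, G (i : ℤ) := by
  induction a using Int.induction_on with
  | zero => simp
  | succ k ih =>
    rw [S1c_step, ih, hper]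
    ring
  | pred k ih =>
    have h := S1c_step G (-(k : ℤ) - 1) q
    rw [hper] at h
    have h2 : -(k : ℤ) - 1 + 1 = -k := by ring
    rw [h2] at h
    linarith

theorem S1c_periods (q : ℕ) (G : ℤ → ℝ) (hper : ∀ n, G (n + q) = G n) (A : ℤ) (k : ℕ) :
    ∑ i ∈ range (k * q), G (A + i) = k * ∑ i ∈ range q, G (i : ℤ) := by
  induction k with
  | zero => simp
  | succ k ih =>
    rw [Nat.succ_mul, Finset.sum_range_add, ih]
    have h : ∑ x ∈ range q, G (A + ((k * q + x : ℕ) : ℤ)) =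
        ∑ x ∈ range q, G (A + ((k * q : ℕ) : ℤ) + x) := by
      refine Finset.sum_congr rfl (fun i _ => ?_)
      congr 1
      push_cast
      ring
    rw [h, S1c_period q G hper]
    push_cast
    ring

theorem S1c_cover (q : ℕ) (hq : 1 ≤ q) (G : ℤ → ℝ) (h0 : ∀ n, 0 ≤ G n)
    (hper : ∀ n, G (n + q) = G n) (A : ℤ) (m : ℕ) :
    ∑ i ∈ range m, G (A + i) ≤ ((m : ℝ) / q + 1) * ∑ i ∈ range q, G (i : ℤ) := by
  have hP : 0 ≤ ∑ i ∈ range q, G (i : ℤ) := Finset.sum_nonneg (fun i _ => h0 _)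
  have hm : m ≤ (m / q + 1) * q := by
    have h1 := Nat.div_add_mod m q
    have h2 := Nat.mod_lt m hq
    have h3 : (m / q + 1) * q = q * (m / q) + q := by ring
    omega
  have h1 : ∑ i ∈ range m, G (A + i) ≤ ∑ i ∈ range ((m / q + 1) * q), G (A + i) :=
    Finset.sum_le_sum_of_subset_of_nonneg (Finset.range_mono hm) (fun i _ _ => h0 _)
  rw [S1c_periods q G hper A] at h1
  refine h1.trans (mul_le_mul_of_nonneg_right ?_ hP)
  push_cast
  have h2 : ((m / q : ℕ) : ℝ) ≤ (m : ℝ) / q := Nat.cast_div_le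
  linarith

theorem S1c_shift (f : ℤ → ℝ) (hf : ∀ n, |f n| ≤ 1) (a : ℤ) (m b : ℕ) :
    |∑ i ∈ range m, f (a + i) - ∑ i ∈ range m, f (a + i + b)| ≤ 2 * b := by
  induction b with
  | zero => simp
  | succ b ih =>
    have h1 := S1c_step f (a + b) m
    have h2 : ∑ i ∈ range m, f (a + i + ((b + 1 : ℕ) : ℤ)) =
        ∑ i ∈ range m, f (a + b + 1 + i) := by
      refine Finset.sum_congr rfl (fun i _ => ?_)
      congr 1
      push_cast
      ring
    have h3 : ∑ i ∈ range m, f (a + b + i) = ∑ i ∈ range m, f (a + i + b) := by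
      refine Finset.sum_congr rfl (fun i _ => ?_)
      congr 1
      ring
    rw [h2, h1, h3]
    have h4 := hf (a + b + m)
    have h5 := hf (a + b)
    rw [abs_le] at ih h4 h5 ⊢
    push_cast
    constructor <;> linarith [ih.1, ih.2, h4.1, h4.2, h5.1, h5.2]

/-- The correlations of the shifts `b`, `b'`. -/
theorem S1c_corr (q : ℕ) (f : ℤ → ℝ) (hper : ∀ n, f (n + q) = f n) (b t : ℕ) :
    ∑ x ∈ range q, f ((x : ℤ) + b) * f ((x : ℤ) + (b + t : ℕ)) =
      ∑ x ∈ range q, f x * f ((x : ℤ) + t) := by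
  have h := S1c_period q (fun n => f n * f (n + t)) (fun n => by
    show f (n + q) * f (n + q + t) = f n * f (n + t)
    rw [hper, show n + (q : ℤ) + t = n + t + q by ring, hper]) b
  rw [← h]
  refine Finset.sum_congr rfl (fun x _ => ?_)
  show _ = f ((b : ℤ) + x) * f ((b : ℤ) + x + t)
  congr 2
  · ring
  · push_cast; ring

theorem S1c_row (q : ℕ) (f : ℤ → ℝ) (hf : ∀ n, |f n| ≤ 1)
    (hper : ∀ n, f (n + q) = f n) (B : ℕ) (W : ℕ → ℝ)
    (hW : ∀ t ∈ Ico 1 B, |∑ x ∈ range q, f x * f ((x : ℤ) + t)| ≤ W t) (b : ℕ) (hb : b < B) :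
    ∑ c ∈ range B, |∑ x ∈ range q, f ((x : ℤ) + b) * f ((x : ℤ) + c)| ≤
      q + 2 * ∑ t ∈ Ico 1 B, W t := by
  have hW0 : ∀ t ∈ Ico 1 B, 0 ≤ W t := fun t ht => (abs_nonneg _).trans (hW t ht)
  have hsplit : range B = range b ∪ Ico b B := by
    ext x; simp only [Finset.mem_range, Finset.mem_union, Finset.mem_Ico]; omega
  have hdisj : Disjoint (range b) (Ico b B) := by
    rw [Finset.disjoint_left]; intro x hx hx'
    rw [Finset.mem_range] at hx; rw [Finset.mem_Ico] at hx'; omega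
  rw [hsplit, Finset.sum_union hdisj]
  -- the part c < b
  have h1 : ∑ c ∈ range b, |∑ x ∈ range q, f ((x : ℤ) + b) * f ((x : ℤ) + c)| ≤
      ∑ t ∈ Ico 1 B, W t := by
    have h2 : ∀ c ∈ range b, |∑ x ∈ range q, f ((x : ℤ) + b) * f ((x : ℤ) + c)| ≤ W (b - c) := by
      intro c hc
      rw [Finset.mem_range] at hc
      have h3 := S1c_corr q f hper c (b - c)
      rw [show c + (b - c) = b by omega] at h3
      have h4 : ∑ x ∈ range q, f ((x : ℤ) + b) * f ((x : ℤ) + c) =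
          ∑ x ∈ range q, f ((x : ℤ) + c) * f ((x : ℤ) + b) :=
        Finset.sum_congr rfl (fun x _ => mul_comm _ _)
      rw [h4, h3]
      exact hW _ (Finset.mem_Ico.2 ⟨by omega, by omega⟩)
    refine (Finset.sum_le_sum h2).trans ?_
    have h5 : ∑ c ∈ range b, W (b - c) = ∑ t ∈ (range b).image (fun c => b - c), W t := by
      rw [Finset.sum_image]
      intro c hc d hd h
      have h6 : b - c = b - d := h
      have hc' := Finset.mem_range.1 (Finset.mem_coe.1 hc)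
      have hd' := Finset.mem_range.1 (Finset.mem_coe.1 hd)
      omega
    rw [h5]
    refine Finset.sum_le_sum_of_subset_of_nonneg ?_ (fun t ht _ => hW0 t ht)
    intro t ht
    obtain ⟨c, hc, rfl⟩ := Finset.mem_image.1 ht
    rw [Finset.mem_range] at hc
    exact Finset.mem_Ico.2 ⟨by omega, by omega⟩
  -- the part c = b
  have h7 : Ico b B = insert b (Ico (b + 1) B) := by
    ext x; simp only [Finset.mem_Ico, Finset.mem_insert]; omega
  have h8 : b ∉ Ico (b + 1) B := by simp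
  have h9 : |∑ x ∈ range q, f ((x : ℤ) + b) * f ((x : ℤ) + b)| ≤ q := by
    refine (Finset.abs_sum_le_sum_abs _ _).trans ?_
    calc ∑ x ∈ range q, |f ((x : ℤ) + b) * f ((x : ℤ) + b)| ≤ ∑ _x ∈ range q, (1 : ℝ) := by
          refine Finset.sum_le_sum (fun x _ => ?_)
          rw [abs_mul]
          exact mul_le_one₀ (hf _) (abs_nonneg _) (hf _)
      _ = q := by simp
  have h10 : ∑ c ∈ Ico (b + 1) B, |∑ x ∈ range q, f ((x : ℤ) + b) * f ((x : ℤ) + c)| ≤
      ∑ t ∈ Ico 1 B, W t := by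
    have h2 : ∀ c ∈ Ico (b + 1) B,
        |∑ x ∈ range q, f ((x : ℤ) + b) * f ((x : ℤ) + c)| ≤ W (c - b) := by
      intro c hc
      rw [Finset.mem_Ico] at hc
      have h3 := S1c_corr q f hper b (c - b)
      rw [show b + (c - b) = c by omega] at h3
      rw [h3]
      exact hW _ (Finset.mem_Ico.2 ⟨by omega, by omega⟩)
    refine (Finset.sum_le_sum h2).trans ?_
    have h5 : ∑ c ∈ Ico (b + 1) B, W (c - b) =
        ∑ t ∈ (Ico (b + 1) B).image (fun c => c - b), W t := by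
      rw [Finset.sum_image]
      intro c hc d hd h
      have h6 : c - b = d - b := h
      have hc' := Finset.mem_Ico.1 (Finset.mem_coe.1 hc)
      have hd' := Finset.mem_Ico.1 (Finset.mem_coe.1 hd)
      omega
    rw [h5]
    refine Finset.sum_le_sum_of_subset_of_nonneg ?_ (fun t ht _ => hW0 t ht)
    intro t ht
    obtain ⟨c, hc, rfl⟩ := Finset.mem_image.1 ht
    rw [Finset.mem_Ico] at hc
    exact Finset.mem_Ico.2 ⟨by omega, by omega⟩
  rw [h7, Finset.sum_insert h8]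
  linarith

theorem S1c_square (q : ℕ) (f : ℤ → ℝ) (hf : ∀ n, |f n| ≤ 1)
    (hper : ∀ n, f (n + q) = f n) (B : ℕ) (W : ℕ → ℝ)
    (hW : ∀ t ∈ Ico 1 B, |∑ x ∈ range q, f x * f ((x : ℤ) + t)| ≤ W t) :
    ∑ x ∈ range q, (∑ b ∈ range B, f ((x : ℤ) + b)) ^ 2 ≤
      B * (q + 2 * ∑ t ∈ Ico 1 B, W t) := by
  have h1 : ∑ x ∈ range q, (∑ b ∈ range B, f ((x : ℤ) + b)) ^ 2 =
      ∑ b ∈ range B, ∑ c ∈ range B, ∑ x ∈ range q, f ((x : ℤ) + b) * f ((x : ℤ) + c) := by
    have h2 : ∀ x ∈ range q, (∑ b ∈ range B, f ((x : ℤ) + b)) ^ 2 =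
        ∑ b ∈ range B, ∑ c ∈ range B, f ((x : ℤ) + b) * f ((x : ℤ) + c) := by
      intro x _
      rw [sq, Finset.sum_mul_sum]
    rw [Finset.sum_congr rfl h2, Finset.sum_comm]
    refine Finset.sum_congr rfl (fun b _ => ?_)
    rw [Finset.sum_comm]
  rw [h1]
  calc ∑ b ∈ range B, ∑ c ∈ range B, ∑ x ∈ range q, f ((x : ℤ) + b) * f ((x : ℤ) + c)
      ≤ ∑ b ∈ range B, ∑ c ∈ range B, |∑ x ∈ range q, f ((x : ℤ) + b) * f ((x : ℤ) + c)| :=
        Finset.sum_le_sum (fun b _ => Finset.sum_le_sum (fun c _ => le_abs_self _))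
    _ ≤ ∑ _b ∈ range B, (q + 2 * ∑ t ∈ Ico 1 B, W t) :=
        Finset.sum_le_sum (fun b hb => S1c_row q f hf hper B W hW b (Finset.mem_range.1 hb))
    _ = B * (q + 2 * ∑ t ∈ Ico 1 B, W t) := by
        rw [Finset.sum_const, Finset.card_range, nsmul_eq_mul]

/-- LAST STEP: a periodic function with small autocorrelations over a full period.

PROOF. `I = Ico A (A+N')`, `S = ∑_{n ∈ I} f n`. For `b < B`: `|S - ∑_{n ∈ I} f(n+b)| ≤ 2b ≤ 2B`. So
`B |S| ≤ ∑_{n ∈ I} |∑_{b<B} f(n+b)| + 2B²`. Cauchy-Schwarz and covering `I` by `N'/q + 1 ≤ N/q + 1` full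
periods: `(∑_{n∈I} |..|)² ≤ N (N/q + 1) ∑_{x mod q} (∑_{b<B} f(x+b))²`, and this last sum is
`∑_{b,b'} ∑_{x mod q} f(x+b) f(x+b') ≤ B q + 2 B ∑_{t ∈ Ico 1 B} W t` (shift `x` by `b`, periodicity).
`(a+b)² ≤ 2a² + 2b²`: `S² ≤ (2/B²) N (N/q+1)(B q + 2B ∑ W) + 8 B²`; divide by `N²`. -/
theorem final_step (q : ℕ) (hq : 1 ≤ q) (f : ℤ → ℝ) (hf : ∀ n, |f n| ≤ 1)
    (hper : ∀ n, f (n + q) = f n) (N B : ℕ) (hB : 1 ≤ B) (hN : 1 ≤ N) (W : ℕ → ℝ)
    (hW : ∀ t ∈ Ico 1 B, |∑ x ∈ range q, f x * f ((x : ℤ) + t)| ≤ W t) (A : ℤ) (N' : ℕ)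
    (hN' : N' ≤ N) :
    (|∑ n ∈ Ico A (A + N'), f n| / N) ^ 2 ≤
      8 * (1 / (q : ℝ) + 1 / N) * ((q : ℝ) / B + (∑ t ∈ Ico 1 B, W t) / B) +
        8 * ((B : ℝ) / N) ^ 2 := by
  have hNr : (0 : ℝ) < N := by exact_mod_cast hN
  have hBr : (0 : ℝ) < B := by exact_mod_cast hB
  have hqr : (0 : ℝ) < q := by exact_mod_cast hq
  have hW0 : ∀ t ∈ Ico 1 B, 0 ≤ W t := fun t ht => (abs_nonneg _).trans (hW t ht)
  have hWs : 0 ≤ ∑ t ∈ Ico 1 B, W t := Finset.sum_nonneg hW0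
  rw [S1c_Ico f A N']
  set S := ∑ i ∈ range N', f (A + i) with hS
  set Ws := ∑ t ∈ Ico 1 B, W t with hWsd
  set X := ∑ i ∈ range N', |∑ b ∈ range B, f (A + i + b)| with hX
  -- step 1
  have h1 : (B : ℝ) * |S| ≤ X + 2 * (B : ℝ) ^ 2 := by
    have h2 : |∑ b ∈ range B, (S - ∑ i ∈ range N', f (A + i + b))| ≤ 2 * (B : ℝ) ^ 2 := by
      refine (Finset.abs_sum_le_sum_abs _ _).trans ?_
      calc ∑ b ∈ range B, |S - ∑ i ∈ range N', f (A + i + b)| ≤ ∑ _b ∈ range B, 2 * (B : ℝ) := by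
            refine Finset.sum_le_sum (fun b hb => ?_)
            refine (S1c_shift f hf A N' b).trans ?_
            have : (b : ℝ) ≤ B := by exact_mod_cast (Finset.mem_range.1 hb).le
            linarith
        _ = 2 * (B : ℝ) ^ 2 := by
            rw [Finset.sum_const, Finset.card_range, nsmul_eq_mul]; ring
    have h3 : ∑ b ∈ range B, (S - ∑ i ∈ range N', f (A + i + b)) =
        B * S - ∑ i ∈ range N', ∑ b ∈ range B, f (A + i + b) := by
      rw [Finset.sum_sub_distrib, Finset.sum_const, Finset.card_range, nsmul_eq_mul,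
        Finset.sum_comm]
    have h4 : |∑ i ∈ range N', ∑ b ∈ range B, f (A + i + b)| ≤ X :=
      Finset.abs_sum_le_sum_abs _ _
    rw [h3] at h2
    have h5 : (B : ℝ) * |S| = |B * S| := by rw [abs_mul, abs_of_pos hBr]
    rw [h5]
    have h6 := abs_sub_abs_le_abs_sub (B * S) (∑ i ∈ range N', ∑ b ∈ range B, f (A + i + b))
    linarith
  -- step 2
  have hX0 : 0 ≤ X := Finset.sum_nonneg (fun i _ => abs_nonneg _)
  have h7 : X ^ 2 ≤ N * (((N : ℝ) / q + 1) * (B * (q + 2 * Ws))) := by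
    have h8 : X ^ 2 ≤ N' * ∑ i ∈ range N', (∑ b ∈ range B, f (A + i + b)) ^ 2 := by
      have := sq_sum_le_card_mul_sum_sq (s := range N')
        (f := fun i : ℕ => |∑ b ∈ range B, f (A + i + b)|)
      simp only [Finset.card_range, sq_abs] at this
      exact this
    have h9 := S1c_cover q hq (fun n => (∑ b ∈ range B, f (n + b)) ^ 2) (fun n => sq_nonneg _)
      (fun n => by
        show (∑ b ∈ range B, f (n + q + b)) ^ 2 = (∑ b ∈ range B, f (n + b)) ^ 2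
        congr 1
        refine Finset.sum_congr rfl (fun b _ => ?_)
        rw [show n + (q : ℤ) + b = n + b + q by ring, hper]) A N'
    have h10 := S1c_square q f hf hper B W hW
    have hN'r : (N' : ℝ) ≤ N := by exact_mod_cast hN'
    have h11 : (0 : ℝ) ≤ N' := Nat.cast_nonneg _
    have h12 : ((N' : ℝ) / q + 1) ≤ ((N : ℝ) / q + 1) := by
      have : (N' : ℝ) / q ≤ (N : ℝ) / q := div_le_div_of_nonneg_right hN'r hqr.le
      linarith
    have h13 : ∑ i ∈ range N', (∑ b ∈ range B, f (A + i + b)) ^ 2 ≤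
        ((N : ℝ) / q + 1) * (B * (q + 2 * Ws)) := by
      refine h9.trans ?_
      exact mul_le_mul h12 h10 (Finset.sum_nonneg (fun i _ => sq_nonneg _)) (by positivity)
    refine h8.trans ?_
    exact mul_le_mul hN'r h13 (Finset.sum_nonneg (fun i _ => sq_nonneg _)) hNr.le
  -- step 3
  have h14 : ((B : ℝ) * |S|) ^ 2 ≤ 2 * X ^ 2 + 8 * (B : ℝ) ^ 4 := by
    have h15 : ((B : ℝ) * |S|) ^ 2 ≤ (X + 2 * (B : ℝ) ^ 2) ^ 2 :=
      pow_le_pow_left₀ (mul_nonneg hBr.le (abs_nonneg _)) h1 2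
    nlinarith [sq_nonneg (X - 2 * (B : ℝ) ^ 2)]
  have h16 : (|S| / N) ^ 2 = ((B : ℝ) * |S|) ^ 2 / ((B : ℝ) ^ 2 * (N : ℝ) ^ 2) := by
    field_simp
  rw [h16, div_le_iff₀ (by positivity)]
  have h17 : (8 * (1 / (q : ℝ) + 1 / N) * ((q : ℝ) / B + Ws / B) + 8 * ((B : ℝ) / N) ^ 2) *
      ((B : ℝ) ^ 2 * (N : ℝ) ^ 2) =
      8 * (N * (((N : ℝ) / q + 1) * (B * (q + Ws)))) + 8 * (B : ℝ) ^ 4 := by
    field_simp
  rw [h17]
  refine h14.trans ?_
  have h18 : N * (((N : ℝ) / q + 1) * (B * (q + 2 * Ws))) ≤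
      2 * (N * (((N : ℝ) / q + 1) * (B * (q + Ws)))) := by
    have h19 : (q : ℝ) + 2 * Ws ≤ 2 * (q + Ws) := by linarith
    calc N * (((N : ℝ) / q + 1) * (B * (q + 2 * Ws)))
        ≤ N * (((N : ℝ) / q + 1) * (B * (2 * (q + Ws)))) := by
          gcongr
      _ = 2 * (N * (((N : ℝ) / q + 1) * (B * (q + Ws)))) := by ring
  have h20 : 0 ≤ N * (((N : ℝ) / q + 1) * (B * (q + Ws))) := by positivity
  linarith

end BG
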