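import Pool.Agent.W_aaa0df_bg.S1b
import Pool.Agent.W_aaa0df_bg.A1

/-!
# Structured moduli, S2: complete sums and their averages over the shifts
-/

set_option autoImplicit false

namespace BG

open Finset

/-- the Jacobi symbol modulo `q` as a real function -/
def Jr (q : ℕ) (n : ℤ) : ℝ := (jacobiSym n q : ℝ)

theorem Jr_abs (q : ℕ) (n : ℤ) : |Jr q n| ≤ 1 := by
  unfold Jr
  rcases jacobiSym.trichotomy n q with h | h | h <;> rw [h] <;> norm_num

theorem Jr_per (q : ℕ) (n : ℤ) : Jr q (n + q) = Jr q n := by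
  unfold Jr
  rw [jacobiSym.mod_left (n + q) q, jacobiSym.mod_left n q, Int.add_emod_right]

theorem Jr_mul (q : ℕ) {k : ℕ} (r : Fin k → ℕ) (hq : 0 < q) (hr : ∀ i, 0 < r i) (n : ℤ) :
    Jr (q * ∏ i, r i) n = (∏ i, Jr (r i) n) * Jr q n := by
  have key : ∀ s : Finset (Fin k), 0 < ∏ i ∈ s, r i ∧
      Jr (∏ i ∈ s, r i) n = ∏ i ∈ s, Jr (r i) n := by
    intro s
    induction s using Finset.induction_on with
    | empty =>
      refine ⟨by simp, ?_⟩
      rw [Finset.prod_empty, Finset.prod_empty]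
      unfold Jr
      rw [jacobiSym.one_right]
      norm_num
    | insert a s ha ih =>
      refine ⟨by rw [Finset.prod_insert ha]; exact Nat.mul_pos (hr a) ih.1, ?_⟩
      rw [Finset.prod_insert ha, Finset.prod_insert ha, ← ih.2]
      have : NeZero (r a) := ⟨(hr a).ne'⟩
      have : NeZero (∏ i ∈ s, r i) := ⟨ih.1.ne'⟩
      unfold Jr
      rw [jacobiSym.mul_right]
      push_cast
      ring
  have h := key univ
  have : NeZero q := ⟨hq.ne'⟩
  have : NeZero (∏ i, r i) := ⟨h.1.ne'⟩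
  rw [← h.2, mul_comm]
  unfold Jr
  rw [jacobiSym.mul_right]
  push_cast
  ring

/-- the shift attached to `v = (e, ε)` -/
def sh {k : ℕ} (s : Fin k → ℤ) (t : ℤ) (v : Finset (Fin k) × Bool) : ℤ :=
  ∑ i ∈ v.1, s i + if v.2 then t else 0

/-- the complete autocorrelation sum -/
def TT (q : ℕ) {k : ℕ} (Q t : Fin k → ℕ) (t' : ℕ) : ℝ :=
  |∑ x ∈ range q, dl (fun i => (t i : ℤ) * Q i) (Jr q) x *
    dl (fun i => (t i : ℤ) * Q i) (Jr q) ((x : ℤ) + t')|

/-- PROOF. The summand is `∏_{v} Jr q (x + sh s t' v)`, `s i = t i Q i`, a product over the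
`K = 2^k · 2` elements `v` of `Finset (Fin k) × Bool`; transport to `Fin K` by `Fintype.equivFin` to get
`T q b`. `T_global` with `β = 0`: `sh = 0` only for `v = (∅, false)` (all `t i Q i > 0`, `t' > 0`), so `0`
occurs exactly once. `12 K = 24 · 2^k`. -/
theorem complete_sum (q : ℕ) (hq : Squarefree q) (hodd : Odd q) {k : ℕ} (Q t : Fin k → ℕ)
    (hQ : ∀ i, 1 ≤ Q i) (ht : ∀ i, 1 ≤ t i) (t' : ℕ) (ht' : 1 ≤ t') :
    TT q Q t t' ≤ (24 * 2 ^ k : ℝ) ^ q.primeFactors.card * √(q : ℝ) *
      ∏ v ∈ (univ : Finset (Finset (Fin k) × Bool)).erase (∅, false),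
        √((Int.gcd q (sh (fun i => (t i : ℤ) * Q i) t' v) : ℕ) : ℝ) := by
  classical
  set s : Fin k → ℤ := fun i => (t i : ℤ) * Q i with hs
  have hs1 : ∀ i, 1 ≤ s i := by
    intro i
    have h1 : (1 : ℤ) ≤ t i := by exact_mod_cast ht i
    have h2 : (1 : ℤ) ≤ Q i := by exact_mod_cast hQ i
    show (1 : ℤ) ≤ (t i : ℤ) * Q i
    nlinarith
  have hsh : ∀ v : Finset (Fin k) × Bool, sh s t' v = 0 ↔ v = (∅, false) := by
    rintro ⟨e, ε⟩
    have hsum : (0 : ℤ) ≤ ∑ i ∈ e, s i := Finset.sum_nonneg fun i _ => by linarith [hs1 i]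
    have ht1 : (1 : ℤ) ≤ t' := by exact_mod_cast ht'
    unfold sh
    cases ε
    · simp only [Bool.false_eq_true, if_false, add_zero, Prod.mk.injEq, and_true]
      constructor
      · intro h
        rw [Finset.sum_eq_zero_iff_of_nonneg fun i _ => by linarith [hs1 i]] at h
        refine Finset.eq_empty_of_forall_notMem fun i hi => ?_
        have := h i hi
        linarith [hs1 i]
      · rintro rfl
        exact Finset.sum_empty
    · simp only [if_true, Prod.mk.injEq, reduceCtorEq, and_false, iff_false]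
      intro h
      linarith
  let V := Finset (Fin k) × Bool
  let ev : V ≃ Fin (Fintype.card V) := Fintype.equivFin V
  have hcard : Fintype.card V = 2 ^ k * 2 := by
    show Fintype.card (Finset (Fin k) × Bool) = 2 ^ k * 2
    rw [Fintype.card_prod, Fintype.card_finset, Fintype.card_fin, Fintype.card_bool]
  let b : Fin (Fintype.card V) → ℤ := fun i => sh s t' (ev.symm i)
  have hTT : TT q Q t t' = |((T q b : ℤ) : ℝ)| := by
    unfold TT T
    rw [Int.cast_sum]
    congr 1
    refine Finset.sum_congr rfl fun x _ => ?_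
    rw [Int.cast_prod, ← Equiv.prod_comp ev]
    have h1 : ∏ v : V, ((jacobiSym ((x : ℤ) + b (ev v)) q : ℤ) : ℝ) =
        ∏ v : Finset (Fin k) × Bool, Jr q ((x : ℤ) + sh s t' v) := by
      refine Finset.prod_congr rfl fun v _ => ?_
      show ((jacobiSym ((x : ℤ) + sh s t' (ev.symm (ev v))) q : ℤ) : ℝ) = _
      rw [Equiv.symm_apply_apply]
      rfl
    rw [h1, Fintype.prod_prod_type]
    unfold dl
    rw [← Finset.prod_mul_distrib]
    refine Finset.prod_congr rfl fun e _ => ?_
    rw [Fintype.prod_bool, mul_comm]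
    unfold sh
    simp only [Bool.false_eq_true, if_false, if_true, add_zero]
    congr 2
    ring
  have hβ : Odd ((univ.filter (fun i => b i = 0)).card) := by
    have h1 : univ.filter (fun i => b i = 0) = {ev (∅, false)} := by
      ext i
      rw [Finset.mem_filter, Finset.mem_singleton]
      show i ∈ univ ∧ sh s t' (ev.symm i) = 0 ↔ _
      rw [hsh, Equiv.symm_apply_eq]
      exact ⟨fun h => h.2, fun h => ⟨Finset.mem_univ i, h⟩⟩
    rw [h1, Finset.card_singleton]
    exact odd_one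
  have h := T_global q hq hodd b 0 hβ
  rw [hTT]
  refine h.trans (le_of_eq ?_)
  have e1 : (12 * (Fintype.card V : ℕ) : ℝ) = 24 * 2 ^ k := by
    rw [hcard]
    push_cast
    ring
  rw [e1]
  congr 1
  refine Finset.prod_nbij' (fun i => ev.symm i) (fun v => ev v) ?_ ?_ ?_ ?_ ?_
  · intro i hi
    rw [Finset.mem_erase]
    refine ⟨fun h => (Finset.mem_filter.1 hi).2 ((hsh _).2 h), Finset.mem_univ _⟩
  · intro v hv
    rw [Finset.mem_filter]
    refine ⟨Finset.mem_univ _, ?_⟩
    show sh s t' (ev.symm (ev v)) ≠ 0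
    rw [Equiv.symm_apply_apply]
    exact fun h => (Finset.mem_erase.1 hv).1 ((hsh v).1 h)
  · intro i _
    exact Equiv.apply_symm_apply _ _
  · intro v _
    exact Equiv.symm_apply_apply _ _
  · intro i _
    rw [sub_zero]

/-- PROOF. Each factor has absolute value at most `1`. -/
theorem TT_trivial (q : ℕ) {k : ℕ} (Q t : Fin k → ℕ) (t' : ℕ) : TT q Q t t' ≤ q := by
  unfold TT
  refine (Finset.abs_sum_le_sum_abs _ _).trans ?_
  calc ∑ x ∈ range q, |dl (fun i => (t i : ℤ) * Q i) (Jr q) x *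
        dl (fun i => (t i : ℤ) * Q i) (Jr q) ((x : ℤ) + t')| ≤ ∑ _x ∈ range q, (1 : ℝ) := by
        refine Finset.sum_le_sum fun x _ => ?_
        rw [abs_mul]
        exact mul_le_one₀ (dl_abs _ _ (Jr_abs q) _) (abs_nonneg _) (dl_abs _ _ (Jr_abs q) _)
    _ = q := by rw [Finset.sum_const, Finset.card_range, nsmul_eq_mul, mul_one]

end BG
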