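import Pool.Agent.W_aaa0df_bg.S2a

/-!
# Structured moduli, S2b: number of bad tuples
-/

set_option autoImplicit false

namespace BG

open Finset

/-- A set of naturals below `H` in one class modulo `g` has at most `H / g + 1` elements. -/
theorem S2b_class (g H : ℕ) (S : Finset ℕ) (hS : ∀ x ∈ S, x < H)
    (hc : ∀ x ∈ S, ∀ y ∈ S, x % g = y % g) : S.card ≤ H / g + 1 := by
  have h1 : (S.image (fun x => x / g)).card = S.card := by
    refine card_image_of_injOn fun x hx y hy hxy => ?_
    rw [← Nat.div_add_mod x g, ← Nat.div_add_mod y g, hxy, hc x hx y hy]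
  rw [← h1]
  refine (card_le_card (t := range (H / g + 1)) fun z hz => ?_).trans (card_range _).le
  obtain ⟨x, hx, rfl⟩ := mem_image.1 hz
  exact mem_range.2 (Nat.lt_succ_of_le (Nat.div_le_div_right (hS x hx).le))

theorem S2b_mult (g B : ℕ) : ((Ico 1 B).filter (fun x => g ∣ x)).card ≤ B / g := by
  have h1 : Ico 1 B = Ioc 0 (B - 1) := by
    ext x
    simp only [mem_Ico, mem_Ioc]
    omega
  rw [h1, Nat.Ioc_filter_dvd_card_eq_div]
  exact Nat.div_le_div_right (Nat.sub_le _ _)

/-- The shift as a function of one coordinate. -/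
theorem S2b_sh {k : ℕ} (Q : Fin k → ℕ) (v : Finset (Fin k) × Bool) (i : Fin k) (hi : i ∈ v.1)
    (t : Fin k → ℕ) (t' : ℤ) :
    sh (fun j => (t j : ℤ) * Q j) t' v = (t i : ℤ) * Q i +
      (∑ j ∈ v.1.erase i, (Function.update t i 1 j : ℤ) * Q j + if v.2 then t' else 0) := by
  unfold sh
  rw [← add_sum_erase v.1 (fun j => (t j : ℤ) * Q j) hi, add_assoc]
  congr 2
  refine sum_congr rfl fun j hj => ?_
  rw [Function.update_of_ne (ne_of_mem_erase hj)]

/-- Number of tuples with `g ∣ sh`.

PROOF. `v = (e, ε) ≠ (∅, false)`. If `e = ∅` then `ε = true` and the condition is `g ∣ t'`: at most `B/g`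
values of `t' ∈ Ico 1 B`, total `≤ H^k B/g`. If `i ∈ e`: fix all coordinates but `t i`; `t i Q i` lies in a
fixed class modulo `g`, and `Q i` is coprime to `g`, so `t i` lies in a fixed class modulo `g`: at most
`H/g + 1` values in `Ico 1 H`; total `≤ H^(k-1) B (H/g + 1)`. -/
theorem count_bad (g : ℕ) (hg : 1 ≤ g) {k : ℕ} (Q : Fin k → ℕ) (hQ : ∀ i, Nat.Coprime (Q i) g)
    (H B : ℕ) (hH : 1 ≤ H) (hB : 1 ≤ B) (v : Finset (Fin k) × Bool) (hv : v ≠ (∅, false)) :
    ((((Fintype.piFinset (fun _ : Fin k => Ico 1 H)) ×ˢ Ico 1 B).filter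
      (fun p => (g : ℤ) ∣ sh (fun i => (p.1 i : ℤ) * Q i) p.2 v)).card : ℝ) ≤
      (H : ℝ) ^ k * B * (1 / g + 1 / H) := by
  have hHr : (1 : ℝ) ≤ H := by exact_mod_cast hH
  have hgr : (1 : ℝ) ≤ g := by exact_mod_cast hg
  have hBr : (1 : ℝ) ≤ B := by exact_mod_cast hB
  rcases v.1.eq_empty_or_nonempty with hem | ⟨i, hi⟩
  · -- only the last coordinate
    have hv2 : v.2 = true := by
      by_contra h
      rw [Bool.not_eq_true] at h
      exact hv (Prod.ext hem h)
    have h1 : (((Fintype.piFinset (fun _ : Fin k => Ico 1 H)) ×ˢ Ico 1 B).filter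
        (fun p => (g : ℤ) ∣ sh (fun i => (p.1 i : ℤ) * Q i) p.2 v)) ⊆
        (Fintype.piFinset (fun _ : Fin k => Ico 1 H)) ×ˢ ((Ico 1 B).filter (fun x => g ∣ x)) := by
      intro p hp
      rw [mem_filter, mem_product] at hp
      rw [mem_product, mem_filter]
      refine ⟨hp.1.1, hp.1.2, ?_⟩
      have h2 := hp.2
      unfold sh at h2
      rw [hem, sum_empty, zero_add, if_pos hv2] at h2
      exact_mod_cast h2
    have h2 := card_le_card h1
    rw [card_product, Fintype.card_piFinset, prod_const, card_univ, Fintype.card_fin,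
      Nat.card_Ico] at h2
    have h3 : (H - 1) ^ k * ((Ico 1 B).filter (fun x => g ∣ x)).card ≤ H ^ k * (B / g) :=
      Nat.mul_le_mul (Nat.pow_le_pow_left (Nat.sub_le _ _) _) (S2b_mult g B)
    have h4 : ((((Fintype.piFinset (fun _ : Fin k => Ico 1 H)) ×ˢ Ico 1 B).filter
      (fun p => (g : ℤ) ∣ sh (fun i => (p.1 i : ℤ) * Q i) p.2 v)).card : ℝ) ≤
        (H : ℝ) ^ k * ((B / g : ℕ) : ℝ) := by
      exact_mod_cast h2.trans h3
    refine h4.trans ?_
    have h5 : ((B / g : ℕ) : ℝ) ≤ (B : ℝ) / g := Nat.cast_div_le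
    have h6 : (0 : ℝ) ≤ (H : ℝ) ^ k := by positivity
    calc (H : ℝ) ^ k * ((B / g : ℕ) : ℝ) ≤ (H : ℝ) ^ k * ((B : ℝ) / g) :=
          mul_le_mul_of_nonneg_left h5 h6
      _ = (H : ℝ) ^ k * B * (1 / g) := by ring
      _ ≤ (H : ℝ) ^ k * B * (1 / g + 1 / H) := by
          refine mul_le_mul_of_nonneg_left ?_ (by positivity)
          have : (0 : ℝ) ≤ 1 / (H : ℝ) := by positivity
          linarith
  · -- fix all coordinates but `i`
    set S := ((Fintype.piFinset (fun _ : Fin k => Ico 1 H)) ×ˢ Ico 1 B).filter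
        (fun p => (g : ℤ) ∣ sh (fun i => (p.1 i : ℤ) * Q i) p.2 v) with hSdef
    set f : (Fin k → ℕ) × ℕ → (Fin k → ℕ) × ℕ := fun p => (Function.update p.1 i 1, p.2) with hf
    have hmemS : ∀ p ∈ S, (∀ j, p.1 j ∈ Ico 1 H) ∧ p.2 ∈ Ico 1 B ∧
        (g : ℤ) ∣ sh (fun i => (p.1 i : ℤ) * Q i) p.2 v := by
      intro p hp
      rw [hSdef, mem_filter, mem_product, Fintype.mem_piFinset] at hp
      exact ⟨hp.1.1, hp.1.2, hp.2⟩
    have h1 : S.card ≤ (H / g + 1) * (S.image f).card := by
      refine card_le_mul_card_image S _ fun a _ => ?_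
      have hinj : (((S.filter (fun x => f x = a)).image (fun p => p.1 i))).card =
          (S.filter (fun x => f x = a)).card := by
        refine card_image_of_injOn fun p hp q hq hpq => ?_
        have hp2 := (mem_filter.1 hp).2
        have hq2 := (mem_filter.1 hq).2
        have h3 : f p = f q := hp2.trans hq2.symm
        simp only [hf, Prod.mk.injEq] at h3
        refine Prod.ext ?_ h3.2
        funext j
        by_cases hj : j = i
        · rw [hj]; exact hpq
        · have h4 := congrFun h3.1 j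
          rwa [Function.update_of_ne hj, Function.update_of_ne hj] at h4
      rw [← hinj]
      refine S2b_class g H _ (fun x hx => ?_) (fun x hx y hy => ?_)
      · obtain ⟨p, hp, rfl⟩ := mem_image.1 hx
        exact (mem_Ico.1 ((hmemS p (mem_filter.1 hp).1).1 i)).2
      · obtain ⟨p, hp, rfl⟩ := mem_image.1 hx
        obtain ⟨q, hq, rfl⟩ := mem_image.1 hy
        have h3 : f p = f q := (mem_filter.1 hp).2.trans (mem_filter.1 hq).2.symm
        simp only [hf, Prod.mk.injEq] at h3
        have hp3 := (hmemS p (mem_filter.1 hp).1).2.2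
        have hq3 := (hmemS q (mem_filter.1 hq).1).2.2
        rw [S2b_sh Q v i hi] at hp3 hq3
        rw [h3.1, h3.2] at hp3
        have h5 := dvd_sub hp3 hq3
        have h6 : (g : ℤ) ∣ ((p.1 i : ℤ) - q.1 i) * Q i := by
          convert! h5 using 1
          ring
        have h7 : IsCoprime (g : ℤ) (Q i : ℤ) :=
          (Nat.isCoprime_iff_coprime.2 (hQ i)).symm
        have h8 : (g : ℤ) ∣ (p.1 i : ℤ) - q.1 i := h7.dvd_of_dvd_mul_right h6
        have h9 : (q.1 i : ℤ) ≡ p.1 i [ZMOD g] := (Int.modEq_iff_dvd).2 h8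
        exact (Int.natCast_modEq_iff.1 h9).symm
    have h2 : (S.image f).card ≤ H ^ (k - 1) * B := by
      have h3 : S.image f ⊆
          (Fintype.piFinset (fun j : Fin k => if j = i then {1} else Ico 1 H)) ×ˢ Ico 1 B := by
        intro a ha
        obtain ⟨p, hp, rfl⟩ := mem_image.1 ha
        have h4 := hmemS p hp
        rw [mem_product, Fintype.mem_piFinset]
        refine ⟨fun j => ?_, h4.2.1⟩
        by_cases hj : j = i
        · subst hj
          simp [hf]
        · simp only [hf, if_neg hj, Function.update_of_ne hj]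
          exact h4.1 j
      refine (card_le_card h3).trans ?_
      rw [card_product, Fintype.card_piFinset, Nat.card_Ico,
        ← mul_prod_erase univ _ (mem_univ i), if_pos rfl, card_singleton, one_mul]
      refine Nat.mul_le_mul ?_ (Nat.sub_le _ _)
      have h5 : ∀ j ∈ univ.erase i, (if j = i then ({1} : Finset ℕ) else Ico 1 H).card ≤ H := by
        intro j hj
        rw [if_neg (ne_of_mem_erase hj), Nat.card_Ico]
        exact Nat.sub_le _ _
      refine (prod_le_pow_card (univ.erase i) _ H h5).trans (le_of_eq ?_)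
      rw [card_erase_of_mem (mem_univ i), card_univ, Fintype.card_fin]
    have hk : 1 ≤ k := Nat.one_le_iff_ne_zero.2 fun h => by subst h; exact i.elim0
    have h3 : (S.card : ℝ) ≤ (((H / g : ℕ) : ℝ) + 1) * ((H : ℝ) ^ (k - 1) * B) := by
      exact_mod_cast h1.trans (Nat.mul_le_mul_left _ h2)
    refine h3.trans ?_
    have h4 : ((H / g : ℕ) : ℝ) ≤ (H : ℝ) / g := Nat.cast_div_le
    have h5 : (H : ℝ) ^ k = (H : ℝ) ^ (k - 1) * H := by
      rw [← pow_succ, Nat.sub_add_cancel hk]
    have hH0 : (H : ℝ) ≠ 0 := by positivity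
    calc (((H / g : ℕ) : ℝ) + 1) * ((H : ℝ) ^ (k - 1) * B)
        ≤ ((H : ℝ) / g + 1) * ((H : ℝ) ^ (k - 1) * B) :=
          mul_le_mul_of_nonneg_right (by linarith) (by positivity)
      _ = (H : ℝ) ^ k * B * (1 / g + 1 / H) := by
          rw [h5]
          field_simp

end BG
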