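import Pool.Agent.W_aaa0df_bg.S2b

/-!
# Structured moduli, S2c: averages of the complete sums
-/

set_option autoImplicit false

namespace BG

open Finset

/-- the sample space -/
def TS (k H B : ℕ) : Finset ((Fin k → ℕ) × ℕ) :=
  (Fintype.piFinset (fun _ : Fin k => Ico 1 H)) ×ˢ Ico 1 B

theorem S2c_mem {k H B : ℕ} {p : (Fin k → ℕ) × ℕ} :
    p ∈ TS k H B ↔ (∀ i, 1 ≤ p.1 i ∧ p.1 i < H) ∧ 1 ≤ p.2 ∧ p.2 < B := by
  unfold TS
  rw [mem_product, Fintype.mem_piFinset, mem_Ico]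
  simp only [mem_Ico]

theorem S2c_card (k H B : ℕ) : ((TS k H B).card : ℝ) ≤ (H : ℝ) ^ k * B := by
  have h : (TS k H B).card ≤ H ^ k * B := by
    unfold TS
    rw [card_product, Fintype.card_piFinset]
    simp only [Nat.card_Ico, prod_const, card_univ, Fintype.card_fin]
    exact Nat.mul_le_mul (Nat.pow_le_pow_left (Nat.sub_le _ _) _) (Nat.sub_le _ _)
  exact_mod_cast h

/-- the bound for good tuples -/
theorem S2c_good (k q : ℕ) (hq : Squarefree q) (hodd : Odd q) (Q : Fin k → ℕ)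
    (hQ : ∀ i, 1 ≤ Q i) {H B : ℕ} {p : (Fin k → ℕ) × ℕ} (hp : p ∈ TS k H B) (G : ℝ) (hG : 1 ≤ G)
    (hg : ∀ v : Finset (Fin k) × Bool, v ≠ (∅, false) →
      ((Int.gcd q (sh (fun i => (p.1 i : ℤ) * Q i) p.2 v) : ℕ) : ℝ) < G) :
    TT q Q p.1 p.2 ≤ (24 * 2 ^ k : ℝ) ^ q.primeFactors.card * √(q : ℝ) * G ^ (2 ^ k) := by
  obtain ⟨hp1, hp2, -⟩ := S2c_mem.mp hp
  refine (complete_sum q hq hodd Q p.1 hQ (fun i => (hp1 i).1) p.2 hp2).trans ?_
  apply mul_le_mul_of_nonneg_left _ (by positivity)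
  have hsG : 1 ≤ √G := by
    rw [show (1 : ℝ) = √1 from (Real.sqrt_one).symm]
    exact Real.sqrt_le_sqrt hG
  calc ∏ v ∈ (univ : Finset (Finset (Fin k) × Bool)).erase (∅, false),
        √((Int.gcd q (sh (fun i => (p.1 i : ℤ) * Q i) p.2 v) : ℕ) : ℝ)
      ≤ ∏ v ∈ (univ : Finset (Finset (Fin k) × Bool)).erase (∅, false), √G := by
        apply prod_le_prod
        · intro v _
          exact Real.sqrt_nonneg _
        · intro v hv
          exact Real.sqrt_le_sqrt (hg v (ne_of_mem_erase hv)).le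
    _ = √G ^ ((univ : Finset (Finset (Fin k) × Bool)).erase (∅, false)).card := prod_const _
    _ ≤ √G ^ (2 * 2 ^ k) := by
        apply pow_le_pow_right₀ hsG
        refine (card_le_univ _).trans ?_
        rw [Fintype.card_prod, Fintype.card_finset, Fintype.card_fin, Fintype.card_bool]
        omega
    _ = G ^ (2 ^ k) := by
        rw [pow_mul, Real.sq_sqrt (by linarith)]

/-- the number of bad tuples -/
theorem S2c_bad (k q : ℕ) (hq0 : q ≠ 0) (Q : Fin k → ℕ) (hcop : ∀ i, Nat.Coprime (Q i) q)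
    (H B : ℕ) (hH : 1 ≤ H) (hB : 1 ≤ B) (G G' : ℝ) (hG' : 0 < G')
    (hGG : ∀ g : ℕ, g ∣ q → G ≤ g → G' ≤ g) :
    (((TS k H B).filter (fun p => ∃ v : Finset (Fin k) × Bool, v ≠ (∅, false) ∧
      G ≤ ((Int.gcd q (sh (fun i => (p.1 i : ℤ) * Q i) p.2 v) : ℕ) : ℝ))).card : ℝ) ≤
      (2 ^ (k + 1) * q.divisors.card * (1 / G' + 1 / H)) * ((H : ℝ) ^ k * B) := by
  classical
  set W : Finset ((Finset (Fin k) × Bool) × ℕ) :=
    ((univ : Finset (Finset (Fin k) × Bool)).erase (∅, false)) ×ˢ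
      (q.divisors.filter (fun g : ℕ => G ≤ g)) with hW
  have hsub : (TS k H B).filter (fun p => ∃ v : Finset (Fin k) × Bool, v ≠ (∅, false) ∧
      G ≤ ((Int.gcd q (sh (fun i => (p.1 i : ℤ) * Q i) p.2 v) : ℕ) : ℝ)) ⊆
      W.biUnion (fun w => (TS k H B).filter
        (fun p => (w.2 : ℤ) ∣ sh (fun i => (p.1 i : ℤ) * Q i) p.2 w.1)) := by
    intro p hp
    rw [mem_filter] at hp
    obtain ⟨hpT, v, hv, hG⟩ := hp
    rw [mem_biUnion]
    refine ⟨(v, Int.gcd q (sh (fun i => (p.1 i : ℤ) * Q i) p.2 v)), ?_, ?_⟩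
    · rw [hW, mem_product]
      refine ⟨mem_erase.mpr ⟨hv, mem_univ _⟩, ?_⟩
      rw [mem_filter, Nat.mem_divisors]
      refine ⟨⟨?_, hq0⟩, hG⟩
      have := Int.gcd_dvd_left (a := (q : ℤ)) (b := sh (fun i => (p.1 i : ℤ) * Q i) p.2 v)
      exact_mod_cast this
    · rw [mem_filter]
      exact ⟨hpT, Int.gcd_dvd_right _ _⟩
  have h1 := (Finset.card_le_card hsub).trans Finset.card_biUnion_le
  have h2 : (((TS k H B).filter (fun p => ∃ v : Finset (Fin k) × Bool, v ≠ (∅, false) ∧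
      G ≤ ((Int.gcd q (sh (fun i => (p.1 i : ℤ) * Q i) p.2 v) : ℕ) : ℝ))).card : ℝ) ≤
      ∑ w ∈ W, (((TS k H B).filter
        (fun p => (w.2 : ℤ) ∣ sh (fun i => (p.1 i : ℤ) * Q i) p.2 w.1)).card : ℝ) := by
    exact_mod_cast h1
  have hHB : (0 : ℝ) ≤ (H : ℝ) ^ k * B := by positivity
  have h3 : ∀ w ∈ W, (((TS k H B).filter
      (fun p => (w.2 : ℤ) ∣ sh (fun i => (p.1 i : ℤ) * Q i) p.2 w.1)).card : ℝ) ≤
      (H : ℝ) ^ k * B * (1 / G' + 1 / H) := by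
    intro w hw
    rw [hW, mem_product, mem_filter, Nat.mem_divisors] at hw
    obtain ⟨hw1, ⟨hw2, -⟩, hw3⟩ := hw
    have hg1 : 1 ≤ w.2 := Nat.pos_of_dvd_of_pos hw2 (Nat.pos_of_ne_zero hq0)
    have h4 := count_bad w.2 hg1 Q (fun i => (hcop i).coprime_dvd_right hw2) H B hH hB w.1
      (ne_of_mem_erase hw1)
    refine h4.trans ?_
    apply mul_le_mul_of_nonneg_left _ hHB
    have h5 : 1 / (w.2 : ℝ) ≤ 1 / G' := one_div_le_one_div_of_le hG' (hGG w.2 hw2 hw3)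
    linarith
  have h6 : (W.card : ℝ) ≤ 2 ^ (k + 1) * q.divisors.card := by
    have h7 : W.card ≤ 2 ^ (k + 1) * q.divisors.card := by
      rw [hW, card_product]
      apply Nat.mul_le_mul
      · refine (card_le_univ _).trans ?_
        rw [Fintype.card_prod, Fintype.card_finset, Fintype.card_fin, Fintype.card_bool, pow_succ]
      · exact card_filter_le _ _
    exact_mod_cast h7
  calc _ ≤ ∑ w ∈ W, (((TS k H B).filter
        (fun p => (w.2 : ℤ) ∣ sh (fun i => (p.1 i : ℤ) * Q i) p.2 w.1)).card : ℝ) := h2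
    _ ≤ ∑ w ∈ W, ((H : ℝ) ^ k * B * (1 / G' + 1 / H)) := sum_le_sum h3
    _ = W.card * ((H : ℝ) ^ k * B * (1 / G' + 1 / H)) := by rw [sum_const, nsmul_eq_mul]
    _ ≤ (2 ^ (k + 1) * q.divisors.card) * ((H : ℝ) ^ k * B * (1 / G' + 1 / H)) :=
        mul_le_mul_of_nonneg_right h6 (by positivity)
    _ = _ := by ring

/-- splitting the sum into good and bad tuples -/
theorem S2c_sum (k q : ℕ) (Q : Fin k → ℕ) (H B : ℕ) (Bd : (Fin k → ℕ) × ℕ → Prop)
    (X : ℝ) (hX : 0 ≤ X) (hgood : ∀ p ∈ TS k H B, ¬ Bd p → TT q Q p.1 p.2 ≤ X)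
    (Y : ℝ) (hbad : ∀ [DecidablePred Bd], (((TS k H B).filter Bd).card : ℝ) ≤ Y * ((H : ℝ) ^ k * B))
    (hH : 1 ≤ H) (hB : 1 ≤ B) :
    (∑ p ∈ TS k H B, TT q Q p.1 p.2) / ((H : ℝ) ^ k * B) ≤ X + q * Y := by
  classical
  have hHB : (0 : ℝ) < (H : ℝ) ^ k * B := by
    have h1 : (0 : ℝ) < H := by exact_mod_cast hH
    have h2 : (0 : ℝ) < B := by exact_mod_cast hB
    positivity
  rw [div_le_iff₀ hHB, ← Finset.sum_filter_add_sum_filter_not (TS k H B) Bd]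
  have h1 : ∑ p ∈ (TS k H B).filter Bd, TT q Q p.1 p.2 ≤ q * (Y * ((H : ℝ) ^ k * B)) := by
    calc ∑ p ∈ (TS k H B).filter Bd, TT q Q p.1 p.2 ≤ ∑ p ∈ (TS k H B).filter Bd, (q : ℝ) :=
          sum_le_sum fun p _ => TT_trivial q Q p.1 p.2
      _ = ((TS k H B).filter Bd).card * (q : ℝ) := by rw [sum_const, nsmul_eq_mul]
      _ ≤ (Y * ((H : ℝ) ^ k * B)) * (q : ℝ) :=
          mul_le_mul_of_nonneg_right hbad (Nat.cast_nonneg _)
      _ = q * (Y * ((H : ℝ) ^ k * B)) := by ring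
  have h2 : ∑ p ∈ (TS k H B).filter (fun p => ¬ Bd p), TT q Q p.1 p.2 ≤
      X * ((H : ℝ) ^ k * B) := by
    calc ∑ p ∈ (TS k H B).filter (fun p => ¬ Bd p), TT q Q p.1 p.2 ≤
        ∑ p ∈ (TS k H B).filter (fun p => ¬ Bd p), X :=
          sum_le_sum fun p hp => hgood p (mem_filter.mp hp).1 (mem_filter.mp hp).2
      _ = ((TS k H B).filter (fun p => ¬ Bd p)).card * X := by rw [sum_const, nsmul_eq_mul]
      _ ≤ ((H : ℝ) ^ k * B) * X := by
          apply mul_le_mul_of_nonneg_right _ hX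
          refine le_trans ?_ (S2c_card k H B)
          exact_mod_cast card_filter_le _ _
      _ = X * ((H : ℝ) ^ k * B) := by ring
  linarith

theorem S2c_gen (k q : ℕ) (hq : Squarefree q) (hodd : Odd q) (Q : Fin k → ℕ)
    (hQ : ∀ i, 1 ≤ Q i) (hcop : ∀ i, Nat.Coprime (Q i) q) (H B : ℕ) (hH : 1 ≤ H) (hB : 1 ≤ B)
    (G G' : ℝ) (hG : 1 ≤ G) (hG' : 0 < G') (hGG : ∀ g : ℕ, g ∣ q → G ≤ g → G' ≤ g) :
    (∑ p ∈ TS k H B, TT q Q p.1 p.2) / ((H : ℝ) ^ k * B) ≤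
      (24 * 2 ^ k : ℝ) ^ q.primeFactors.card * √(q : ℝ) * G ^ (2 ^ k) +
        q * (2 ^ (k + 1) * q.divisors.card * (1 / G' + 1 / H)) := by
  refine S2c_sum k q Q H B (fun p => ∃ v : Finset (Fin k) × Bool, v ≠ (∅, false) ∧
      G ≤ ((Int.gcd q (sh (fun i => (p.1 i : ℤ) * Q i) p.2 v) : ℕ) : ℝ)) _ (by positivity) ?_ _ ?_
      hH hB
  · intro p hp hb
    push Not at hb
    exact S2c_good k q hq hodd Q hQ hp G hG hb
  · intro _
    convert S2c_bad k q hq.ne_zero Q hcop H B hH hB G G' hG' hGG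

/-- CASE B: the modulus `q` is composite.

PROOF. Call `(t, t')` bad if `gcd(q, sh v) ≥ G` for some `v ≠ (∅, false)`. If it is not bad,
`complete_sum` gives `TT ≤ (24·2^k)^ω √q ∏_{v} √G ≤ (24·2^k)^ω √q G^(2^k)` (there are `2^(k+1) - 1` factors
`√G ≤`, `G ≥ 1`). The number of bad tuples is at most `∑_v ∑_{g ∣ q, g ≥ G}` `count_bad`
`≤ 2^(k+1) τ(q) H^k B (1/G + 1/H)` (`g = gcd` divides `q`, is coprime to `Q i` since `q` is), and for them
`TT ≤ q`. -/
theorem avg_composite (k : ℕ) (q : ℕ) (hq : Squarefree q) (hodd : Odd q) (Q : Fin k → ℕ)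
    (hQ : ∀ i, 1 ≤ Q i) (hcop : ∀ i, Nat.Coprime (Q i) q) (H B : ℕ) (hH : 1 ≤ H) (hB : 1 ≤ B)
    (G : ℝ) (hG : 1 ≤ G) :
    (∑ p ∈ (Fintype.piFinset (fun _ : Fin k => Ico 1 H)) ×ˢ Ico 1 B, TT q Q p.1 p.2) /
        ((H : ℝ) ^ k * B) ≤
      (24 * 2 ^ k : ℝ) ^ q.primeFactors.card * √(q : ℝ) * G ^ (2 ^ k) +
        q * (2 ^ (k + 1) * q.divisors.card * (1 / G + 1 / H)) :=
  S2c_gen k q hq hodd Q hQ hcop H B hH hB G G hG (by linarith) (fun _ _ h => h)

/-- the shifts are positive and at most `(k + 1) N` -/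
theorem S2c_sh {k H B N : ℕ} (Q : Fin k → ℕ) (hQ : ∀ i, 1 ≤ Q i) (hBN : B ≤ N)
    (hHQ : ∀ i, H * Q i ≤ N) {p : (Fin k → ℕ) × ℕ} (hp : p ∈ TS k H B)
    (v : Finset (Fin k) × Bool) (hv : v ≠ (∅, false)) :
    0 < sh (fun i => (p.1 i : ℤ) * Q i) p.2 v ∧
      sh (fun i => (p.1 i : ℤ) * Q i) p.2 v ≤ (k + 1) * N := by
  obtain ⟨hp1, hp2, hp3⟩ := S2c_mem.mp hp
  have hterm : ∀ i, (0 : ℤ) < (p.1 i : ℤ) * Q i ∧ (p.1 i : ℤ) * Q i ≤ N := by
    intro i
    have h1 : 0 < p.1 i * Q i := Nat.mul_pos (hp1 i).1 (hQ i)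
    have h2 : p.1 i * Q i ≤ N := (Nat.mul_le_mul_right _ (hp1 i).2.le).trans (hHQ i)
    exact ⟨by exact_mod_cast h1, by exact_mod_cast h2⟩
  have ht' : (0 : ℤ) < (p.2 : ℤ) ∧ (p.2 : ℤ) ≤ N := by
    constructor
    · exact_mod_cast hp2
    · exact_mod_cast (hp3.le.trans hBN)
  have hs0 : (0 : ℤ) ≤ ∑ i ∈ v.1, (p.1 i : ℤ) * Q i := sum_nonneg fun i _ => (hterm i).1.le
  have hs1 : ∑ i ∈ v.1, (p.1 i : ℤ) * Q i ≤ k * N := by
    calc ∑ i ∈ v.1, (p.1 i : ℤ) * Q i ≤ ∑ i ∈ v.1, (N : ℤ) := sum_le_sum fun i _ => (hterm i).2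
      _ = v.1.card * N := by rw [sum_const, nsmul_eq_mul]
      _ ≤ k * N := by
          apply mul_le_mul_of_nonneg_right _ (Nat.cast_nonneg _)
          have := card_le_univ v.1
          rw [Fintype.card_fin] at this
          exact_mod_cast this
  unfold sh
  obtain ⟨v1, v2⟩ := v
  simp only at hs0 hs1 ⊢
  constructor
  · cases v2 with
    | true =>
      simp only [if_true]
      linarith [ht'.1]
    | false =>
      have hne : v1.Nonempty := by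
        rw [nonempty_iff_ne_empty]
        intro h
        apply hv
        rw [h]
      have : (0 : ℤ) < ∑ i ∈ v1, (p.1 i : ℤ) * Q i := sum_pos (fun i _ => (hterm i).1) hne
      simpa using this
  · cases v2 with
    | true =>
      simp only [if_true]
      linarith [ht'.2]
    | false =>
      have : (0 : ℤ) ≤ N := Nat.cast_nonneg _
      simp only [Bool.false_eq_true, if_false]
      linarith

/-- CASE A: the modulus is an odd prime `P`.

PROOF. If `P` divides no `sh v`, `v ≠ (∅, false)`, then `complete_sum` gives `TT ≤ 24·2^k √P` (all gcds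
are `1`). Otherwise `TT ≤ P`; by `count_bad` (`g = P`, union over `≤ 2^(k+1)` values of `v`) the number of
these `(t, t')` is at most `2^(k+1) H^k B (1/P + 1/H)`, and there is none if `P > (k+1) N` because
`0 < sh ≤ ∑ t i Q i + t' ≤ k N + B ≤ (k+1) N`. The total number of `(t, t')` is `≤ H^k B`. So the left side is
at most `(1/P + 1/N) 24·2^k √P + (1/P + 1/N) P 2^(k+1) (1/P + 1/H) 1_{P ≤ (k+1) N}`, and
`(1/P + 1/N) √P = 1/√P + √P/N`, `(1/P + 1/N) P ≤ k + 2` for `P ≤ (k+1) N`, `1/P ≤ 1/√P`. -/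
theorem avg_prime (k : ℕ) : ∃ C : ℝ, 0 < C ∧ ∀ (P : ℕ), P.Prime → P ≠ 2 → ∀ (Q : Fin k → ℕ),
    (∀ i, 1 ≤ Q i) → (∀ i, Nat.Coprime (Q i) P) → ∀ (H B N : ℕ), 1 ≤ H → 1 ≤ B → B ≤ N →
      (∀ i, H * Q i ≤ N) →
      (1 / (P : ℝ) + 1 / N) * ((∑ p ∈ (Fintype.piFinset (fun _ : Fin k => Ico 1 H)) ×ˢ Ico 1 B,
        TT P Q p.1 p.2) / ((H : ℝ) ^ k * B)) ≤
        C * (1 / √(P : ℝ) + √(P : ℝ) / N + 1 / H) := by
  set C1 : ℝ := 24 * 2 ^ k * 2 ^ (2 ^ k) with hC1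
  set C2 : ℝ := (k + 2) * (2 ^ (k + 1) * 2) with hC2
  refine ⟨C1 + C2, by positivity, ?_⟩
  intro P hP hP2 Q hQ hcop H B N hH hB hBN hHQ
  change (1 / (P : ℝ) + 1 / N) * ((∑ p ∈ TS k H B, TT P Q p.1 p.2) / ((H : ℝ) ^ k * B)) ≤ _
  have hodd : Odd P := hP.odd_of_ne_two hP2
  have hsq : Squarefree P := hP.prime.squarefree
  have hPR : (1 : ℝ) ≤ P := by exact_mod_cast hP.one_lt.le
  have hP0 : (0 : ℝ) < P := by linarith
  have hsP : 0 < √(P : ℝ) := Real.sqrt_pos.mpr hP0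
  have hsP1 : 1 ≤ √(P : ℝ) := by
    rw [show (1 : ℝ) = √1 from (Real.sqrt_one).symm]
    exact Real.sqrt_le_sqrt hPR
  have hsPP : √(P : ℝ) * √(P : ℝ) = P := Real.mul_self_sqrt hP0.le
  have hN0 : (0 : ℝ) < N := by exact_mod_cast (hB.trans hBN)
  have hH0 : (0 : ℝ) < H := by exact_mod_cast hH
  have hω : P.primeFactors.card = 1 := by rw [hP.primeFactors, card_singleton]
  have hτ : P.divisors.card = 2 := by
    rw [hP.divisors, card_insert_of_notMem, card_singleton]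
    rw [mem_singleton]
    exact hP.one_lt.ne
  have hmain : (1 / (P : ℝ) + 1 / N) * √(P : ℝ) = 1 / √(P : ℝ) + √(P : ℝ) / N := by
    have h1 : 1 / (P : ℝ) * √(P : ℝ) = 1 / √(P : ℝ) := by
      rw [div_mul_eq_mul_div, one_mul, div_eq_div_iff hP0.ne' hsP.ne', one_mul, hsPP]
    rw [add_mul, h1]
    ring
  have hX : (24 * 2 ^ k : ℝ) ^ P.primeFactors.card * √(P : ℝ) * 2 ^ (2 ^ k) = C1 * √(P : ℝ) := by
    rw [hω, pow_one, hC1]
    ring
  by_cases hPN : P ≤ (k + 1) * N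
  · have h1 := S2c_gen k P hsq hodd Q hQ hcop H B hH hB 2 P (by norm_num) hP0 (by
      intro g hg h2g
      rcases (Nat.dvd_prime hP).mp hg with h | h
      · rw [h] at h2g
        norm_num at h2g
      · rw [h])
    rw [hX, hτ] at h1
    have hpos : 0 ≤ 1 / (P : ℝ) + 1 / N := by positivity
    refine (mul_le_mul_of_nonneg_left h1 hpos).trans ?_
    have h2 : (1 / (P : ℝ) + 1 / N) * P ≤ k + 2 := by
      have h3 : (P : ℝ) ≤ (k + 1) * N := by exact_mod_cast hPN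
      rw [add_mul, one_div, inv_mul_cancel₀ hP0.ne', one_div, inv_mul_eq_div]
      have h4 : (P : ℝ) / N ≤ k + 1 := by
        rw [div_le_iff₀ hN0]
        exact h3
      linarith
    have h5 : 1 / (P : ℝ) ≤ 1 / √(P : ℝ) := by
      apply one_div_le_one_div_of_le hsP
      nlinarith
    have h6 : (0 : ℝ) ≤ 2 ^ (k + 1) * 2 * (1 / P + 1 / H) := by positivity
    calc (1 / (P : ℝ) + 1 / N) * (C1 * √(P : ℝ) +
          P * (2 ^ (k + 1) * ((2 : ℕ) : ℝ) * (1 / P + 1 / H)))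
        = C1 * ((1 / (P : ℝ) + 1 / N) * √(P : ℝ)) +
          ((1 / (P : ℝ) + 1 / N) * P) * (2 ^ (k + 1) * 2 * (1 / P + 1 / H)) := by
          push_cast
          ring
      _ ≤ C1 * (1 / √(P : ℝ) + √(P : ℝ) / N) +
          (k + 2) * (2 ^ (k + 1) * 2 * (1 / P + 1 / H)) := by
          rw [hmain]
          have := mul_le_mul_of_nonneg_right h2 h6
          linarith
      _ ≤ C1 * (1 / √(P : ℝ) + √(P : ℝ) / N) + C2 * (1 / √(P : ℝ) + 1 / H) := by
          rw [hC2]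
          have h7 : (0 : ℝ) ≤ (k + 2) * (2 ^ (k + 1) * 2) := by positivity
          have h8 := mul_le_mul_of_nonneg_left h5 h7
          linarith
      _ ≤ (C1 + C2) * (1 / √(P : ℝ) + √(P : ℝ) / N + 1 / H) := by
          have h9 : 0 ≤ C1 * (1 / (H : ℝ)) := by positivity
          have h10 : 0 ≤ C2 * (√(P : ℝ) / N) := by positivity
          linarith
  · rw [not_le] at hPN
    have h1 := S2c_sum k P Q H B (fun _ => False) (C1 * √(P : ℝ)) (by positivity) (by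
      intro p hp _
      rw [← hX]
      refine S2c_good k P hsq hodd Q hQ hp 2 (by norm_num) ?_
      intro v hv
      obtain ⟨h0, h1⟩ := S2c_sh Q hQ hBN hHQ hp v hv
      have hg : Int.gcd P (sh (fun i => (p.1 i : ℤ) * Q i) p.2 v) = 1 := by
        have hd := Int.gcd_dvd_left (a := (P : ℤ)) (b := sh (fun i => (p.1 i : ℤ) * Q i) p.2 v)
        have hd' : Int.gcd P (sh (fun i => (p.1 i : ℤ) * Q i) p.2 v) ∣ P := by exact_mod_cast hd
        rcases (Nat.dvd_prime hP).mp hd' with h | h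
        · exact h
        · exfalso
          have hd2 := Int.gcd_dvd_right (a := (P : ℤ)) (b := sh (fun i => (p.1 i : ℤ) * Q i) p.2 v)
          rw [h] at hd2
          have h3 := Int.le_of_dvd h0 hd2
          have h4 : ((k + 1 : ℕ) * N : ℤ) < P := by exact_mod_cast hPN
          push_cast at h4
          linarith
      rw [hg]
      norm_num) 0 (by
      intro _
      simp) hH hB
    rw [mul_zero, add_zero] at h1
    have hpos : 0 ≤ 1 / (P : ℝ) + 1 / N := by positivity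
    refine (mul_le_mul_of_nonneg_left h1 hpos).trans ?_
    have h2 : (1 / (P : ℝ) + 1 / N) * (C1 * √(P : ℝ)) = C1 * (1 / √(P : ℝ) + √(P : ℝ) / N) := by
      rw [← hmain]
      ring
    rw [h2]
    have h9 : 0 ≤ C1 * (1 / (H : ℝ)) := by positivity
    have h10 : 0 ≤ C2 * (1 / √(P : ℝ) + √(P : ℝ) / N + 1 / H) := by positivity
    linarith

end BG
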