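import Mathlib

/-!
# Structured moduli, S3a: factorization
-/

set_option autoImplicit false

namespace BG

open Finset

/-- at most one prime factor of `m` exceeds `y`, and none exceeds `y²` -/
def Struct (m : ℕ) (y : ℝ) : Prop :=
  (∀ p : ℕ, p.Prime → p ∣ m → (p : ℝ) ≤ y ^ 2) ∧
    ∀ p p' : ℕ, p.Prime → p'.Prime → p ∣ m → p' ∣ m → y < p → y < p' → p = p'

/-- a divisor of the right size -/
theorem S3a_divisor (u z : ℝ) (hu : 1 ≤ u) (hz : 1 ≤ z) (m : ℕ) (hm : 1 ≤ m) (hum : u ≤ m)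
    (hp : ∀ p : ℕ, p.Prime → p ∣ m → (p : ℝ) ≤ z) :
    ∃ q₀ r : ℕ, m = q₀ * r ∧ u ≤ q₀ ∧ (q₀ : ℝ) ≤ z * u := by
  classical
  have hex : ∃ d : ℕ, d ∣ m ∧ u ≤ d := ⟨m, dvd_rfl, hum⟩
  obtain ⟨hd1, hd2⟩ := Nat.find_spec hex
  set d := Nat.find hex with hd
  obtain ⟨r, hr⟩ := hd1
  refine ⟨d, r, hr, hd2, ?_⟩
  have hd0 : 0 < d := by
    rcases Nat.eq_zero_or_pos d with h | h
    · rw [h] at hr
      omega
    · exact h
  by_cases h1 : d = 1
  · rw [h1, Nat.cast_one]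
    nlinarith
  · have hpp := Nat.minFac_prime h1
    have hpd := Nat.minFac_dvd d
    obtain ⟨e, he⟩ := hpd
    set p := d.minFac with hpdef
    have he0 : 0 < e := by
      rcases Nat.eq_zero_or_pos e with h | h
      · rw [h, mul_zero] at he
        omega
      · exact h
    have hed : e < d := by
      have := hpp.two_le
      nlinarith
    have hlt : (e : ℝ) < u := by
      by_contra hcon
      rw [not_lt] at hcon
      have hem : m = e * (p * r) := by
        calc m = d * r := hr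
          _ = (p * e) * r := congrArg (· * r) he
          _ = e * (p * r) := by ring
      exact Nat.find_min hex hed ⟨⟨p * r, hem⟩, hcon⟩
    have hpz : (p : ℝ) ≤ z := hp p hpp ((Nat.minFac_dvd d).trans ⟨r, hr⟩)
    have hde : (d : ℝ) = p * e := by exact_mod_cast he
    rw [hde]
    exact mul_le_mul hpz hlt.le (Nat.cast_nonneg _) (by linarith)

/-- Greedy factorization.

PROOF. Induction on `j`. `j = 0`: `m ≤ 1` so `m = 1`, empty product. Step: if `m ≤ u` (`u ≥ 1`) take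
`q = (m, 1, 1, ..)` (`m ≤ u ≤ z u`). Otherwise there is a divisor `q₀ ∣ m` with `u ≤ q₀ ≤ z u`: multiply the prime
factors of `m` one by one until the product is `≥ u` for the first time (the previous product is `< u`,
the last prime `≤ z`). Then `m / q₀ ≤ u^j` and it is again squarefree with prime factors `≤ z`; use
`Fin.cons q₀`. -/
theorem greedy (u z : ℝ) (hu : 1 ≤ u) (hz : 1 ≤ z) (j : ℕ) : ∀ m : ℕ, 1 ≤ m → Squarefree m →
    (m : ℝ) ≤ u ^ j → (∀ p : ℕ, p.Prime → p ∣ m → (p : ℝ) ≤ z) →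
      ∃ q : Fin j → ℕ, ∏ i, q i = m ∧ ∀ i, (q i : ℝ) ≤ z * u := by
  induction j with
  | zero =>
    intro m hm _ hmu _
    rw [pow_zero] at hmu
    have h1 : m ≤ 1 := by exact_mod_cast hmu
    refine ⟨fun i => i.elim0, ?_, fun i => i.elim0⟩
    simp only [univ_eq_empty, prod_empty]
    omega
  | succ j ih =>
    intro m hm hsq hmu hp
    have hzu : u ≤ z * u := by nlinarith
    by_cases h1 : (m : ℝ) ≤ u
    · refine ⟨Fin.cons m (fun _ => 1), ?_, ?_⟩
      · rw [Fin.prod_univ_succ]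
        simp
      · intro i
        refine Fin.cases ?_ (fun i => ?_) i
        · simp only [Fin.cons_zero]
          linarith
        · simp only [Fin.cons_succ, Nat.cast_one]
          linarith
    · rw [not_le] at h1
      obtain ⟨q₀, r, hm', hq1, hq2⟩ := S3a_divisor u z hu hz m hm h1.le hp
      have hq0 : (0 : ℝ) < q₀ := by linarith
      have hr1 : 1 ≤ r := by
        rcases Nat.eq_zero_or_pos r with h | h
        · rw [h, mul_zero] at hm'
          omega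
        · exact h
      have hrm : r ∣ m := ⟨q₀, by rw [hm']; ring⟩
      have hru : (r : ℝ) ≤ u ^ j := by
        have h2 : (m : ℝ) = q₀ * r := by exact_mod_cast hm'
        rw [h2, pow_succ] at hmu
        have h3 : u * (r : ℝ) ≤ u * u ^ j := by
          have h4 : u * (r : ℝ) ≤ q₀ * r := mul_le_mul_of_nonneg_right hq1 (Nat.cast_nonneg _)
          linarith
        exact le_of_mul_le_mul_left h3 (by linarith)
      obtain ⟨q, hq, hqb⟩ := ih r hr1 (hsq.squarefree_of_dvd hrm) hru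
        (fun p hpp hpr => hp p hpp (hpr.trans hrm))
      refine ⟨Fin.cons q₀ q, ?_, ?_⟩
      · rw [Fin.prod_univ_succ]
        simp only [Fin.cons_zero, Fin.cons_succ]
        rw [hq, hm']
      · intro i
        refine Fin.cases ?_ (fun i => ?_) i
        · simp only [Fin.cons_zero]
          exact hq2
        · simp only [Fin.cons_succ]
          exact hqb i

/-- The first divisor.

PROOF. As in `greedy`: multiply prime factors one by one until the product is `≥ u`. -/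
theorem first_divisor (u z : ℝ) (hu : 1 ≤ u) (hz : 1 ≤ z) (m : ℕ) (hm : Squarefree m)
    (hum : u ≤ m) (hp : ∀ p : ℕ, p.Prime → p ∣ m → (p : ℝ) ≤ z) :
    ∃ q₀ r : ℕ, m = q₀ * r ∧ u ≤ q₀ ∧ (q₀ : ℝ) ≤ z * u :=
  S3a_divisor u z hu hz m (Nat.one_le_iff_ne_zero.mpr hm.ne_zero) hum hp

/-- PROOF. `j = ⌈1/κ⌉₊`, `u = m^κ` (so `u^j ≥ m`). If `m` has a prime factor `≥ m^κ`, let `P` be its largest
prime factor, `q₀ = P ≤ y²`; the other prime factors are `≤ y` (if one were `> y` then also `P > y`,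
so they are equal, but `m` is squarefree); `greedy` with `z = y` for `m / P`. Otherwise all prime factors are
`< m^κ`: `first_divisor` with `z = u = m^κ` gives `q₀ ∈ [m^κ, m^(2κ)]`, and `greedy` for `m / q₀` with
`z = m^κ`: all `q i ≤ m^(2κ) ≤ y m^(2κ)`. -/
theorem factor_case (κ : ℝ) (hκ : 0 < κ) (hκ1 : κ ≤ 1) : ∃ k : ℕ, ∀ m : ℕ, 1 ≤ m → Squarefree m →
    ∀ y : ℝ, 1 ≤ y → Struct m y → ∃ (q₀ : ℕ) (q : Fin k → ℕ), m = q₀ * ∏ i, q i ∧
      (∀ i, (q i : ℝ) ≤ y * (m : ℝ) ^ (2 * κ)) ∧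
      ((q₀.Prime ∧ (m : ℝ) ^ κ ≤ q₀ ∧ (q₀ : ℝ) ≤ y ^ 2) ∨
        ((m : ℝ) ^ κ ≤ q₀ ∧ (q₀ : ℝ) ≤ (m : ℝ) ^ (2 * κ))) := by
  classical
  refine ⟨⌈1 / κ⌉₊, fun m hm hsq y hy hS => ?_⟩
  set j := ⌈1 / κ⌉₊ with hj
  have hmR : (1 : ℝ) ≤ m := by exact_mod_cast hm
  have hm0 : (0 : ℝ) < m := by linarith
  have hu1 : 1 ≤ (m : ℝ) ^ κ := Real.one_le_rpow hmR hκ.le
  have huj : (m : ℝ) ≤ ((m : ℝ) ^ κ) ^ j := by
    rw [← Real.rpow_natCast, ← Real.rpow_mul hm0.le]
    have h1 : 1 ≤ κ * j := by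
      have := Nat.le_ceil (1 / κ)
      rw [div_le_iff₀ hκ] at this
      rw [mul_comm]
      exact this
    calc (m : ℝ) = (m : ℝ) ^ (1 : ℝ) := (Real.rpow_one _).symm
      _ ≤ (m : ℝ) ^ (κ * j) := Real.rpow_le_rpow_of_exponent_le hmR h1
  have huu : (m : ℝ) ^ κ * (m : ℝ) ^ κ = (m : ℝ) ^ (2 * κ) := by
    rw [← Real.rpow_add hm0]
    congr 1
    ring
  have hu2 : (m : ℝ) ^ κ ≤ (m : ℝ) ^ (2 * κ) := by
    rw [← huu]
    nlinarith
  by_cases hbig : ∃ p : ℕ, p.Prime ∧ p ∣ m ∧ (m : ℝ) ^ κ ≤ p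
  · obtain ⟨p, hpp, hpm, hpk⟩ := hbig
    -- the largest prime factor
    have hne : m.primeFactors.Nonempty := ⟨p, Nat.mem_primeFactors.mpr ⟨hpp, hpm, by omega⟩⟩
    set P := m.primeFactors.max' hne with hP
    have hPmem := Finset.max'_mem _ hne
    rw [← hP, Nat.mem_primeFactors] at hPmem
    obtain ⟨hPp, hPm, -⟩ := hPmem
    have hmax : ∀ p' : ℕ, p'.Prime → p' ∣ m → p' ≤ P := fun p' h1 h2 =>
      Finset.le_max' _ _ (Nat.mem_primeFactors.mpr ⟨h1, h2, by omega⟩)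
    have hPk : (m : ℝ) ^ κ ≤ P := hpk.trans (by exact_mod_cast hmax p hpp hpm)
    have hPy : (P : ℝ) ≤ y ^ 2 := hS.1 P hPp hPm
    obtain ⟨m', hm'⟩ := hPm
    have hm'1 : 1 ≤ m' := by
      rcases Nat.eq_zero_or_pos m' with h | h
      · rw [h, mul_zero] at hm'
        omega
      · exact h
    have hm'd : m' ∣ m := ⟨P, by rw [hm']; ring⟩
    have hm'le : (m' : ℝ) ≤ m := by exact_mod_cast Nat.le_of_dvd (by omega) hm'd
    obtain ⟨q, hq, hqb⟩ := greedy ((m : ℝ) ^ κ) y hu1 hy j m' hm'1 (hsq.squarefree_of_dvd hm'd)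
      (hm'le.trans huj) (by
        intro p' hp' hp'm
        by_contra hcon
        rw [not_le] at hcon
        have h1 : p' ∣ m := hp'm.trans hm'd
        have h2 : (p' : ℝ) ≤ P := by exact_mod_cast hmax p' hp' h1
        have h3 := hS.2 P p' hPp hp' ⟨m', hm'⟩ h1 (by linarith) hcon
        obtain ⟨e, he⟩ := hp'm
        have h4 : P * P ∣ m := ⟨e, by rw [hm', he, ← h3]; ring⟩
        have h5 := hsq P h4
        rw [Nat.isUnit_iff] at h5
        exact hPp.one_lt.ne' h5)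
    refine ⟨P, q, by rw [hq, hm'], fun i => (hqb i).trans ?_, Or.inl ⟨hPp, hPk, hPy⟩⟩
    exact mul_le_mul_of_nonneg_left hu2 (by linarith)
  · push Not at hbig
    have hum : (m : ℝ) ^ κ ≤ m := by
      calc (m : ℝ) ^ κ ≤ (m : ℝ) ^ (1 : ℝ) := Real.rpow_le_rpow_of_exponent_le hmR hκ1
        _ = m := Real.rpow_one _
    obtain ⟨q₀, r, hm', hq1, hq2⟩ := first_divisor ((m : ℝ) ^ κ) ((m : ℝ) ^ κ) hu1 hu1 m hsq hum
      (fun p h1 h2 => (hbig p h1 h2).le)
    have hr1 : 1 ≤ r := by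
      rcases Nat.eq_zero_or_pos r with h | h
      · rw [h, mul_zero] at hm'
        omega
      · exact h
    have hrd : r ∣ m := ⟨q₀, by rw [hm']; ring⟩
    have hrle : (r : ℝ) ≤ m := by exact_mod_cast Nat.le_of_dvd (by omega) hrd
    obtain ⟨q, hq, hqb⟩ := greedy ((m : ℝ) ^ κ) ((m : ℝ) ^ κ) hu1 hu1 j r hr1
      (hsq.squarefree_of_dvd hrd) (hrle.trans huj)
      (fun p h1 h2 => (hbig p h1 (h2.trans hrd)).le)
    rw [huu] at hq2
    refine ⟨q₀, q, by rw [hq]; exact hm', fun i => (hqb i).trans ?_, Or.inr ⟨hq1, hq2⟩⟩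
    rw [huu]
    have h5 : 0 < (m : ℝ) ^ (2 * κ) := Real.rpow_pos_of_pos hm0 _
    nlinarith

end BG
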