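import Pool.Agent.W_aaa0df_bg.S2a
import Pool.Agent.W_aaa0df_bg.S1c
import Pool.Agent.W_aaa0df_bg.A4

/-!
# Structured moduli, S3b: the differenced inequality for `SJ`
-/

set_option autoImplicit false

namespace BG

open Finset

theorem S3b_cs {ι : Type*} (P : Finset ι) (X : ι → ℝ) (hX : ∀ t, 0 ≤ X t) (h : ℝ) (hh : 0 < h)
    (hP : (P.card : ℝ) ≤ h) : (∑ t ∈ P, √(X t)) / h ≤ √((∑ t ∈ P, X t) / h) := by
  apply Real.le_sqrt_of_sq_le
  rw [div_pow]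
  have h1 : (∑ t ∈ P, √(X t)) ^ 2 ≤ P.card * ∑ t ∈ P, (√(X t)) ^ 2 := sq_sum_le_card_mul_sum_sq
  have h2 : ∑ t ∈ P, (√(X t)) ^ 2 = ∑ t ∈ P, X t := sum_congr rfl fun t _ => Real.sq_sqrt (hX t)
  have h3 : 0 ≤ ∑ t ∈ P, X t := sum_nonneg fun t _ => hX t
  rw [h2] at h1
  rw [div_le_div_iff₀ (by positivity) hh]
  have h4 : (P.card : ℝ) * ∑ t ∈ P, X t ≤ h * ∑ t ∈ P, X t := mul_le_mul_of_nonneg_right hP h3
  calc (∑ t ∈ P, √(X t)) ^ 2 * h ≤ (h * ∑ t ∈ P, X t) * h :=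
        mul_le_mul_of_nonneg_right (h1.trans h4) hh.le
    _ = (∑ t ∈ P, X t) * h ^ 2 := by ring

theorem S3b_sum (F : ℤ → ℝ) (N : ℕ) :
    ∑ n ∈ Ico (1 : ℤ) (1 + N), F n = ∑ n ∈ Icc 1 N, F (n : ℤ) := by
  refine Finset.sum_nbij' (fun n => n.toNat) (fun n => (n : ℤ)) ?_ ?_ ?_ ?_ ?_
  · intro n hn
    rw [mem_Ico] at hn
    rw [mem_Icc]
    omega
  · intro n hn
    rw [mem_Icc] at hn
    rw [mem_Ico]
    omega
  · intro n hn
    rw [mem_Ico] at hn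
    exact Int.toNat_of_nonneg (by omega)
  · intro n _
    exact Int.toNat_natCast n
  · intro n hn
    rw [mem_Ico] at hn
    rw [Int.toNat_of_nonneg (by omega)]

theorem S3b_per (q : ℕ) {k : ℕ} (s : Fin k → ℤ) (n : ℤ) :
    dl s (Jr q) (n + q) = dl s (Jr q) n := by
  unfold dl
  refine prod_congr rfl fun e _ => ?_
  rw [show n + (q : ℤ) + ∑ i ∈ e, s i = (n + ∑ i ∈ e, s i) + q by ring, Jr_per]

theorem S3b_alg (a b c h qB S Bb : ℝ) (ha : 0 ≤ a) (hb : 0 ≤ b) (hq : 0 ≤ qB) (hh : 0 < h)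
    (hc : c ≤ h) (hB : 0 < Bb) :
    (8 * a * (c * qB + S / Bb) + c * (8 * b)) / h ≤ 8 * (a * (qB + S / (h * Bb))) + 8 * b := by
  rw [div_le_iff₀ hh]
  have h7 : S / (h * Bb) * h = S / Bb := by
    field_simp
  have h8 : (8 * (a * (qB + S / (h * Bb))) + 8 * b) * h =
      8 * a * (qB * h + S / (h * Bb) * h) + 8 * b * h := by ring
  rw [h8, h7]
  have h9 : 0 ≤ a * qB * (h - c) := mul_nonneg (mul_nonneg ha hq) (by linarith)
  have h10 : 0 ≤ b * (h - c) := mul_nonneg hb (by linarith)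
  nlinarith

/-- One inequality for both cases: differencing with the parameters `H, B`.

PROOF. `k' = k + 1`, `Q = Fin.cons 8 q`, `u = Fin.cons w' (fun i => Jr (q i))`, `g = Jr q₀`, where
`w' n = w ((n % 8).toNat)` is the extension of `w` to the integers (period `8`, `|w'| ≤ 1`). For `n ≥ 0`:
`w n * (n/m) = (∏ u) g` (`Jr_mul`), and `Icc 1 N` corresponds to `Ico 1 (1+N)` in the integers. `iterate (k+1)`
with `B(t) = N √(X t)`, where by `final_step` (`f = dl (t Q) (Jr q₀)`, period `q₀`, `dl_abs`;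
`W t' = TT q₀ Q t t'`)
`X t = 8 (1/q₀ + 1/N) (q₀/B + (∑_{t'} TT)/B) + 8 (B/N)²`. Then
`x^(2^(k+1)) ≤ C (1/H + (1/H^(k+1)) ∑_t √(X t)) ≤ C (1/H + √((1/H^(k+1)) ∑_t X t))` (Cauchy-Schwarz, at most
`H^(k+1)` tuples), and `(1/H^(k+1)) ∑_t X t ≤ Ξ` below. -/
theorem differenced (k : ℕ) : ∃ C : ℝ, 0 < C ∧ ∀ (m q₀ : ℕ) (q : Fin k → ℕ), m = q₀ * ∏ i, q i →
    1 ≤ m → ∀ w : ℕ → ℝ, (∀ n, |w n| ≤ 1) → (∀ n, w (n + 8) = w n) → ∀ H B N : ℕ, 1 ≤ H → 1 ≤ B →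
      1 ≤ N → 8 * H ≤ N → (∀ i, H * q i ≤ N) →
      (|SJ w m N| / N) ^ (2 ^ (k + 1)) ≤ C * (1 / H + √(8 * ((1 / (q₀ : ℝ) + 1 / N) *
        ((q₀ : ℝ) / B + (∑ p ∈ (Fintype.piFinset (fun _ : Fin (k + 1) => Ico 1 H)) ×ˢ Ico 1 B,
          TT q₀ (Fin.cons 8 q) p.1 p.2) / ((H : ℝ) ^ (k + 1) * B))) + 8 * ((B : ℝ) / N) ^ 2)) := by
  obtain ⟨C, hC, hit⟩ := iterate (k + 1)
  refine ⟨C, hC, fun m q₀ q hm hm1 w hw hw8 H B N hH hB hN h8 hq => ?_⟩
  have hprod : 0 < q₀ * ∏ i, q i := by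
    rw [← hm]
    omega
  have hq0 : 0 < q₀ := Nat.pos_of_ne_zero fun h0 => by
    rw [h0, zero_mul] at hprod
    omega
  have hqi : ∀ i, 0 < q i := fun i => Nat.pos_of_ne_zero fun h0 => by
    rw [Finset.prod_eq_zero (mem_univ i) h0, mul_zero] at hprod
    omega
  have hHr : (0 : ℝ) < H := by exact_mod_cast (show 0 < H by omega)
  have hNr : (0 : ℝ) < N := by exact_mod_cast (show 0 < N by omega)
  have hBr : (0 : ℝ) < B := by exact_mod_cast (show 0 < B by omega)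
  have hq0r : (0 : ℝ) < q₀ := by exact_mod_cast hq0
  set Q : Fin (k + 1) → ℕ := Fin.cons 8 q with hQdef
  let u : Fin (k + 1) → ℤ → ℝ := Fin.cons (fun n : ℤ => w ((n % 8).toNat)) fun i => Jr (q i)
  let X : (Fin (k + 1) → ℕ) → ℝ := fun t =>
    8 * (1 / (q₀ : ℝ) + 1 / N) * ((q₀ : ℝ) / B + (∑ t' ∈ Ico 1 B, TT q₀ Q t t') / B) +
      8 * ((B : ℝ) / N) ^ 2
  have hTT : ∀ t t', 0 ≤ TT q₀ Q t t' := fun t t' => abs_nonneg _
  have hX : ∀ t, 0 ≤ X t := by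
    intro t
    have h1 : 0 ≤ ∑ t' ∈ Ico 1 B, TT q₀ Q t t' := sum_nonneg fun t' _ => hTT t t'
    have h2 : 0 ≤ (∑ t' ∈ Ico 1 B, TT q₀ Q t t') / (B : ℝ) := div_nonneg h1 hBr.le
    change 0 ≤ 8 * (1 / (q₀ : ℝ) + 1 / N) * ((q₀ : ℝ) / B +
      (∑ t' ∈ Ico 1 B, TT q₀ Q t t') / B) + 8 * ((B : ℝ) / N) ^ 2
    positivity
  have hMS : ∀ t ∈ Fintype.piFinset (fun _ : Fin (k + 1) => Ico 1 H),
      MS (dl (fun i => (t i : ℤ) * Q i) (Jr q₀)) N (N * √(X t)) := by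
    intro t _ A N' hN'
    have h1 := final_step q₀ hq0 (dl (fun i => (t i : ℤ) * Q i) (Jr q₀))
      (dl_abs _ _ (Jr_abs q₀)) (S3b_per q₀ _) N B hB hN (fun t' => TT q₀ Q t t')
      (fun t' _ => le_rfl) A N' hN'
    have h3 := Real.le_sqrt_of_sq_le h1
    rw [div_le_iff₀ hNr, mul_comm] at h3
    exact h3
  have hQ1 : ∀ i, 1 ≤ Q i := by
    intro i
    refine Fin.cases ?_ (fun j => ?_) i
    · change 1 ≤ 8
      norm_num
    · change 1 ≤ q j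
      exact hqi j
  have hHQ : ∀ i, H * Q i ≤ N := by
    intro i
    refine Fin.cases ?_ (fun j => ?_) i
    · change H * 8 ≤ N
      omega
    · exact hq j
  have hu : ∀ i n, |u i n| ≤ 1 := by
    intro i n
    refine Fin.cases ?_ (fun j => ?_) i
    · exact hw _
    · exact Jr_abs _ _
  have huper : ∀ i n, u i (n + Q i) = u i n := by
    intro i n
    refine Fin.cases ?_ (fun j => ?_) i
    · change w (((n + ((8 : ℕ) : ℤ)) % 8).toNat) = w ((n % 8).toNat)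
      congr 2
      omega
    · exact Jr_per _ _
  have key := hit Q u (Jr q₀) H N (fun t => N * √(X t)) hQ1 hH hN hHQ hu (Jr_abs q₀) huper hMS
    1 N le_rfl
  rw [S3b_sum (fun n => (∏ i, u i n) * Jr q₀ n) N] at key
  have e1 : ∑ n ∈ Icc 1 N, (∏ i, u i (n : ℤ)) * Jr q₀ (n : ℤ) = SJ w m N := by
    unfold SJ
    refine sum_congr rfl fun n _ => ?_
    rw [Fin.prod_univ_succ]
    have e2 : u 0 (n : ℤ) = w n := by
      change w ((((n : ℤ)) % 8).toNat) = w n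
      have h1 : (((n : ℤ)) % 8).toNat = n % 8 := by omega
      rw [h1]
      exact Function.Periodic.map_mod_nat hw8 n
    have e3 := Jr_mul q₀ q hq0 hqi (n : ℤ)
    rw [← hm] at e3
    rw [e2]
    change w n * (∏ i : Fin k, Jr (q i) (n : ℤ)) * Jr q₀ (n : ℤ) = w n * Jr m (n : ℤ)
    rw [e3]
    ring
  rw [e1] at key
  refine key.trans (mul_le_mul_of_nonneg_left ?_ hC.le)
  refine add_le_add le_rfl ?_
  have hh : (0 : ℝ) < (H : ℝ) ^ (k + 1) := by positivity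
  have h5 : (∑ t ∈ Fintype.piFinset (fun _ : Fin (k + 1) => Ico 1 H), (N : ℝ) * √(X t)) /
      ((H : ℝ) ^ (k + 1) * N) =
      (∑ t ∈ Fintype.piFinset (fun _ : Fin (k + 1) => Ico 1 H), √(X t)) / (H : ℝ) ^ (k + 1) := by
    rw [← Finset.mul_sum]
    field_simp
  rw [h5]
  have hcard : ((Fintype.piFinset (fun _ : Fin (k + 1) => Ico 1 H)).card : ℝ) ≤
      (H : ℝ) ^ (k + 1) := by
    rw [Fintype.card_piFinset]
    simp only [Nat.card_Ico, prod_const, card_univ, Fintype.card_fin]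
    push_cast
    exact pow_le_pow_left₀ (Nat.cast_nonneg _) (by exact_mod_cast Nat.sub_le _ _) _
  refine (S3b_cs _ X hX _ hh hcard).trans (Real.sqrt_le_sqrt ?_)
  have h6 : ∑ t ∈ Fintype.piFinset (fun _ : Fin (k + 1) => Ico 1 H), X t =
      8 * (1 / (q₀ : ℝ) + 1 / N) *
        (((Fintype.piFinset (fun _ : Fin (k + 1) => Ico 1 H)).card : ℝ) * ((q₀ : ℝ) / B) +
          (∑ p ∈ (Fintype.piFinset (fun _ : Fin (k + 1) => Ico 1 H)) ×ˢ Ico 1 B,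
            TT q₀ Q p.1 p.2) / B) +
        ((Fintype.piFinset (fun _ : Fin (k + 1) => Ico 1 H)).card : ℝ) *
          (8 * ((B : ℝ) / N) ^ 2) := by
    rw [sum_product]
    simp only [X]
    rw [sum_add_distrib, ← mul_sum, sum_add_distrib, sum_const, sum_const, ← sum_div,
      nsmul_eq_mul, nsmul_eq_mul]
  rw [h6]
  exact S3b_alg _ _ _ _ _ _ _ (by positivity) (by positivity) (by positivity) hh hcard hBr

end BG
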