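import Pool.Agent.W_aaa0df_bg.S3b
import Pool.Agent.W_aaa0df_bg.S2c
import Pool.Agent.W_fd120a_h34.Div

/-!
# Structured moduli, S3c: the two cases
-/

set_option autoImplicit false

namespace BG

open Finset

theorem S3c_cop {m q₀ k : ℕ} {q : Fin k → ℕ} (hm : m = q₀ * ∏ i, q i) (hodd : Odd m)
    (hsq : Squarefree m) : Odd q₀ ∧ Squarefree q₀ ∧
      (∀ i, 1 ≤ (Fin.cons 8 q : Fin (k + 1) → ℕ) i) ∧
      (∀ i, Nat.Coprime ((Fin.cons 8 q : Fin (k + 1) → ℕ) i) q₀) := by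
  have hm0 : m ≠ 0 := hsq.ne_zero
  have h1 : Odd q₀ := by
    rw [hm] at hodd
    exact (Nat.odd_mul.1 hodd).1
  have h2 : Squarefree q₀ := hsq.squarefree_of_dvd (hm ▸ Dvd.intro _ rfl)
  have h3 : Nat.Coprime q₀ (∏ i, q i) := by
    rw [hm] at hsq
    exact Nat.coprime_of_squarefree_mul hsq
  refine ⟨h1, h2, fun i => ?_, fun i => ?_⟩
  · refine Fin.cases ?_ (fun i => ?_) i
    · rw [Fin.cons_zero]
      norm_num
    · rw [Fin.cons_succ]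
      rcases Nat.eq_zero_or_pos (q i) with h | h
      · exact absurd (by rw [hm, prod_eq_zero (mem_univ i) h, mul_zero]) hm0
      · exact h
  · refine Fin.cases ?_ (fun i => ?_) i
    · rw [Fin.cons_zero]
      have : (8 : ℕ) = 2 ^ 3 := by norm_num
      rw [this]
      exact Nat.Coprime.pow_left 3 (Nat.coprime_two_left.2 h1)
    · rw [Fin.cons_succ]
      exact (Nat.Coprime.coprime_dvd_right (dvd_prod_of_mem q (mem_univ i)) h3).symm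

theorem S3c_fin {n : ℕ} (hn : n ≠ 0) {a K μ d : ℝ} (ha : 0 ≤ a) (hK : 1 ≤ K) (hμ : 0 < μ)
    (h : a ^ n ≤ K * μ ^ (-d)) : a ≤ K * μ ^ (-(d / n)) := by
  have hK0 : 0 < K := by linarith
  have h1 : 0 ≤ K * μ ^ (-(d / n)) := by positivity
  refine (pow_le_pow_iff_left₀ ha h1 hn).1 (h.trans ?_)
  have hn0 : (n : ℝ) ≠ 0 := by exact_mod_cast hn
  have h2 : (μ ^ (-(d / n))) ^ n = μ ^ (-d) := by
    rw [← Real.rpow_natCast, ← Real.rpow_mul hμ.le]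
    congr 1
    field_simp
  rw [mul_pow, h2]
  refine mul_le_mul_of_nonneg_right ?_ (by positivity)
  exact le_self_pow₀ hK hn

theorem S3c_concl {n : ℕ} (hn : n ≠ 0) {C₀ C₂ κ θ μ a X h : ℝ} (hC₀ : 0 < C₀) (hC₂ : 0 ≤ C₂)
    (hκ : 0 < κ) (hθ1 : θ ≤ 1) (hμ : 1 ≤ μ) (ha : 0 ≤ a)
    (hX : X ≤ C₂ * (μ ^ κ) ^ (-θ)) (hh : h ≤ 2 / μ ^ κ) (hd : a ^ n ≤ C₀ * (h + √X)) :
    a ≤ max 1 (C₀ * (2 + √C₂)) * μ ^ (-(κ * (θ / 2) / n)) := by
  have hμ0 : 0 < μ := by linarith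
  set z : ℝ := μ ^ κ with hz
  have hz1 : 1 ≤ z := Real.one_le_rpow hμ hκ.le
  have hz0 : 0 < z := by linarith
  refine S3c_fin hn ha (le_max_left _ _) hμ0 (hd.trans ?_)
  have h1 : √X ≤ √C₂ * z ^ (-(θ / 2)) := by
    have h2 : √(z ^ (-θ)) = z ^ (-(θ / 2)) := by
      rw [Real.sqrt_eq_rpow, ← Real.rpow_mul hz0.le]
      congr 1
      ring
    rw [← h2, ← Real.sqrt_mul hC₂]
    exact Real.sqrt_le_sqrt hX
  have h3 : h ≤ 2 * z ^ (-(θ / 2)) := by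
    refine hh.trans ?_
    rw [div_eq_mul_inv]
    refine mul_le_mul_of_nonneg_left ?_ (by norm_num)
    rw [← Real.rpow_neg_one]
    exact Real.rpow_le_rpow_of_exponent_le hz1 (by linarith)
  have h4 : z ^ (-(θ / 2)) = μ ^ (-(κ * (θ / 2))) := by
    rw [hz, ← Real.rpow_mul hμ0.le]
    congr 1
    ring
  calc C₀ * (h + √X) ≤ C₀ * (2 * z ^ (-(θ / 2)) + √C₂ * z ^ (-(θ / 2))) :=
        mul_le_mul_of_nonneg_left (add_le_add h3 h1) hC₀.le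
    _ = C₀ * (2 + √C₂) * z ^ (-(θ / 2)) := by ring
    _ ≤ max 1 (C₀ * (2 + √C₂)) * z ^ (-(θ / 2)) :=
        mul_le_mul_of_nonneg_right (le_max_right _ _) (by positivity)
    _ = _ := by rw [h4]

/-- the bound of the argument of the root in case A -/
theorem S3c_XA {z y P N H B A C₁ : ℝ} (hz : 2 ≤ z) (hy : 1 ≤ y) (hP1 : z ≤ P) (hP2 : P ≤ y ^ 2)
    (hN : y * z ^ 8 ≤ N) (hH : z / 2 ≤ H) (hB1 : N / (2 * z) ≤ B) (hB2 : B ≤ N / z)
    (hC₁ : 0 < C₁)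
    (hA : (1 / P + 1 / N) * A ≤ C₁ * (1 / √P + √P / N + 1 / H)) :
    8 * ((1 / P + 1 / N) * (P / B + A)) + 8 * (B / N) ^ 2 ≤ (40 + 32 * C₁) * z ^ (-(1 / 2 : ℝ)) := by
  have hz0 : 0 < z := by linarith
  have hz1 : 1 ≤ z := by linarith
  have hy0 : 0 < y := by linarith
  have hP0 : 0 < P := by linarith
  have hz8 : z ≤ z ^ 8 := le_self_pow₀ hz1 (by norm_num)
  have hz7 : z ^ 2 ≤ z ^ 8 := pow_le_pow_right₀ hz1 (by norm_num)
  have hyz : y * z ≤ N := (mul_le_mul_of_nonneg_left hz8 hy0.le).trans hN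
  have hyz2 : y * z ^ 2 ≤ N := (mul_le_mul_of_nonneg_left hz7 hy0.le).trans hN
  have hN0 : 0 < N := lt_of_lt_of_le (by positivity) hyz
  have hB0 : 0 < B := lt_of_lt_of_le (by positivity) hB1
  have hH0 : 0 < H := by linarith
  -- the comparison of `1 / z` with the root
  have hroot : z ^ (-(1 / 2 : ℝ)) = 1 / √z := by
    rw [Real.rpow_neg hz0.le, Real.sqrt_eq_rpow, one_div (z ^ (1 / 2 : ℝ))]
  set s : ℝ := √z with hs
  have hs1 : 1 ≤ s := by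
    rw [hs]
    exact Real.one_le_sqrt.2 hz1
  have hs0 : 0 < s := by linarith
  have hsz : s * s = z := Real.mul_self_sqrt hz0.le
  have hzs : 1 / z ≤ 1 / s := by
    refine one_div_le_one_div_of_le hs0 ?_
    rw [← hsz]
    exact le_mul_of_one_le_left hs0.le hs1
  have hNz : z ^ 2 ≤ N := by
    refine le_trans ?_ hyz2
    exact le_mul_of_one_le_left (by positivity) hy
  have h2B : N ≤ 2 * z * B := by
    rw [div_le_iff₀ (by positivity)] at hB1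
    linarith
  have h1 : 1 / B ≤ 2 * (1 / z) := by
    rw [mul_one_div, div_le_div_iff₀ hB0 hz0]
    have h2 : z * z ≤ z * (2 * B) := by
      calc z * z = z ^ 2 := by ring
        _ ≤ N := hNz
        _ ≤ 2 * z * B := h2B
        _ = z * (2 * B) := by ring
    have := le_of_mul_le_mul_left h2 hz0
    linarith
  have h3 : P / (N * B) ≤ 2 * (1 / z) := by
    rw [mul_one_div, div_le_div_iff₀ (by positivity) hz0]
    have h4 : (y * z) * (y * z ^ 2) ≤ N * N :=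
      mul_le_mul hyz hyz2 (by positivity) hN0.le
    have h5 : N * N ≤ N * (2 * z * B) := mul_le_mul_of_nonneg_left h2B hN0.le
    have h6 : z * (P * z) ≤ z * (2 * (N * B)) := by
      calc z * (P * z) ≤ z * (y ^ 2 * z) :=
            mul_le_mul_of_nonneg_left (mul_le_mul_of_nonneg_right hP2 hz0.le) hz0.le
        _ = y ^ 2 * z ^ 2 * 1 := by ring
        _ ≤ y ^ 2 * z ^ 2 * z := mul_le_mul_of_nonneg_left hz1 (by positivity)
        _ = (y * z) * (y * z ^ 2) := by ring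
        _ ≤ N * (2 * z * B) := h4.trans h5
        _ = z * (2 * (N * B)) := by ring
    exact le_of_mul_le_mul_left h6 hz0
  have h7 : 1 / √P ≤ 1 / s := one_div_le_one_div_of_le hs0 (Real.sqrt_le_sqrt hP1)
  have h8 : √P / N ≤ 1 / z := by
    rw [div_le_div_iff₀ hN0 hz0, one_mul]
    have : √P ≤ y := by
      rw [Real.sqrt_le_left hy0.le]
      exact hP2
    exact (mul_le_mul_of_nonneg_right this hz0.le).trans hyz
  have h9 : 1 / H ≤ 2 * (1 / z) := by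
    rw [mul_one_div, div_le_div_iff₀ hH0 hz0]
    linarith
  have h10 : (B / N) ^ 2 ≤ 1 / z := by
    have h11 : B / N ≤ 1 / z := by
      rw [div_le_div_iff₀ hN0 hz0]
      rw [le_div_iff₀ hz0] at hB2
      linarith
    have h12 : 0 ≤ B / N := by positivity
    have h13 : B / N ≤ 1 := h11.trans (by
      rw [div_le_one hz0]
      exact hz1)
    calc (B / N) ^ 2 = B / N * (B / N) := by ring
      _ ≤ B / N * 1 := mul_le_mul_of_nonneg_left h13 h12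
      _ ≤ 1 / z := by linarith
  have h14 : (1 / P + 1 / N) * (P / B + A) = 1 / B + P / (N * B) + (1 / P + 1 / N) * A := by
    field_simp
  have h15 : C₁ * (1 / √P + √P / N + 1 / H) ≤ C₁ * (4 * (1 / s)) :=
    mul_le_mul_of_nonneg_left (by linarith) hC₁.le
  rw [h14, hroot]
  have h16 : (40 + 32 * C₁) * (1 / s) = 40 * (1 / s) + 8 * (C₁ * (4 * (1 / s))) := by ring
  rw [h16]
  linarith

/-- the bound of the argument of the root in case B -/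
theorem S3c_XB {z q N H A Ca Cb K δ W τ r : ℝ} (hz : 2 ≤ z) (hδ : 0 < δ) (hδ1 : δ ≤ 1 / 8)
    (hq1 : z ≤ q) (hq2 : q ≤ z ^ 2) (hN : z ^ 8 ≤ N) (hH : z / 2 ≤ H) (hH2 : H ≤ z)
    (hCa : 0 < Ca) (hCb : 0 < Cb) (hK : 0 < K) (hr : 0 ≤ r) (hr1 : r ≤ δ / 2)
    (hW0 : W ≤ Cb * q ^ (δ / 2)) (hτ : τ ≤ Ca * q ^ r)
    (hA : A ≤ W * q ^ (3 / 4 : ℝ) + q * (K * τ * (1 / q ^ δ + 1 / H))) :
    8 * ((1 / q + 1 / N) * (q / H + A)) + 8 * (H / N) ^ 2 ≤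
      (16 * (2 + Cb + 3 * K * Ca) + 8) * z ^ (-(δ / 2)) := by
  have hz0 : 0 < z := by linarith
  have hz1 : 1 ≤ z := by linarith
  have hq0 : 0 < q := by linarith
  have hqq : 1 ≤ q := by linarith
  have hH0 : 0 < H := by linarith
  have hz28 : z ^ 2 ≤ z ^ 8 := pow_le_pow_right₀ hz1 (by norm_num)
  have hN2 : z ^ 2 ≤ N := hz28.trans hN
  have hN0 : 0 < N := lt_of_lt_of_le (by positivity) hN2
  have hqN : q ≤ N := hq2.trans hN2
  set t : ℝ := z ^ (-(δ / 2)) with ht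
  have ht0 : 0 < t := by positivity
  have hzt : 1 / z ≤ t := by
    rw [one_div, ← Real.rpow_neg_one, ht]
    exact Real.rpow_le_rpow_of_exponent_le hz1 (by linarith)
  have hqt : q ^ (-(δ / 2)) ≤ t := by
    rw [ht]
    exact Real.rpow_le_rpow_of_nonpos hz0 hq1 (by linarith)
  have h1H : 1 / H ≤ 2 * (1 / z) := by
    rw [mul_one_div, div_le_div_iff₀ hH0 hz0]
    linarith
  have hqr : q ^ r * (1 / z) ≤ t := by
    have h1 : q ^ r ≤ (z ^ 2) ^ r := Real.rpow_le_rpow hq0.le hq2 hr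
    have h2 : (z ^ 2) ^ r = z ^ (2 * r) := by
      rw [← Real.rpow_natCast, ← Real.rpow_mul hz0.le]
      norm_num
    calc q ^ r * (1 / z) ≤ z ^ (2 * r) * z ^ (-1 : ℝ) := by
          rw [Real.rpow_neg_one, ← one_div, ← h2]
          exact mul_le_mul_of_nonneg_right h1 (by positivity)
      _ = z ^ (2 * r + -1) := (Real.rpow_add hz0 _ _).symm
      _ ≤ t := Real.rpow_le_rpow_of_exponent_le hz1 (by linarith)
  -- the four terms
  have hT1 : q / H ≤ q * (2 * t) := by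
    rw [div_eq_mul_one_div]
    exact mul_le_mul_of_nonneg_left (by linarith) hq0.le
  have hT2 : W * q ^ (3 / 4 : ℝ) ≤ q * (Cb * t) := by
    calc W * q ^ (3 / 4 : ℝ) ≤ Cb * q ^ (δ / 2) * q ^ (3 / 4 : ℝ) :=
          mul_le_mul_of_nonneg_right hW0 (by positivity)
      _ = Cb * q ^ (δ / 2 + 3 / 4) := by rw [Real.rpow_add hq0, mul_assoc]
      _ ≤ Cb * q ^ (1 + -(δ / 2)) := by
          refine mul_le_mul_of_nonneg_left ?_ hCb.le
          exact Real.rpow_le_rpow_of_exponent_le hqq (by linarith)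
      _ = Cb * (q * q ^ (-(δ / 2))) := by rw [Real.rpow_add hq0, Real.rpow_one]
      _ ≤ Cb * (q * t) := mul_le_mul_of_nonneg_left (mul_le_mul_of_nonneg_left hqt hq0.le) hCb.le
      _ = q * (Cb * t) := by ring
  have hqδ : q ^ r * (1 / q ^ δ) ≤ t := by
    refine le_trans ?_ hqt
    rw [one_div, ← Real.rpow_neg hq0.le, ← Real.rpow_add hq0]
    exact Real.rpow_le_rpow_of_exponent_le hqq (by linarith)
  have hT3 : τ * (1 / q ^ δ + 1 / H) ≤ Ca * (3 * t) := by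
    have h1 : 0 ≤ 1 / q ^ δ + 1 / H := by positivity
    calc τ * (1 / q ^ δ + 1 / H) ≤ Ca * q ^ r * (1 / q ^ δ + 1 / H) :=
          mul_le_mul_of_nonneg_right hτ h1
      _ ≤ Ca * q ^ r * (1 / q ^ δ + 2 * (1 / z)) :=
          mul_le_mul_of_nonneg_left (by linarith) (by positivity)
      _ = Ca * (q ^ r * (1 / q ^ δ) + 2 * (q ^ r * (1 / z))) := by ring
      _ ≤ Ca * (3 * t) := mul_le_mul_of_nonneg_left (by linarith) hCa.le
  have hA' : q / H + A ≤ q * ((2 + Cb + 3 * K * Ca) * t) := by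
    have h1 : q * (K * τ * (1 / q ^ δ + 1 / H)) ≤ q * (K * (Ca * (3 * t))) := by
      refine mul_le_mul_of_nonneg_left ?_ hq0.le
      rw [mul_assoc]
      exact mul_le_mul_of_nonneg_left hT3 hK.le
    calc q / H + A ≤ q * (2 * t) + (q * (Cb * t) + q * (K * (Ca * (3 * t)))) :=
          add_le_add hT1 (hA.trans (add_le_add hT2 h1))
      _ = q * ((2 + Cb + 3 * K * Ca) * t) := by ring
  have hfac : 1 / q + 1 / N ≤ 2 / q := by
    have : 1 / N ≤ 1 / q := one_div_le_one_div_of_le hq0 hqN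
    have h2 : 2 / q = 1 / q + 1 / q := by ring
    rw [h2]
    linarith
  have hmain : (1 / q + 1 / N) * (q / H + A) ≤ 2 * ((2 + Cb + 3 * K * Ca) * t) := by
    calc (1 / q + 1 / N) * (q / H + A) ≤ (1 / q + 1 / N) * (q * ((2 + Cb + 3 * K * Ca) * t)) :=
          mul_le_mul_of_nonneg_left hA' (by positivity)
      _ ≤ 2 / q * (q * ((2 + Cb + 3 * K * Ca) * t)) :=
          mul_le_mul_of_nonneg_right hfac (by positivity)
      _ = 2 * ((2 + Cb + 3 * K * Ca) * t) := by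
          field_simp
  have hlast : (H / N) ^ 2 ≤ t := by
    have h11 : H / N ≤ 1 / z := by
      rw [div_le_div_iff₀ hN0 hz0]
      calc H * z ≤ z * z := mul_le_mul_of_nonneg_right hH2 hz0.le
        _ = z ^ 2 := by ring
        _ ≤ 1 * N := by linarith
    have h12 : 0 ≤ H / N := by positivity
    have h13 : H / N ≤ 1 := h11.trans (by
      rw [div_le_one hz0]
      exact hz1)
    calc (H / N) ^ 2 = H / N * (H / N) := by ring
      _ ≤ H / N * 1 := mul_le_mul_of_nonneg_left h13 h12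
      _ ≤ t := by linarith
  calc 8 * ((1 / q + 1 / N) * (q / H + A)) + 8 * (H / N) ^ 2
      ≤ 8 * (2 * ((2 + Cb + 3 * K * Ca) * t)) + 8 * t := by linarith
    _ = _ := by ring

/-- the parameter `z = m ^ (ε / 8)` -/
theorem S3c_z {ε : ℝ} (hε : 0 < ε) {m : ℕ} (hm : ⌈(2 : ℝ) ^ (8 / ε)⌉₊ + 1 ≤ m) :
    2 ≤ (m : ℝ) ^ (ε / 8) ∧ (1 : ℝ) ≤ m ∧ (m : ℝ) ^ ε = ((m : ℝ) ^ (ε / 8)) ^ 8 ∧
      (m : ℝ) ^ (ε / 4) = ((m : ℝ) ^ (ε / 8)) ^ 2 := by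
  have h0 : (0 : ℝ) ≤ m := Nat.cast_nonneg m
  have h1 : (2 : ℝ) ^ (8 / ε) ≤ m := by
    refine (Nat.le_ceil _).trans ?_
    exact_mod_cast (by omega : ⌈(2 : ℝ) ^ (8 / ε)⌉₊ ≤ m)
  refine ⟨?_, ?_, ?_, ?_⟩
  · calc (2 : ℝ) = ((2 : ℝ) ^ (8 / ε)) ^ (ε / 8) := by
          rw [← Real.rpow_mul (by norm_num)]
          have : 8 / ε * (ε / 8) = 1 := by field_simp
          rw [this, Real.rpow_one]
      _ ≤ (m : ℝ) ^ (ε / 8) := Real.rpow_le_rpow (by positivity) h1 (by positivity)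
  · exact_mod_cast (by omega : 1 ≤ m)
  · rw [← Real.rpow_natCast ((m : ℝ) ^ (ε / 8)) 8, ← Real.rpow_mul h0]
    congr 1
    push_cast
    ring
  · rw [← Real.rpow_natCast ((m : ℝ) ^ (ε / 8)) 2, ← Real.rpow_mul h0]
    congr 1
    push_cast
    ring

theorem S3c_floor {x : ℝ} (hx : 1 ≤ x) : 1 ≤ ⌊x⌋₊ ∧ x / 2 ≤ (⌊x⌋₊ : ℝ) ∧ (⌊x⌋₊ : ℝ) ≤ x := by
  have h1 : 1 ≤ ⌊x⌋₊ := Nat.one_le_iff_ne_zero.2 (Nat.floor_pos.2 hx).ne'
  have h2 := Nat.lt_floor_add_one x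
  have h3 : (1 : ℝ) ≤ (⌊x⌋₊ : ℝ) := by exact_mod_cast h1
  exact ⟨h1, by linarith, Nat.floor_le (by linarith)⟩

/-- `(24 * 2 ^ (k + 1)) ^ ω ≤ C q ^ (δ / 2)` and `τ ≤ C q ^ (δ / (2 (k + 6)))` -/
theorem S3c_omega (k : ℕ) {q : ℕ} (hq : 0 < q) :
    (24 * 2 ^ (k + 1) : ℝ) ^ q.primeFactors.card ≤ (q.divisors.card : ℝ) ^ (k + 6) := by
  have h1 : 2 ^ q.primeFactors.card ≤ q.divisors.card := by
    rw [Nat.card_divisors hq.ne', ← prod_const]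
    refine prod_le_prod' fun p hp => ?_
    have := (Nat.prime_of_mem_primeFactors hp).factorization_pos_of_dvd hq.ne'
      (Nat.dvd_of_mem_primeFactors hp)
    omega
  have h1' : (2 : ℝ) ^ q.primeFactors.card ≤ (q.divisors.card : ℝ) := by exact_mod_cast h1
  have h2 : (24 * 2 ^ (k + 1) : ℝ) ≤ 2 ^ (k + 6) := by
    have h3 : (2 : ℝ) ^ (k + 6) = 32 * 2 ^ (k + 1) := by
      rw [show k + 6 = (k + 1) + 5 by ring, pow_add]
      ring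
    rw [h3]
    have : (0 : ℝ) < 2 ^ (k + 1) := by positivity
    linarith
  calc (24 * 2 ^ (k + 1) : ℝ) ^ q.primeFactors.card ≤ ((2 : ℝ) ^ (k + 6)) ^ q.primeFactors.card :=
        pow_le_pow_left₀ (by positivity) h2 _
    _ = ((2 : ℝ) ^ q.primeFactors.card) ^ (k + 6) := by rw [← pow_mul, ← pow_mul, mul_comm]
    _ ≤ _ := pow_le_pow_left₀ (by positivity) h1' _

/-- CASE A. `ε ≤ 1/4`, `κ = ε/8`, `k` from `factor_case`; `q₀ = P` prime.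

PROOF. `H = ⌊m^κ⌋₊`, `B = ⌊N m^(-κ)⌋₊` (`≥ N m^(-κ)/2 ≥ 1`); `H * 8 ≤ N`, `H * q i ≤ m^κ y m^(2κ) ≤ N`.
`P` is odd and coprime to `8` and to the `q i` (`m` squarefree and odd). `differenced` and `avg_prime (k+1)`
(`Q = Fin.cons 8 q`): the argument of the root is at most
`8 (1/P + 1/N)(P/B) + 8 C₁ (1/√P + √P/N + 1/H) + 8 (B/N)²`, where
`(1/P+1/N) P/B = 1/B + P/(N B)`, `1/B ≤ 2 m^κ/N ≤ 2 m^(κ-ε)`,
`P/(N B) ≤ y² 2 m^κ/N² ≤ 2 m^(κ-2ε)` (`N ≥ y m^ε`), `1/√P ≤ m^(-κ/2)`, `√P/N ≤ y/N ≤ m^(-ε)`,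
`1/H ≤ 2 m^(-κ)`, `B/N ≤ m^(-κ)`. All are `≤ C₂ m^(-κ/2)`. So `|SJ|/N ≤ (C₃ m^(-κ/4))^(1/2^(k+1))`. -/
theorem case_A (ε : ℝ) (hε : 0 < ε) (hε4 : ε ≤ 1 / 4) (k : ℕ) : ∃ (c C : ℝ) (M : ℕ), 0 < c ∧ 0 < C ∧
    ∀ m : ℕ, M ≤ m → Odd m → Squarefree m → ∀ w : ℕ → ℝ, (∀ n, |w n| ≤ 1) →
      (∀ n, w (n + 8) = w n) → ∀ y : ℝ, 1 ≤ y → ∀ (P : ℕ) (q : Fin k → ℕ), m = P * ∏ i, q i →
      (∀ i, (q i : ℝ) ≤ y * (m : ℝ) ^ (ε / 4)) → P.Prime → (m : ℝ) ^ (ε / 8) ≤ P →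
      (P : ℝ) ≤ y ^ 2 → ∀ N : ℕ, y * (m : ℝ) ^ ε ≤ N → |SJ w m N| ≤ C * N * (m : ℝ) ^ (-c) := by
  obtain ⟨C₀, hC₀, hdiff⟩ := differenced k
  obtain ⟨C₁, hC₁, havg⟩ := avg_prime (k + 1)
  set K : ℝ := max 1 (C₀ * (2 + √(40 + 32 * C₁))) with hK
  have hK1 : 1 ≤ K := le_max_left _ _
  refine ⟨ε / 8 * ((1 / 2) / 2) / (2 ^ (k + 1) : ℕ), K, ⌈(2 : ℝ) ^ (8 / ε)⌉₊ + 1, ?_, ?_, ?_⟩
  · positivity
  · linarith
  intro m hm hodd hsq w hw hw8 y hy P q hmq hqy hP hPz hPy N hN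
  obtain ⟨hz2, hm1, hzε, hz4⟩ := S3c_z hε hm
  obtain ⟨hPodd, -, hQ1, hQc⟩ := S3c_cop hmq hodd hsq
  rw [hzε] at hN
  have hqy' : ∀ i, (q i : ℝ) ≤ y * ((m : ℝ) ^ (ε / 8)) ^ 2 := fun i => hz4 ▸ hqy i
  set z : ℝ := (m : ℝ) ^ (ε / 8) with hz
  have hz0 : 0 < z := by linarith
  have hz1 : 1 ≤ z := by linarith
  have hy0 : 0 < y := by linarith
  have hz8N : z ^ 8 ≤ (N : ℝ) := (le_mul_of_one_le_left (by positivity) hy).trans hN
  have hz2N : z ^ 2 ≤ (N : ℝ) := (pow_le_pow_right₀ hz1 (by norm_num)).trans hz8N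
  have hN0 : (0 : ℝ) < N := lt_of_lt_of_le (by positivity) hz2N
  have hN1 : 1 ≤ N := by exact_mod_cast hN0
  obtain ⟨hH1, hH2, hH3⟩ := S3c_floor hz1
  set H : ℕ := ⌊z⌋₊ with hH
  have hNz : 1 ≤ (N : ℝ) / z := by
    rw [le_div_iff₀ hz0, one_mul]
    exact (le_self_pow₀ hz1 (by norm_num)).trans hz2N
  obtain ⟨hB1, hB2, hB3⟩ := S3c_floor hNz
  set B : ℕ := ⌊(N : ℝ) / z⌋₊ with hB
  have hB2' : (N : ℝ) / (2 * z) ≤ B := by
    refine le_trans (le_of_eq ?_) hB2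
    rw [div_div, mul_comm]
  have hBN : B ≤ N := by
    have : (B : ℝ) ≤ N := hB3.trans (div_le_self hN0.le hz1)
    exact_mod_cast this
  have hz7 : (8 : ℝ) ≤ z ^ 7 := by
    calc (8 : ℝ) ≤ 2 ^ 7 := by norm_num
      _ ≤ z ^ 7 := pow_le_pow_left₀ (by norm_num) hz2 7
  have h8H : 8 * H ≤ N := by
    have : (8 : ℝ) * H ≤ N := by
      calc (8 : ℝ) * H ≤ z ^ 7 * z :=
            mul_le_mul hz7 hH3 (Nat.cast_nonneg H) (by positivity)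
        _ = z ^ 8 := by ring
        _ ≤ N := hz8N
    exact_mod_cast this
  have hHq : ∀ i, H * q i ≤ N := by
    intro i
    have : (H : ℝ) * q i ≤ N := by
      calc (H : ℝ) * q i ≤ z * (y * z ^ 2) :=
            mul_le_mul hH3 (hqy' i) (Nat.cast_nonneg _) hz0.le
        _ = y * z ^ 3 := by ring
        _ ≤ y * z ^ 8 :=
            mul_le_mul_of_nonneg_left (pow_le_pow_right₀ hz1 (by norm_num)) hy0.le
        _ ≤ N := hN
    exact_mod_cast this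
  have hHQ : ∀ i, H * (Fin.cons 8 q : Fin (k + 1) → ℕ) i ≤ N := by
    intro i
    refine Fin.cases ?_ (fun i => ?_) i
    · rw [Fin.cons_zero]
      omega
    · rw [Fin.cons_succ]
      exact hHq i
  have hP2 : P ≠ 2 := by
    intro h
    rw [h] at hPodd
    exact absurd hPodd (by decide)
  have hd := hdiff m P q hmq (by omega) w hw hw8 H B N hH1 hB1 hN1 h8H hHq
  have ha := havg P hP hP2 (Fin.cons 8 q) hQ1 hQc H B N hH1 hB1 hBN hHQ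
  have hX := S3c_XA (H := (H : ℝ)) (B := (B : ℝ)) hz2 hy hPz hPy hN hH2 hB2' hB3 hC₁ ha
  have h1H : 1 / (H : ℝ) ≤ 2 / z := by
    have hH0 : (0 : ℝ) < H := by exact_mod_cast hH1
    rw [div_le_div_iff₀ hH0 hz0]
    linarith
  have hfin := S3c_concl (n := 2 ^ (k + 1)) (by positivity) hC₀ (by positivity)
    (by positivity : 0 < ε / 8) (by norm_num : (1 / 2 : ℝ) ≤ 1) hm1 (by positivity) hX h1H hd
  rw [div_le_iff₀ hN0] at hfin
  calc |SJ w m N| ≤ _ := hfin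
    _ = _ := by ring

/-- CASE B. `κ = ε/8`, `q₀ ∈ [m^κ, m^(2κ)]`.

PROOF. `H = B = ⌊m^κ⌋₊`; `q₀ ≤ m^(2κ) ≤ m^ε ≤ N`, so `1/q₀ + 1/N ≤ 2/q₀`. `differenced` and
`avg_composite (k+1)` with `G = q₀^(1/2^(k+3))` (so `G^(2^(k+1)) = q₀^(1/4)`): the argument of the root is at most
`16/B + 16 (24·2^(k+1))^ω(q₀) q₀^(-1/4) + 16·2^(k+2) τ(q₀) (1/G + 1/H) + 8 (B/N)²`. `divisor_bound`
(`W_fd120a_h34/Div`, small exponents): `τ(q₀) ≤ C q₀^(ε₁)`,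
`(24·2^(k+1))^ω ≤ τ(q₀)^(k+6) ≤ C q₀^(1/8)` (`2^ω = τ` for squarefree `q₀`, see the proof of `moment_eps` in
A2), `q₀ ≥ m^κ`, `1/G ≤ m^(-κ/2^(k+3))`. So everything is `≤ C₂ m^(-c₂)`. -/
theorem case_B (ε : ℝ) (hε : 0 < ε) (hε4 : ε ≤ 1 / 4) (k : ℕ) : ∃ (c C : ℝ) (M : ℕ), 0 < c ∧ 0 < C ∧
    ∀ m : ℕ, M ≤ m → Odd m → Squarefree m → ∀ w : ℕ → ℝ, (∀ n, |w n| ≤ 1) →
      (∀ n, w (n + 8) = w n) → ∀ y : ℝ, 1 ≤ y → ∀ (q₀ : ℕ) (q : Fin k → ℕ), m = q₀ * ∏ i, q i →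
      (∀ i, (q i : ℝ) ≤ y * (m : ℝ) ^ (ε / 4)) → (m : ℝ) ^ (ε / 8) ≤ q₀ →
      (q₀ : ℝ) ≤ (m : ℝ) ^ (ε / 4) → ∀ N : ℕ, y * (m : ℝ) ^ ε ≤ N →
      |SJ w m N| ≤ C * N * (m : ℝ) ^ (-c) := by
  obtain ⟨C₀, hC₀, hdiff⟩ := differenced k
  set δ : ℝ := 1 / 2 ^ (k + 3) with hδ
  have hδ0 : 0 < δ := by positivity
  have hδ8 : δ ≤ 1 / 8 := by
    rw [hδ]
    refine one_div_le_one_div_of_le (by norm_num) ?_
    calc (8 : ℝ) = 2 ^ 3 := by norm_num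
      _ ≤ 2 ^ (k + 3) := pow_le_pow_right₀ (by norm_num) (by omega)
  set r : ℝ := δ / 2 / (k + 6) with hr
  have hr0 : 0 < r := by positivity
  have hr1 : r ≤ δ / 2 := by
    rw [hr]
    refine div_le_self (by positivity) ?_
    have : (0 : ℝ) ≤ k := Nat.cast_nonneg k
    linarith
  have hr6 : r * ((k + 6 : ℕ) : ℝ) = δ / 2 := by
    rw [hr]
    push_cast
    have : (k : ℝ) + 6 ≠ 0 := by positivity
    field_simp
  obtain ⟨Ca, hCa, hdiv⟩ := FD120.divisor_bound r hr0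
  set C₂ : ℝ := 16 * (2 + Ca ^ (k + 6) + 3 * 2 ^ (k + 1 + 1) * Ca) + 8 with hC₂
  have hC₂0 : 0 ≤ C₂ := by positivity
  set K : ℝ := max 1 (C₀ * (2 + √C₂)) with hK
  have hK1 : 1 ≤ K := le_max_left _ _
  refine ⟨ε / 8 * ((δ / 2) / 2) / (2 ^ (k + 1) : ℕ), K, ⌈(2 : ℝ) ^ (8 / ε)⌉₊ + 1, ?_, ?_, ?_⟩
  · positivity
  · linarith
  intro m hm hodd hsq w hw hw8 y hy q₀ q hmq hqy hqz hqz2 N hN
  obtain ⟨hz2, hm1, hzε, hz4⟩ := S3c_z hε hm
  obtain ⟨hqodd, hqsq, hQ1, hQc⟩ := S3c_cop hmq hodd hsq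
  rw [hzε] at hN
  rw [hz4] at hqz2
  have hqy' : ∀ i, (q i : ℝ) ≤ y * ((m : ℝ) ^ (ε / 8)) ^ 2 := fun i => hz4 ▸ hqy i
  set z : ℝ := (m : ℝ) ^ (ε / 8) with hz
  have hz0 : 0 < z := by linarith
  have hz1 : 1 ≤ z := by linarith
  have hy0 : 0 < y := by linarith
  have hz8N : z ^ 8 ≤ (N : ℝ) := (le_mul_of_one_le_left (by positivity) hy).trans hN
  have hz2N : z ^ 2 ≤ (N : ℝ) := (pow_le_pow_right₀ hz1 (by norm_num)).trans hz8N
  have hN0 : (0 : ℝ) < N := lt_of_lt_of_le (by positivity) hz2N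
  have hN1 : 1 ≤ N := by exact_mod_cast hN0
  obtain ⟨hH1, hH2, hH3⟩ := S3c_floor hz1
  set H : ℕ := ⌊z⌋₊ with hH
  have hz7 : (8 : ℝ) ≤ z ^ 7 := by
    calc (8 : ℝ) ≤ 2 ^ 7 := by norm_num
      _ ≤ z ^ 7 := pow_le_pow_left₀ (by norm_num) hz2 7
  have h8H : 8 * H ≤ N := by
    have : (8 : ℝ) * H ≤ N := by
      calc (8 : ℝ) * H ≤ z ^ 7 * z :=
            mul_le_mul hz7 hH3 (Nat.cast_nonneg H) (by positivity)
        _ = z ^ 8 := by ring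
        _ ≤ N := hz8N
    exact_mod_cast this
  have hHq : ∀ i, H * q i ≤ N := by
    intro i
    have : (H : ℝ) * q i ≤ N := by
      calc (H : ℝ) * q i ≤ z * (y * z ^ 2) :=
            mul_le_mul hH3 (hqy' i) (Nat.cast_nonneg _) hz0.le
        _ = y * z ^ 3 := by ring
        _ ≤ y * z ^ 8 :=
            mul_le_mul_of_nonneg_left (pow_le_pow_right₀ hz1 (by norm_num)) hy0.le
        _ ≤ N := hN
    exact_mod_cast this
  have hq0 : 0 < q₀ := hqodd.pos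
  have hqR : (1 : ℝ) ≤ q₀ := by exact_mod_cast hq0
  have hqR0 : (0 : ℝ) < q₀ := by linarith
  have hG : 1 ≤ (q₀ : ℝ) ^ δ := Real.one_le_rpow hqR hδ0.le
  have hd := hdiff m q₀ q hmq (by omega) w hw hw8 H H N hH1 hH1 hN1 h8H hHq
  have ha := avg_composite (k + 1) q₀ hqsq hqodd (Fin.cons 8 q) hQ1 hQc H H hH1 hH1
    ((q₀ : ℝ) ^ δ) hG
  have hG2 : √(q₀ : ℝ) * ((q₀ : ℝ) ^ δ) ^ (2 ^ (k + 1)) = (q₀ : ℝ) ^ (3 / 4 : ℝ) := by
    rw [Real.sqrt_eq_rpow, ← Real.rpow_natCast ((q₀ : ℝ) ^ δ), ← Real.rpow_mul hqR0.le,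
      ← Real.rpow_add hqR0]
    congr 1
    rw [hδ]
    push_cast
    rw [show k + 3 = (k + 1) + 2 by ring, pow_add]
    have : (2 : ℝ) ^ (k + 1) ≠ 0 := by positivity
    field_simp
    norm_num
  rw [mul_assoc, hG2] at ha
  have hτ : (q₀.divisors.card : ℝ) ≤ Ca * (q₀ : ℝ) ^ r := hdiv q₀ hq0
  have hW : (24 * 2 ^ (k + 1) : ℝ) ^ q₀.primeFactors.card ≤ Ca ^ (k + 6) * (q₀ : ℝ) ^ (δ / 2) := by
    refine (S3c_omega k hq0).trans ?_
    have h1 : (q₀.divisors.card : ℝ) ^ (k + 6) ≤ (Ca * (q₀ : ℝ) ^ r) ^ (k + 6) :=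
      pow_le_pow_left₀ (Nat.cast_nonneg _) hτ _
    refine h1.trans (le_of_eq ?_)
    rw [mul_pow, ← Real.rpow_natCast ((q₀ : ℝ) ^ r), ← Real.rpow_mul hqR0.le, hr6]
  have hX := S3c_XB (H := (H : ℝ)) (K := 2 ^ (k + 1 + 1)) hz2 hδ0 hδ8 hqz hqz2 hz8N hH2 hH3 hCa
    (pow_pos hCa (k + 6)) (by positivity) hr0.le hr1 hW hτ ha
  have h1H : 1 / (H : ℝ) ≤ 2 / z := by
    have hH0 : (0 : ℝ) < H := by exact_mod_cast hH1
    rw [div_le_div_iff₀ hH0 hz0]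
    linarith
  have hfin := S3c_concl (n := 2 ^ (k + 1)) (by positivity) hC₀ hC₂0
    (by positivity : 0 < ε / 8) (by linarith : δ / 2 ≤ 1) hm1 (by positivity) hX h1H hd
  rw [div_le_iff₀ hN0] at hfin
  calc |SJ w m N| ≤ _ := hfin
    _ = _ := by ring

end BG
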