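import Pool.Agent.W_aaa0df_bg.S3a
import Pool.Agent.W_aaa0df_bg.S3c

/-!
# Structured moduli, S3d: character sums for structured moduli
-/

set_option autoImplicit false

namespace BG

open Finset

/-- CHARACTER SUMS FOR STRUCTURED MODULI.

PROOF. We may assume `ε ≤ 1/4` (the hypothesis `N ≥ y m^ε` gets weaker). `N ≥ m²`: `long_range` gives
`8 m ≤ 8 N^(1/2)` (`m > 1`). `N < m²`: `factor_case (ε/8)` and `case_A`, `case_B`, `m^(-c) ≤ N^(-c/2)`. Take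
`δ = min (c/2) (1/2)`, largest `C ≥ 8`. -/
theorem struct_SJ (ε : ℝ) (hε : 0 < ε) : ∃ (δ C : ℝ) (M : ℕ), 0 < δ ∧ δ ≤ 1 / 2 ∧ 0 < C ∧
    ∀ m : ℕ, M ≤ m → Odd m → Squarefree m → ∀ w : ℕ → ℝ, (∀ n, |w n| ≤ 1) →
      (∀ n, w (n + 8) = w n) → ∀ y : ℝ, 1 ≤ y → Struct m y → ∀ N : ℕ, y * (m : ℝ) ^ ε ≤ N →
      |SJ w m N| ≤ C * (N : ℝ) ^ (1 - δ) := by
  have he0 : 0 < min ε (1 / 4) := lt_min hε (by norm_num)
  have he4 : min ε (1 / 4) ≤ 1 / 4 := min_le_right _ _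
  obtain ⟨k, hk⟩ := factor_case (min ε (1 / 4) / 8) (by linarith) (by linarith)
  obtain ⟨c₁, C₁, M₁, hc₁, hC₁, h₁⟩ := case_A (min ε (1 / 4)) he0 he4 k
  obtain ⟨c₂, C₂, M₂, hc₂, hC₂, h₂⟩ := case_B (min ε (1 / 4)) he0 he4 k
  have hc : 0 < min c₁ c₂ := lt_min hc₁ hc₂
  have hδ0 : 0 < min (min c₁ c₂ / 2) (1 / 2) := lt_min (by linarith) (by norm_num)
  refine ⟨min (min c₁ c₂ / 2) (1 / 2), max 8 (max C₁ C₂), max (max M₁ M₂) 2, hδ0,
    min_le_right _ _, lt_of_lt_of_le (by norm_num) (le_max_left _ _), ?_⟩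
  intro m hm hodd hsq w hw hw8 y hy hs N hN
  have hm1 : M₁ ≤ m := (le_max_left _ _).trans ((le_max_left _ _).trans hm)
  have hm2 : M₂ ≤ m := (le_max_right _ _).trans ((le_max_left _ _).trans hm)
  have hm3 : 2 ≤ m := (le_max_right _ _).trans hm
  have hmr : (1 : ℝ) ≤ m := by exact_mod_cast (show 1 ≤ m by omega)
  have hm0 : (0 : ℝ) < m := by linarith
  have hN' : y * (m : ℝ) ^ (min ε (1 / 4)) ≤ N := by
    refine le_trans ?_ hN
    refine mul_le_mul_of_nonneg_left ?_ (by linarith)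
    exact Real.rpow_le_rpow_of_exponent_le hmr (min_le_left _ _)
  have hN1 : (1 : ℝ) ≤ N := by
    refine le_trans ?_ hN
    have h3 : 1 ≤ (m : ℝ) ^ ε := Real.one_le_rpow hmr hε.le
    nlinarith
  have hN0 : (0 : ℝ) < N := by linarith
  have hδ2 : min (min c₁ c₂ / 2) (1 / 2) ≤ (1 : ℝ) / 2 := min_le_right _ _
  have hδ3 : min (min c₁ c₂ / 2) (1 / 2) ≤ min c₁ c₂ / 2 := min_le_left _ _
  generalize hδ : min (min c₁ c₂ / 2) (1 / 2) = δ at *
  have hNd : 0 < (N : ℝ) ^ (1 - δ) := Real.rpow_pos_of_pos hN0 _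
  by_cases hbig : (m : ℝ) ^ 2 ≤ N
  · have h3 := long_range m (by omega) hodd hsq w hw hw8 N
    have h4 : (m : ℝ) ≤ (N : ℝ) ^ (1 - δ) := by
      have h5 : (m : ℝ) ≤ (N : ℝ) ^ (1 / 2 : ℝ) := by
        rw [← Real.sqrt_eq_rpow]
        exact Real.le_sqrt_of_sq_le hbig
      exact h5.trans (Real.rpow_le_rpow_of_exponent_le hN1 (by linarith))
    refine h3.trans ?_
    exact mul_le_mul (le_max_left _ _) h4 hm0.le (le_trans (by norm_num) (le_max_left _ _))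
  · push Not at hbig
    have hmN : ∀ c : ℝ, min c₁ c₂ ≤ c → (m : ℝ) ^ (-c) ≤ (N : ℝ) ^ (-δ) := by
      intro c hcc
      have h5 : (N : ℝ) ^ (1 / 2 : ℝ) ≤ m := by
        rw [← Real.sqrt_eq_rpow]
        exact Real.sqrt_le_iff.2 ⟨hm0.le, hbig.le⟩
      have h6 : (0 : ℝ) < (N : ℝ) ^ (1 / 2 : ℝ) := Real.rpow_pos_of_pos hN0 _
      calc (m : ℝ) ^ (-c) ≤ (m : ℝ) ^ (-(min c₁ c₂)) :=
            Real.rpow_le_rpow_of_exponent_le hmr (by linarith)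
        _ ≤ ((N : ℝ) ^ (1 / 2 : ℝ)) ^ (-(min c₁ c₂)) :=
            Real.rpow_le_rpow_of_nonpos h6 h5 (by linarith)
        _ = (N : ℝ) ^ (-(min c₁ c₂ / 2)) := by
            rw [← Real.rpow_mul hN0.le]
            congr 1
            ring
        _ ≤ (N : ℝ) ^ (-δ) := Real.rpow_le_rpow_of_exponent_le hN1 (by linarith)
    have hfin : ∀ (C c : ℝ), 0 < C → C ≤ max 8 (max C₁ C₂) → min c₁ c₂ ≤ c →
        |SJ w m N| ≤ C * N * (m : ℝ) ^ (-c) →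
        |SJ w m N| ≤ max 8 (max C₁ C₂) * (N : ℝ) ^ (1 - δ) := by
      intro C c hC0 hC hcc h
      refine h.trans ?_
      have h7 : (N : ℝ) ^ (1 - δ) = N * (N : ℝ) ^ (-δ) := by
        rw [sub_eq_add_neg, Real.rpow_add hN0, Real.rpow_one]
      rw [h7, mul_assoc]
      refine mul_le_mul hC (mul_le_mul_of_nonneg_left (hmN c hcc) hN0.le) ?_
        (le_trans (by norm_num) (le_max_left _ _))
      exact mul_nonneg hN0.le (Real.rpow_nonneg hm0.le _)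
    obtain ⟨q₀, q, hmq, hq, hcase⟩ := hk m (by omega) hsq y hy hs
    have hexp : 2 * (min ε (1 / 4) / 8) = min ε (1 / 4) / 4 := by ring
    rw [hexp] at hq hcase
    rcases hcase with ⟨hp, hA, hB⟩ | ⟨hA, hB⟩
    · exact hfin C₁ c₁ hC₁ ((le_max_left _ _).trans (le_max_right _ _)) (min_le_left _ _)
        (h₁ m hm1 hodd hsq w hw hw8 y hy q₀ q hmq hq hp hA hB N hN')
    · exact hfin C₂ c₂ hC₂ ((le_max_right _ _).trans (le_max_right _ _)) (min_le_right _ _)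
        (h₂ m hm2 hodd hsq w hw hw8 y hy q₀ q hmq hq hA hB N hN')

end BG
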